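import Pool.Agent.Helper18.BI.StA

/-!
# A0, A0f: the inverse function theorem for germs
-/

set_option autoImplicit false

open scoped Manifold ContDiff Topology ComplexConjugate
open Set Pool.Agent.Helper65.Barb

namespace Pool.Agent.Helper18.BI

namespace A0

private theorem exists_equiv {V : Type} [NormedAddCommGroup V] [NormedSpace ℝ V]
    [FiniteDimensional ℝ V] (L : V →L[ℝ] V) (h : ∀ v, L v = 0 → v = 0) :
    ∃ e : V ≃L[ℝ] V, (e : V →L[ℝ] V) = L := by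
  have hinj : Function.Injective (L : V →ₗ[ℝ] V) := by
    rw [← LinearMap.ker_eq_bot, LinearMap.ker_eq_bot']
    exact h
  refine ⟨(LinearEquiv.ofInjectiveEndo (L : V →ₗ[ℝ] V) hinj).toContinuousLinearEquiv, ?_⟩
  ext v
  rfl

private theorem mp_aux {V : Type} [NormedAddCommGroup V] [NormedSpace ℝ V]
    (F : V → V) (p : V) (h : IsLocalDiffeomorphAt 𝓘(ℝ, V) 𝓘(ℝ, V) ∞ F p) :
    (∃ U : Set V, IsOpen U ∧ p ∈ U ∧ ContDiffOn ℝ ∞ F U) ∧
      ∀ v, fderiv ℝ F p v = 0 → v = 0 := by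
  obtain ⟨Φ, hp, hΦ⟩ := h
  have h1 : ContDiffOn ℝ ∞ Φ.toFun Φ.source := contMDiffOn_iff_contDiffOn.1 Φ.contMDiffOn_toFun
  have h2 : ContDiffOn ℝ ∞ Φ.invFun Φ.target := contMDiffOn_iff_contDiffOn.1 Φ.contMDiffOn_invFun
  have h3 : ContDiffOn ℝ ∞ F Φ.source := h1.congr hΦ
  refine ⟨⟨Φ.source, Φ.open_source, hp, h3⟩, ?_⟩
  have d1 : DifferentiableAt ℝ F p :=
    (h3.contDiffAt (Φ.open_source.mem_nhds hp)).differentiableAt (by simp)
  have hFp : F p ∈ Φ.target := by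
    rw [hΦ hp]
    exact Φ.map_source hp
  have d2 : DifferentiableAt ℝ Φ.invFun (F p) :=
    (h2.contDiffAt (Φ.open_target.mem_nhds hFp)).differentiableAt (by simp)
  have hcomp : (Φ.invFun ∘ F) =ᶠ[𝓝 p] id := by
    filter_upwards [Φ.open_source.mem_nhds hp] with q hq
    show Φ.invFun (F q) = q
    rw [hΦ hq]
    exact Φ.left_inv hq
  have hder : fderiv ℝ (Φ.invFun ∘ F) p = ContinuousLinearMap.id ℝ V := by
    rw [hcomp.fderiv_eq, fderiv_id]
  rw [fderiv_comp p d2 d1] at hder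
  intro v hv
  have h4 := DFunLike.congr_fun hder v
  rw [ContinuousLinearMap.comp_apply, hv, map_zero] at h4
  exact h4.symm

private theorem mpr_aux {V : Type} [NormedAddCommGroup V] [NormedSpace ℝ V]
    [FiniteDimensional ℝ V] (F : V → V) (p : V) (U : Set V) (hU : IsOpen U) (hp : p ∈ U)
    (hF : ContDiffOn ℝ ∞ F U) (hinj : ∀ v, fderiv ℝ F p v = 0 → v = 0) :
    IsLocalDiffeomorphAt 𝓘(ℝ, V) 𝓘(ℝ, V) ∞ F p := by
  haveI : CompleteSpace V := FiniteDimensional.complete ℝ V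
  have hop : IsOpen (Set.range ((↑) : (V ≃L[ℝ] V) → V →L[ℝ] V)) :=
    ContinuousLinearEquiv.isOpen
  have hcont : ContinuousOn (fderiv ℝ F) U := hF.continuousOn_fderiv_of_isOpen hU (by simp)
  have hU' : IsOpen (U ∩ fderiv ℝ F ⁻¹' (Set.range ((↑) : (V ≃L[ℝ] V) → V →L[ℝ] V))) :=
    hcont.isOpen_inter_preimage hU hop
  have hFat : ∀ q ∈ U, ContDiffAt ℝ ∞ F q := fun q hq => hF.contDiffAt (hU.mem_nhds hq)
  obtain ⟨e0, he0⟩ := exists_equiv (fderiv ℝ F p) hinj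
  have hd0 : HasFDerivAt F (e0 : V →L[ℝ] V) p := by
    rw [he0]
    exact ((hFat p hp).differentiableAt (by simp)).hasFDerivAt
  let e := (hFat p hp).toOpenPartialHomeomorph F hd0 (by simp)
  have hecoe : (e : V → V) = F := rfl
  let e' := e.restrOpen _ hU'
  have he'coe : (e' : V → V) = F := rfl
  have hsrc : e'.source ⊆ U := fun q hq => by
    rw [OpenPartialHomeomorph.restrOpen_source] at hq
    exact hq.2.1
  have hpsrc : p ∈ e'.source := by
    rw [OpenPartialHomeomorph.restrOpen_source]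
    exact ⟨(hFat p hp).mem_toOpenPartialHomeomorph_source hd0 (by simp), hp, ⟨e0, he0⟩⟩
  refine ⟨{ toPartialEquiv := e'.toPartialEquiv
            open_source := e'.open_source
            open_target := e'.open_target
            contMDiffOn_toFun := contMDiffOn_iff_contDiffOn.2 (hF.mono hsrc)
            contMDiffOn_invFun := contMDiffOn_iff_contDiffOn.2 ?_ }, hpsrc, fun q _ => rfl⟩
  intro y hy
  have hy' : e'.symm y ∈ e'.source := e'.map_target hy
  have hyU : e'.symm y ∈ U := hsrc hy'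
  have hy2 : e'.symm y ∈ U ∩ fderiv ℝ F ⁻¹' (Set.range ((↑) : (V ≃L[ℝ] V) → V →L[ℝ] V)) := by
    have := hy'
    rw [OpenPartialHomeomorph.restrOpen_source] at this
    exact this.2
  obtain ⟨e1, he1⟩ := hy2.2
  have hd1 : HasFDerivAt F (e1 : V →L[ℝ] V) (e'.symm y) := by
    rw [he1]
    exact ((hFat _ hyU).differentiableAt (by simp)).hasFDerivAt
  exact (e'.contDiffAt_symm hy hd1 (hFat _ hyU)).contDiffWithinAt

end A0

open A0 in
theorem m_A0 : StA0 := by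
  intro V _ _ _ F p
  constructor
  · exact mp_aux F p
  · rintro ⟨⟨U, hU, hp, hF⟩, hinj⟩
    exact mpr_aux F p U hU hp hF hinj

theorem m_A0f : StA0f := by
  intro J L
  constructor
  · rintro ⟨⟨W, hW, hLW, hJ⟩, h⟩
    refine ⟨⟨W, hW, hLW, contMDiffOn_iff_contDiffOn.1 hJ⟩, fun t ht => ⟨fun p hp => ?_, (h t ht).2⟩⟩
    exact ((m_A0 R4 (fun p => J (t, p)) p).1 ((h t ht).1 p hp)).2
  · rintro ⟨⟨W, hW, hLW, hJ⟩, h⟩
    refine ⟨⟨W, hW, hLW, contMDiffOn_iff_contDiffOn.2 hJ⟩, fun t ht => ⟨fun p hp => ?_, (h t ht).2⟩⟩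
    refine (m_A0 R4 (fun p => J (t, p)) p).2 ⟨⟨(fun q : R4 => (t, q)) ⁻¹' W, ?_, ?_, ?_⟩,
      (h t ht).1 p hp⟩
    · exact hW.preimage (by fun_prop)
    · exact hLW ⟨ht, hp⟩
    · exact hJ.comp (contDiff_const.prodMk contDiff_id).contDiffOn (fun q hq => hq)

end Pool.Agent.Helper18.BI
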