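import Pool.Agent.Helper18.BI.StA

/-!
# A1: gluing a germ along a compact set to a partial diffeomorphism
-/

set_option autoImplicit false

open scoped Manifold ContDiff Topology ComplexConjugate
open Set Pool.Agent.Helper65.Barb

namespace Pool.Agent.Helper18.BI

namespace A1

section

variable {V : Type} [NormedAddCommGroup V] [NormedSpace ℝ V]
    {E : Type} [NormedAddCommGroup E] [NormedSpace ℝ E] {H : Type} [TopologicalSpace H]
    {I : ModelWithCorners ℝ E H} {M : Type} [TopologicalSpace M] [ChartedSpace H M]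
    {F : V → M}

private theorem isOpen_good :
    IsOpen {p : V | IsLocalDiffeomorphAt 𝓘(ℝ, V) I ∞ F p} := by
  rw [isOpen_iff_mem_nhds]
  rintro p ⟨Φ, hp, hΦ⟩
  filter_upwards [Φ.open_source.mem_nhds hp] with q hq
  exact ⟨Φ, hq, hΦ⟩

private theorem image_open {Φ : PartialDiffeomorph 𝓘(ℝ, V) I V M ∞} {W : Set V} (hW : IsOpen W)
    (hWs : W ⊆ Φ.source) : IsOpen (Φ '' W) :=
  Φ.toOpenPartialHomeomorph.isOpen_image_of_subset_source hW hWs

private theorem image_open' {U : Set V} (hU : IsOpen U)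
    (hg : ∀ p ∈ U, IsLocalDiffeomorphAt 𝓘(ℝ, V) I ∞ F p) : IsOpen (F '' U) := by
  rw [isOpen_iff_mem_nhds]
  rintro y ⟨p, hp, rfl⟩
  obtain ⟨Φ, hpΦ, hΦ⟩ := hg p hp
  have h1 : IsOpen (Φ '' (U ∩ Φ.source)) :=
    image_open (hU.inter Φ.open_source) inter_subset_right
  have h2 : Φ '' (U ∩ Φ.source) ⊆ F '' U := by
    rintro z ⟨q, hq, rfl⟩
    exact ⟨q, hq.1, hΦ hq.2⟩
  refine Filter.mem_of_superset (h1.mem_nhds ?_) h2
  exact ⟨p, ⟨hp, hpΦ⟩, (hΦ hpΦ).symm⟩

end

end A1

theorem m_A1 : StA1 := by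
  intro V _ _ E _ _ H _ I M _ _ _ F L hL hloc hinj
  obtain ⟨t, ht, htinj⟩ := hinj.exists_mem_nhdsSet hL
    (fun p hp => (hloc p hp).contMDiffAt.continuousAt)
    (by
      intro p hp
      obtain ⟨Φ, hpΦ, hΦ⟩ := hloc p hp
      refine ⟨Φ.source, Φ.open_source.mem_nhds hpΦ, ?_⟩
      intro x hx y hy hxy
      apply Φ.injOn hx hy
      change Φ.toFun x = Φ.toFun y
      rw [← hΦ hx, ← hΦ hy]
      exact hxy)
  set U : Set V := interior t ∩ {p | IsLocalDiffeomorphAt 𝓘(ℝ, V) I ∞ F p} with hU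
  have hUo : IsOpen U := isOpen_interior.inter A1.isOpen_good
  have hLU : L ⊆ U := fun p hp =>
    ⟨(subset_interior_iff_mem_nhdsSet.2 ht) hp, hloc p hp⟩
  have hUg : ∀ p ∈ U, IsLocalDiffeomorphAt 𝓘(ℝ, V) I ∞ F p := fun p hp => hp.2
  have hUinj : InjOn F U := htinj.mono (inter_subset_left.trans interior_subset)
  have hleft : ∀ x ∈ U, Function.invFunOn F U (F x) = x := fun x hx =>
    hUinj (Function.invFunOn_mem ⟨x, hx, rfl⟩) hx (Function.invFunOn_eq ⟨x, hx, rfl⟩)
  refine ⟨{ toFun := F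
            invFun := Function.invFunOn F U
            source := U
            target := F '' U
            map_source' := fun x hx => ⟨x, hx, rfl⟩
            map_target' := ?_
            left_inv' := fun {x} hx => hleft x hx
            right_inv' := ?_
            open_source := hUo
            open_target := A1.image_open' hUo hUg
            contMDiffOn_toFun := ?_
            contMDiffOn_invFun := ?_ }, hLU, fun p _ => rfl⟩
  · rintro y ⟨x, hx, rfl⟩
    rw [hleft x hx]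
    exact hx
  · rintro y ⟨x, hx, rfl⟩
    rw [hleft x hx]
  · intro p hp
    exact (hUg p hp).contMDiffAt.contMDiffWithinAt
  · rintro y ⟨p, hp, rfl⟩
    obtain ⟨Φ, hpΦ, hΦ⟩ := hUg p hp
    have h1 : IsOpen (Φ '' (U ∩ Φ.source)) :=
      A1.image_open (hUo.inter Φ.open_source) inter_subset_right
    have hmem : F p ∈ Φ '' (U ∩ Φ.source) := ⟨p, ⟨hp, hpΦ⟩, (hΦ hpΦ).symm⟩
    have hFt : F p ∈ Φ.target := by
      rw [hΦ hpΦ]
      exact Φ.map_source hpΦ
    have h2 : ContMDiffAt I 𝓘(ℝ, V) ∞ Φ.invFun (F p) :=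
      Φ.contMDiffOn_invFun.contMDiffAt (Φ.open_target.mem_nhds hFt)
    refine (h2.congr_of_eventuallyEq ?_).contMDiffWithinAt
    filter_upwards [h1.mem_nhds hmem] with z hz
    obtain ⟨q, hq, rfl⟩ := hz
    change Function.invFunOn F U (Φ q) = Φ.invFun (Φ q)
    rw [← hΦ hq.2, hleft q hq.1, hΦ hq.2]
    exact (Φ.left_inv hq.2).symm

end Pool.Agent.Helper18.BI
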