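import Pool.Agent.Helper18.BI.StA

/-!
# Module CI: algebra of compactly supported isotopy
-/

set_option autoImplicit false

open scoped Manifold ContDiff Topology ComplexConjugate
open Set Pool.Agent.Helper65.Barb

namespace Pool.Agent.Helper18.BI

namespace CI

section
variable {E : Type*} [NormedAddCommGroup E] [NormedSpace ℝ E] {H : Type*} [TopologicalSpace H]
  {I : ModelWithCorners ℝ E H} {M : Type*} [TopologicalSpace M] [ChartedSpace H M]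

/-- compactly supported family -/
private def Sup (F : DFam I M) : Prop :=
  ∃ C : Set M, IsCompact C ∧ ∀ t x, x ∉ C → F.f (t, x) = x

private theorem sup_one : Sup (DFam.one : DFam I M) := ⟨∅, isCompact_empty, fun _ _ _ => rfl⟩

private theorem sup_inv {F : DFam I M} (h : Sup F) : Sup F.inv := by
  obtain ⟨C, hC, h⟩ := h
  refine ⟨C, hC, fun t x hx => ?_⟩
  have h1 := F.gf t x
  rw [h t x hx] at h1
  exact h1

private theorem sup_comp {F G : DFam I M} (hF : Sup F) (hG : Sup G) : Sup (F.comp G) := by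
  obtain ⟨C, hC, h⟩ := hF
  obtain ⟨C', hC', h'⟩ := hG
  refine ⟨C ∪ C', hC.union hC', fun t x hx => ?_⟩
  have h1 : G.f (t, x) = x := h' t x (fun hx' => hx (Or.inr hx'))
  have h2 : F.f (t, x) = x := h t x (fun hx' => hx (Or.inl hx'))
  simp only [DFam.comp]
  rw [h1, h2]

private theorem sup_reparam {F : DFam I M} (hF : Sup F) (τ : ℝ → ℝ) (hτ : ContDiff ℝ ∞ τ) :
    Sup (F.reparam τ hτ) := by
  obtain ⟨C, hC, h⟩ := hF
  exact ⟨C, hC, fun t x hx => h _ x hx⟩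

private theorem sup_freeze {F : DFam I M} (hF : Sup F) (t₀ : ℝ) : Sup (F.freeze t₀) :=
  sup_reparam hF _ _

private theorem c_one : CIsot I (fun x : M => x) (fun x => x) :=
  ⟨DFam.one, sup_one, fun _ => rfl, fun _ => rfl⟩

private theorem c_symm {φ ψ : M → M} (h : CIsot I φ ψ) : CIsot I ψ φ := by
  obtain ⟨F, hF, h0, h1⟩ := h
  refine ⟨F.reparam (fun t => 1 - t) (contDiff_const.sub contDiff_id), sup_reparam hF _ _, ?_, ?_⟩
  · intro x; simp [DFam.reparam, h1]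
  · intro x; simp [DFam.reparam, h0]

private theorem c_comp {φ ψ φ' ψ' : M → M} (h : CIsot I φ ψ) (h' : CIsot I φ' ψ') :
    CIsot I (fun x => φ (φ' x)) (fun x => ψ (ψ' x)) := by
  obtain ⟨F, hF, h0, h1⟩ := h
  obtain ⟨F', hF', h0', h1'⟩ := h'
  refine ⟨F.comp F', sup_comp hF hF', ?_, ?_⟩
  · intro x; simp [DFam.comp, h0, h0']
  · intro x; simp [DFam.comp, h1, h1']

private theorem c_inv {φ ψ φ' ψ' : M → M} (h : CIsot I φ ψ) (hφ : ∀ x, φ (φ' x) = x)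
    (hψ : ∀ x, ψ (ψ' x) = x) : CIsot I φ' ψ' := by
  obtain ⟨F, hF, h0, h1⟩ := h
  refine ⟨F.inv, sup_inv hF, ?_, ?_⟩
  · intro x
    have := F.gf 0 (φ' x)
    rw [h0, hφ] at this
    exact this
  · intro x
    have := F.gf 1 (ψ' x)
    rw [h1, hψ] at this
    exact this

private theorem c_trans {φ ψ χ : M → M} (h : CIsot I φ ψ) (h' : CIsot I ψ χ) : CIsot I φ χ := by
  obtain ⟨F, hF, h0, h1⟩ := h
  obtain ⟨G, hG, g0, g1⟩ := h'
  refine ⟨G.comp ((F.freeze 1).inv.comp F), sup_comp hG (sup_comp (sup_inv (sup_freeze hF 1)) hF),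
    ?_, ?_⟩
  · intro x
    have e1 : G.f (0, F.g (1, F.f (0, x))) = F.f (1, F.g (1, F.f (0, x))) := by
      rw [g0, h1]
    simp only [DFam.comp, DFam.freeze, DFam.reparam, DFam.inv]
    rw [e1, F.fg, h0]
  · intro x
    simp only [DFam.comp, DFam.freeze, DFam.reparam, DFam.inv]
    rw [F.gf, g1]

private theorem c_exists_inv {φ : M → M} (h : CIsot I φ φ) :
    ∃ φ' : M → M, CIsot I φ' φ' ∧ (∀ x, φ (φ' x) = x) ∧ ∀ x, φ' (φ x) = x := by
  obtain ⟨F, hF, h0, h1⟩ := h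
  refine ⟨fun x => F.g (0, x), ⟨F.inv.freeze 0, sup_freeze (sup_inv hF) 0, fun x => rfl,
    fun x => rfl⟩, ?_, ?_⟩
  · intro x
    have := F.fg 0 x
    rwa [h0] at this
  · intro x
    have := F.gf 0 x
    rwa [h0] at this

/-- conjugation of a family -/
private def conjFam (F : DFam I M) (Ψ Ψ' : M → M) (h1 : ContMDiff I I ∞ Ψ)
    (h2 : ContMDiff I I ∞ Ψ') (h3 : ∀ x, Ψ (Ψ' x) = x) (h4 : ∀ x, Ψ' (Ψ x) = x) : DFam I M where
  f p := Ψ (F.f (p.1, Ψ' p.2))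
  g p := Ψ (F.g (p.1, Ψ' p.2))
  smooth_f := h1.comp (F.smooth_f.comp (contMDiff_fst.prodMk (h2.comp contMDiff_snd)))
  smooth_g := h1.comp (F.smooth_g.comp (contMDiff_fst.prodMk (h2.comp contMDiff_snd)))
  fg t x := by simp only [h4, F.fg, h3]
  gf t x := by simp only [h4, F.gf, h3]

private theorem c_conj {φ ψ Ψ Ψ' : M → M} (h : CIsot I φ ψ) (h1 : ContMDiff I I ∞ Ψ)
    (h2 : ContMDiff I I ∞ Ψ') (h3 : ∀ x, Ψ (Ψ' x) = x) (h4 : ∀ x, Ψ' (Ψ x) = x) :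
    CIsot I (fun x => Ψ (φ (Ψ' x))) (fun x => Ψ (ψ (Ψ' x))) := by
  obtain ⟨F, ⟨C, hC, hF⟩, e0, e1⟩ := h
  refine ⟨conjFam F Ψ Ψ' h1 h2 h3 h4, ⟨Ψ '' C, hC.image h1.continuous, fun t x hx => ?_⟩, ?_, ?_⟩
  · have hx' : Ψ' x ∉ C := fun hx' => hx ⟨Ψ' x, hx', h3 x⟩
    change Ψ (F.f (t, Ψ' x)) = x
    rw [hF t _ hx', h3]
  · intro x
    change Ψ (F.f (0, Ψ' x)) = _
    rw [e0]
  · intro x
    change Ψ (F.f (1, Ψ' x)) = _
    rw [e1]

end

end CI

theorem m_CI : StCI := by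
  intro E _ _ H _ I M _ _
  refine ⟨CI.c_one, fun φ ψ h => CI.c_symm h, fun φ ψ h => CI.c_trans h (CI.c_symm h),
    fun φ ψ χ h h' => CI.c_trans h h', fun φ ψ φ' ψ' h h' => CI.c_comp h h',
    fun φ ψ φ' ψ' h h1 h2 => CI.c_inv h h1 h2, fun φ h => CI.c_exists_inv h,
    fun φ ψ Ψ Ψ' h h1 h2 h3 h4 => CI.c_conj h h1 h2 h3 h4, ?_, ?_⟩
  · rintro φ ψ ⟨F, -, h0, h1⟩
    exact ⟨F, h0, h1⟩
  · rintro hM φ ψ ⟨F, h0, h1⟩
    exact ⟨F, ⟨univ, isCompact_univ, fun t x hx => absurd (mem_univ x) hx⟩, h0, h1⟩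

end Pool.Agent.Helper18.BI
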