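import Pool.Agent.Helper18.BI.StA

/-!
# Project BI (MP_8e98f2_gt): the elementary calculus of `imp`, and pushing isotopies
-/

set_option autoImplicit false

open scoped Manifold ContDiff Topology ComplexConjugate
open Set Pool.Agent.Helper65.Barb

namespace Pool.Agent.Helper18.BI

private theorem imp_image {M : Type} {F : R4 → M} {K : Set R4} (hF : InjOn F K) (T : R4 → R4)
    {p : R4} (hp : p ∈ K) : imp F K T (F p) = F (T p) := by
  have h : ∃ q ∈ K, F q = F p := ⟨p, hp, rfl⟩
  have h1 := h.choose_spec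
  have h2 : h.choose = p := hF h1.1 hp h1.2
  unfold imp
  rw [dif_pos h, h2]

private theorem imp_off {M : Type} {F : R4 → M} {K : Set R4} (T : R4 → R4)
    {y : M} (hy : y ∉ F '' K) : imp F K T y = y := by
  unfold imp
  rw [dif_neg]
  rintro ⟨q, hq, hqy⟩
  exact hy ⟨q, hq, hqy⟩

/-- the calculus of `imp` -/
theorem m_Imp : StImp := by
  intro E _ _ H _ I M _ _ _ F K T hF
  refine ⟨fun p hp => imp_image hF T hp, fun y hy => imp_off T hy, ?_, ?_, ?_, ?_, ?_, ?_⟩
  · -- enlarging the support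
    intro K₀ hK hT
    funext y
    by_cases hy : y ∈ F '' K
    · obtain ⟨p, hp, rfl⟩ := hy
      rw [imp_image hF T hp]
      by_cases hp0 : p ∈ K₀
      · rw [imp_image (hF.mono hK) T hp0]
      · rw [hT p hp0, imp_off]
        rintro ⟨q, hq, hqp⟩
        have h := hF (hK hq) hp hqp
        rw [h] at hq
        exact hp0 hq
    · rw [imp_off T hy, imp_off]
      intro h
      exact hy (image_mono hK h)
  · -- products
    intro S hT y
    by_cases hy : y ∈ F '' K
    · obtain ⟨p, hp, rfl⟩ := hy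
      rw [imp_image hF _ hp, imp_image hF T hp, imp_image hF S (hT hp)]
    · rw [imp_off _ hy, imp_off T hy, imp_off S hy]
  · -- comparison with `push`
    intro δ hK hδ hm hT
    funext y
    by_cases hy : y ∈ F '' K
    · obtain ⟨p, hp, rfl⟩ := hy
      rw [imp_image hF T hp, ← hδ p hp, push_of_mem δ T (hK hp), hδ _ (hm hp)]
    · have hy' : y ∉ δ '' K := by
        rintro ⟨q, hq, hqy⟩
        exact hy ⟨q, hq, by rw [← hδ q hq, hqy]⟩
      rw [imp_off T hy, push_of_notMem δ T hK hT hy']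
  · -- congruence
    intro F' hFF hm
    have hF' : InjOn F' K := hF.congr hFF
    funext y
    by_cases hy : y ∈ F '' K
    · obtain ⟨p, hp, rfl⟩ := hy
      rw [imp_image hF T hp, hFF hp, imp_image hF' T hp, hFF (hm hp)]
    · have hy' : y ∉ F' '' K := by
        rintro ⟨q, hq, hqy⟩
        exact hy ⟨q, hq, by rw [hFF hq, hqy]⟩
      rw [imp_off T hy, imp_off T hy']
  · -- conjugation
    intro Ψ Ψ' h1 h2 y
    have hinj : InjOn (fun p => Ψ (F p)) K := by
      intro p hp q hq hpq
      apply hF hp hq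
      have h := congrArg Ψ' hpq
      simpa only [h2] using h
    by_cases hy : y ∈ (fun p => Ψ (F p)) '' K
    · obtain ⟨p, hp, rfl⟩ := hy
      rw [imp_image hinj T hp]
      simp only [h2]
      rw [imp_image hF T hp]
    · have hy' : Ψ' y ∉ F '' K := by
        rintro ⟨q, hq, hqy⟩
        exact hy ⟨q, hq, by simp only [hqy, h1]⟩
      rw [imp_off T hy, imp_off T hy', h1]
  · -- reparametrization
    intro κ L hκ hKL hm
    have hκK : ∀ p ∈ L, κ p ∈ K := fun p hp => hKL ▸ mem_image_of_mem κ hp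
    have hinj : InjOn (fun p => F (κ p)) L := by
      intro p hp q hq hpq
      exact hκ hp hq (hF (hκK p hp) (hκK q hq) hpq)
    funext y
    by_cases hy : y ∈ (fun p => F (κ p)) '' L
    · obtain ⟨p, hp, rfl⟩ := hy
      rw [imp_image hinj T hp]
      simp only
      rw [imp_image hF _ (hκK p hp), imp_image hκ T hp]
    · have hy' : y ∉ F '' K := by
        rintro ⟨q, hq, hqy⟩
        rw [← hKL] at hq
        obtain ⟨p, hp, rfl⟩ := hq
        exact hy ⟨p, hp, hqy⟩
      rw [imp_off T hy, imp_off _ hy']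

/-- pushing forward an isotopy -/
theorem m_Push (h1 : StA1) : StPush := by
  intro E _ _ H _ I M _ _ _ F L Φ hL hF hΦ
  obtain ⟨δ, hδs, hδ⟩ := h1 R4 E H I M F L hL hF.1 hF.2
  have hpush : ∀ t : ℝ, imp F L (fun p => Φ.f (t, p)) = push δ (fun p => Φ.f (t, p)) := by
    intro t
    exact (m_Imp E H I M F L (fun p => Φ.f (t, p)) hF.2).2.2.2.2.1 δ hδs
      (fun p hp => hδ p (hδs hp)) (fun p hp => Φ.mapsTo hΦ t hp) (fun p hp => hΦ t p hp)
  refine ⟨Φ.push δ hL hδs hΦ, ⟨δ '' L, ?_, ?_⟩, ?_, ?_⟩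
  · exact hL.image_of_continuousOn (δ.contMDiffOn.continuousOn.mono hδs)
  · intro t x hx
    exact push_of_notMem δ _ hδs (fun p hp => hΦ t p hp) hx
  · intro x
    rw [hpush 0]
    rfl
  · intro x
    rw [hpush 1]
    rfl

end Pool.Agent.Helper18.BI
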