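import Pool.Agent.Helper18.BI.StA

/-!
# A2: the track of a family of germs is a local diffeomorphism
-/

set_option autoImplicit false

open scoped Manifold ContDiff Topology ComplexConjugate
open Set Pool.Agent.Helper65.Barb

namespace Pool.Agent.Helper18.BI

namespace A2

section

variable {E : Type} [NormedAddCommGroup E] [NormedSpace ℝ E] {H : Type} [TopologicalSpace H]
  {I : ModelWithCorners ℝ E H} {M : Type} [TopologicalSpace M] [ChartedSpace H M]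

/-- the product of the identity of the line with a partial diffeomorphism -/
private def idProd (Φ : PartialDiffeomorph 𝓘(ℝ, R4) I R4 M ∞) :
    PartialDiffeomorph 𝓘(ℝ, ℝ × R4) (𝓘(ℝ, ℝ).prod I) (ℝ × R4) (ℝ × M) ∞ where
  toFun := fun x => (x.1, Φ.toFun x.2)
  invFun := fun y => (y.1, Φ.invFun y.2)
  source := univ ×ˢ Φ.source
  target := univ ×ˢ Φ.target
  map_source' := fun _ hx => ⟨mem_univ _, Φ.map_source' hx.2⟩
  map_target' := fun _ hx => ⟨mem_univ _, Φ.map_target' hx.2⟩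
  left_inv' := fun _ hx => Prod.ext rfl (Φ.left_inv' hx.2)
  right_inv' := fun _ hx => Prod.ext rfl (Φ.right_inv' hx.2)
  open_source := isOpen_univ.prod Φ.open_source
  open_target := isOpen_univ.prod Φ.open_target
  contMDiffOn_toFun :=
    (contDiff_fst.contMDiff.contMDiffOn).prodMk
      (Φ.contMDiffOn_toFun.comp (contDiff_snd.contMDiff.contMDiffOn) (fun _ hx => hx.2))
  contMDiffOn_invFun :=
    (contMDiff_fst.contMDiffOn).prodMk_space
      (Φ.contMDiffOn_invFun.comp (contMDiff_snd.contMDiffOn) (fun _ hx => hx.2))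

/-- congruence near the point -/
private theorem congr_at {f g : ℝ × R4 → ℝ × M} {q : ℝ × R4}
    (h : IsLocalDiffeomorphAt 𝓘(ℝ, ℝ × R4) (𝓘(ℝ, ℝ).prod I) ∞ f q)
    {U : Set (ℝ × R4)} (hU : IsOpen U) (hq : q ∈ U) (hfg : ∀ x ∈ U, g x = f x) :
    IsLocalDiffeomorphAt 𝓘(ℝ, ℝ × R4) (𝓘(ℝ, ℝ).prod I) ∞ g q := by
  obtain ⟨Φ, hqΦ, hΦ⟩ := h
  let e := Φ.toOpenPartialHomeomorph.restrOpen U hU
  have hsrc : e.source = Φ.source ∩ U := rfl
  refine ⟨{ toPartialEquiv := e.toPartialEquiv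
            open_source := e.open_source
            open_target := e.open_target
            contMDiffOn_toFun := Φ.contMDiffOn_toFun.mono ?_
            contMDiffOn_invFun := Φ.contMDiffOn_invFun.mono ?_ }, ⟨hqΦ, hq⟩, ?_⟩
  · exact inter_subset_left
  · exact inter_subset_left
  · intro x hx
    have h1 : x ∈ Φ.source ∩ U := hx
    rw [hfg x h1.2]
    exact hΦ h1.1

end

end A2

open A2 in
theorem m_A2 (h0 : StA0) : StA2 := by
  intro E _ _ H _ I M _ _ J L hJ q hq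
  obtain ⟨⟨W, hW, hLW, hJW⟩, hloc⟩ := hJ
  obtain ⟨t₀, p₀⟩ := q
  have ht₀ : t₀ ∈ Icc (0 : ℝ) 1 := hq.1
  have hp₀ : p₀ ∈ L := hq.2
  obtain ⟨Φ, hpΦ, hΦ⟩ := (hloc t₀ ht₀).1 p₀ hp₀
  -- the open set on which `G` is defined
  have hW' : IsOpen (W ∩ J ⁻¹' Φ.target) := hJW.continuousOn.isOpen_inter_preimage hW Φ.open_target
  have hJq : J (t₀, p₀) ∈ Φ.target := by
    have h1 : J (t₀, p₀) = Φ p₀ := hΦ hpΦ
    rw [h1]
    exact Φ.map_source hpΦ
  have hqW' : (t₀, p₀) ∈ W ∩ J ⁻¹' Φ.target := ⟨hLW ⟨ht₀, hp₀⟩, hJq⟩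
  have hK : ContDiffOn ℝ ∞ (fun x : ℝ × R4 => Φ.invFun (J x)) (W ∩ J ⁻¹' Φ.target) :=
    contMDiffOn_iff_contDiffOn.1
      (Φ.contMDiffOn_invFun.comp (hJW.mono inter_subset_left) (fun _ hx => hx.2))
  have hG : ContDiffOn ℝ ∞ (fun x : ℝ × R4 => (x.1, Φ.invFun (J x))) (W ∩ J ⁻¹' Φ.target) :=
    contDiff_fst.contDiffOn.prodMk hK
  have hKd : DifferentiableAt ℝ (fun x : ℝ × R4 => Φ.invFun (J x)) (t₀, p₀) :=
    (hK.contDiffAt (hW'.mem_nhds hqW')).differentiableAt (by simp)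
  have hGd : fderiv ℝ (fun x : ℝ × R4 => (x.1, Φ.invFun (J x))) (t₀, p₀) =
      (ContinuousLinearMap.fst ℝ ℝ R4).prod
        (fderiv ℝ (fun x : ℝ × R4 => Φ.invFun (J x)) (t₀, p₀)) :=
    (hasFDerivAt_fst.prodMk hKd.hasFDerivAt).fderiv
  -- the restriction of the second component to the slice is the identity
  have hsl : (fun p : R4 => Φ.invFun (J (t₀, p))) =ᶠ[𝓝 p₀] id := by
    filter_upwards [Φ.open_source.mem_nhds hpΦ] with p hp
    have h1 : J (t₀, p) = Φ p := hΦ hp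
    rw [h1]
    exact Φ.left_inv hp
  have hsl' : HasFDerivAt (fun p : R4 => Φ.invFun (J (t₀, p)))
      ((fderiv ℝ (fun x : ℝ × R4 => Φ.invFun (J x)) (t₀, p₀)).comp
        (ContinuousLinearMap.inr ℝ ℝ R4)) p₀ :=
    HasFDerivAt.comp p₀ (f := fun p : R4 => (t₀, p)) hKd.hasFDerivAt (hasFDerivAt_prodMk_right t₀ p₀)
  have hid : (fderiv ℝ (fun x : ℝ × R4 => Φ.invFun (J x)) (t₀, p₀)).comp
        (ContinuousLinearMap.inr ℝ ℝ R4) = ContinuousLinearMap.id ℝ R4 := by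
    rw [← hsl'.fderiv, hsl.fderiv_eq, fderiv_id]
  have hinj : ∀ v, fderiv ℝ (fun x : ℝ × R4 => (x.1, Φ.invFun (J x))) (t₀, p₀) v = 0 → v = 0 := by
    rintro ⟨τ, v⟩ hv
    rw [hGd] at hv
    have h1 : τ = 0 := congrArg Prod.fst hv
    have h2 : fderiv ℝ (fun x : ℝ × R4 => Φ.invFun (J x)) (t₀, p₀) (τ, v) = 0 :=
      congrArg Prod.snd hv
    subst h1
    have h3 := DFunLike.congr_fun hid v
    rw [ContinuousLinearMap.comp_apply, ContinuousLinearMap.inr_apply, h2] at h3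
    have h4 : v = 0 := h3.symm
    rw [h4]
    rfl
  have hGloc : IsLocalDiffeomorphAt 𝓘(ℝ, ℝ × R4) 𝓘(ℝ, ℝ × R4) ∞
      (fun x : ℝ × R4 => (x.1, Φ.invFun (J x))) (t₀, p₀) :=
    (h0 (ℝ × R4) _ _).2 ⟨⟨_, hW', hqW', hG⟩, hinj⟩
  have hmem : ((t₀, Φ.invFun (J (t₀, p₀))) : ℝ × R4) ∈ (idProd Φ).source :=
    ⟨mem_univ _, Φ.map_target hJq⟩
  have hcomp := hGloc.comp (K := 𝓘(ℝ, ℝ).prod I) (P := ℝ × M) (g := (idProd Φ).toFun)
    ((idProd Φ).isLocalDiffeomorphAt _ _ _ hmem)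
  refine congr_at hcomp hW' hqW' ?_
  intro x hx
  exact Prod.ext rfl (Φ.right_inv hx.2).symm

end Pool.Agent.Helper18.BI
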