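import Pool.Agent.Helper18.BI.StA

/-!
# Project BI (MP_8e98f2_gt), module A3: the family lemma
-/

set_option autoImplicit false

open scoped Manifold ContDiff Topology ComplexConjugate
open Set Pool.Agent.Helper65.Barb

namespace Pool.Agent.Helper18.BI

namespace A3

theorem inj_of {F : R4 → R4} {G : R4 → R4} (h : ∀ p, G (F p) = p) : Function.Injective F := by
  intro a b hab
  rw [← h a, ← h b, hab]

theorem mapsTo {L : Set R4} {T T' : R4 → R4} (h : ∀ p, T' (T p) = p) (ho : ∀ p, p ∉ L → T p = p) :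
    MapsTo T L L := by
  intro p hp
  by_contra h1
  have h2 := ho _ h1
  have h3 := inj_of h h2
  rw [h3] at h1
  exact h1 hp

variable {E : Type} [NormedAddCommGroup E] [NormedSpace ℝ E] {H : Type} [TopologicalSpace H]
  {I : ModelWithCorners ℝ E H} {M : Type} [TopologicalSpace M] [ChartedSpace H M]

/-- smoothness of the family -/
theorem smooth [T2Space M] {J : ℝ × R4 → M} {L : Set R4}
    (δ : PartialDiffeomorph 𝓘(ℝ, ℝ × R4) (𝓘(ℝ, ℝ).prod I) (ℝ × R4) (ℝ × M) ∞)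
    (hδL : Icc (0 : ℝ) 1 ×ˢ L ⊆ δ.source) (hδ : ∀ p ∈ δ.source, δ p = (p.1, J p))
    (hLc : IsCompact L) {S : R4 → R4} (hS : ContDiff ℝ ∞ S) (hSL : MapsTo S L L)
    (hSo : ∀ p, p ∉ L → S p = p)
    (h1 : ∀ t ∈ Icc (0 : ℝ) 1, ∀ p ∈ L, imp (fun p => J (t, p)) L S (J (t, p)) = J (t, S p))
    (h2 : ∀ t ∈ Icc (0 : ℝ) 1, ∀ y, y ∉ (fun p => J (t, p)) '' L → imp (fun p => J (t, p)) L S y = y) :
    ContMDiff (𝓘(ℝ, ℝ).prod I) I ∞
      (fun q : ℝ × M => imp (fun p => J (Pool.Agent.Helper65.Barb.step q.1, p)) L S q.2) := by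
  have hst : ContMDiff (𝓘(ℝ, ℝ).prod I) (𝓘(ℝ, ℝ).prod I) ∞
      (fun q : ℝ × M => (Pool.Agent.Helper65.Barb.step q.1, q.2)) :=
    (contDiff_step.contMDiff.comp contMDiff_fst).prodMk contMDiff_snd
  intro q₀
  by_cases hc : (Pool.Agent.Helper65.Barb.step q₀.1, q₀.2) ∈ δ '' (Icc (0 : ℝ) 1 ×ˢ L)
  · -- inside the target
    have htar : (Pool.Agent.Helper65.Barb.step q₀.1, q₀.2) ∈ δ.target := by
      obtain ⟨z, hz, hz2⟩ := hc
      rw [← hz2]
      exact δ.map_source (hδL hz)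
    have hO : {q : ℝ × M | (Pool.Agent.Helper65.Barb.step q.1, q.2) ∈ δ.target} ∈ 𝓝 q₀ :=
      (δ.open_target.preimage hst.continuous).mem_nhds htar
    have hmap : ∀ z ∈ δ.source, ((z.1, S z.2) : ℝ × R4) ∈ δ.source ∨ z.1 ∉ Icc (0 : ℝ) 1 := by
      intro z hz
      by_cases hz1 : z.1 ∈ Icc (0 : ℝ) 1
      · left
        by_cases hz2 : z.2 ∈ L
        · exact hδL ⟨hz1, hSL hz2⟩
        · rw [hSo _ hz2]
          exact hz
      · right
        exact hz1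
    have heq : (fun q : ℝ × M => imp (fun p => J (Pool.Agent.Helper65.Barb.step q.1, p)) L S q.2) =ᶠ[𝓝 q₀]
        fun q : ℝ × M => (δ ((δ.symm (Pool.Agent.Helper65.Barb.step q.1, q.2)).1,
          S (δ.symm (Pool.Agent.Helper65.Barb.step q.1, q.2)).2)).2 := by
      filter_upwards [hO] with q hq
      have hq' : (Pool.Agent.Helper65.Barb.step q.1, q.2) ∈ δ.target := hq
      set z := δ.symm (Pool.Agent.Helper65.Barb.step q.1, q.2) with hz
      have hzs : z ∈ δ.source := δ.toPartialEquiv.map_target hq'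
      have hzr : δ z = (Pool.Agent.Helper65.Barb.step q.1, q.2) := δ.toPartialEquiv.right_inv hq'
      have hzd := hδ z hzs
      rw [hzr] at hzd
      have e1 : z.1 = Pool.Agent.Helper65.Barb.step q.1 := (congrArg Prod.fst hzd).symm
      have e2 : J z = q.2 := (congrArg Prod.snd hzd).symm
      have hmem : Pool.Agent.Helper65.Barb.step q.1 ∈ Icc (0 : ℝ) 1 := step_mem q.1
      by_cases hzL : z.2 ∈ L
      · have h3 := h1 _ hmem z.2 hzL
        have e3 : (Pool.Agent.Helper65.Barb.step q.1, z.2) = z := by rw [← e1]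
        rw [e3, e2] at h3
        have e4 : ((z.1, S z.2) : ℝ × R4) ∈ δ.source := by
          apply hδL
          refine ⟨?_, hSL hzL⟩
          show z.1 ∈ Icc (0 : ℝ) 1
          rw [e1]
          exact hmem
        rw [hδ _ e4]
        show imp _ L S q.2 = J (z.1, S z.2)
        rw [h3, e1]
      · have h3 : q.2 ∉ (fun p => J (Pool.Agent.Helper65.Barb.step q.1, p)) '' L := by
          rintro ⟨p, hp, hp2⟩
          have e5 : ((Pool.Agent.Helper65.Barb.step q.1, p) : ℝ × R4) ∈ δ.source := hδL ⟨hmem, hp⟩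
          have e6 : δ (Pool.Agent.Helper65.Barb.step q.1, p) = δ z := by
            rw [hzr, hδ _ e5]
            exact Prod.ext rfl hp2
          have e7 := δ.toPartialEquiv.injOn e5 hzs e6
          apply hzL
          rw [← e7]
          exact hp
        rw [h2 _ hmem _ h3, hSo _ hzL]
        show q.2 = (δ z).2
        rw [hzr]
    refine ContMDiffAt.congr_of_eventuallyEq ?_ heq
    have hsymm : ContMDiffAt (𝓘(ℝ, ℝ).prod I) 𝓘(ℝ, ℝ × R4) ∞ δ.symm
        (Pool.Agent.Helper65.Barb.step q₀.1, q₀.2) :=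
      δ.contMDiffOn_invFun.contMDiffAt (δ.open_target.mem_nhds htar)
    have hmid : ContMDiff 𝓘(ℝ, ℝ × R4) 𝓘(ℝ, ℝ × R4) ∞ (fun z : ℝ × R4 => ((z.1, S z.2) : ℝ × R4)) :=
      (contDiff_fst.prodMk (hS.comp contDiff_snd)).contMDiff
    have hs0 : ((δ.symm (Pool.Agent.Helper65.Barb.step q₀.1, q₀.2)).1,
        S (δ.symm (Pool.Agent.Helper65.Barb.step q₀.1, q₀.2)).2) ∈ δ.source := by
      have hzs : δ.symm (Pool.Agent.Helper65.Barb.step q₀.1, q₀.2) ∈ δ.source :=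
        δ.toPartialEquiv.map_target htar
      rcases hmap _ hzs with h | h
      · exact h
      · exfalso
        apply h
        have hzr : δ (δ.symm (Pool.Agent.Helper65.Barb.step q₀.1, q₀.2)) =
          (Pool.Agent.Helper65.Barb.step q₀.1, q₀.2) := δ.toPartialEquiv.right_inv htar
        have hzd := hδ _ hzs
        rw [hzr] at hzd
        rw [← (congrArg Prod.fst hzd)]
        exact step_mem q₀.1
    have hδs : ContMDiffAt 𝓘(ℝ, ℝ × R4) (𝓘(ℝ, ℝ).prod I) ∞ δ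
        ((δ.symm (Pool.Agent.Helper65.Barb.step q₀.1, q₀.2)).1,
          S (δ.symm (Pool.Agent.Helper65.Barb.step q₀.1, q₀.2)).2) :=
      δ.contMDiffOn_toFun.contMDiffAt (δ.open_source.mem_nhds hs0)
    have c1 : ContMDiffAt (𝓘(ℝ, ℝ).prod I) 𝓘(ℝ, ℝ × R4) ∞
        (fun q : ℝ × M => δ.symm (Pool.Agent.Helper65.Barb.step q.1, q.2)) q₀ :=
      ContMDiffAt.comp q₀ hsymm (hst q₀)
    have c2 : ContMDiffAt (𝓘(ℝ, ℝ).prod I) 𝓘(ℝ, ℝ × R4) ∞
        (fun q : ℝ × M => (((δ.symm (Pool.Agent.Helper65.Barb.step q.1, q.2)).1,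
          S (δ.symm (Pool.Agent.Helper65.Barb.step q.1, q.2)).2) : ℝ × R4)) q₀ :=
      ContMDiffAt.comp q₀ (hmid _) c1
    have c3 : ContMDiffAt (𝓘(ℝ, ℝ).prod I) (𝓘(ℝ, ℝ).prod I) ∞
        (fun q : ℝ × M => δ ((δ.symm (Pool.Agent.Helper65.Barb.step q.1, q.2)).1,
          S (δ.symm (Pool.Agent.Helper65.Barb.step q.1, q.2)).2)) q₀ :=
      ContMDiffAt.comp q₀ hδs c2
    exact ContMDiffAt.comp q₀ (contMDiff_snd _) c3
  · -- away from the image
    have hcl : IsClosed (δ '' (Icc (0 : ℝ) 1 ×ˢ L)) :=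
      ((isCompact_Icc.prod hLc).image_of_continuousOn
        (δ.contMDiffOn_toFun.continuousOn.mono hδL)).isClosed
    have hO : {q : ℝ × M | (Pool.Agent.Helper65.Barb.step q.1, q.2) ∉ δ '' (Icc (0 : ℝ) 1 ×ˢ L)} ∈ 𝓝 q₀ :=
      (hcl.isOpen_compl.preimage hst.continuous).mem_nhds hc
    refine ContMDiffAt.congr_of_eventuallyEq contMDiffAt_snd ?_
    filter_upwards [hO] with q hq
    apply h2 _ (step_mem q.1)
    rintro ⟨p, hp, hp2⟩
    apply hq
    have e5 : ((Pool.Agent.Helper65.Barb.step q.1, p) : ℝ × R4) ∈ Icc (0 : ℝ) 1 ×ˢ L :=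
      ⟨step_mem q.1, hp⟩
    refine ⟨_, e5, ?_⟩
    rw [hδ _ (hδL e5)]
    exact Prod.ext rfl hp2

/-- the inverse -/
theorem inv_aux {F : R4 → M} {L : Set R4} {T T' : R4 → R4}
    (h1 : ∀ p ∈ L, imp F L T (F p) = F (T p)) (h2 : ∀ y, y ∉ F '' L → imp F L T y = y)
    (h1' : ∀ p ∈ L, imp F L T' (F p) = F (T' p)) (h2' : ∀ y, y ∉ F '' L → imp F L T' y = y)
    (hm : MapsTo T' L L) (h : ∀ p, T (T' p) = p) (y : M) : imp F L T (imp F L T' y) = y := by
  by_cases hy : y ∈ F '' L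
  · obtain ⟨p, hp, rfl⟩ := hy
    rw [h1' p hp, h1 _ (hm hp), h]
  · rw [h2' y hy, h2 y hy]

end A3

theorem m_A3 (h1 : StA1) (h2 : StA2) (hi : StImp) : StA3 := by
  intro E _ _ H _ I M _ _ _ J L T T' hL hF hT
  obtain ⟨hTs, hTs', hTT', hT'T, hTo⟩ := hT
  have hTo' : ∀ p, p ∉ L → T' p = p := by
    intro p hp
    have h3 := hT'T p
    rw [hTo p hp] at h3
    exact h3
  have hm : MapsTo T L L := A3.mapsTo hT'T hTo
  have hm' : MapsTo T' L L := A3.mapsTo hTT' hTo'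
  have hloc := h2 E H I M J L hF
  have hinj : InjOn (fun q : ℝ × R4 => (q.1, J q)) (Icc (0 : ℝ) 1 ×ˢ L) := by
    rintro ⟨t, p⟩ ⟨ht, hp⟩ ⟨t', p'⟩ ⟨ht', hp'⟩ h
    have e1 : t = t' := congrArg Prod.fst h
    have e2 : J (t, p) = J (t', p') := congrArg Prod.snd h
    subst e1
    have e3 : p = p' := (hF.2 t ht).2 hp hp' e2
    rw [e3]
  obtain ⟨δ, hδL, hδ⟩ := h1 (ℝ × R4) (ℝ × E) (ModelProd ℝ H) (𝓘(ℝ, ℝ).prod I) (ℝ × M)
    (fun q : ℝ × R4 => (q.1, J q)) (Icc (0 : ℝ) 1 ×ˢ L) (isCompact_Icc.prod hL) hloc hinj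
  have himp := fun (t : ℝ) (ht : t ∈ Icc (0 : ℝ) 1) (S : R4 → R4) =>
    hi E H I M (fun p => J (t, p)) L S (hF.2 t ht).2
  have k1 : ∀ S : R4 → R4, ∀ t ∈ Icc (0 : ℝ) 1, ∀ p ∈ L,
      imp (fun p => J (t, p)) L S (J (t, p)) = J (t, S p) := fun S t ht p hp => (himp t ht S).1 p hp
  have k2 : ∀ S : R4 → R4, ∀ t ∈ Icc (0 : ℝ) 1, ∀ y, y ∉ (fun p => J (t, p)) '' L →
      imp (fun p => J (t, p)) L S y = y := fun S t ht y hy => (himp t ht S).2.1 y hy
  refine ⟨⟨fun q => imp (fun p => J (Pool.Agent.Helper65.Barb.step q.1, p)) L T q.2,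
    fun q => imp (fun p => J (Pool.Agent.Helper65.Barb.step q.1, p)) L T' q.2,
    A3.smooth δ hδL hδ hL hTs hm hTo (k1 T) (k2 T),
    A3.smooth δ hδL hδ hL hTs' hm' hTo' (k1 T') (k2 T'), ?_, ?_⟩, ?_, ?_, ?_⟩
  · intro t x
    exact A3.inv_aux (k1 T _ (step_mem t)) (k2 T _ (step_mem t)) (k1 T' _ (step_mem t))
      (k2 T' _ (step_mem t)) hm' hTT' x
  · intro t x
    exact A3.inv_aux (k1 T' _ (step_mem t)) (k2 T' _ (step_mem t)) (k1 T _ (step_mem t))
      (k2 T _ (step_mem t)) hm hT'T x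
  · refine ⟨J '' (Icc (0 : ℝ) 1 ×ˢ L), ?_, ?_⟩
    · obtain ⟨W, -, hW, hJ⟩ := hF.1
      exact (isCompact_Icc.prod hL).image_of_continuousOn (hJ.continuousOn.mono hW)
    · intro t x hx
      apply k2 T _ (step_mem t)
      rintro ⟨p, hp, rfl⟩
      exact hx ⟨_, ⟨step_mem t, hp⟩, rfl⟩
  · intro x
    show imp (fun p => J (Pool.Agent.Helper65.Barb.step 0, p)) L T x = _
    rw [step_of_nonpos le_rfl]
  · intro x
    show imp (fun p => J (Pool.Agent.Helper65.Barb.step 1, p)) L T x = _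
    rw [step_of_one_le le_rfl]

end Pool.Agent.Helper18.BI
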