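import Pool.Agent.Helper18.BI.StFr

/-!
# Project BI (MP_8e98f2_gt), module FR1: fibrewise linear maps along the neck
-/

set_option autoImplicit false

open scoped Manifold ContDiff Topology ComplexConjugate
open Set Pool.Agent.Helper65.Barb

namespace Pool.Agent.Helper18.BI

namespace FR1

/-- joint smoothness -/
theorem smooth_joint (Γ : ℝ × ℝ → E3) (h : ContDiff ℝ ∞ Γ) :
    ContDiff ℝ ∞ (fun q : ℝ × R4 => fib (fun a => Γ (q.1, a)) q.2) := by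
  have h1 : ContDiff ℝ ∞ (fun q : ℝ × R4 => Γ (q.1, q.2.2.1)) :=
    h.comp (contDiff_fst.prodMk (contDiff_fst.comp (contDiff_snd.comp contDiff_snd)))
  have h2 : ContDiff ℝ ∞ (fun q : ℝ × R4 => ((q.2.1 - 1 / 2, q.2.2.2) : ℝ × ℂ)) :=
    ((contDiff_fst.comp contDiff_snd).sub contDiff_const).prodMk
      (contDiff_snd.comp (contDiff_snd.comp contDiff_snd))
  have h3 : ContDiff ℝ ∞ (fun q : ℝ × R4 => Γ (q.1, q.2.2.1) (q.2.1 - 1 / 2, q.2.2.2)) :=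
    h1.clm_apply h2
  exact (contDiff_const.add (contDiff_fst.comp h3)).prodMk
    ((contDiff_fst.comp (contDiff_snd.comp contDiff_snd)).prodMk (contDiff_snd.comp h3))

theorem smooth (G : ℝ → E3) (h : ContDiff ℝ ∞ G) : ContDiff ℝ ∞ (fib G) := by
  have h1 := smooth_joint (fun q => G q.2) (h.comp contDiff_snd)
  exact h1.comp ((contDiff_const (c := (0 : ℝ))).prodMk contDiff_id)

theorem inj (G : ℝ → E3) (h : ∀ a v, G a v = 0 → v = 0) : Function.Injective (fib G) := by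
  rintro ⟨s, a, w⟩ ⟨s', a', w'⟩ hpq
  simp only [fib, Prod.mk.injEq] at hpq
  obtain ⟨h1, h2, h3⟩ := hpq
  subst h2
  have h4 : G a (s - 1 / 2, w) = G a (s' - 1 / 2, w') := Prod.ext (add_left_cancel h1) h3
  have h5 : G a ((s - 1 / 2, w) - (s' - 1 / 2, w')) = 0 := by
    rw [map_sub, h4, sub_self]
  have h6 := h a _ h5
  have h7 := congrArg Prod.fst h6
  have h8 := congrArg Prod.snd h6
  simp only [Prod.fst_sub, Prod.fst_zero] at h7
  simp only [Prod.snd_sub, Prod.snd_zero] at h8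
  have h9 : s = s' := by linarith
  have h10 : w = w' := sub_eq_zero.1 h8
  rw [h9, h10]

theorem der (G : ℝ → E3) (hG : ContDiff ℝ ∞ G) (h : ∀ a v, G a v = 0 → v = 0) (p v : R4)
    (hv : fderiv ℝ (fib G) p v = 0) : v = 0 := by
  have hd : HasFDerivAt G (fderiv ℝ G p.2.1) p.2.1 :=
    (hG.differentiable (by simp) p.2.1).hasFDerivAt
  have hpr : HasFDerivAt (fun q : R4 => q.2.1)
      ((ContinuousLinearMap.fst ℝ ℝ ℂ).comp (ContinuousLinearMap.snd ℝ ℝ (ℝ × ℂ))) p :=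
    ((ContinuousLinearMap.fst ℝ ℝ ℂ).comp (ContinuousLinearMap.snd ℝ ℝ (ℝ × ℂ))).hasFDerivAt
  have hc : HasFDerivAt (fun q : R4 => G q.2.1) ((fderiv ℝ G p.2.1).comp
      ((ContinuousLinearMap.fst ℝ ℝ ℂ).comp (ContinuousLinearMap.snd ℝ ℝ (ℝ × ℂ)))) p :=
    HasFDerivAt.comp (g := G) (f := fun q : R4 => q.2.1) p hd hpr
  have hu : HasFDerivAt (fun q : R4 => ((q.1 - 1 / 2, q.2.2) : ℝ × ℂ))
      ((ContinuousLinearMap.fst ℝ ℝ (ℝ × ℂ)).prod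
        ((ContinuousLinearMap.snd ℝ ℝ ℂ).comp (ContinuousLinearMap.snd ℝ ℝ (ℝ × ℂ)))) p := by
    refine HasFDerivAt.prodMk ?_ ?_
    · exact ((ContinuousLinearMap.fst ℝ ℝ (ℝ × ℂ)).hasFDerivAt).sub_const _
    · exact ((ContinuousLinearMap.snd ℝ ℝ ℂ).comp (ContinuousLinearMap.snd ℝ ℝ (ℝ × ℂ))).hasFDerivAt
  have hN := hc.clm_apply hu
  have hfib : HasFDerivAt (fib G) _ p :=
    HasFDerivAt.prodMk (((ContinuousLinearMap.fst ℝ ℝ ℂ).hasFDerivAt.comp p hN).const_add (1 / 2 : ℝ))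
      (HasFDerivAt.prodMk hpr ((ContinuousLinearMap.snd ℝ ℝ ℂ).hasFDerivAt.comp p hN))
  rw [hfib.fderiv] at hv
  obtain ⟨σ, α, ν⟩ := v
  have e2 : α = 0 := congrArg (fun z : R4 => z.2.1) hv
  subst e2
  have e1 := congrArg (fun z : R4 => z.1) hv
  have e3 := congrArg (fun z : R4 => z.2.2) hv
  simp at e1 e3
  have e4 : G p.2.1 (σ, ν) = 0 := Prod.ext e1 e3
  have e5 := h _ _ e4
  have e6 := congrArg Prod.fst e5
  have e7 := congrArg Prod.snd e5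
  simp only [Prod.fst_zero, Prod.snd_zero] at e6 e7
  rw [e6, e7]
  rfl

theorem emb (a0 : StA0) (G : ℝ → E3) (hG : ContDiff ℝ ∞ G) (h : ∀ a v, G a v = 0 → v = 0) (p : R4) :
    IsLocalDiffeomorphAt 𝓘(ℝ, R4) 𝓘(ℝ, R4) ∞ (fib G) p :=
  (a0 R4 (fib G) p).2 ⟨⟨univ, isOpen_univ, mem_univ p, (smooth G hG).contDiffOn⟩, der G hG h p⟩

theorem fib_id (G : ℝ → E3) (p : R4) (h : G p.2.1 = ContinuousLinearMap.id ℝ (ℝ × ℂ)) : fib G p = p := by
  obtain ⟨s, a, w⟩ := p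
  simp only [fib]
  simp only at h
  rw [h]
  simp

theorem fib_SP (G : ℝ → E3) (δ : ℝ) (hδ : 0 < δ)
    (h : ∀ a, (a ≤ 1 / 5 + δ ∨ 4 / 5 - δ ≤ a) → G a = ContinuousLinearMap.id ℝ (ℝ × ℂ)) (p : R4)
    (hp : p ∈ SP) : fib G p = p := by
  rcases hp with (hp | hp) | hp
  · obtain ⟨-, hp⟩ := hp
    apply fib_id
    apply h
    left
    simp only [rsq, nsq, sub_zero] at hp
    nlinarith [sq_nonneg p.2.2.re, sq_nonneg p.2.2.im]
  · obtain ⟨-, hp⟩ := hp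
    apply fib_id
    apply h
    right
    simp only [rsq, nsq] at hp
    nlinarith [sq_nonneg p.2.2.re, sq_nonneg p.2.2.im]
  · obtain ⟨hp1, -, -, hp2⟩ := hp
    obtain ⟨s, a, w⟩ := p
    simp only at hp1 hp2
    subst hp1
    subst hp2
    have h0 : ((1 / 2 - 1 / 2 : ℝ), (0 : ℂ)) = (0 : ℝ × ℂ) := by
      rw [sub_self]
      rfl
    simp only [fib, h0, map_zero, Prod.fst_zero, Prod.snd_zero, add_zero]

end FR1

theorem m_Fr1 (a0 : StA0) : StFr1 := by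
  refine ⟨?_, ?_⟩
  · rintro G ⟨hG, hi, δ, hδ, hid⟩
    refine ⟨⟨fun p _ => FR1.emb a0 G hG hi p, (FR1.inj G hi).injOn⟩, FR1.smooth G hG,
      FR1.fib_SP G δ hδ hid, δ, hδ, fun p hp => FR1.fib_id G p (hid _ hp)⟩
  · rintro Γ F ⟨hΓ, hi, δ, hδ, hid⟩ ⟨hF, hFi⟩
    have hSP : ∀ t, ∀ p ∈ SP, fib (fun a => Γ (t, a)) p = p := fun t =>
      FR1.fib_SP _ δ hδ (hid t)
    have hcont := FR1.smooth_joint Γ hΓ
    have hUo : IsOpen {x : R4 | IsLocalDiffeomorphAt 𝓘(ℝ, R4) 𝓘(ℝ, R4) ∞ F x} := by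
      rw [isOpen_iff_mem_nhds]
      rintro x ⟨Φ, hx, hΦ⟩
      filter_upwards [Φ.open_source.mem_nhds hx] with y hy
      exact ⟨Φ, hy, hΦ⟩
    refine ⟨⟨{q : ℝ × R4 | fib (fun a => Γ (q.1, a)) q.2 ∈
      {x : R4 | IsLocalDiffeomorphAt 𝓘(ℝ, R4) 𝓘(ℝ, R4) ∞ F x}}, hUo.preimage hcont.continuous, ?_, ?_⟩, ?_⟩
    · rintro ⟨t, p⟩ ⟨-, hp⟩
      show IsLocalDiffeomorphAt 𝓘(ℝ, R4) 𝓘(ℝ, R4) ∞ F (fib (fun a => Γ (t, a)) p)
      rw [hSP t p hp]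
      exact hF p hp
    · intro q hq
      have hq' : IsLocalDiffeomorphAt 𝓘(ℝ, R4) 𝓘(ℝ, R4) ∞ F (fib (fun a => Γ (q.1, a)) q.2) := hq
      have h1 : ContMDiffAt 𝓘(ℝ, R4) 𝓘(ℝ, R4) ∞ F (fib (fun a => Γ (q.1, a)) q.2) := hq'.contMDiffAt
      have h2 : ContMDiffAt 𝓘(ℝ, ℝ × R4) 𝓘(ℝ, R4) ∞
          (fun q : ℝ × R4 => fib (fun a => Γ (q.1, a)) q.2) q := hcont.contMDiff q
      exact (ContMDiffAt.comp q h1 h2).contMDiffWithinAt
    · intro t ht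
      have hG : ContDiff ℝ ∞ (fun a => Γ (t, a)) := hΓ.comp (contDiff_const.prodMk contDiff_id)
      refine ⟨fun p hp => ?_, ?_⟩
      · have h1 := FR1.emb a0 (fun a => Γ (t, a)) hG (hi t ht) p
        have h2 : IsLocalDiffeomorphAt 𝓘(ℝ, R4) 𝓘(ℝ, R4) ∞ F (fib (fun a => Γ (t, a)) p) := by
          rw [hSP t p hp]
          exact hF p hp
        exact h1.comp _ _ h2
      · intro p hp q hq hpq
        have h3 : F (fib (fun a => Γ (t, a)) p) = F (fib (fun a => Γ (t, a)) q) := hpq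
        rw [hSP t p hp, hSP t q hq] at h3
        exact hFi hp hq h3

end Pool.Agent.Helper18.BI
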