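import Pool.Agent.Helper18.BI.StFr
import Pool.Agent.Helper34.BI.Null

/-!
# Project BI, module FR2A: make the first column of a loop constant
-/

set_option autoImplicit false

open scoped Manifold ContDiff Topology ComplexConjugate
open Set Pool.Agent.Helper65.Barb

namespace Pool.Agent.Helper18.BI

namespace FR2A

abbrev V : Type := ℝ × ℂ

noncomputable def c1 : V →L[ℝ] ℝ := ContinuousLinearMap.fst ℝ ℝ ℂ
noncomputable def c2 : V →L[ℝ] ℝ := Complex.reCLM.comp (ContinuousLinearMap.snd ℝ ℝ ℂ)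
noncomputable def c3 : V →L[ℝ] ℝ := Complex.imCLM.comp (ContinuousLinearMap.snd ℝ ℝ ℂ)

/-- the Euclidean inner product -/
noncomputable def Q : V →L[ℝ] (V →L[ℝ] ℝ) :=
  c1.smulRight c1 + c2.smulRight c2 + c3.smulRight c3

lemma Q_apply (u v : V) : Q u v = u.1 * v.1 + u.2.re * v.2.re + u.2.im * v.2.im := by
  simp [Q, c1, c2, c3]

/-- the Gram determinant -/
noncomputable def D (u v : V) : ℝ := Q u u * Q v v - Q u v ^ 2

/-- the functional with value one at `u` and `v` -/
noncomputable def L (u v : V) : V →L[ℝ] ℝ :=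
  (D u v)⁻¹ • ((Q v v - Q u v) • Q u + (Q u u - Q u v) • Q v)

/-- the shear -/
noncomputable def A (τ : ℝ) (u v : V) : V →L[ℝ] V :=
  ContinuousLinearMap.id ℝ V + (τ • L u v).smulRight (v - u)

lemma Q_comm (u v : V) : Q u v = Q v u := by
  rw [Q_apply, Q_apply]; ring

lemma L_apply (u v x : V) : L u v x =
    (D u v)⁻¹ * ((Q v v - Q u v) * Q u x + (Q u u - Q u v) * Q v x) := by
  simp [L]
  ring

lemma L_fst {u v : V} (h : D u v ≠ 0) : L u v u = 1 := by
  rw [L_apply, Q_comm v u, inv_mul_eq_one₀ h]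
  unfold D
  ring

lemma L_snd {u v : V} (h : D u v ≠ 0) : L u v v = 1 := by
  rw [L_apply, inv_mul_eq_one₀ h]
  unfold D
  ring

lemma A_apply (τ : ℝ) (u v x : V) : A τ u v x = x + (τ * L u v x) • (v - u) := by
  simp [A]

lemma A_zero (u v : V) : A 0 u v = ContinuousLinearMap.id ℝ V := by
  ext x <;> simp [A_apply]

lemma L_A {u v : V} (h : D u v ≠ 0) (τ : ℝ) (x : V) : L u v (A τ u v x) = L u v x := by
  rw [A_apply, map_add, map_smul, map_sub, L_fst h, L_snd h, sub_self, smul_zero, add_zero]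

lemma A_inj {u v : V} (h : D u v ≠ 0) (τ : ℝ) (x : V) (hx : A τ u v x = 0) : x = 0 := by
  have h1 := L_A h τ x
  rw [hx, map_zero] at h1
  rw [A_apply, ← h1, mul_zero, zero_smul, add_zero] at hx
  exact hx

/-- dependence -/
lemma dep {u v : V} (hu : u ≠ 0) (h : D u v = 0) : ∃ r : ℝ, v = r • u := by
  have hq : Q u u ≠ 0 := by
    intro h0
    apply hu
    rw [Q_apply] at h0
    have s1 := mul_self_nonneg u.1
    have s2 := mul_self_nonneg u.2.re
    have s3 := mul_self_nonneg u.2.im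
    have h1 : u.1 = 0 := mul_self_eq_zero.1 (by linarith)
    have h2 : u.2.re = 0 := mul_self_eq_zero.1 (by linarith)
    have h3 : u.2.im = 0 := mul_self_eq_zero.1 (by linarith)
    exact Prod.ext h1 (Complex.ext h2 h3)
  have hD : (u.1 * v.2.re - u.2.re * v.1) ^ 2 + (u.1 * v.2.im - u.2.im * v.1) ^ 2 +
      (u.2.re * v.2.im - u.2.im * v.2.re) ^ 2 = 0 := by
    rw [← h]
    unfold D
    rw [Q_apply, Q_apply, Q_apply]
    ring
  have e1 : u.1 * v.2.re - u.2.re * v.1 = 0 := by
    have s1 := sq_nonneg (u.1 * v.2.re - u.2.re * v.1)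
    have s2 := sq_nonneg (u.1 * v.2.im - u.2.im * v.1)
    have s3 := sq_nonneg (u.2.re * v.2.im - u.2.im * v.2.re)
    exact pow_eq_zero_iff (two_ne_zero) |>.1 (by linarith)
  have e2 : u.1 * v.2.im - u.2.im * v.1 = 0 := by
    have s1 := sq_nonneg (u.1 * v.2.re - u.2.re * v.1)
    have s2 := sq_nonneg (u.1 * v.2.im - u.2.im * v.1)
    have s3 := sq_nonneg (u.2.re * v.2.im - u.2.im * v.2.re)
    exact pow_eq_zero_iff (two_ne_zero) |>.1 (by linarith)
  have e3 : u.2.re * v.2.im - u.2.im * v.2.re = 0 := by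
    have s1 := sq_nonneg (u.1 * v.2.re - u.2.re * v.1)
    have s2 := sq_nonneg (u.1 * v.2.im - u.2.im * v.1)
    have s3 := sq_nonneg (u.2.re * v.2.im - u.2.im * v.2.re)
    exact pow_eq_zero_iff (two_ne_zero) |>.1 (by linarith)
  refine ⟨Q u v / Q u u, ?_⟩
  have k1 : v.1 = Q u v / Q u u * u.1 := by
    rw [div_mul_eq_mul_div, eq_div_iff hq, Q_apply, Q_apply]
    linear_combination -u.2.re * e1 - u.2.im * e2
  have k2 : v.2.re = Q u v / Q u u * u.2.re := by
    rw [div_mul_eq_mul_div, eq_div_iff hq, Q_apply, Q_apply]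
    linear_combination u.1 * e1 - u.2.im * e3
  have k3 : v.2.im = Q u v / Q u u * u.2.im := by
    rw [div_mul_eq_mul_div, eq_div_iff hq, Q_apply, Q_apply]
    linear_combination u.1 * e2 + u.2.re * e3
  refine Prod.ext ?_ (Complex.ext ?_ ?_)
  · simpa using k1
  · simpa using k2
  · simpa using k3

/-- a vector independent of all first columns -/
lemma exists_indep {u : ℝ → V} (hu : ContDiff ℝ ∞ u) : ∃ n : V, ∀ r a : ℝ, n ≠ r • u a := by
  by_contra hcon
  push Not at hcon
  have h1 : (fun q : ℝ × ℝ => q.1 • u q.2) '' univ = univ := by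
    rw [eq_univ_iff_forall]
    intro n
    obtain ⟨r, a, h⟩ := hcon n
    exact ⟨(r, a), mem_univ _, h.symm⟩
  have hd : Differentiable ℝ (fun q : ℝ × ℝ => q.1 • u q.2) := by
    have h2 : Differentiable ℝ u := hu.differentiable (by simp)
    have h3 : Differentiable ℝ (fun q : ℝ × ℝ => u q.2) := h2.comp differentiable_snd
    exact differentiable_fst.smul h3
  have hf : Module.finrank ℝ (ℝ × ℝ) < Module.finrank ℝ V := by
    rw [Module.finrank_prod, Module.finrank_prod, Module.finrank_self, Complex.finrank_real_complex]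
    norm_num
  have h3 := Pool.Agent.Helper34.BI.null_image
    ((MeasureTheory.volume : MeasureTheory.Measure ℝ).prod
      (MeasureTheory.volume : MeasureTheory.Measure ℂ)) hf (s := univ) hd.differentiableOn
  rw [h1] at h3
  exact (isOpen_univ.measure_pos ((MeasureTheory.volume : MeasureTheory.Measure ℝ).prod
    (MeasureTheory.volume : MeasureTheory.Measure ℂ)) univ_nonempty).ne' h3

lemma contDiff_Q {E : Type} [NormedAddCommGroup E] [NormedSpace ℝ E] {u v : E → V}
    (hu : ContDiff ℝ ∞ u) (hv : ContDiff ℝ ∞ v) : ContDiff ℝ ∞ (fun x => Q (u x) (v x)) :=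
  (Q.contDiff.comp hu).clm_apply hv

lemma contDiff_A {E : Type} [NormedAddCommGroup E] [NormedSpace ℝ E] {τ : E → ℝ} {u v : E → V}
    (hτ : ContDiff ℝ ∞ τ) (hu : ContDiff ℝ ∞ u) (hv : ContDiff ℝ ∞ v)
    (hD : ∀ x, D (u x) (v x) ≠ 0) : ContDiff ℝ ∞ (fun x => A (τ x) (u x) (v x)) := by
  have h1 : ContDiff ℝ ∞ (fun x => D (u x) (v x)) :=
    ((contDiff_Q hu hu).mul (contDiff_Q hv hv)).sub ((contDiff_Q hu hv).pow 2)
  have h2 : ContDiff ℝ ∞ (fun x => L (u x) (v x)) := by
    refine (h1.inv hD).smul (ContDiff.add ?_ ?_)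
    · exact ((contDiff_Q hv hv).sub (contDiff_Q hu hv)).smul (Q.contDiff.comp hu)
    · exact ((contDiff_Q hu hu).sub (contDiff_Q hu hv)).smul (Q.contDiff.comp hv)
  exact contDiff_const.add ((hτ.smul h2).smulRight (hv.sub hu))

end FR2A

open FR2A in
theorem m_Fr2a : StFr2a := by
  rintro G ⟨hG, hinj, δ, hδ, hend⟩
  -- the first columns
  let e : ℝ × ℂ := (1, 0)
  let u : ℝ → ℝ × ℂ := fun a => G a e
  have hu : ContDiff ℝ ∞ u := hG.clm_apply contDiff_const
  have he : e ≠ 0 := by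
    intro h
    have := congrArg Prod.fst h
    exact one_ne_zero this
  have hune : ∀ a, u a ≠ 0 := fun a h => he (hinj a e h)
  obtain ⟨n, hn⟩ := exists_indep hu
  have hD : ∀ a, D (u a) n ≠ 0 := by
    intro a h
    obtain ⟨r, hr⟩ := dep (hune a) h
    exact hn r a hr
  have hue : ∀ a, (a ≤ 1 / 5 + δ ∨ 4 / 5 - δ ≤ a) → u a = e := by
    intro a ha
    show G a e = e
    rw [hend a ha]
    rfl
  have hDe : D e n ≠ 0 := by
    have h1 := hD 0
    rw [hue 0 (Or.inl (by linarith))] at h1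
    exact h1
  -- the cutoff
  let χ : ℝ → ℝ := fun a => Real.smoothTransition ((a - 1 / 5 - δ / 3) / (δ / 3)) *
    Real.smoothTransition ((4 / 5 - δ / 3 - a) / (δ / 3))
  have hχ : ContDiff ℝ ∞ χ := by
    refine ContDiff.mul ?_ ?_
    · exact Real.smoothTransition.contDiff.comp (((contDiff_id.sub contDiff_const).sub
        contDiff_const).div_const _)
    · exact Real.smoothTransition.contDiff.comp ((contDiff_const.sub contDiff_id).div_const _)
  have hχ0 : ∀ a, (a ≤ 1 / 5 + δ / 3 ∨ 4 / 5 - δ / 3 ≤ a) → χ a = 0 := by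
    rintro a (ha | ha)
    · show _ * _ = (0 : ℝ)
      rw [Real.smoothTransition.zero_of_nonpos (div_nonpos_of_nonpos_of_nonneg (by linarith)
        (by linarith)), zero_mul]
    · show _ * _ = (0 : ℝ)
      rw [Real.smoothTransition.zero_of_nonpos (x := (4 / 5 - δ / 3 - a) / (δ / 3))
        (div_nonpos_of_nonpos_of_nonneg (by linarith) (by linarith)), mul_zero]
  have hχ1 : ∀ a, u a = e ∨ χ a = 1 := by
    intro a
    by_cases ha : a ≤ 1 / 5 + δ ∨ 4 / 5 - δ ≤ a
    · exact Or.inl (hue a ha)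
    · right
      push Not at ha
      have hpos : 0 < δ / 3 := by linarith
      show _ * _ = (1 : ℝ)
      rw [Real.smoothTransition.one_of_one_le ((one_le_div hpos).2 (by linarith)),
        Real.smoothTransition.one_of_one_le ((one_le_div hpos).2 (by linarith)), mul_one]
  -- the homotopy
  let Γ : ℝ × ℝ → E3 := fun q => ((A (-(q.1 * χ q.2)) e n).comp (A (q.1 * χ q.2) (u q.2) n)).comp
    (G q.2)
  have hΓ : ContDiff ℝ ∞ Γ := by
    have h1 : ContDiff ℝ ∞ (fun q : ℝ × ℝ => q.1 * χ q.2) := contDiff_fst.mul (hχ.comp contDiff_snd)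
    have h2 := contDiff_A (E := ℝ × ℝ) h1.neg (contDiff_const (c := e)) (contDiff_const (c := n))
      (fun _ => hDe)
    have h3 := contDiff_A (E := ℝ × ℝ) h1 (hu.comp contDiff_snd) (contDiff_const (c := n))
      (fun q => hD q.2)
    exact (h2.clm_comp h3).clm_comp (hG.comp contDiff_snd)
  have hΓinj : ∀ t a v, Γ (t, a) v = 0 → v = 0 := by
    intro t a v h
    exact hinj a v (A_inj (hD a) _ _ (A_inj hDe _ _ h))
  have hΓend : ∀ t a, (a ≤ 1 / 5 + δ / 3 ∨ 4 / 5 - δ / 3 ≤ a) →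
      Γ (t, a) = ContinuousLinearMap.id ℝ (ℝ × ℂ) := by
    intro t a ha
    have h1 : G a = ContinuousLinearMap.id ℝ (ℝ × ℂ) := hend a (by
      rcases ha with ha | ha
      · left; linarith
      · right; linarith)
    show ((A (-(t * χ a)) e n).comp (A (t * χ a) (u a) n)).comp (G a) = _
    rw [hχ0 a ha, mul_zero, neg_zero, A_zero, A_zero, h1]
    rfl
  have hδ3 : 0 < δ / 3 := by linarith
  refine ⟨fun a => Γ (1, a), ⟨?_, fun a v => hΓinj 1 a v, δ / 3, hδ3, fun a => hΓend 1 a⟩, ?_, ?_⟩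
  · exact hΓ.comp (contDiff_const.prodMk contDiff_id)
  · refine Relation.ReflTransGen.single ⟨Γ, ⟨hΓ, fun t _ a v => hΓinj t a v, δ / 3, hδ3, hΓend⟩,
      fun a => ?_, fun a => rfl⟩
    show ((A (-(0 * χ a)) e n).comp (A (0 * χ a) (u a) n)).comp (G a) = G a
    rw [zero_mul, neg_zero, A_zero, A_zero]
    rfl
  · intro a
    show A (-(1 * χ a)) e n (A (1 * χ a) (u a) n (u a)) = e
    have h1 : A (1 * χ a) (u a) n (u a) = e + χ a • (n - e) := by
      rw [A_apply, L_fst (hD a), one_mul, mul_one]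
      rcases hχ1 a with h | h
      · rw [h]
      · rw [h, one_smul, one_smul]; abel
    rw [h1, A_apply, map_add, map_smul, map_sub, L_fst hDe, L_snd hDe, sub_self, smul_zero,
      add_zero, mul_one, one_mul, neg_smul]
    abel

end Pool.Agent.Helper18.BI
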