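import Pool.Agent.Helper18.BI.StFr

/-!
# Project BI, module FR2B: loops fixing the first basis vector are homotopic to rotations
-/

set_option autoImplicit false

open scoped Manifold ContDiff Topology ComplexConjugate
open Set Pool.Agent.Helper65.Barb

namespace Pool.Agent.Helper18.BI

namespace FR2B

noncomputable def B0 : E3 :=
  (ContinuousLinearMap.inl ℝ ℝ ℂ).comp (ContinuousLinearMap.fst ℝ ℝ ℂ)

noncomputable def B1 : E3 :=
  (ContinuousLinearMap.inl ℝ ℝ ℂ).comp (Complex.reCLM.comp (ContinuousLinearMap.snd ℝ ℝ ℂ))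

noncomputable def B2 : E3 :=
  (ContinuousLinearMap.inl ℝ ℝ ℂ).comp (Complex.imCLM.comp (ContinuousLinearMap.snd ℝ ℝ ℂ))

noncomputable def B3 : E3 :=
  (ContinuousLinearMap.inr ℝ ℝ ℂ).comp (ContinuousLinearMap.snd ℝ ℝ ℂ)

noncomputable def B4 : E3 :=
  (ContinuousLinearMap.inr ℝ ℝ ℂ).comp
    ((ContinuousLinearMap.mul ℝ ℂ Complex.I).comp (ContinuousLinearMap.snd ℝ ℝ ℂ))

noncomputable def B5 : E3 :=
  (ContinuousLinearMap.inr ℝ ℝ ℂ).comp
    ((Complex.conjCLE : ℂ →L[ℝ] ℂ).comp (ContinuousLinearMap.snd ℝ ℝ ℂ))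

noncomputable def B6 : E3 :=
  (ContinuousLinearMap.inr ℝ ℝ ℂ).comp ((ContinuousLinearMap.mul ℝ ℂ Complex.I).comp
    ((Complex.conjCLE : ℂ →L[ℝ] ℂ).comp (ContinuousLinearMap.snd ℝ ℝ ℂ)))

/-- the linear map `(σ, v) ↦ (σ + x Re v + y Im v, α v + β conj v)` -/
noncomputable def Mst (x y : ℝ) (α β : ℂ) : E3 :=
  B0 + x • B1 + y • B2 + α.re • B3 + α.im • B4 + β.re • B5 + β.im • B6

lemma Mst_apply (x y : ℝ) (α β : ℂ) (σ : ℝ) (v : ℂ) :
    Mst x y α β (σ, v) = (σ + x * v.re + y * v.im, α * v + β * conj v) := by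
  have e0 : B0 (σ, v) = (σ, 0) := by simp [B0]
  have e1 : B1 (σ, v) = (v.re, 0) := by simp [B1]
  have e2 : B2 (σ, v) = (v.im, 0) := by simp [B2]
  have e3 : B3 (σ, v) = (0, v) := by simp [B3]
  have e4 : B4 (σ, v) = (0, Complex.I * v) := by simp [B4]
  have e5 : B5 (σ, v) = (0, conj v) := by simp [B5]
  have e6 : B6 (σ, v) = (0, Complex.I * conj v) := by simp [B6]
  unfold Mst
  simp only [add_apply, smul_apply, e0, e1, e2, e3, e4,
    e5, e6]
  refine Prod.ext ?_ ?_
  · simp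
  · simp only [Prod.snd_add, Prod.smul_snd, Complex.real_smul]
    have h1 := Complex.re_add_im α
    have h2 := Complex.re_add_im β
    linear_combination v * h1 + conj v * h2

lemma Mst_smooth {E : Type} [NormedAddCommGroup E] [NormedSpace ℝ E] {x y : E → ℝ} {α β : E → ℂ}
    (hx : ContDiff ℝ ∞ x) (hy : ContDiff ℝ ∞ y) (hα : ContDiff ℝ ∞ α) (hβ : ContDiff ℝ ∞ β) :
    ContDiff ℝ ∞ fun e => Mst (x e) (y e) (α e) (β e) := by
  have h1 : ContDiff ℝ ∞ fun e => (α e).re := Complex.reCLM.contDiff.comp hα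
  have h2 : ContDiff ℝ ∞ fun e => (α e).im := Complex.imCLM.contDiff.comp hα
  have h3 : ContDiff ℝ ∞ fun e => (β e).re := Complex.reCLM.contDiff.comp hβ
  have h4 : ContDiff ℝ ∞ fun e => (β e).im := Complex.imCLM.contDiff.comp hβ
  unfold Mst
  exact ((((((contDiff_const.add (hx.smul contDiff_const)).add (hy.smul contDiff_const)).add
    (h1.smul contDiff_const)).add (h2.smul contDiff_const)).add (h3.smul contDiff_const)).add
    (h4.smul contDiff_const))

lemma Mst_id : Mst 0 0 1 0 = ContinuousLinearMap.id ℝ (ℝ × ℂ) := by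
  refine ContinuousLinearMap.ext fun p => ?_
  obtain ⟨σ, v⟩ := p
  rw [Mst_apply]
  simp

lemma Mst_inj {x y : ℝ} {α β : ℂ} (h : ‖β‖ < ‖α‖) (p : ℝ × ℂ) (hp : Mst x y α β p = 0) :
    p = 0 := by
  obtain ⟨σ, v⟩ := p
  rw [Mst_apply] at hp
  have h1 : α * v + β * conj v = 0 := congrArg Prod.snd hp
  have h2 : σ + x * v.re + y * v.im = 0 := congrArg Prod.fst hp
  have h3 : ‖α‖ * ‖v‖ = ‖β‖ * ‖v‖ := by
    have : α * v = -(β * conj v) := by linear_combination h1
    have h4 := congrArg norm this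
    rw [norm_mul, norm_neg, norm_mul, RCLike.norm_conj] at h4
    exact h4
  have h5 : v = 0 := by
    by_contra hv
    have h6 : 0 < ‖v‖ := norm_pos_iff.2 hv
    have := mul_right_cancel₀ h6.ne' h3
    exact h.ne' this
  subst h5
  simp at h2
  rw [h2]
  rfl

lemma Mst_ker {x y : ℝ} {α β : ℂ} (h : Complex.normSq α = Complex.normSq β) :
    ∃ p : ℝ × ℂ, p ≠ 0 ∧ Mst x y α β p = 0 := by
  have key : ∃ v : ℂ, v ≠ 0 ∧ α * v + β * conj v = 0 := by
    rcases eq_or_ne α 0 with h1 | h1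
    · have h2 : β = 0 := by
        rw [h1, Complex.normSq_zero] at h
        exact Complex.normSq_eq_zero.1 h.symm
      exact ⟨1, one_ne_zero, by rw [h1, h2]; simp⟩
    · rcases eq_or_ne α β with h2 | h2
      · exact ⟨Complex.I, Complex.I_ne_zero, by rw [h2]; simp⟩
      · refine ⟨conj α * (α - β), mul_ne_zero ?_ (sub_ne_zero.2 h2), ?_⟩
        · exact (map_ne_zero _).2 h1
        · have e1 := Complex.mul_conj α
          have e2 := Complex.mul_conj β
          have e3 : (Complex.normSq α : ℂ) = Complex.normSq β := by rw [h]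
          rw [map_mul, map_sub, Complex.conj_conj]
          linear_combination (α : ℂ) * e1 - α * e2 + α * e3
  obtain ⟨v, hv, hv'⟩ := key
  refine ⟨(-(x * v.re + y * v.im), v), fun h0 => hv (congrArg Prod.snd h0), ?_⟩
  rw [Mst_apply, hv']
  refine Prod.ext ?_ rfl
  show -(x * v.re + y * v.im) + x * v.re + y * v.im = 0
  ring

/-- a smooth logarithm of a nowhere vanishing function -/
lemma exists_log {α : ℝ → ℂ} (hα : ContDiff ℝ ∞ α) (h0 : ∀ a, α a ≠ 0) {δ : ℝ} (hδ : 0 < δ)
    (h1 : ∀ a, (a ≤ 1 / 5 + δ ∨ 4 / 5 - δ ≤ a) → α a = 1) :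
    ∃ (η : ℝ → ℂ) (k : ℤ), ContDiff ℝ ∞ η ∧ (∀ a, Complex.exp (η a) = α a) ∧
      (∀ a, a ≤ 1 / 5 + δ / 2 → η a = 0) ∧
      ∀ a, 4 / 5 - δ / 2 ≤ a → η a = k * (2 * Real.pi * Complex.I) := by
  set f : ℝ → ℂ := fun a => deriv α a * (α a)⁻¹ with hf
  have hα' : ContDiff ℝ ∞ (deriv α) := (contDiff_infty_iff_deriv.1 hα).2
  have hαd : Differentiable ℝ α := (contDiff_infty_iff_deriv.1 hα).1
  have hfs : ContDiff ℝ ∞ f := hα'.mul (hα.inv h0)
  have hfc : Continuous f := hfs.continuous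
  set η : ℝ → ℂ := fun a => ∫ s in (0 : ℝ)..a, f s with hη
  have hηd : ∀ a, HasDerivAt η (f a) a := fun a =>
    (hfc.integral_hasStrictDerivAt 0 a).hasDerivAt
  have hηs : ContDiff ℝ ∞ η := by
    rw [contDiff_infty_iff_deriv]
    refine ⟨fun a => (hηd a).differentiableAt, ?_⟩
    have : deriv η = f := funext fun a => (hηd a).deriv
    rw [this]
    exact hfs
  have hη0 : η 0 = 0 := by
    show ∫ s in (0 : ℝ)..0, f s = 0
    exact intervalIntegral.integral_same
  have hα0 : α 0 = 1 := h1 0 (Or.inl (by linarith))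
  have hexp : ∀ a, Complex.exp (η a) = α a := by
    have hd : ∀ a, HasDerivAt (fun a => α a * Complex.exp (-η a)) 0 a := by
      intro a
      have e1 : HasDerivAt (fun a => Complex.exp (-η a)) (Complex.exp (-η a) * (-f a)) a :=
        (hηd a).neg.cexp
      have e2 := (hαd a).hasDerivAt.mul e1
      have e3 : f a * α a = deriv α a := inv_mul_cancel_right₀ (h0 a) _
      have e4 : deriv α a * Complex.exp (-η a) + α a * (Complex.exp (-η a) * -f a) = 0 := by
        rw [← e3]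
        ring
      rw [e4] at e2
      exact e2
    have hc : ∀ a, α a * Complex.exp (-η a) = 1 := by
      intro a
      have := is_const_of_deriv_eq_zero (f := fun a => α a * Complex.exp (-η a))
        (fun a => (hd a).differentiableAt) (fun a => (hd a).deriv) a 0
      simp only [hη0, hα0] at this
      rw [this]
      simp
    intro a
    have h2 := hc a
    rw [Complex.exp_neg] at h2
    have h3 := Complex.exp_ne_zero (η a)
    field_simp at h2
    exact h2.symm
  have hf0 : ∀ a, (a < 1 / 5 + δ ∨ 4 / 5 - δ < a) → f a = 0 := by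
    intro a ha
    have h2 : α =ᶠ[𝓝 a] fun _ => (1 : ℂ) := by
      rcases ha with ha | ha
      · filter_upwards [Iio_mem_nhds ha] with s hs
        exact h1 s (Or.inl (le_of_lt hs))
      · filter_upwards [Ioi_mem_nhds ha] with s hs
        exact h1 s (Or.inr (le_of_lt hs))
    have h3 : deriv α a = 0 := by
      rw [h2.deriv_eq]
      exact deriv_const a (1 : ℂ)
    show deriv α a * (α a)⁻¹ = 0
    rw [h3, zero_mul]
  have hk : Complex.exp (η (4 / 5 - δ / 2)) = 1 := by
    rw [hexp]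
    exact h1 _ (Or.inr (by linarith))
  obtain ⟨k, hk⟩ := Complex.exp_eq_one_iff.1 hk
  refine ⟨η, k, hηs, hexp, ?_, ?_⟩
  · intro a ha
    show ∫ s in (0 : ℝ)..a, f s = 0
    rw [intervalIntegral.integral_congr (g := fun _ => (0 : ℂ))]
    · simp
    · intro s hs
      refine hf0 s (Or.inl ?_)
      have h3 : s ≤ max 0 a := hs.2
      rcases max_cases 0 a with h4 | h4 <;> linarith [h4.1]
  · intro a ha
    rw [← hk]
    have h3 : η (4 / 5 - δ / 2) + ∫ s in (4 / 5 - δ / 2)..a, f s = η a :=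
      intervalIntegral.integral_add_adjacent_intervals (hfc.intervalIntegrable _ _)
        (hfc.intervalIntegrable _ _)
    rw [← h3, intervalIntegral.integral_congr (g := fun _ => (0 : ℂ))]
    · simp
    · intro s hs
      refine hf0 s (Or.inr ?_)
      rw [uIcc_of_le ha] at hs
      linarith [hs.1]

end FR2B

open FR2B in
theorem m_Fr2b : StFr2b := by
  intro G hG he
  obtain ⟨hGs, hGi, δ, hδ, hG1⟩ := hG
  have hev : ∀ v : ℝ × ℂ, ContDiff ℝ ∞ fun a => G a v := fun v => hGs.clm_apply contDiff_const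
  set x : ℝ → ℝ := fun a => (G a (0, 1)).1 with hx
  set y : ℝ → ℝ := fun a => (G a (0, Complex.I)).1 with hy
  set g1 : ℝ → ℂ := fun a => (G a (0, 1)).2 with hg1
  set g2 : ℝ → ℂ := fun a => (G a (0, Complex.I)).2 with hg2
  set α : ℝ → ℂ := fun a => (1 / 2 : ℂ) * (g1 a - Complex.I * g2 a) with hα
  set β : ℝ → ℂ := fun a => (1 / 2 : ℂ) * (g1 a + Complex.I * g2 a) with hβ
  have sx : ContDiff ℝ ∞ x := contDiff_fst.comp (hev _)
  have sy : ContDiff ℝ ∞ y := contDiff_fst.comp (hev _)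
  have s1 : ContDiff ℝ ∞ g1 := contDiff_snd.comp (hev _)
  have s2 : ContDiff ℝ ∞ g2 := contDiff_snd.comp (hev _)
  have sα : ContDiff ℝ ∞ α := contDiff_const.mul (s1.sub (contDiff_const.mul s2))
  have sβ : ContDiff ℝ ∞ β := contDiff_const.mul (s1.add (contDiff_const.mul s2))
  have hGM : ∀ a, G a = Mst (x a) (y a) (α a) (β a) := by
    intro a
    refine ContinuousLinearMap.ext fun p => ?_
    obtain ⟨σ, v⟩ := p
    have e1 : ((σ, v) : ℝ × ℂ) = σ • ((1, 0) : ℝ × ℂ) + v.re • ((0, 1) : ℝ × ℂ) +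
        v.im • ((0, Complex.I) : ℝ × ℂ) := by
      refine Prod.ext ?_ ?_
      · simp
      · simp
    rw [Mst_apply]
    conv_lhs => rw [e1]
    rw [map_add, map_add, map_smul, map_smul, map_smul, he]
    refine Prod.ext ?_ ?_
    · show σ * 1 + v.re * x a + v.im * y a = _
      ring
    · have e2 : (σ • ((1, 0) : ℝ × ℂ) + v.re • G a (0, 1) + v.im • G a (0, Complex.I)).2 =
          v.re * g1 a + v.im * g2 a := by
        simp [hg1, hg2]
      rw [e2]
      have e3 := Complex.re_add_im v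
      have e4 : conj v = v.re - v.im * Complex.I := by
        apply Complex.ext <;> simp
      have e5 := Complex.I_mul_I
      show _ = (1 / 2 : ℂ) * (g1 a - Complex.I * g2 a) * v +
        (1 / 2 : ℂ) * (g1 a + Complex.I * g2 a) * conj v
      rw [e4]
      linear_combination (1 / 2 : ℂ) * (g1 a - Complex.I * g2 a) * e3 + (v.im * g2 a : ℂ) * e5
  have hid : ∀ a, (a ≤ 1 / 5 + δ ∨ 4 / 5 - δ ≤ a) → x a = 0 ∧ y a = 0 ∧ α a = 1 ∧ β a = 0 := by
    intro a ha
    have h1 := hG1 a ha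
    have e1 : g1 a = 1 := by simp only [hg1, h1]; rfl
    have e2 : g2 a = Complex.I := by simp only [hg2, h1]; rfl
    refine ⟨by simp only [hx, h1]; rfl, by simp only [hy, h1]; rfl, ?_, ?_⟩
    · show (1 / 2 : ℂ) * (g1 a - Complex.I * g2 a) = 1
      rw [e1, e2, Complex.I_mul_I]
      ring
    · show (1 / 2 : ℂ) * (g1 a + Complex.I * g2 a) = 0
      rw [e1, e2, Complex.I_mul_I]
      ring
  -- the determinant
  set D : ℝ → ℝ := fun a => Complex.normSq (α a) - Complex.normSq (β a) with hD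
  have hDc : Continuous D :=
    (Complex.continuous_normSq.comp sα.continuous).sub (Complex.continuous_normSq.comp sβ.continuous)
  have hD0 : ∀ a, D a ≠ 0 := by
    intro a h0
    obtain ⟨p, hp, hp'⟩ := Mst_ker (x := x a) (y := y a) (α := α a) (β := β a) (sub_eq_zero.1 h0)
    rw [← hGM] at hp'
    exact hp (hGi a p hp')
  have hD1 : D 0 = 1 := by
    obtain ⟨-, -, h1, h2⟩ := hid 0 (Or.inl (by linarith))
    show Complex.normSq (α 0) - Complex.normSq (β 0) = 1
    rw [h1, h2]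
    simp
  have hDpos : ∀ a, 0 < D a := by
    intro a
    by_contra hneg
    have hneg' : D a ≤ 0 := not_lt.1 hneg
    obtain ⟨c, -, hc⟩ := intermediate_value_uIcc (f := D) (a := a) (b := 0) hDc.continuousOn
      (show (0 : ℝ) ∈ uIcc (D a) (D 0) by
        rw [hD1, uIcc_of_le (by linarith)]
        exact ⟨hneg', zero_le_one⟩)
    exact hD0 c hc
  have hlt : ∀ a, ‖β a‖ < ‖α a‖ := by
    intro a
    have h1 := hDpos a
    have h2 : Complex.normSq (α a) = ‖α a‖ ^ 2 := Complex.normSq_eq_norm_sq _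
    have h3 : Complex.normSq (β a) = ‖β a‖ ^ 2 := Complex.normSq_eq_norm_sq _
    have h4 : 0 < ‖α a‖ ^ 2 - ‖β a‖ ^ 2 := by rw [← h2, ← h3]; exact h1
    exact lt_of_pow_lt_pow_left₀ 2 (norm_nonneg _) (by linarith)
  have hα0 : ∀ a, α a ≠ 0 := fun a => norm_pos_iff.1 ((norm_nonneg _).trans_lt (hlt a))
  obtain ⟨η, k, sη, hexp, hη1, hη2⟩ := exists_log sα hα0 hδ (fun a ha => (hid a ha).2.2.1)
  have hδ2 : 0 < δ / 2 := by linarith
  refine ⟨fun a => (η a).im, k, ⟨Complex.imCLM.contDiff.comp sη, δ / 2, hδ2, ?_, ?_⟩, ?_⟩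
  · intro a ha
    show (η a).im = 0
    rw [hη1 a ha, Complex.zero_im]
  · intro a ha
    show (η a).im = 2 * Real.pi * k
    rw [hη2 a ha]
    simp
    ring
  · have hre : ∀ a, (a ≤ 1 / 5 + δ / 2 ∨ 4 / 5 - δ / 2 ≤ a) → (η a).re = 0 := by
      rintro a (ha | ha)
      · rw [hη1 a ha, Complex.zero_re]
      · rw [hη2 a ha]
        simp
    refine Relation.ReflTransGen.single ⟨fun p : ℝ × ℝ => Mst ((1 - p.1) * x p.2)
      ((1 - p.1) * y p.2) ((Real.exp (-(p.1 * (η p.2).re)) : ℝ) * α p.2)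
      (((1 - p.1) * Real.exp (-(p.1 * (η p.2).re)) : ℝ) * β p.2), ⟨?_, ?_, ?_⟩, ?_, ?_⟩
    · have t1 : ContDiff ℝ ∞ fun p : ℝ × ℝ => 1 - p.1 := contDiff_const.sub contDiff_fst
      have t2 : ContDiff ℝ ∞ fun p : ℝ × ℝ => Real.exp (-(p.1 * (η p.2).re)) :=
        Real.contDiff_exp.comp ((contDiff_fst.mul
          (Complex.reCLM.contDiff.comp (sη.comp contDiff_snd))).neg)
      refine Mst_smooth (t1.mul (sx.comp contDiff_snd)) (t1.mul (sy.comp contDiff_snd)) ?_ ?_
      · exact (Complex.ofRealCLM.contDiff.comp t2).mul (sα.comp contDiff_snd)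
      · exact (Complex.ofRealCLM.contDiff.comp (t1.mul t2)).mul (sβ.comp contDiff_snd)
    · intro t ht a v hv
      refine Mst_inj ?_ v hv
      have h1 := Real.exp_pos (-(t * (η a).re))
      have hn : ∀ (r : ℝ) (w : ℂ), ‖(r : ℂ) * w‖ = |r| * ‖w‖ := fun r w => by
        rw [norm_mul, Complex.norm_real, Real.norm_eq_abs]
      show ‖(((1 - t) * Real.exp (-(t * (η a).re)) : ℝ) : ℂ) * β a‖ <
        ‖((Real.exp (-(t * (η a).re)) : ℝ) : ℂ) * α a‖
      rw [hn, hn, abs_of_pos h1, abs_of_nonneg (mul_nonneg (by linarith [ht.2]) h1.le)]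
      have h2 := hlt a
      have h3 := norm_nonneg (β a)
      calc (1 - t) * Real.exp (-(t * (η a).re)) * ‖β a‖
          ≤ 1 * Real.exp (-(t * (η a).re)) * ‖β a‖ := by
            refine mul_le_mul_of_nonneg_right (mul_le_mul_of_nonneg_right ?_ h1.le) h3
            linarith [ht.1]
        _ = Real.exp (-(t * (η a).re)) * ‖β a‖ := by ring
        _ < Real.exp (-(t * (η a).re)) * ‖α a‖ := mul_lt_mul_of_pos_left h2 h1
    · refine ⟨δ / 2, hδ2, fun t a ha => ?_⟩
      obtain ⟨e1, e2, e3, e4⟩ := hid a (by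
        rcases ha with ha | ha
        · left; linarith
        · right; linarith)
      have e5 := hre a ha
      show Mst ((1 - t) * x a) ((1 - t) * y a) ((Real.exp (-(t * (η a).re)) : ℝ) * α a)
        (((1 - t) * Real.exp (-(t * (η a).re)) : ℝ) * β a) = _
      rw [e1, e2, e3, e4, e5, mul_zero, mul_zero, mul_zero, neg_zero, Real.exp_zero,
        Complex.ofReal_one, one_mul, Mst_id]
    · intro a
      show Mst ((1 - 0) * x a) ((1 - 0) * y a) ((Real.exp (-(0 * (η a).re)) : ℝ) * α a)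
        (((1 - 0) * Real.exp (-(0 * (η a).re)) : ℝ) * β a) = G a
      rw [hGM a, zero_mul, neg_zero, Real.exp_zero]
      simp
    · intro a
      show Mst ((1 - 1) * x a) ((1 - 1) * y a) ((Real.exp (-(1 * (η a).re)) : ℝ) * α a)
        (((1 - 1) * Real.exp (-(1 * (η a).re)) : ℝ) * β a) = rotL _ a
      refine ContinuousLinearMap.ext fun p => ?_
      obtain ⟨σ, v⟩ := p
      rw [Mst_apply]
      have e1 : rotL (fun a => (η a).im) a (σ, v) =
          (σ, Complex.exp ((η a).im * Complex.I) * v) := by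
        simp [rotL]
      rw [e1]
      have e2 : ((Real.exp (-(1 * (η a).re)) : ℝ) : ℂ) * α a =
          Complex.exp ((η a).im * Complex.I) := by
        rw [← hexp a, Complex.ofReal_exp, ← Complex.exp_add]
        congr 1
        have e3 := Complex.re_add_im (η a)
        push_cast
        linear_combination -e3
      rw [e2]
      refine Prod.ext ?_ ?_
      · simp
      · simp

end Pool.Agent.Helper18.BI
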