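import Pool.Agent.Helper18.BI.StFr

/-!
# Project BI: module FR3 (rotations are absorbed by rotating the second cuff)
-/

set_option autoImplicit false

open scoped Manifold ContDiff Topology ComplexConjugate
open Set Pool.Agent.Helper65.Barb

namespace Pool.Agent.Helper18.BI

namespace FR3

/-- the rotation by the angle `t * om a` -/
noncomputable def Th (om : ℝ → ℝ) (q : ℝ × R4) : R4 :=
  (q.2.1, q.2.2.1, Complex.exp ((q.1 * om q.2.2.1 : ℝ) * Complex.I) * q.2.2.2)

theorem Th_smooth {om : ℝ → ℝ} (h : ContDiff ℝ ∞ om) : ContDiff ℝ ∞ (Th om) := by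
  unfold Th
  have h1 : ContDiff ℝ ∞ (fun q : ℝ × R4 => q.1 * om q.2.2.1) :=
    contDiff_fst.mul (h.comp (contDiff_fst.comp (contDiff_snd.comp contDiff_snd)))
  have h2 : ContDiff ℝ ∞ (fun q : ℝ × R4 =>
      Complex.exp ((q.1 * om q.2.2.1 : ℝ) * Complex.I)) := by
    refine ContDiff.cexp ?_
    exact (Complex.ofRealCLM.contDiff.comp h1).mul contDiff_const
  exact (contDiff_fst.comp contDiff_snd).prodMk
    ((contDiff_fst.comp (contDiff_snd.comp contDiff_snd)).prodMk
      (h2.mul (contDiff_snd.comp (contDiff_snd.comp contDiff_snd))))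

theorem Th_neg (om : ℝ → ℝ) (t : ℝ) (p : R4) : Th om (-t, Th om (t, p)) = p := by
  unfold Th
  dsimp only
  rw [← mul_assoc, ← Complex.exp_add]
  have : ((-t * om p.2.1 : ℝ) : ℂ) * Complex.I + ((t * om p.2.1 : ℝ) : ℂ) * Complex.I = 0 := by
    push_cast; ring
  rw [this, Complex.exp_zero, one_mul]

theorem normSq_exp (x : ℝ) (w : ℂ) :
    Complex.normSq (Complex.exp ((x : ℂ) * Complex.I) * w) = Complex.normSq w := by
  rw [map_mul, Complex.normSq_eq_norm_sq, Complex.norm_exp_ofReal_mul_I]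
  ring

theorem nsq_eq (x : ℝ × ℂ) : nsq x = x.1 ^ 2 + Complex.normSq x.2 := by
  unfold nsq
  rw [Complex.normSq_apply]; ring

theorem rsq_Th (om : ℝ → ℝ) (c t : ℝ) (p : R4) : rsq c (Th om (t, p)) = rsq c p := by
  unfold rsq Th
  rw [nsq_eq, nsq_eq]
  dsimp only
  rw [normSq_exp]

theorem Th_mem {om : ℝ → ℝ} (t : ℝ) {p : R4} (hp : p ∈ SP) : Th om (t, p) ∈ SP := by
  rcases hp with (hp | hp) | hp
  · exact Or.inl (Or.inl ⟨hp.1, by rw [rsq_Th]; exact hp.2⟩)
  · exact Or.inl (Or.inr ⟨hp.1, by rw [rsq_Th]; exact hp.2⟩)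
  · refine Or.inr ⟨hp.1, hp.2.1, hp.2.2.1, ?_⟩
    show Complex.exp _ * p.2.2 = 0
    rw [hp.2.2.2, mul_zero]

/-- the maximal open set on which `F` is smooth -/
def Om (F : R4 → R4) : Set R4 := ⋃₀ {U | IsOpen U ∧ ContDiffOn ℝ ∞ F U}

theorem Om_open (F : R4 → R4) : IsOpen (Om F) := isOpen_sUnion fun _ h => h.1

theorem Om_at {F : R4 → R4} {p : R4} (h : p ∈ Om F) : ContDiffAt ℝ ∞ F p := by
  obtain ⟨U, hU, hp⟩ := h
  exact hU.2.contDiffAt (hU.1.mem_nhds hp)

theorem fam (a0 : StA0) {F : R4 → R4} {om τ : ℝ → ℝ} (hF : EmbOn 𝓘(ℝ, R4) F SP)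
    (hom : ContDiff ℝ ∞ om) (hτ : ContDiff ℝ ∞ τ) :
    FamOn 𝓘(ℝ, R4) (fun q : ℝ × R4 => F (Th om (τ q.1, q.2))) SP := by
  have hsp : SP ⊆ Om F := by
    intro p hp
    obtain ⟨⟨U, h1, h2, h3⟩, -⟩ := (a0 R4 F p).1 (hF.1 p hp)
    exact ⟨U, ⟨h1, h3⟩, h2⟩
  have hJ : ContDiff ℝ ∞ (fun q : ℝ × R4 => Th om (τ q.1, q.2)) :=
    (Th_smooth hom).comp ((hτ.comp contDiff_fst).prodMk contDiff_snd)
  have hJt : ∀ t : ℝ, ContDiff ℝ ∞ (fun p : R4 => Th om (t, p)) := fun t =>
    (Th_smooth hom).comp (contDiff_const.prodMk contDiff_id)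
  refine ⟨⟨(fun q : ℝ × R4 => Th om (τ q.1, q.2)) ⁻¹' Om F, (Om_open F).preimage hJ.continuous,
    ?_, ?_⟩, ?_⟩
  · rintro ⟨t, p⟩ ⟨-, hp⟩
    exact hsp (Th_mem (τ t) hp)
  · rw [contMDiffOn_iff_contDiffOn]
    intro q hq
    exact ((Om_at hq).comp q hJ.contDiffAt).contDiffWithinAt
  · intro t _
    refine ⟨fun p hp => ?_, ?_⟩
    · have hp' := Th_mem (om := om) (τ t) hp
      refine (a0 R4 _ p).2 ⟨⟨(fun p : R4 => Th om (τ t, p)) ⁻¹' Om F,
        (Om_open F).preimage (hJt _).continuous, hsp hp', ?_⟩, ?_⟩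
      · intro q hq
        exact ((Om_at hq).comp q (hJt _).contDiffAt).contDiffWithinAt
      · intro v hv
        have hd : DifferentiableAt ℝ (fun p : R4 => Th om (τ t, p)) p :=
          (hJt _).contDiffAt.differentiableAt (by simp)
        have hd' : DifferentiableAt ℝ (fun p : R4 => Th om (-τ t, p)) (Th om (τ t, p)) :=
          (hJt _).contDiffAt.differentiableAt (by simp)
        have hFd : DifferentiableAt ℝ F (Th om (τ t, p)) :=
          (Om_at (hsp hp')).differentiableAt (by simp)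
        have e1 : fderiv ℝ (fun p : R4 => F (Th om (τ t, p))) p =
            (fderiv ℝ F (Th om (τ t, p))).comp (fderiv ℝ (fun p : R4 => Th om (τ t, p)) p) :=
          fderiv_comp p hFd hd
        have e1v : fderiv ℝ F (Th om (τ t, p)) (fderiv ℝ (fun p : R4 => Th om (τ t, p)) p v) = 0 := by
          have := congrArg (fun L : R4 →L[ℝ] R4 => L v) e1
          exact this.symm.trans hv
        have e2 := ((a0 R4 F _).1 (hF.1 _ hp')).2 _ e1v
        have e3 : fderiv ℝ (fun p : R4 => Th om (-τ t, Th om (τ t, p))) p =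
            (fderiv ℝ (fun p : R4 => Th om (-τ t, p)) (Th om (τ t, p))).comp
              (fderiv ℝ (fun p : R4 => Th om (τ t, p)) p) :=
          fderiv_comp (g := fun p : R4 => Th om (-τ t, p)) p hd' hd
        have e4 : (fun p : R4 => Th om (-τ t, Th om (τ t, p))) = id :=
          funext fun p => Th_neg om (τ t) p
        rw [e4, fderiv_id] at e3
        have e5 := congrArg (fun L : R4 →L[ℝ] R4 => L v) e3
        have e6 : v = fderiv ℝ (fun p : R4 => Th om (-τ t, p)) (Th om (τ t, p))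
            (fderiv ℝ (fun p : R4 => Th om (τ t, p)) p v) := e5
        rw [e2, map_zero] at e6
        exact e6
    · intro p hp q hq hpq
      have h1 := hF.2 (Th_mem (τ t) hp) (Th_mem (τ t) hq) hpq
      have h2 := congrArg (fun x => Th om (-τ t, x)) h1
      simp only [Th_neg] at h2
      exact h2

theorem Th_zero (om : ℝ → ℝ) (p : R4) : Th om (0, p) = p := by
  unfold Th
  simp

theorem Th_one (om : ℝ → ℝ) (p : R4) : Th om (1, p) = fib (rotL om) p := by
  unfold Th fib rotL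
  refine Prod.ext ?_ (Prod.ext rfl ?_)
  · show p.1 = 1 / 2 + (p.1 - 1 / 2)
    ring
  · show Complex.exp ((1 * om p.2.1 : ℝ) * Complex.I) * p.2.2 =
      Complex.exp (om p.2.1 * Complex.I) • p.2.2
    rw [one_mul, smul_eq_mul]

end FR3

theorem m_Fr3 (a0 : StA0) (t2 : StT2) : StFr3 := by
  intro F om k φ hF hom
  obtain ⟨-, -, h3, -⟩ := t2 R4 R4 𝓘(ℝ, R4) R4
  constructor
  · intro h
    have h1 := FR3.fam a0 hF hom.1 (τ := fun t => 1 - t) (contDiff_const.sub contDiff_id)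
    have h2 := h3 _ φ h1
    simp only [sub_zero, sub_self, FR3.Th_zero, FR3.Th_one] at h2
    exact h2 h
  · intro h
    have h1 := FR3.fam a0 hF hom.1 (τ := fun t => t) contDiff_id
    have h2 := h3 _ φ h1
    simp only [FR3.Th_zero, FR3.Th_one] at h2
    exact h2 h

end Pool.Agent.Helper18.BI
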