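import Pool.Agent.Helper18.BI.StFr

/-!
# Project BI (MP_8e98f2_gt), module Fr5: two germs with the same neck differ by a loop of frames
-/

set_option autoImplicit false

open scoped Manifold ContDiff Topology ComplexConjugate
open Set Pool.Agent.Helper65.Barb

namespace Pool.Agent.Helper18.BI

namespace FR5

/-- the points of the axis -/
private noncomputable def pt (a : ℝ) : R4 := (1 / 2, a, 0)

/-- inclusion of the normal space -/
private noncomputable def inj : (ℝ × ℂ) →L[ℝ] R4 :=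
  (ContinuousLinearMap.fst ℝ ℝ ℂ).prod
    ((0 : (ℝ × ℂ) →L[ℝ] ℝ).prod (ContinuousLinearMap.snd ℝ ℝ ℂ))

/-- projection to the normal space -/
private noncomputable def prj : R4 →L[ℝ] (ℝ × ℂ) :=
  (ContinuousLinearMap.fst ℝ ℝ (ℝ × ℂ)).prod
    ((ContinuousLinearMap.snd ℝ ℝ ℂ).comp (ContinuousLinearMap.snd ℝ ℝ (ℝ × ℂ)))

private theorem inj_apply (v : ℝ × ℂ) : inj v = (v.1, 0, v.2) := rfl

private theorem prj_apply (p : R4) : prj p = (p.1, p.2.2) := rfl

private theorem pt_smooth : ContDiff ℝ ∞ pt :=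
  contDiff_const.prodMk (contDiff_id.prodMk contDiff_const)

private theorem pt_deriv (a : ℝ) : HasDerivAt pt ((0, 1, 0) : R4) a :=
  (hasDerivAt_const a (1 / 2 : ℝ)).prodMk ((hasDerivAt_id a).prodMk (hasDerivAt_const a (0 : ℂ)))

private theorem pt_neck {a : ℝ} (h1 : 1 / 5 ≤ a) (h2 : a ≤ 4 / 5) : pt a ∈ neck :=
  ⟨rfl, h1, h2, rfl⟩

private theorem neck_SP : neck ⊆ SP := subset_union_right

private theorem germ (a0 : StA0) {F : R4 → R4} (hF : EmbOn 𝓘(ℝ, R4) F SP) {p : R4} (hp : p ∈ SP) :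
    ContDiffAt ℝ ∞ F p ∧ ∀ v, fderiv ℝ F p v = 0 → v = 0 := by
  obtain ⟨⟨U, hU, hpU, hc⟩, hinj⟩ := (a0 R4 F p).1 (hF.1 p hp)
  exact ⟨hc.contDiffAt (hU.mem_nhds hpU), hinj⟩

private theorem exE (L : R4 →L[ℝ] R4) (hL : ∀ v, L v = 0 → v = 0) :
    ∃ e : R4 ≃L[ℝ] R4, (e : R4 →L[ℝ] R4) = L := by
  have hi : Function.Injective (L : R4 →ₗ[ℝ] R4) := by
    intro x y hxy
    have : L (x - y) = 0 := by
      rw [map_sub]; exact sub_eq_zero.2 hxy
    exact sub_eq_zero.1 (hL _ this)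
  refine ⟨(LinearEquiv.ofInjectiveEndo (L : R4 →ₗ[ℝ] R4) hi).toContinuousLinearEquiv, ?_⟩
  ext v <;> rfl

/-- the transition map -/
private noncomputable def BB (F F' : R4 → R4) (a : ℝ) : R4 →L[ℝ] R4 :=
  (fderiv ℝ F (pt a)).inverse.comp (fderiv ℝ F' (pt a))

private noncomputable def MM (F F' : R4 → R4) (a : ℝ) : E3 :=
  prj.comp ((BB F F' a).comp inj)

private theorem BB_spec {F F' : R4 → R4} {a : ℝ}
    (hF : ∀ v, fderiv ℝ F (pt a) v = 0 → v = 0) (v : R4) :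
    fderiv ℝ F (pt a) (BB F F' a v) = fderiv ℝ F' (pt a) v := by
  obtain ⟨e, he⟩ := exE _ hF
  have : (fderiv ℝ F (pt a)).inverse = (e.symm : R4 →L[ℝ] R4) := by
    rw [← he, ContinuousLinearMap.inverse_equiv]
  unfold BB
  rw [this, ← he]
  simp

private theorem MM_smooth {F F' : R4 → R4} {a : ℝ} (h1 : ContDiffAt ℝ ∞ F (pt a))
    (h2 : ContDiffAt ℝ ∞ F' (pt a)) (hF : ∀ v, fderiv ℝ F (pt a) v = 0 → v = 0) :
    ContDiffAt ℝ ∞ (MM F F') a := by
  have d1 : ContDiffAt ℝ ∞ (fun x => fderiv ℝ F (pt x)) a :=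
    (h1.fderiv_right (m := ∞) (by simp)).comp a pt_smooth.contDiffAt
  have d2 : ContDiffAt ℝ ∞ (fun x => fderiv ℝ F' (pt x)) a :=
    (h2.fderiv_right (m := ∞) (by simp)).comp a pt_smooth.contDiffAt
  obtain ⟨e, he⟩ := exE _ hF
  have d3 : ContDiffAt ℝ ∞ (ContinuousLinearMap.inverse : (R4 →L[ℝ] R4) → (R4 →L[ℝ] R4))
      (fderiv ℝ F (pt a)) := by
    rw [← he]
    exact contDiffAt_map_inverse e
  have d4 : ContDiffAt ℝ ∞ (fun x => (fderiv ℝ F (pt x)).inverse) a :=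
    ContDiffAt.comp (f := fun x => fderiv ℝ F (pt x)) a d3 d1
  have d5 : ContDiffAt ℝ ∞ (BB F F') a := d4.clm_comp d2
  exact contDiffAt_const.clm_comp (d5.clm_comp contDiffAt_const)

private theorem fib_deriv {G : ℝ → E3} (hG : ContDiff ℝ ∞ G) (a : ℝ) (v : R4) :
    fderiv ℝ (fib G) (pt a) v = ((G a (v.1, v.2.2)).1, v.2.1, (G a (v.1, v.2.2)).2) := by
  have hG1 : HasFDerivAt (fun p : R4 => G p.2.1)
      ((fderiv ℝ G a).comp ((ContinuousLinearMap.fst ℝ ℝ ℂ).comp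
        (ContinuousLinearMap.snd ℝ ℝ (ℝ × ℂ)))) (pt a) := by
    have h0 : HasFDerivAt G (fderiv ℝ G a) ((pt a).2.1) :=
      (hG.differentiable (by simp) a).hasFDerivAt
    exact h0.comp (pt a) ((ContinuousLinearMap.fst ℝ ℝ ℂ).comp
        (ContinuousLinearMap.snd ℝ ℝ (ℝ × ℂ))).hasFDerivAt
  have hu : HasFDerivAt (fun p : R4 => (p.1 - 1 / 2, p.2.2)) prj (pt a) := by
    have h0 : HasFDerivAt (fun p : R4 => prj p - ((1 / 2 : ℝ), (0 : ℂ))) prj (pt a) :=
      prj.hasFDerivAt.sub_const _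
    refine h0.congr_of_eventuallyEq (Filter.Eventually.of_forall fun p => ?_)
    simp [prj_apply]
  have hv := hG1.clm_apply hu
  have hz : (((pt a).1 - 1 / 2, (pt a).2.2) : ℝ × ℂ) = 0 := by simp [pt]
  have hfib : HasFDerivAt (fib G)
      (((ContinuousLinearMap.fst ℝ ℝ ℂ).comp
        ((G (pt a).2.1).comp prj + (((fderiv ℝ G a).comp ((ContinuousLinearMap.fst ℝ ℝ ℂ).comp
        (ContinuousLinearMap.snd ℝ ℝ (ℝ × ℂ)))).flip ((pt a).1 - 1 / 2, (pt a).2.2)))).prod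
      (((ContinuousLinearMap.fst ℝ ℝ ℂ).comp
        (ContinuousLinearMap.snd ℝ ℝ (ℝ × ℂ))).prod
        ((ContinuousLinearMap.snd ℝ ℝ ℂ).comp
        ((G (pt a).2.1).comp prj + (((fderiv ℝ G a).comp ((ContinuousLinearMap.fst ℝ ℝ ℂ).comp
        (ContinuousLinearMap.snd ℝ ℝ (ℝ × ℂ)))).flip ((pt a).1 - 1 / 2, (pt a).2.2)))))) (pt a) := by
    have e1 := ((ContinuousLinearMap.fst ℝ ℝ ℂ).hasFDerivAt (x := G (pt a).2.1
      ((pt a).1 - 1 / 2, (pt a).2.2))).comp (pt a) hv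
    have e2 := ((ContinuousLinearMap.snd ℝ ℝ ℂ).hasFDerivAt (x := G (pt a).2.1
      ((pt a).1 - 1 / 2, (pt a).2.2))).comp (pt a) hv
    have e3 := ((ContinuousLinearMap.fst ℝ ℝ ℂ).comp
        (ContinuousLinearMap.snd ℝ ℝ (ℝ × ℂ))).hasFDerivAt (x := pt a)
    exact (e1.const_add (1 / 2)).prodMk (e3.prodMk e2)
  rw [hfib.fderiv, hz]
  simp [prj_apply, pt]

end FR5

open FR5

theorem m_Fr5 (a0 : StA0) (f1 : StFr1) (t8 : StT8) : StFr5 := by
  intro F F' U hF hF' hU hUs hEU hEn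
  have hs0 : ∀ p ∈ sph 0, p.2.1 ≤ 1 / 5 := by
    rintro p ⟨-, hp⟩
    have h : p.2.1 ^ 2 + p.2.2.re ^ 2 + p.2.2.im ^ 2 = 1 / 25 := by
      have := hp
      simp only [rsq, nsq, sub_zero] at this
      exact this
    nlinarith [sq_nonneg p.2.2.re, sq_nonneg p.2.2.im, sq_nonneg (p.2.1 - 1 / 5)]
  have hs1 : ∀ p ∈ sph 1, 4 / 5 ≤ p.2.1 := by
    rintro p ⟨-, hp⟩
    have h : (p.2.1 - 1) ^ 2 + p.2.2.re ^ 2 + p.2.2.im ^ 2 = 1 / 25 := by
      have := hp
      simp only [rsq, nsq] at this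
      exact this
    nlinarith [sq_nonneg p.2.2.re, sq_nonneg p.2.2.im, sq_nonneg (p.2.1 - 1 + 1 / 5)]
  have hp0 : pt (1 / 5) ∈ sph 0 := by
    refine ⟨rfl, ?_⟩
    simp only [rsq, nsq, pt]
    norm_num
  have hp1 : pt (4 / 5) ∈ sph 1 := by
    refine ⟨rfl, ?_⟩
    simp only [rsq, nsq, pt]
    norm_num
  -- the ends
  obtain ⟨r0, hr0, hr0'⟩ : ∃ r > 0, ∀ a, |a - 1 / 5| < r → pt a ∈ U := by
    have h : ∀ᶠ a in 𝓝 (1 / 5 : ℝ), pt a ∈ U :=
      pt_smooth.continuous.continuousAt.eventually (hU.mem_nhds (hUs (Or.inl hp0)))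
    obtain ⟨r, hr, h⟩ := Metric.eventually_nhds_iff.1 h
    exact ⟨r, hr, fun a ha => h (by rwa [Real.dist_eq])⟩
  obtain ⟨r1, hr1, hr1'⟩ : ∃ r > 0, ∀ a, |a - 4 / 5| < r → pt a ∈ U := by
    have h : ∀ᶠ a in 𝓝 (4 / 5 : ℝ), pt a ∈ U :=
      pt_smooth.continuous.continuousAt.eventually (hU.mem_nhds (hUs (Or.inr hp1)))
    obtain ⟨r, hr, h⟩ := Metric.eventually_nhds_iff.1 h
    exact ⟨r, hr, fun a ha => h (by rwa [Real.dist_eq])⟩
  obtain ⟨δ, hδ, hδ0, hδ1, hδ2⟩ : ∃ δ : ℝ, 0 < δ ∧ δ < r0 ∧ δ < r1 ∧ δ ≤ 1 / 10 :=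
    ⟨min (min (r0 / 2) (r1 / 2)) (1 / 10), by positivity,
      lt_of_le_of_lt ((min_le_left _ _).trans (min_le_left _ _)) (by linarith),
      lt_of_le_of_lt ((min_le_left _ _).trans (min_le_right _ _)) (by linarith), min_le_right _ _⟩
  -- equality of the germs on `U`
  have hnear : ∀ p ∈ U, F =ᶠ[𝓝 p] F' := fun p hp =>
    Filter.eventually_of_mem (hU.mem_nhds hp) hEU
  have hMid : ∀ a, 1 / 5 ≤ a → a ≤ 4 / 5 → pt a ∈ U → MM F F' a = ContinuousLinearMap.id ℝ (ℝ × ℂ) := by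
    intro a h1 h2 haU
    have hg := germ a0 hF (neck_SP (pt_neck h1 h2))
    have hB : ∀ v, BB F F' a v = v := by
      intro v
      have := BB_spec (F' := F') hg.2 v
      rw [← (hnear _ haU).fderiv_eq] at this
      have h3 : fderiv ℝ F (pt a) (BB F F' a v - v) = 0 := by rw [map_sub, this, sub_self]
      exact sub_eq_zero.1 (hg.2 _ h3)
    ext1
    · ext <;> simp [MM, hB, inj_apply, prj_apply]
    · ext <;> simp [MM, hB, inj_apply, prj_apply]
  -- the axis direction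
  have hax : ∀ a, 1 / 5 < a → a < 4 / 5 → BB F F' a (0, 1, 0) = (0, 1, 0) := by
    intro a h1 h2
    have hg := germ a0 hF (neck_SP (pt_neck h1.le h2.le))
    have hg' := germ a0 hF' (neck_SP (pt_neck h1.le h2.le))
    have d1 : HasDerivAt (fun x => F (pt x)) (fderiv ℝ F (pt a) (0, 1, 0)) a :=
      (hg.1.differentiableAt (by simp)).hasFDerivAt.comp_hasDerivAt a (pt_deriv a)
    have d2 : HasDerivAt (fun x => F' (pt x)) (fderiv ℝ F' (pt a) (0, 1, 0)) a :=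
      (hg'.1.differentiableAt (by simp)).hasFDerivAt.comp_hasDerivAt a (pt_deriv a)
    have he : (fun x => F (pt x)) =ᶠ[𝓝 a] fun x => F' (pt x) := by
      filter_upwards [Ioo_mem_nhds h1 h2] with x hx
      exact hEn (pt_neck hx.1.le hx.2.le)
    have h3 : fderiv ℝ F (pt a) (0, 1, 0) = fderiv ℝ F' (pt a) (0, 1, 0) :=
      d1.unique (d2.congr_of_eventuallyEq he)
    have h4 : fderiv ℝ F (pt a) (BB F F' a (0, 1, 0) - (0, 1, 0)) = 0 := by
      rw [map_sub, BB_spec hg.2, h3, sub_self]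
    exact sub_eq_zero.1 (hg.2 _ h4)
  have hBinj : ∀ a, 1 / 5 < a → a < 4 / 5 → ∀ v, BB F F' a v = 0 → v = 0 := by
    intro a h1 h2 v hv
    have hg := germ a0 hF (neck_SP (pt_neck h1.le h2.le))
    have hg' := germ a0 hF' (neck_SP (pt_neck h1.le h2.le))
    apply hg'.2
    rw [← BB_spec hg.2, hv, map_zero]
  -- decomposition of `BB`
  have hdec : ∀ a, 1 / 5 < a → a < 4 / 5 → ∀ v : ℝ × ℂ, ∃ b : ℝ, ∀ α : ℝ,
      BB F F' a (v.1, α, v.2) = ((MM F F' a v).1, α + b, (MM F F' a v).2) := by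
    intro a h1 h2 v
    refine ⟨(BB F F' a (inj v)).2.1, fun α => ?_⟩
    have e : ((v.1, α, v.2) : R4) = inj v + α • ((0, 1, 0) : R4) := by
      simp [inj_apply]
    rw [e, map_add, map_smul, hax a h1 h2]
    ext <;> simp [MM, prj_apply, add_comm]
  have hMinj : ∀ a, 1 / 5 < a → a < 4 / 5 → ∀ v, MM F F' a v = 0 → v = 0 := by
    intro a h1 h2 v hv
    obtain ⟨b, hb⟩ := hdec a h1 h2 v
    have := hb (-b)
    rw [hv] at this
    have h3 : ((v.1, -b, v.2) : R4) = 0 := by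
      apply hBinj a h1 h2
      rw [this]
      simp
    have h4 := congrArg Prod.fst h3
    have h5 := congrArg (fun q : R4 => q.2.2) h3
    exact Prod.ext h4 h5
  -- the loop
  classical
  let G : ℝ → E3 := fun a =>
    if 1 / 5 < a ∧ a < 4 / 5 then MM F F' a else ContinuousLinearMap.id ℝ (ℝ × ℂ)
  have hGend : ∀ a, (a ≤ 1 / 5 + δ ∨ 4 / 5 - δ ≤ a) → G a = ContinuousLinearMap.id ℝ (ℝ × ℂ) := by
    intro a ha
    by_cases h : 1 / 5 < a ∧ a < 4 / 5
    · rw [show G a = MM F F' a from if_pos h]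
      apply hMid a h.1.le h.2.le
      rcases ha with ha | ha
      · apply hr0'
        rw [abs_lt]; constructor <;> linarith [h.1]
      · apply hr1'
        rw [abs_lt]; constructor <;> linarith [h.2]
    · exact if_neg h
  have hGmid : ∀ a, 1 / 5 < a → a < 4 / 5 → G a = MM F F' a := fun a h1 h2 => if_pos ⟨h1, h2⟩
  have hGs : ContDiff ℝ ∞ G := by
    rw [contDiff_iff_contDiffAt]
    intro a
    by_cases h1 : a < 1 / 5 + δ
    · refine (contDiffAt_const (c := ContinuousLinearMap.id ℝ (ℝ × ℂ))).congr_of_eventuallyEq ?_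
      filter_upwards [Iio_mem_nhds h1] with x hx
      exact hGend x (Or.inl (le_of_lt hx))
    by_cases h2 : 4 / 5 - δ < a
    · refine (contDiffAt_const (c := ContinuousLinearMap.id ℝ (ℝ × ℂ))).congr_of_eventuallyEq ?_
      filter_upwards [Ioi_mem_nhds h2] with x hx
      exact hGend x (Or.inr (le_of_lt hx))
    have h3 : 1 / 5 < a := by linarith [not_lt.1 h1]
    have h4 : a < 4 / 5 := by linarith [not_lt.1 h2]
    have hg := germ a0 hF (neck_SP (pt_neck h3.le h4.le))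
    have hg' := germ a0 hF' (neck_SP (pt_neck h3.le h4.le))
    refine (MM_smooth hg.1 hg'.1 hg.2).congr_of_eventuallyEq ?_
    filter_upwards [Ioo_mem_nhds h3 h4] with x hx
    exact hGmid x hx.1 hx.2
  have hGinj : ∀ a v, G a v = 0 → v = 0 := by
    intro a v hv
    by_cases h : 1 / 5 < a ∧ a < 4 / 5
    · rw [hGmid a h.1 h.2] at hv
      exact hMinj a h.1 h.2 v hv
    · rw [show G a = _ from if_neg h] at hv
      simpa using hv
  have hGL : LoopOK G := ⟨hGs, hGinj, δ, hδ, hGend⟩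
  refine ⟨G, hGL, ?_⟩
  obtain ⟨-, hfs, hfSP, δ', hδ', hfend⟩ := f1.1 G hGL
  -- the second germ
  have hHom : HomOK (fun q : ℝ × ℝ => G q.2) :=
    ⟨hGs.comp contDiff_snd, fun t _ a v h => hGinj a v h, δ, hδ, fun t a h => hGend a h⟩
  have hF2 : EmbOn 𝓘(ℝ, R4) (fun p => F (fib G p)) SP :=
    (f1.2 _ F hHom hF).2 0 ⟨le_refl _, zero_le_one⟩
  have hES : EqOn F F' SP := by
    rintro p (hp | hp)
    · exact hEU (hUs hp)
    · exact hEn hp
  apply t8 _ F' hF2 hF'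
  · intro p hp
    show F (fib G p) = F' p
    rw [hfSP p hp, hES hp]
  intro p hp t ht v hv
  -- near the cuffs
  have hcuff : ∀ q ∈ sph 0 ∪ sph 1, p = q → v = 0 := by
    intro q hq hpq
    subst hpq
    have h1 : (fun p => F (fib G p)) =ᶠ[𝓝 p] F' := by
      have h2 : ∀ᶠ x : R4 in 𝓝 p, x.2.1 ≤ 1 / 5 + δ' ∨ 4 / 5 - δ' ≤ x.2.1 := by
        have hc : Continuous fun x : R4 => x.2.1 := continuous_fst.comp continuous_snd
        rcases hq with hq | hq
        · have h3 := hs0 p hq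
          filter_upwards [(isOpen_lt hc continuous_const).mem_nhds
            (show p.2.1 < 1 / 5 + δ' by linarith)] with x hx
          exact Or.inl (le_of_lt hx)
        · have h3 := hs1 p hq
          filter_upwards [(isOpen_lt continuous_const hc).mem_nhds
            (show 4 / 5 - δ' < p.2.1 by linarith)] with x hx
          exact Or.inr (le_of_lt hx)
      filter_upwards [h2, hnear p (hUs hq)] with x hx hx'
      rw [hfend x hx, hx']
    rw [h1.fderiv_eq, ← add_smul, sub_add_cancel, one_smul] at hv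
    exact (germ a0 hF' hp).2 v hv
  rcases hp with hp' | hp'
  · exact hcuff p hp' rfl
  obtain ⟨hps, hpa1, hpa2, hpw⟩ := hp'
  have hpe : p = pt p.2.1 := Prod.ext hps (Prod.ext rfl hpw)
  generalize p.2.1 = a at hpe hpa1 hpa2
  rcases hpa1.eq_or_lt with h1 | h1
  · exact hcuff _ (Or.inl hp0) (by rw [hpe, ← h1])
  rcases hpa2.eq_or_lt with h2 | h2
  · exact hcuff _ (Or.inr hp1) (by rw [hpe, h2])
  have hg := germ a0 hF (neck_SP (pt_neck h1.le h2.le))
  have hcomp : fderiv ℝ (fun p => F (fib G p)) (pt a) v =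
      fderiv ℝ F (pt a) (fderiv ℝ (fib G) (pt a) v) := by
    have hfp : fib G (pt a) = pt a := hfSP _ (neck_SP (pt_neck h1.le h2.le))
    have h5 : HasFDerivAt F (fderiv ℝ F (pt a)) (fib G (pt a)) := by
      rw [hfp]; exact (hg.1.differentiableAt (by simp)).hasFDerivAt
    have h6 : HasFDerivAt (fib G) (fderiv ℝ (fib G) (pt a)) (pt a) :=
      (hfs.differentiable (by simp) _).hasFDerivAt
    have h7 := h5.comp (pt a) h6
    have h8 : fderiv ℝ (fun p => F (fib G p)) (pt a) =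
      (fderiv ℝ F (pt a)).comp (fderiv ℝ (fib G) (pt a)) := h7.fderiv
    rw [h8]; rfl
  rw [hpe, hcomp, fib_deriv hGs, ← BB_spec (F' := F') hg.2 v, ← map_smul, ← map_smul, ← map_add,
    hGmid a h1 h2] at hv
  have h9 := hg.2 _ hv
  obtain ⟨b, hb⟩ := hdec a h1 h2 (v.1, v.2.2)
  have h10 : BB F F' a v = ((MM F F' a (v.1, v.2.2)).1, v.2.1 + b, (MM F F' a (v.1, v.2.2)).2) :=
    hb v.2.1
  rw [h10] at h9
  have c1 := congrArg Prod.fst h9
  have c2 := congrArg (fun q : R4 => q.2.1) h9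
  have c3 := congrArg (fun q : R4 => q.2.2) h9
  simp only [Prod.fst_add, Prod.snd_add, Prod.smul_fst, Prod.smul_snd, Prod.fst_zero,
    Prod.snd_zero, ← add_smul, sub_add_cancel, one_smul] at c1 c2 c3
  have h11 : MM F F' a (v.1, v.2.2) = 0 := Prod.ext c1 c3
  have h12 := hMinj a h1 h2 _ h11
  have h13 : v.1 = 0 := congrArg Prod.fst h12
  have h14 : v.2.2 = 0 := congrArg Prod.snd h12
  have h15 : b = 0 := by
    have := hb 0
    rw [h11] at this
    rw [h12] at this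
    have h16 : BB F F' a (((0 : ℝ × ℂ).1, 0, (0 : ℝ × ℂ).2) : R4) = 0 := by
      rw [show (((0 : ℝ × ℂ).1, 0, (0 : ℝ × ℂ).2) : R4) = 0 from rfl, map_zero]
    rw [h16] at this
    have := congrArg (fun q : R4 => q.2.1) this
    simpa using this.symm
  rw [h15] at c2
  have h17 : v.2.1 = 0 := by
    simp only [smul_eq_mul] at c2
    linarith
  exact Prod.ext h13 (Prod.ext h17 h14)

end Pool.Agent.Helper18.BI
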