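import Pool.Agent.Helper18.BI.StA

/-!
# Project BI (MP_8e98f2_gt): module N1, the subgroup `N` is normal
-/

set_option autoImplicit false

open scoped Manifold ContDiff Topology ComplexConjugate
open Set Pool.Agent.Helper65.Barb

namespace Pool.Agent.Helper18.BI

namespace N1

variable {E : Type} [NormedAddCommGroup E] [NormedSpace ℝ E] {H : Type} [TopologicalSpace H]
    {I : ModelWithCorners ℝ E H} {M : Type} [TopologicalSpace M] [ChartedSpace H M]

/-- composition of a germ with a diffeomorphism -/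
theorem embOn_comp {F : R4 → M} {L : Set R4} (hF : EmbOn I F L) {Ψ Ψ' : M → M}
    (h1 : ContMDiff I I ∞ Ψ) (h2 : ContMDiff I I ∞ Ψ') (h3 : ∀ x, Ψ (Ψ' x) = x)
    (h4 : ∀ x, Ψ' (Ψ x) = x) : EmbOn I (fun p => Ψ (F p)) L := by
  let D : Diffeomorph I I M M ∞ :=
    { toFun := Ψ
      invFun := Ψ'
      left_inv := h4
      right_inv := h3
      contMDiff_toFun := h1
      contMDiff_invFun := h2 }
  refine ⟨fun p hp => ?_, fun p hp q hq hpq => ?_⟩
  · have hD : IsLocalDiffeomorphAt I I ∞ Ψ (F p) := D.isLocalDiffeomorph (F p)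
    exact IsLocalDiffeomorphAt.comp (K := I) (P := M) (hf := hF.1 p hp) (hg := hD)
  · apply hF.2 hp hq
    have := congrArg Ψ' hpq
    simpa only [h4] using this

/-- composition of a bounding ball with a diffeomorphism -/
theorem boundsOff_comp {F : R4 → M} {c d : ℝ} (hF : BoundsOff I F c d) {Ψ Ψ' : M → M}
    (h1 : ContMDiff I I ∞ Ψ) (h2 : ContMDiff I I ∞ Ψ') (h3 : ∀ x, Ψ (Ψ' x) = x)
    (h4 : ∀ x, Ψ' (Ψ x) = x) : BoundsOff I (fun p => Ψ (F p)) c d := by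
  obtain ⟨G, hG, hGF, hdis⟩ := hF
  refine ⟨fun p => Ψ (G p), embOn_comp hG h1 h2 h3 h4, fun p hp => ?_, ?_⟩
  · change Ψ (G p) = Ψ (F p)
    rw [hGF p hp]
  · rw [Set.disjoint_left] at hdis ⊢
    rintro y ⟨p, hp, rfl⟩ ⟨q, hq, hpq⟩
    apply hdis ⟨p, hp, rfl⟩
    refine ⟨q, hq, ?_⟩
    have := congrArg Ψ' hpq
    simpa only [h4] using this

/-- the time `0` map of a family is smooth -/
theorem smooth_of_cIsot {φ ψ : M → M} (h : CIsot I φ ψ) : ContMDiff I I ∞ φ := by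
  obtain ⟨F, -, h0, -⟩ := h
  have h1 : ContMDiff I (𝓘(ℝ, ℝ).prod I) ∞ (fun x : M => ((0 : ℝ), x)) :=
    contMDiff_const.prodMk contMDiff_id
  have h2 : ContMDiff I I ∞ (fun x : M => F.f (0, x)) := F.smooth_f.comp h1
  have h3 : (fun x : M => F.f (0, x)) = φ := funext h0
  rw [h3] at h2
  exact h2

end N1

theorem m_N1 (t2 : StT2) (ci : StCI) : StN1 := by
  intro E _ _ H _ I M _ _ _
  obtain ⟨-, -, -, -, -, hnat, hrep⟩ := t2 E H I M
  obtain ⟨cone, csymm, cself, ctrans, cmul, cinv, cex, cconj, -, -⟩ := ci E H I M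
  -- the conjugation statement
  have hconj : ∀ φ Ψ Ψ' : M → M, InN I φ → ContMDiff I I ∞ Ψ → ContMDiff I I ∞ Ψ' →
      (∀ x, Ψ (Ψ' x) = x) → (∀ x, Ψ' (Ψ x) = x) → InN I (fun x => Ψ (φ (Ψ' x))) := by
    intro φ Ψ Ψ' hφ h1 h2 h3 h4
    induction hφ with
    | one =>
      have : (fun x : M => Ψ (Ψ' x)) = fun x => x := funext h3
      change InN I (fun x : M => Ψ (Ψ' x))
      rw [this]
      exact InN.one
    | gen F φ hF hHS hT =>
      refine InN.gen (fun p => Ψ (F p)) _ (N1.embOn_comp hF h1 h2 h3 h4) ?_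
        (hnat F φ Ψ Ψ' h1 h2 h3 h4 hT)
      rcases hHS with h | h
      · exact Or.inl (N1.boundsOff_comp h h1 h2 h3 h4)
      · exact Or.inr (N1.boundsOff_comp h h1 h2 h3 h4)
    | mul φ ψ _ _ ih1 ih2 =>
      have h := InN.mul _ _ ih1 ih2
      have e : (fun x => Ψ (φ (Ψ' (Ψ (ψ (Ψ' x)))))) = fun x => Ψ (φ (ψ (Ψ' x))) := by
        funext x
        rw [h4]
      have h' : InN I (fun x => Ψ (φ (Ψ' (Ψ (ψ (Ψ' x)))))) := h
      rw [e] at h'
      exact h'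
    | inv φ ψ _ hi1 hi2 ih =>
      refine InN.inv _ _ ih (fun x => ?_) (fun x => ?_)
      · rw [h4, hi1, h3]
      · rw [h4, hi2, h3]
    | isot φ ψ _ hi ih =>
      exact InN.isot _ _ ih (cconj φ ψ Ψ Ψ' hi h1 h2 h3 h4)
  refine ⟨?_, hconj, ?_⟩
  · intro φ hφ
    induction hφ with
    | one => exact cone
    | gen F φ _ _ hT => exact hrep F φ hT
    | mul φ ψ _ _ ih1 ih2 => exact cmul φ φ ψ ψ ih1 ih2
    | inv φ ψ _ hi1 _ ih => exact cinv φ φ ψ ψ ih hi1 hi1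
    | isot φ ψ _ hi _ => exact cself ψ φ (csymm φ ψ hi)
  · intro φ n hn hφ
    obtain ⟨φ', hφ', e1, e2⟩ := cex φ hφ
    refine ⟨fun x => φ (n (φ' x)), hconj n φ φ' hn (N1.smooth_of_cIsot hφ)
      (N1.smooth_of_cIsot hφ') e1 e2, fun x => ?_⟩
    change φ (n x) = φ (n (φ' (φ x)))
    rw [e2]

end Pool.Agent.Helper18.BI
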