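import Pool.Agent.Helper18.BI.StA

/-!
# Project BI, module S0: triangular maps are injective local diffeomorphisms
-/

set_option autoImplicit false

open scoped Manifold ContDiff Topology ComplexConjugate
open Set Pool.Agent.Helper65.Barb

namespace Pool.Agent.Helper18.BI

namespace S0

theorem radial_strictMono (f f' : ℝ → ℝ) (hf : ∀ k, 0 ≤ k → HasDerivAt f (f' k) k)
    (hpos : ∀ k, 0 ≤ k → 0 < f k + 2 * k * f' k) : StrictMono (fun r : ℝ => f (r ^ 2) * r) := by
  have hd : ∀ r : ℝ, HasDerivAt (fun r : ℝ => f (r ^ 2) * r) (f (r ^ 2) + 2 * r ^ 2 * f' (r ^ 2))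
      r := by
    intro r
    have h1 : HasDerivAt (fun r : ℝ => r ^ 2) (2 * r) r := by
      simpa using hasDerivAt_pow 2 r
    have h2 : HasDerivAt (fun r : ℝ => f (r ^ 2)) (f' (r ^ 2) * (2 * r)) r :=
      HasDerivAt.comp (h := fun r : ℝ => r ^ 2) (h₂ := f) r (hf (r ^ 2) (sq_nonneg r)) h1
    have h3 := h2.mul (hasDerivAt_id r)
    refine h3.congr_deriv ?_
    simp only [id]
    ring
  apply strictMono_of_deriv_pos
  intro r
  rw [(hd r).deriv]
  exact hpos _ (sq_nonneg r)

theorem tri_inj (α : ℝ) (β β' : ℝ → ℝ) (h h' : ℝ → ℝ → ℝ) (hα : 0 < α)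
    (hβ : ∀ a, HasDerivAt β (β' a) a) (hβ' : ∀ a, 0 < β' a)
    (hh : ∀ a k, 0 ≤ k → HasDerivAt (h a) (h' a k) k)
    (hp : ∀ a k, 0 ≤ k → 0 < h a k ∧ 0 < h a k + 2 * k * h' a k) :
    Function.Injective (tri α β h) := by
  intro p q hpq
  obtain ⟨s, a, w⟩ := p
  obtain ⟨s', a', w'⟩ := q
  simp only [tri, Prod.mk.injEq] at hpq
  obtain ⟨h1, h2, h3⟩ := hpq
  have hs : s = s' := by
    have : α * (s - s') = 0 := by linarith
    rcases mul_eq_zero.1 this with h | h
    · exact absurd h hα.ne'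
    · linarith
  have hmono : StrictMono β := by
    apply strictMono_of_deriv_pos
    intro r
    rw [(hβ r).deriv]
    exact hβ' r
  have ha : a = a' := hmono.injective h2
  subst hs
  subst ha
  have hr : StrictMono (fun r : ℝ => h a (r ^ 2) * r) :=
    radial_strictMono (h a) (h' a) (hh a) (fun k hk => (hp a k hk).2)
  have hn : ∀ z : ℂ, Complex.normSq z = ‖z‖ ^ 2 := fun z => Complex.normSq_eq_norm_sq z
  have h4 : h a (‖w‖ ^ 2) * ‖w‖ = h a (‖w'‖ ^ 2) * ‖w'‖ := by
    have h5 := congrArg norm h3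
    rw [norm_mul, norm_mul, Complex.norm_real, Complex.norm_real, hn, hn,
      Real.norm_of_nonneg (hp a _ (sq_nonneg _)).1.le,
      Real.norm_of_nonneg (hp a _ (sq_nonneg _)).1.le] at h5
    exact h5
  have h5 : ‖w‖ = ‖w'‖ := hr.injective h4
  rw [hn, hn, h5] at h3
  have h6 : ((h a (‖w'‖ ^ 2) : ℝ) : ℂ) ≠ 0 := by
    exact_mod_cast (hp a _ (sq_nonneg _)).1.ne'
  rw [mul_left_cancel₀ h6 h3]

theorem tri_contDiffOn (α : ℝ) (β : ℝ → ℝ) (h : ℝ → ℝ → ℝ) (O : Set (ℝ × ℝ))
    (hβ : ContDiff ℝ ∞ β) (hO : IsOpen O)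
    (hh : ContDiffOn ℝ ∞ (fun x : ℝ × ℝ => h x.1 x.2) O) :
    IsOpen {p : R4 | (p.2.1, Complex.normSq p.2.2) ∈ O} ∧
    ContDiffOn ℝ ∞ (tri α β h) {p : R4 | (p.2.1, Complex.normSq p.2.2) ∈ O} := by
  have hns : ContDiff ℝ ∞ (fun z : ℂ => Complex.normSq z) := by
    have : (fun z : ℂ => Complex.normSq z) = fun z => ‖z‖ ^ 2 := by
      ext z
      exact Complex.normSq_eq_norm_sq z
    rw [this]
    exact contDiff_norm_sq ℝ
  have hg : ContDiff ℝ ∞ (fun p : R4 => (p.2.1, Complex.normSq p.2.2)) :=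
    (contDiff_fst.comp contDiff_snd).prodMk (hns.comp (contDiff_snd.comp contDiff_snd))
  refine ⟨hO.preimage hg.continuous, ?_⟩
  have h1 : ContDiff ℝ ∞ (fun p : R4 => 1 / 2 + α * (p.1 - 1 / 2)) :=
    contDiff_const.add (contDiff_const.mul (contDiff_fst.sub contDiff_const))
  have h2 : ContDiff ℝ ∞ (fun p : R4 => β p.2.1) := hβ.comp (contDiff_fst.comp contDiff_snd)
  have h3 : ContDiffOn ℝ ∞ (fun p : R4 => h p.2.1 (Complex.normSq p.2.2))
      {p : R4 | (p.2.1, Complex.normSq p.2.2) ∈ O} :=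
    hh.comp hg.contDiffOn (fun p hp => hp)
  have h4 : ContDiffOn ℝ ∞ (fun p : R4 => ((h p.2.1 (Complex.normSq p.2.2) : ℝ) : ℂ))
      {p : R4 | (p.2.1, Complex.normSq p.2.2) ∈ O} :=
    Complex.ofRealCLM.contDiff.comp_contDiffOn h3
  exact h1.contDiffOn.prodMk (h2.contDiffOn.prodMk
    (h4.mul (contDiff_snd.comp contDiff_snd).contDiffOn))

theorem tri_fderiv (α : ℝ) (β β' : ℝ → ℝ) (h h' : ℝ → ℝ → ℝ) (hα : 0 < α)
    (hβ : ∀ a, HasDerivAt β (β' a) a) (hβ' : ∀ a, 0 < β' a)
    (hh : ∀ a k, 0 ≤ k → HasDerivAt (h a) (h' a k) k)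
    (hp : ∀ a k, 0 ≤ k → 0 < h a k ∧ 0 < h a k + 2 * k * h' a k) (p v : R4)
    (hd : DifferentiableAt ℝ (tri α β h) p) (hv : fderiv ℝ (tri α β h) p v = 0) : v = 0 := by
  obtain ⟨s, a, w⟩ := p
  obtain ⟨σ, b, z⟩ := v
  -- the curve
  have hc : HasDerivAt (fun t : ℝ => tri α β h ((s, a, w) + t • (σ, b, z))) 0 0 := by
    have h1 : HasDerivAt (fun t : ℝ => ((s, a, w) : R4) + t • ((σ, b, z) : R4)) (σ, b, z) 0 := by
      have := ((hasDerivAt_id (0 : ℝ)).smul_const ((σ, b, z) : R4)).const_add ((s, a, w) : R4)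
      simpa using this
    have h2 : HasFDerivAt (tri α β h) (fderiv ℝ (tri α β h) (s, a, w))
        (((s, a, w) : R4) + (0 : ℝ) • ((σ, b, z) : R4)) := by
      rw [zero_smul, add_zero]
      exact hd.hasFDerivAt
    have h3 := h2.comp_hasDerivAt (0 : ℝ) h1
    rw [hv] at h3
    exact h3
  have e1 : ∀ t : ℝ, tri α β h ((s, a, w) + t • (σ, b, z)) =
      (1 / 2 + α * (s + t * σ - 1 / 2), β (a + t * b),
        ((h (a + t * b) (Complex.normSq (w + t * z)) : ℝ) : ℂ) * (w + t * z)) := by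
    intro t
    simp [tri]
  simp only [e1] at hc
  -- first coordinate
  have hσ : σ = 0 := by
    have h1 := (ContinuousLinearMap.fst ℝ ℝ (ℝ × ℂ)).hasFDerivAt.comp_hasDerivAt (0 : ℝ) hc
    have h2 : HasDerivAt (fun t : ℝ => 1 / 2 + α * (s + t * σ - 1 / 2)) (α * σ) 0 := by
      have h3 : HasDerivAt (fun t : ℝ => s + t * σ - 1 / 2) σ 0 := by
        have := (((hasDerivAt_id (0 : ℝ)).mul_const σ).const_add s).sub_const (1 / 2)
        simpa using this
      exact (h3.const_mul α).const_add (1 / 2)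
    have h4 : α * σ = 0 := by
      have h5 := h2.unique h1
      simpa using h5
    rcases mul_eq_zero.1 h4 with h5 | h5
    · exact absurd h5 hα.ne'
    · exact h5
  -- second coordinate
  have hb : b = 0 := by
    have h1 := ((ContinuousLinearMap.fst ℝ ℝ ℂ).comp
      (ContinuousLinearMap.snd ℝ ℝ (ℝ × ℂ))).hasFDerivAt.comp_hasDerivAt (0 : ℝ) hc
    have h2 : HasDerivAt (fun t : ℝ => β (a + t * b)) (β' a * b) 0 := by
      have h3 : HasDerivAt (fun t : ℝ => a + t * b) b 0 := by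
        have := ((hasDerivAt_id (0 : ℝ)).mul_const b).const_add a
        simpa using this
      have h4 : HasDerivAt β (β' a) (a + 0 * b) := by simpa using hβ a
      exact h4.comp (0 : ℝ) h3
    have h4 : β' a * b = 0 := by
      have h5 := h2.unique h1
      simpa using h5
    rcases mul_eq_zero.1 h4 with h5 | h5
    · exact absurd h5 (hβ' a).ne'
    · exact h5
  subst hσ
  subst hb
  -- third coordinate
  set k : ℝ := Complex.normSq w with hk
  have hk0 : 0 ≤ k := Complex.normSq_nonneg w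
  set m : ℝ := w.re * z.re + w.im * z.im with hm
  have hN : HasDerivAt (fun t : ℝ => Complex.normSq (w + t * z)) (2 * m) 0 := by
    have e2 : (fun t : ℝ => Complex.normSq (w + t * z)) =
        fun t => (w.re + t * z.re) * (w.re + t * z.re) + (w.im + t * z.im) * (w.im + t * z.im) := by
      ext t
      simp [Complex.normSq_apply]
    rw [e2]
    have h1 : HasDerivAt (fun t : ℝ => w.re + t * z.re) z.re 0 := by
      have := ((hasDerivAt_id (0 : ℝ)).mul_const z.re).const_add w.re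
      simpa using this
    have h2 : HasDerivAt (fun t : ℝ => w.im + t * z.im) z.im 0 := by
      have := ((hasDerivAt_id (0 : ℝ)).mul_const z.im).const_add w.im
      simpa using this
    have h3 := (h1.mul h1).add (h2.mul h2)
    refine h3.congr_deriv ?_
    simp only [zero_mul, add_zero, hm]
    ring
  have hH : HasDerivAt (fun t : ℝ => h (a + t * 0) (Complex.normSq (w + t * z)))
      (h' a k * (2 * m)) 0 := by
    have h1 : HasDerivAt (h a) (h' a k) (Complex.normSq (w + (0 : ℝ) * z)) := by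
      simpa [hk] using hh a k hk0
    have h2 := h1.comp (0 : ℝ) hN
    have e2 : (fun t : ℝ => h (a + t * 0) (Complex.normSq (w + t * z))) =
        h a ∘ fun t : ℝ => Complex.normSq (w + t * z) := by
      ext t
      simp
    rw [e2]
    exact h2
  have hre : h' a k * (2 * m) * w.re + h a k * z.re = 0 := by
    have h1 := (Complex.reCLM.comp ((ContinuousLinearMap.snd ℝ ℝ ℂ).comp
      (ContinuousLinearMap.snd ℝ ℝ (ℝ × ℂ)))).hasFDerivAt.comp_hasDerivAt (0 : ℝ) hc
    have h2 : HasDerivAt (fun t : ℝ => w.re + t * z.re) z.re 0 := by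
      have := ((hasDerivAt_id (0 : ℝ)).mul_const z.re).const_add w.re
      simpa using this
    have h3 := hH.mul h2
    have e2 : ((Complex.reCLM.comp ((ContinuousLinearMap.snd ℝ ℝ ℂ).comp
        (ContinuousLinearMap.snd ℝ ℝ (ℝ × ℂ)))) ∘ fun t : ℝ =>
        ((1 / 2 + α * (s + t * 0 - 1 / 2), β (a + t * 0),
        ((h (a + t * 0) (Complex.normSq (w + t * z)) : ℝ) : ℂ) * (w + t * z)) : R4)) =
        ((fun t : ℝ => h (a + t * 0) (Complex.normSq (w + t * z))) *
          fun t : ℝ => w.re + t * z.re) := by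
      ext t
      simp
    rw [e2] at h1
    have h4 := h3.unique h1
    simpa [hk] using h4
  have him : h' a k * (2 * m) * w.im + h a k * z.im = 0 := by
    have h1 := (Complex.imCLM.comp ((ContinuousLinearMap.snd ℝ ℝ ℂ).comp
      (ContinuousLinearMap.snd ℝ ℝ (ℝ × ℂ)))).hasFDerivAt.comp_hasDerivAt (0 : ℝ) hc
    have h2 : HasDerivAt (fun t : ℝ => w.im + t * z.im) z.im 0 := by
      have := ((hasDerivAt_id (0 : ℝ)).mul_const z.im).const_add w.im
      simpa using this
    have h3 := hH.mul h2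
    have e2 : ((Complex.imCLM.comp ((ContinuousLinearMap.snd ℝ ℝ ℂ).comp
        (ContinuousLinearMap.snd ℝ ℝ (ℝ × ℂ)))) ∘ fun t : ℝ =>
        ((1 / 2 + α * (s + t * 0 - 1 / 2), β (a + t * 0),
        ((h (a + t * 0) (Complex.normSq (w + t * z)) : ℝ) : ℂ) * (w + t * z)) : R4)) =
        ((fun t : ℝ => h (a + t * 0) (Complex.normSq (w + t * z))) *
          fun t : ℝ => w.im + t * z.im) := by
      ext t
      simp
    rw [e2] at h1
    have h4 := h3.unique h1
    simpa [hk] using h4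
  obtain ⟨hp1, hp2⟩ := hp a k hk0
  have hkk : k = w.re * w.re + w.im * w.im := by rw [hk, Complex.normSq_apply]
  have hm0 : m = 0 := by
    have h1 : (h a k + 2 * k * h' a k) * m = 0 := by
      have h2 : (h' a k * (2 * m) * w.re + h a k * z.re) * w.re +
          (h' a k * (2 * m) * w.im + h a k * z.im) * w.im = 0 := by rw [hre, him]; ring
      have h3 : (h' a k * (2 * m) * w.re + h a k * z.re) * w.re +
          (h' a k * (2 * m) * w.im + h a k * z.im) * w.im =
          h' a k * (2 * m) * (w.re * w.re + w.im * w.im) +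
            h a k * (w.re * z.re + w.im * z.im) := by ring
      rw [h3, ← hkk, ← hm] at h2
      linarith
    rcases mul_eq_zero.1 h1 with h2 | h2
    · exact absurd h2 hp2.ne'
    · exact h2
  rw [hm0] at hre him
  have hz1 : z.re = 0 := by
    have : h a k * z.re = 0 := by linarith
    rcases mul_eq_zero.1 this with h2 | h2
    · exact absurd h2 hp1.ne'
    · exact h2
  have hz2 : z.im = 0 := by
    have : h a k * z.im = 0 := by linarith
    rcases mul_eq_zero.1 this with h2 | h2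
    · exact absurd h2 hp1.ne'
    · exact h2
  have hz : z = 0 := Complex.ext hz1 hz2
  rw [hz]
  rfl

end S0

theorem m_S0 (h0 : StA0) : StS0 := by
  intro α β β' h h' O hα hβ hβd hβ' hO hOk hh hhd hp
  obtain ⟨hopen, hcd⟩ := S0.tri_contDiffOn α β h O hβ hO hh
  refine ⟨?_, (S0.tri_inj α β β' h h' hα hβd hβ' hhd hp).injOn⟩
  intro p _
  rw [h0 R4 (tri α β h) p]
  have hmem : p ∈ {p : R4 | (p.2.1, Complex.normSq p.2.2) ∈ O} :=
    hOk _ _ (Complex.normSq_nonneg _)
  refine ⟨⟨_, hopen, hmem, hcd⟩, ?_⟩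
  intro v hv
  have hd : DifferentiableAt ℝ (tri α β h) p :=
    (hcd.contDiffAt (hopen.mem_nhds hmem)).differentiableAt (by simp)
  exact S0.tri_fderiv α β β' h h' hα hβd hβ' hhd hp p v hd hv

end Pool.Agent.Helper18.BI
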