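import Pool.Agent.Helper18.BI.StA

/-!
# Project BI: module S1
-/

set_option autoImplicit false

open scoped Manifold ContDiff Topology ComplexConjugate
open Set Pool.Agent.Helper65.Barb

namespace Pool.Agent.Helper18.BI

theorem m_S1 : StS1 := by
  intro ε g k hε hg hk
  have hrad : 0 < (k - g) ^ 2 + 2 * ε * (k + g) + ε ^ 2 := by positivity
  set R : ℝ := √((k - g) ^ 2 + 2 * ε * (k + g) + ε ^ 2) with hR
  have hRpos : 0 < R := Real.sqrt_pos.2 hrad
  have hRsq : R ^ 2 = (k - g) ^ 2 + 2 * ε * (k + g) + ε ^ 2 := Real.sq_sqrt hrad.le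
  have hRk : k - g ≤ R := by
    refine Real.le_sqrt_of_sq_le ?_
    nlinarith [mul_nonneg hε.le (add_nonneg hk hg.le), sq_nonneg ε]
  have hRg : g - k ≤ R := by
    refine Real.le_sqrt_of_sq_le ?_
    nlinarith [mul_nonneg hε.le (add_nonneg hk hg.le), sq_nonneg ε]
  have hS : 0 < k + g + ε + R := by positivity
  have hu : 0 < 2 * g / (k + g + ε + R) := by positivity
  have hff : ff ε g k = √(2 * g / (k + g + ε + R)) := rfl
  have hffpos : 0 < ff ε g k := by rw [hff]; exact Real.sqrt_pos.2 hu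
  have hffsq : ff ε g k ^ 2 = 2 * g / (k + g + ε + R) := by rw [hff]; exact Real.sq_sqrt hu.le
  have hX : k * ff ε g k ^ 2 = (k + g + ε - R) / 2 := by
    rw [hffsq, mul_div_assoc', div_eq_div_iff hS.ne' two_ne_zero]
    linear_combination hRsq
  refine ⟨hffpos, ?_, ?_, ?_, ?_⟩
  · rw [hff, Real.sqrt_le_left (by norm_num), one_pow, div_le_one hS]
    linarith
  · rw [hX]
    linear_combination (1 / 4) * hRsq
  · rw [hX]
    have : k - g + ε < R := by
      rcases lt_or_ge (k - g + ε) 0 with h | h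
      · exact h.trans hRpos
      · have h2 : (k - g + ε) ^ 2 < R ^ 2 := by
          rw [hRsq]; nlinarith [mul_pos hε hg]
        exact lt_of_pow_lt_pow_left₀ 2 hRpos.le h2
    linarith
  · have h1 : HasDerivAt (fun k : ℝ => (k - g) ^ 2 + 2 * ε * (k + g) + ε ^ 2)
        (2 * (k - g + ε)) k := by
      have := ((((hasDerivAt_id k).sub_const g).pow 2).add
        (((hasDerivAt_id k).add_const g).const_mul (2 * ε))).add_const (ε ^ 2)
      refine this.congr_deriv ?_
      simp; ring
    have h2 : HasDerivAt (fun k : ℝ => √((k - g) ^ 2 + 2 * ε * (k + g) + ε ^ 2))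
        ((k - g + ε) / R) k := by
      refine (h1.sqrt hrad.ne').congr_deriv ?_
      rw [← hR]; field_simp
    have h3 : HasDerivAt (fun k : ℝ => k + g + ε + √((k - g) ^ 2 + 2 * ε * (k + g) + ε ^ 2))
        (1 + (k - g + ε) / R) k :=
      (((hasDerivAt_id k).add_const g).add_const ε).add h2
    have h4 := (h3.inv hS.ne').const_mul (2 * g)
    have h5 : HasDerivAt (ff ε g) (2 * g * (-(1 + (k - g + ε) / R) / (k + g + ε + R) ^ 2) /
        (2 * ff ε g k)) k := HasDerivAt.sqrt h4 hu.ne'
    refine ⟨_, h5, ?_⟩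
    have h6 : 0 < ff ε g k * (ff ε g k + 2 * k * (2 * g * (-(1 + (k - g + ε) / R) /
        (k + g + ε + R) ^ 2) / (2 * ff ε g k))) := by
      have e1 : ff ε g k * (ff ε g k + 2 * k * (2 * g * (-(1 + (k - g + ε) / R) /
        (k + g + ε + R) ^ 2) / (2 * ff ε g k))) = ff ε g k ^ 2 +
          k * (2 * g * (-(1 + (k - g + ε) / R) / (k + g + ε + R) ^ 2)) := by
        field_simp
      rw [e1, hffsq]
      have e2 : 2 * g / (k + g + ε + R) + k * (2 * g * (-(1 + (k - g + ε) / R) /
          (k + g + ε + R) ^ 2)) = 2 * g * ((g + ε) * R + (g + ε) ^ 2 + ε * k - k * g) /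
            (R * (k + g + ε + R) ^ 2) := by
        field_simp
        linear_combination hRsq
      rw [e2]
      refine div_pos (mul_pos (by positivity) ?_) (by positivity)
      have := mul_le_mul_of_nonneg_left hRk (add_pos hg hε).le
      nlinarith [mul_pos hg hε, mul_nonneg hε.le hk, mul_pos hε hε]
    exact pos_of_mul_pos_right h6 hffpos.le

end Pool.Agent.Helper18.BI
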