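import Pool.Agent.Helper18.BI.StA

/-!
# Project BI: module S2 (smoothness of the compression)
-/

set_option autoImplicit false

open scoped Manifold ContDiff Topology ComplexConjugate
open Set Pool.Agent.Helper65.Barb

namespace Pool.Agent.Helper18.BI

namespace S2

theorem rad_pos (u ε : ℝ) (hε : 0 < ε) : 0 < u ^ 2 + ε ^ 2 := by positivity

theorem add_sqrt_pos (u ε : ℝ) (hε : 0 < ε) : 0 < u + √(u ^ 2 + ε ^ 2) := by
  have h1 : |u| < √(u ^ 2 + ε ^ 2) := by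
    rw [← Real.sqrt_sq_eq_abs]
    exact Real.sqrt_lt_sqrt (sq_nonneg u) (by nlinarith [pow_pos hε 2])
  have h2 := neg_abs_le u
  linarith

theorem prof_pos (ε a : ℝ) (hε : 0 < ε) : 0 < prof ε a := by
  unfold prof
  have h1 := add_sqrt_pos (1 / 25 - a ^ 2) ε hε
  have h2 := add_sqrt_pos (1 / 25 - (a - 1) ^ 2) ε hε
  linarith

section
variable {X : Type*} [NormedAddCommGroup X] [NormedSpace ℝ X]

theorem sqrt_smooth {f g : X → ℝ} {x : X} (hf : ContDiffAt ℝ ∞ f x) (hg : ContDiffAt ℝ ∞ g x)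
    (h : 0 < g x) : ContDiffAt ℝ ∞ (fun y => √(f y ^ 2 + g y ^ 2)) x :=
  ((hf.pow 2).add (hg.pow 2)).sqrt (rad_pos (f x) (g x) h).ne'

theorem prof_smooth {e a : X → ℝ} {x : X} (he : ContDiffAt ℝ ∞ e x) (ha : ContDiffAt ℝ ∞ a x)
    (h : 0 < e x) : ContDiffAt ℝ ∞ (fun y => prof (e y) (a y)) x := by
  have h1 : ContDiffAt ℝ ∞ (fun y => 1 / 25 - a y ^ 2) x := contDiffAt_const.sub (ha.pow 2)
  have h2 : ContDiffAt ℝ ∞ (fun y => 1 / 25 - (a y - 1) ^ 2) x :=
    contDiffAt_const.sub ((ha.sub contDiffAt_const).pow 2)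
  exact ((h1.add (sqrt_smooth h1 he h)).div_const 2).add
    ((h2.add (sqrt_smooth h2 he h)).div_const 2)

theorem axc_smooth {e a : X → ℝ} {x : X} (he : ContDiffAt ℝ ∞ e x) (ha : ContDiffAt ℝ ∞ a x)
    (h : 0 < e x) : ContDiffAt ℝ ∞ (fun y => axc (e y) (a y)) x := by
  have h1 : ContDiffAt ℝ ∞ (fun y => a y + 1 / 5) x := ha.add contDiffAt_const
  have h2 : ContDiffAt ℝ ∞ (fun y => a y - 6 / 5) x := ha.sub contDiffAt_const
  exact contDiffAt_const.add (((sqrt_smooth h1 he h).sub (sqrt_smooth h2 he h)).div_const 2)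

theorem fac_smooth {e a k : X → ℝ} {x : X} (he : ContDiffAt ℝ ∞ e x) (ha : ContDiffAt ℝ ∞ a x)
    (hk : ContDiffAt ℝ ∞ k x) (h : 0 < e x)
    (h1 : 0 < (k x - prof (e x) (a x)) ^ 2 + 2 * e x * (k x + prof (e x) (a x)) + e x ^ 2)
    (h2 : 0 < k x + prof (e x) (a x) + e x +
      √((k x - prof (e x) (a x)) ^ 2 + 2 * e x * (k x + prof (e x) (a x)) + e x ^ 2)) :
    ContDiffAt ℝ ∞ (fun y => fac (e y) (a y) (k y)) x := by
  have hp := prof_smooth he ha h
  have hr : ContDiffAt ℝ ∞ (fun y => √((k y - prof (e y) (a y)) ^ 2 +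
      2 * e y * (k y + prof (e y) (a y)) + e y ^ 2)) x :=
    ((((hk.sub hp).pow 2).add ((contDiffAt_const.mul he).mul (hk.add hp))).add
      (he.pow 2)).sqrt h1.ne'
  have hd : ContDiffAt ℝ ∞ (fun y => k y + prof (e y) (a y) + e y +
      √((k y - prof (e y) (a y)) ^ 2 + 2 * e y * (k y + prof (e y) (a y)) + e y ^ 2)) x :=
    ((hk.add hp).add he).add hr
  have hq := (contDiffAt_const (c := (2 : ℝ))).mul hp |>.div hd h2.ne'
  exact hq.sqrt (div_pos (mul_pos two_pos (prof_pos _ _ h)) h2).ne'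

end

theorem pos1 (ε g k : ℝ) (hε : 0 < ε) (hg : 0 < g) (hk : 0 ≤ k) :
    0 < (k - g) ^ 2 + 2 * ε * (k + g) + ε ^ 2 := by positivity

theorem pos2 (ε g k : ℝ) (hε : 0 < ε) (hg : 0 < g) (hk : 0 ≤ k) :
    0 < k + g + ε + √((k - g) ^ 2 + 2 * ε * (k + g) + ε ^ 2) := by positivity

theorem frac_lt (u v ε : ℝ) (hε : 0 < ε) (huv : v < u) :
    v / √(v ^ 2 + ε ^ 2) < u / √(u ^ 2 + ε ^ 2) := by
  have hA : 0 < √(u ^ 2 + ε ^ 2) := Real.sqrt_pos.2 (rad_pos u ε hε)
  have hB : 0 < √(v ^ 2 + ε ^ 2) := Real.sqrt_pos.2 (rad_pos v ε hε)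
  have hA2 := Real.sq_sqrt (rad_pos u ε hε).le
  have hB2 := Real.sq_sqrt (rad_pos v ε hε).le
  rw [div_lt_div_iff₀ hB hA]
  set A := √(u ^ 2 + ε ^ 2)
  set B := √(v ^ 2 + ε ^ 2)
  rcases lt_or_ge v 0 with hv | hv
  · rcases lt_or_ge u 0 with hu | hu
    · have h1 : (-u * B) ^ 2 < (-v * A) ^ 2 := by
        have : (-v * A) ^ 2 - (-u * B) ^ 2 = ε ^ 2 * ((v - u) * (v + u)) := by
          linear_combination v ^ 2 * hA2 - u ^ 2 * hB2
        have h3 : 0 < (v - u) * (v + u) := mul_pos_of_neg_of_neg (by linarith) (by linarith)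
        have := mul_pos (pow_pos hε 2) h3
        linarith
      have h2 : -u * B < -v * A :=
        lt_of_pow_lt_pow_left₀ 2 (mul_nonneg (by linarith) hA.le) h1
      linarith
    · have h1 : v * A < 0 := mul_neg_of_neg_of_pos hv hA
      have h2 : 0 ≤ u * B := mul_nonneg hu hB.le
      linarith
  · have h1 : (v * A) ^ 2 < (u * B) ^ 2 := by
      have : (u * B) ^ 2 - (v * A) ^ 2 = ε ^ 2 * ((u - v) * (u + v)) := by
        linear_combination u ^ 2 * hB2 - v ^ 2 * hA2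
      have h3 : 0 < (u - v) * (u + v) := mul_pos (by linarith) (by linarith)
      have := mul_pos (pow_pos hε 2) h3
      linarith
    exact lt_of_pow_lt_pow_left₀ 2 (mul_nonneg (by linarith) hB.le) h1

theorem sqrt_deriv (c ε a : ℝ) (hε : 0 < ε) :
    HasDerivAt (fun a => √((a + c) ^ 2 + ε ^ 2)) ((a + c) / √((a + c) ^ 2 + ε ^ 2)) a := by
  have h1 : HasDerivAt (fun a => (a + c) ^ 2 + ε ^ 2) (2 * (a + c)) a := by
    have h2 : HasDerivAt (fun a : ℝ => a + c) 1 a := (hasDerivAt_id a).add_const c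
    have h3 := (h2.pow 2).add_const (ε ^ 2)
    simpa using h3
  have h4 := h1.sqrt (rad_pos (a + c) ε hε).ne'
  have e : (a + c) / √((a + c) ^ 2 + ε ^ 2) = 2 * (a + c) / (2 * √((a + c) ^ 2 + ε ^ 2)) := by
    rw [mul_div_mul_left _ _ two_ne_zero]
  rw [e]
  exact h4

end S2

open S2 in
theorem m_S2 : StS2 := by
  refine ⟨fun ε a h => prof_pos ε a h, fun ε hε => ⟨?_, ?_⟩, fun ε hε => ?_, ?_⟩
  · exact contDiff_iff_contDiffAt.2 fun a =>
      axc_smooth (e := fun _ => ε) (a := fun y => y) contDiffAt_const contDiffAt_id hε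
  · refine ⟨fun a => ((a + 1 / 5) / √((a + 1 / 5) ^ 2 + ε ^ 2) -
      (a - 6 / 5) / √((a - 6 / 5) ^ 2 + ε ^ 2)) / 2, fun a => ⟨?_, ?_⟩⟩
    · have h1 := sqrt_deriv (1 / 5) ε a hε
      have h2 := sqrt_deriv (-(6 / 5)) ε a hε
      simp only [← sub_eq_add_neg] at h2
      exact ((h1.sub h2).div_const 2).const_add (1 / 2)
    · have := frac_lt (a + 1 / 5) (a - 6 / 5) ε hε (by linarith)
      show 0 < (_ - _) / 2
      linarith
  · have hc : Continuous (fun x : ℝ × ℝ => prof ε x.1) := by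
      have : ContDiff ℝ ∞ (fun x : ℝ × ℝ => prof ε x.1) :=
        contDiff_iff_contDiffAt.2 fun x =>
          prof_smooth (e := fun _ => ε) (a := fun y : ℝ × ℝ => y.1) contDiffAt_const
            contDiffAt_fst hε
      exact this.continuous
    have hD : Continuous (fun x : ℝ × ℝ => (x.2 - prof ε x.1) ^ 2 +
        2 * ε * (x.2 + prof ε x.1) + ε ^ 2) := by
      fun_prop
    have hS : Continuous (fun x : ℝ × ℝ => x.2 + prof ε x.1 + ε +
        √((x.2 - prof ε x.1) ^ 2 + 2 * ε * (x.2 + prof ε x.1) + ε ^ 2)) := by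
      exact ((continuous_snd.add hc).add continuous_const).add (Real.continuous_sqrt.comp hD)
    refine ⟨{x | 0 < (x.2 - prof ε x.1) ^ 2 + 2 * ε * (x.2 + prof ε x.1) + ε ^ 2} ∩
      {x | 0 < x.2 + prof ε x.1 + ε +
        √((x.2 - prof ε x.1) ^ 2 + 2 * ε * (x.2 + prof ε x.1) + ε ^ 2)},
      (isOpen_lt continuous_const hD).inter (isOpen_lt continuous_const hS), ?_, ?_⟩
    · intro a k hk
      exact ⟨pos1 ε _ k hε (prof_pos ε a hε) hk, pos2 ε _ k hε (prof_pos ε a hε) hk⟩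
    · intro x hx
      exact (fac_smooth (e := fun _ => ε) (a := fun y : ℝ × ℝ => y.1) (k := fun y => y.2)
        contDiffAt_const contDiffAt_fst contDiffAt_snd hε hx.1 hx.2).contDiffWithinAt
  · intro q hq
    have hε : 0 < q.1 := hq.1
    have he : ContDiffAt ℝ ∞ (fun y : ℝ × R4 => y.1) q := contDiffAt_fst
    have h1 : ContDiffAt ℝ ∞ (fun y : ℝ × R4 => y.2.1) q := contDiffAt_snd.fst
    have h2 : ContDiffAt ℝ ∞ (fun y : ℝ × R4 => y.2.2.1) q := contDiffAt_snd.snd.fst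
    have h3 : ContDiffAt ℝ ∞ (fun y : ℝ × R4 => y.2.2.2) q := contDiffAt_snd.snd.snd
    have hk : ContDiffAt ℝ ∞ (fun y : ℝ × R4 => Complex.normSq y.2.2.2) q := by
      have hre : ContDiffAt ℝ ∞ (fun y : ℝ × R4 => y.2.2.2.re) q :=
        Complex.reCLM.contDiff.contDiffAt.comp q h3
      have him : ContDiffAt ℝ ∞ (fun y : ℝ × R4 => y.2.2.2.im) q :=
        Complex.imCLM.contDiff.contDiffAt.comp q h3
      simp only [Complex.normSq_apply]
      exact (hre.mul hre).add (him.mul him)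
    have hg := prof_pos q.1 q.2.2.1 hε
    have hk0 : 0 ≤ Complex.normSq q.2.2.2 := Complex.normSq_nonneg _
    have hf : ContDiffAt ℝ ∞ (fun y : ℝ × R4 => fac y.1 y.2.2.1 (Complex.normSq y.2.2.2)) q :=
      fac_smooth he h2 hk hε (pos1 _ _ _ hε hg hk0) (pos2 _ _ _ hε hg hk0)
    have hf' : ContDiffAt ℝ ∞ (fun y : ℝ × R4 =>
        ((fac y.1 y.2.2.1 (Complex.normSq y.2.2.2) : ℝ) : ℂ)) q :=
      Complex.ofRealCLM.contDiff.contDiffAt.comp q hf
    have hfin : ContDiffAt ℝ ∞ (fun q : ℝ × R4 => sq q.1 q.2) q := by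
      unfold sq
      exact (contDiffAt_const.add (he.mul (h1.sub contDiffAt_const))).prodMk
        ((axc_smooth he h2 hε).prodMk (hf'.mul h3))
    exact hfin.contDiffWithinAt

end Pool.Agent.Helper18.BI
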