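import Pool.Agent.Helper18.BI.StA

/-!
# Project BI: module S3
-/

set_option autoImplicit false

open scoped Manifold ContDiff Topology ComplexConjugate
open Set Pool.Agent.Helper65.Barb

namespace Pool.Agent.Helper18.BI

namespace S3

lemma half_nonneg (u ε : ℝ) : 0 ≤ (u + √(u ^ 2 + ε ^ 2)) / 2 := by
  have h : |u| ≤ √(u ^ 2 + ε ^ 2) := by
    refine Real.le_sqrt_of_sq_le ?_
    rw [sq_abs]; nlinarith [sq_nonneg ε]
  have := neg_abs_le u
  linarith

lemma prof_nonneg (ε a : ℝ) : 0 ≤ prof ε a := by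
  unfold prof
  have h1 := half_nonneg (1 / 25 - a ^ 2) ε
  have h2 := half_nonneg (1 / 25 - (a - 1) ^ 2) ε
  linarith

lemma den_ge {ε g k : ℝ} (hε : 0 ≤ ε) (hg : 0 ≤ g) (hk : 0 ≤ k) :
    2 * g ≤ k + g + ε + √((k - g) ^ 2 + 2 * ε * (k + g) + ε ^ 2) ∧
    k ≤ k + g + ε + √((k - g) ^ 2 + 2 * ε * (k + g) + ε ^ 2) := by
  have h : g - k ≤ √((k - g) ^ 2 + 2 * ε * (k + g) + ε ^ 2) := by
    refine Real.le_sqrt_of_sq_le ?_
    nlinarith [mul_nonneg hε (add_nonneg hk hg), sq_nonneg ε]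
  have h2 := Real.sqrt_nonneg ((k - g) ^ 2 + 2 * ε * (k + g) + ε ^ 2)
  constructor <;> linarith

lemma fac_nonneg (ε a k : ℝ) : 0 ≤ fac ε a k := Real.sqrt_nonneg _

lemma fac_le_one {ε a k : ℝ} (hε : 0 ≤ ε) (hk : 0 ≤ k) : fac ε a k ≤ 1 := by
  unfold fac
  rw [Real.sqrt_le_left (by norm_num), one_pow]
  have h := (den_ge hε (prof_nonneg ε a) hk).1
  exact div_le_one_of_le₀ h ((by linarith [prof_nonneg ε a] : (0 : ℝ) ≤ 2 * prof ε a).trans h)

lemma continuous_prof : Continuous (fun x : ℝ × ℝ => prof x.1 x.2) := by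
  unfold prof
  fun_prop

lemma continuous_axc : Continuous (fun x : ℝ × ℝ => axc x.1 x.2) := by
  unfold axc
  fun_prop

end S3

open S3 in
theorem m_S3 : StS3 := by
  have h1 : Continuous (fun q : ℝ × R4 => (1 / 2 + q.1 * (q.2.1 - 1 / 2) : ℝ)) := by fun_prop
  have h2 : Continuous (fun q : ℝ × R4 => axc q.1 q.2.2.1) :=
    continuous_axc.comp (by fun_prop : Continuous fun q : ℝ × R4 => (q.1, q.2.2.1))
  have h0 : Continuous (fun q : ℝ × R4 => prof q.1 q.2.2.1) :=
    continuous_prof.comp (by fun_prop : Continuous fun q : ℝ × R4 => (q.1, q.2.2.1))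
  have hk : Continuous (fun q : ℝ × R4 => Complex.normSq q.2.2.2) :=
    Complex.continuous_normSq.comp (by fun_prop)
  have h3 : ContinuousOn (fun q : ℝ × R4 =>
      ((fac q.1 q.2.2.1 (Complex.normSq q.2.2.2) : ℝ) : ℂ) * q.2.2.2) (Ici 0 ×ˢ univ) := by
    intro q₀ hq₀
    have hε₀ : 0 ≤ q₀.1 := hq₀.1
    by_cases hw : q₀.2.2.2 = 0
    · have e0 : ((fac q₀.1 q₀.2.2.1 (Complex.normSq q₀.2.2.2) : ℝ) : ℂ) * q₀.2.2.2 = 0 := by
        rw [hw, mul_zero]
      unfold ContinuousWithinAt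
      simp only []
      rw [e0]
      have hc : Filter.Tendsto (fun q : ℝ × R4 => ‖q.2.2.2‖) (𝓝[Ici 0 ×ˢ univ] q₀) (𝓝 0) := by
        have : Continuous (fun q : ℝ × R4 => ‖q.2.2.2‖) := by fun_prop
        have h := this.continuousAt (x := q₀)
        unfold ContinuousAt at h
        simp only [] at h
        rw [hw, norm_zero] at h
        exact h.mono_left nhdsWithin_le_nhds
      refine squeeze_zero_norm' ?_ hc
      filter_upwards [self_mem_nhdsWithin] with q hq
      have hε : 0 ≤ q.1 := hq.1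
      rw [norm_mul, Complex.norm_real, Real.norm_eq_abs, abs_of_nonneg (fac_nonneg _ _ _)]
      exact mul_le_of_le_one_left (norm_nonneg _) (fac_le_one hε (Complex.normSq_nonneg _))
    · have hkpos : 0 < Complex.normSq q₀.2.2.2 := Complex.normSq_pos.2 hw
      have hD := (den_ge hε₀ (prof_nonneg q₀.1 q₀.2.2.1) hkpos.le).2
      have hden : Continuous (fun q : ℝ × R4 => Complex.normSq q.2.2.2 + prof q.1 q.2.2.1 + q.1 +
          √((Complex.normSq q.2.2.2 - prof q.1 q.2.2.1) ^ 2 +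
            2 * q.1 * (Complex.normSq q.2.2.2 + prof q.1 q.2.2.1) + q.1 ^ 2)) :=
        (((hk.add h0).add continuous_fst).add (Continuous.sqrt
          ((((hk.sub h0).pow 2).add ((continuous_const.mul continuous_fst).mul (hk.add h0))).add
            (continuous_fst.pow 2))))
      have hfac : ContinuousAt (fun q : ℝ × R4 => fac q.1 q.2.2.1 (Complex.normSq q.2.2.2)) q₀ := by
        unfold fac
        exact (((continuous_const.mul h0).continuousAt).div hden.continuousAt
          (ne_of_gt (hkpos.trans_le hD))).sqrt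
      refine ContinuousAt.continuousWithinAt ?_
      exact (Complex.continuous_ofReal.continuousAt.comp hfac).mul
        (by fun_prop : Continuous fun q : ℝ × R4 => q.2.2.2).continuousAt
  exact h1.continuousOn.prodMk (h2.continuousOn.prodMk h3)

end Pool.Agent.Helper18.BI
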