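import Pool.Agent.Helper18.BI.StA

/-!
# Project BI: module S4 (the limit of the compression; compactness)
-/

set_option autoImplicit false

open scoped Manifold ContDiff Topology ComplexConjugate
open Set Pool.Agent.Helper65.Barb

namespace Pool.Agent.Helper18.BI

namespace S4

theorem S4_a1 {a : ℝ} (h : a ≤ 4 / 5) : a - 1 ≤ -(1 / 5) := by linarith
theorem S4_a2 {a : ℝ} (h : 4 / 5 ≤ a) : -(1 / 5) ≤ a - 1 := by linarith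
theorem S4_a3 {a : ℝ} (h : a ≤ 6 / 5) : a - 1 ≤ 1 / 5 := by linarith
theorem S4_a4 {a : ℝ} (h : 6 / 5 ≤ a) : 1 / 5 ≤ a - 1 := by linarith
theorem S4_a5 {a : ℝ} (h : a ≤ 1 / 5) : a - 1 ≤ -(4 / 5) := by linarith
theorem S4_n1 : (-(1 / 5) : ℝ) ≤ 1 / 5 := by norm_num
theorem S4_n2 : (1 / 5 : ℝ) ≤ 4 / 5 := by norm_num
theorem S4_n3 : (4 / 5 : ℝ) ≤ 6 / 5 := by norm_num
theorem S4_n4 : (-(1 / 5) : ℝ) ≤ 0 := by norm_num
theorem S4_n5 : (0 : ℝ) ≤ 6 / 5 := by norm_num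
theorem S4_n6 : ¬ (1 / 5 : ℝ) ≤ -(1 / 5) := by norm_num
theorem S4_n7 : ¬ (6 / 5 : ℝ) ≤ 4 / 5 := by norm_num
theorem S4_a6 {a : ℝ} (h : a - 1 = 1 / 5) : 6 / 5 = a := by linarith
theorem S4_f1 (k : ℝ) : (-(1 / 5) - 0 : ℝ) ^ 2 + 0 ^ 2 * k = 1 / 25 := by ring
theorem S4_f2 (k : ℝ) : (6 / 5 - 1 : ℝ) ^ 2 + 0 ^ 2 * k = 1 / 25 := by ring
theorem S4_mid {a a' t m : ℝ} (h : m = (1 - t) * a' + t * a) (h3 : a' = a) : m = a := by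
  rw [h, h3]
  ring
theorem S4_sn1 : ((1 / 5 : ℝ) ^ 2 = 1 / 25) := by norm_num
theorem S4_sn2 : (1 / 5 : ℝ) * (1 / 5) = 1 / 25 := by norm_num
theorem S4_sn3 : (1 / 25 : ℝ) < 4 / 5 * (4 / 5) := by norm_num

theorem S4_ge1 {x : ℝ} (h : 1 / 5 ≤ x) : 1 / 25 ≤ x ^ 2 := by
  rw [← S4_sn2, pow_two]
  exact mul_self_le_mul_self (by norm_num) h

theorem S4_ge2 {x : ℝ} (h : x ≤ -(1 / 5)) : 1 / 25 ≤ x ^ 2 := by
  rw [← neg_sq]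
  exact S4_ge1 (le_neg_of_le_neg h)

theorem S4_gt1 {x : ℝ} (h : 4 / 5 ≤ x) : 1 / 25 < x ^ 2 := by
  rw [pow_two]
  exact S4_sn3.trans_le (mul_self_le_mul_self (by norm_num) h)

theorem S4_gt2 {x : ℝ} (h : x ≤ -(4 / 5)) : 1 / 25 < x ^ 2 := by
  rw [← neg_sq]
  exact S4_gt1 (le_neg_of_le_neg h)

theorem S4_le {x : ℝ} (h0 : -(1 / 5) ≤ x) (h1 : x ≤ 1 / 5) : x ^ 2 ≤ 1 / 25 := by
  rw [← S4_sn1]
  exact sq_le_sq.2 ((abs_le.2 ⟨h0, h1⟩).trans (le_abs_self _))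

theorem S4_ub {x : ℝ} (h : x ^ 2 ≤ 1 / 25) : -(1 / 5) ≤ x ∧ x ≤ 1 / 5 := by
  rw [← S4_sn1] at h
  exact abs_le.1 (abs_le_of_sq_le_sq h (by norm_num))

theorem S4_eq1 {x N : ℝ} (h : x ≤ -(1 / 5)) (h2 : x ^ 2 + N ≤ 1 / 25) (hN : 0 ≤ N) :
    x = -(1 / 5) ∧ N ≤ 0 :=
  ⟨le_antisymm h (S4_ub ((le_add_of_nonneg_right hN).trans h2)).1,
    le_of_add_le_add_left (a := x ^ 2) (h2.trans ((S4_ge2 h).trans (add_zero _).ge))⟩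

theorem S4_eq2 {x N : ℝ} (h : 1 / 5 ≤ x) (h2 : x ^ 2 + N ≤ 1 / 25) (hN : 0 ≤ N) :
    x = 1 / 5 ∧ N ≤ 0 :=
  ⟨le_antisymm (S4_ub ((le_add_of_nonneg_right hN).trans h2)).2 h,
    le_of_add_le_add_left (a := x ^ 2) (h2.trans ((S4_ge1 h).trans (add_zero _).ge))⟩

theorem S4_m1 {t f : ℝ} (ht : 0 ≤ t) (hf : f ≤ 1) : f ≤ (1 - t) * f + t := by
  have h := mul_nonneg ht (sub_nonneg.2 hf)
  linarith

theorem S4_m2 {t f : ℝ} (ht : t ≤ 1) (hf : f ≤ 1) : (1 - t) * f + t ≤ 1 := by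
  have h := mul_nonneg (sub_nonneg.2 ht) (sub_nonneg.2 hf)
  linarith

theorem S4_nle {x N : ℝ} (h : 1 / 25 < x ^ 2) (hN : 0 ≤ N) : ¬ x ^ 2 + N ≤ 1 / 25 :=
  not_le.2 (h.trans_le (le_add_of_nonneg_right hN))

theorem rsq_eq (c : ℝ) (p : R4) : rsq c p = (p.2.1 - c) ^ 2 + Complex.normSq p.2.2 := by
  simp only [rsq, nsq, Complex.normSq_apply]
  ring

theorem sqrt0 (u : ℝ) : √(u ^ 2 + (0 : ℝ) ^ 2) = |u| := by
  rw [zero_pow two_ne_zero, add_zero, Real.sqrt_sq_eq_abs]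

theorem fac0 (g k : ℝ) (hg : 0 ≤ g) (hk : 0 ≤ k) :
    ff 0 g k ≤ 1 ∧ (g = 0 → ff 0 g k = 0) ∧ (k ≤ g → 0 < g → ff 0 g k = 1) ∧
      (g ≤ k → ff 0 g k ^ 2 * k = g) := by
  have e : ff 0 g k = √(2 * g / (k + g + |k - g|)) := by
    unfold ff
    rw [mul_zero, zero_mul, add_zero, add_zero, sqrt0]
  rw [e]
  have h1 : g - k ≤ |k - g| := by
    rw [abs_sub_comm]; exact le_abs_self _
  refine ⟨?_, ?_, ?_, ?_⟩
  · rw [Real.sqrt_le_one]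
    exact div_le_one_of_le₀ (by linarith) (by positivity)
  · intro h
    rw [h, mul_zero, zero_div, Real.sqrt_zero]
  · intro h h0
    rw [abs_of_nonpos (by linarith), show k + g + -(k - g) = 2 * g by ring,
      div_self (by linarith), Real.sqrt_one]
  · intro h
    rw [abs_of_nonneg (by linarith), show k + g + (k - g) = 2 * k by ring,
      mul_div_mul_left _ _ two_ne_zero, Real.sq_sqrt (div_nonneg hg hk)]
    rcases hk.eq_or_lt with h0 | h0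
    · rw [← h0] at h ⊢
      rw [div_zero, zero_mul]
      linarith
    · exact div_mul_cancel₀ _ h0.ne'

theorem prof0 (a : ℝ) : prof 0 a = ((1 / 25 - a ^ 2) + |1 / 25 - a ^ 2|) / 2 +
    ((1 / 25 - (a - 1) ^ 2) + |1 / 25 - (a - 1) ^ 2|) / 2 := by
  unfold prof
  rw [sqrt0, sqrt0]

theorem axc0 (a : ℝ) : axc 0 a = 1 / 2 + (|a + 1 / 5| - |a - 6 / 5|) / 2 := by
  unfold axc
  rw [sqrt0, sqrt0]

theorem S4_pos {x : ℝ} (h : 0 ≤ x) : (x + |x|) / 2 = x := by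
  rw [abs_of_nonneg h, add_self_div_two]

theorem S4_neg {x : ℝ} (h : x ≤ 0) : (x + |x|) / 2 = 0 := by
  rw [abs_of_nonpos h, add_neg_cancel, zero_div]

theorem prof0_out {a : ℝ} (h0 : 1 / 25 ≤ a ^ 2) (h1 : 1 / 25 ≤ (a - 1) ^ 2) : prof 0 a = 0 := by
  rw [prof0, S4_neg (sub_nonpos.2 h0), S4_neg (sub_nonpos.2 h1), add_zero]

theorem prof0_zero {a : ℝ} (h0 : a ^ 2 ≤ 1 / 25) (h1 : 1 / 25 ≤ (a - 1) ^ 2) :
    prof 0 a = 1 / 25 - a ^ 2 := by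
  rw [prof0, S4_pos (sub_nonneg.2 h0), S4_neg (sub_nonpos.2 h1), add_zero]

theorem prof0_one {a : ℝ} (h0 : 1 / 25 ≤ a ^ 2) (h1 : (a - 1) ^ 2 ≤ 1 / 25) :
    prof 0 a = 1 / 25 - (a - 1) ^ 2 := by
  rw [prof0, S4_neg (sub_nonpos.2 h0), S4_pos (sub_nonneg.2 h1), zero_add]

theorem axc0_mid {a : ℝ} (h0 : -(1 / 5) ≤ a) (h1 : a ≤ 6 / 5) : axc 0 a = a := by
  rw [axc0, abs_of_nonneg (by linarith), abs_of_nonpos (by linarith)]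
  ring

theorem axc0_left {a : ℝ} (h0 : a ≤ -(1 / 5)) : axc 0 a = -(1 / 5) := by
  rw [axc0, abs_of_nonpos (by linarith), abs_of_nonpos (by linarith)]
  ring

theorem axc0_right {a : ℝ} (h0 : 6 / 5 ≤ a) : axc 0 a = 6 / 5 := by
  rw [axc0, abs_of_nonneg (by linarith), abs_of_nonneg (by linarith)]
  ring

theorem sq0_eq (p : R4) :
    sq 0 p = (1 / 2, axc 0 p.2.1, ((ff 0 (prof 0 p.2.1) (Complex.normSq p.2.2) : ℝ) : ℂ) * p.2.2) := by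
  unfold sq
  rw [zero_mul, add_zero]
  rfl

/-- the five cases -/
theorem cases0 (p : R4) : ∃ a' f : ℝ, sq 0 p = (1 / 2, a', (f : ℂ) * p.2.2) ∧ 0 ≤ f ∧ f ≤ 1 ∧
    ((p.2.1 ≤ -(1 / 5) ∧ a' = -(1 / 5) ∧ f = 0) ∨
     (-(1 / 5) ≤ p.2.1 ∧ p.2.1 ≤ 1 / 5 ∧ a' = p.2.1 ∧
      (Complex.normSq p.2.2 ≤ 1 / 25 - p.2.1 ^ 2 → (f : ℂ) * p.2.2 = p.2.2) ∧
      (1 / 25 - p.2.1 ^ 2 ≤ Complex.normSq p.2.2 →
        f ^ 2 * Complex.normSq p.2.2 = 1 / 25 - p.2.1 ^ 2)) ∨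
     (1 / 5 ≤ p.2.1 ∧ p.2.1 ≤ 4 / 5 ∧ a' = p.2.1 ∧ f = 0) ∨
     (4 / 5 ≤ p.2.1 ∧ p.2.1 ≤ 6 / 5 ∧ a' = p.2.1 ∧
      (Complex.normSq p.2.2 ≤ 1 / 25 - (p.2.1 - 1) ^ 2 → (f : ℂ) * p.2.2 = p.2.2) ∧
      (1 / 25 - (p.2.1 - 1) ^ 2 ≤ Complex.normSq p.2.2 →
        f ^ 2 * Complex.normSq p.2.2 = 1 / 25 - (p.2.1 - 1) ^ 2)) ∨
     (6 / 5 ≤ p.2.1 ∧ a' = 6 / 5 ∧ f = 0)) := by
  have hk := Complex.normSq_nonneg p.2.2
  have key : ∀ g : ℝ, 0 ≤ g → ((Complex.normSq p.2.2 ≤ g →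
      ((ff 0 g (Complex.normSq p.2.2) : ℝ) : ℂ) * p.2.2 = p.2.2) ∧
      (g ≤ Complex.normSq p.2.2 →
        ff 0 g (Complex.normSq p.2.2) ^ 2 * Complex.normSq p.2.2 = g)) := by
    intro g hg
    obtain ⟨-, -, h1, h2⟩ := fac0 g _ hg hk
    refine ⟨fun h => ?_, h2⟩
    rcases hg.eq_or_lt with h0 | h0
    · have h3 : Complex.normSq p.2.2 = 0 := le_antisymm (h.trans h0.symm.le) hk
      rw [Complex.normSq_eq_zero.1 h3, mul_zero]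
    · rw [h1 h h0, Complex.ofReal_one, one_mul]
  rcases le_total p.2.1 (-(1 / 5)) with h1 | h1
  · have hp : prof 0 p.2.1 = 0 := prof0_out (S4_ge2 h1) (S4_ge2 (S4_a1 (h1.trans (S4_n1.trans S4_n2))))
    obtain ⟨h2, h3, -, -⟩ := fac0 0 _ le_rfl hk
    refine ⟨-(1 / 5), 0, ?_, le_rfl, zero_le_one, Or.inl ⟨h1, rfl, rfl⟩⟩
    rw [sq0_eq, axc0_left h1, hp, h3 rfl]
  rcases le_total p.2.1 (1 / 5) with h2 | h2
  · have h0 := S4_le h1 h2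
    have hp : prof 0 p.2.1 = 1 / 25 - p.2.1 ^ 2 := prof0_zero h0 (S4_ge2 (S4_a1 (h2.trans S4_n2)))
    have hg : 0 ≤ 1 / 25 - p.2.1 ^ 2 := sub_nonneg.2 h0
    refine ⟨p.2.1, ff 0 (1 / 25 - p.2.1 ^ 2) (Complex.normSq p.2.2), ?_, Real.sqrt_nonneg _,
      (fac0 _ _ hg hk).1, Or.inr (Or.inl ⟨h1, h2, rfl, (key _ hg).1, (key _ hg).2⟩)⟩
    rw [sq0_eq, axc0_mid h1 (h2.trans (S4_n2.trans S4_n3)), hp]
  rcases le_total p.2.1 (4 / 5) with h3 | h3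
  · have hp : prof 0 p.2.1 = 0 := prof0_out (S4_ge1 h2) (S4_ge2 (S4_a1 h3))
    obtain ⟨h4, h5, -, -⟩ := fac0 0 _ le_rfl hk
    refine ⟨p.2.1, 0, ?_, le_rfl, zero_le_one, Or.inr (Or.inr (Or.inl ⟨h2, h3, rfl, rfl⟩))⟩
    rw [sq0_eq, axc0_mid h1 (h3.trans S4_n3), hp, h5 rfl]
  rcases le_total p.2.1 (6 / 5) with h4 | h4
  · have h0 : (p.2.1 - 1) ^ 2 ≤ 1 / 25 := S4_le (S4_a2 h3) (S4_a3 h4)
    have hp : prof 0 p.2.1 = 1 / 25 - (p.2.1 - 1) ^ 2 := prof0_one (S4_ge1 h2) h0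
    have hg : 0 ≤ 1 / 25 - (p.2.1 - 1) ^ 2 := sub_nonneg.2 h0
    refine ⟨p.2.1, ff 0 (1 / 25 - (p.2.1 - 1) ^ 2) (Complex.normSq p.2.2), ?_, Real.sqrt_nonneg _,
      (fac0 _ _ hg hk).1,
      Or.inr (Or.inr (Or.inr (Or.inl ⟨h3, h4, rfl, (key _ hg).1, (key _ hg).2⟩)))⟩
    rw [sq0_eq, axc0_mid h1 h4, hp]
  · have hp : prof 0 p.2.1 = 0 := prof0_out (S4_ge1 h2) (S4_ge1 (S4_a4 h4))
    obtain ⟨h5, h6, -, -⟩ := fac0 0 _ le_rfl hk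
    refine ⟨6 / 5, 0, ?_, le_rfl, zero_le_one,
      Or.inr (Or.inr (Or.inr (Or.inr ⟨h4, rfl, rfl⟩)))⟩
    rw [sq0_eq, axc0_right h4, hp, h6 rfl]

theorem normSq_smul (f : ℝ) (w : ℂ) :
    Complex.normSq ((f : ℂ) * w) = f ^ 2 * Complex.normSq w := by
  rw [Complex.normSq_mul, Complex.normSq_ofReal]
  ring

theorem ext_SP (p : R4) (hp : p ∈ Ext) : sq 0 p ∈ SP := by
  obtain ⟨hp0, hp1⟩ := hp
  rw [rsq_eq] at hp0 hp1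
  obtain ⟨a', f, e, hf0, hf1, hc⟩ := cases0 p
  rw [e]
  rcases hc with ⟨h1, h2, h3⟩ | ⟨h1, h2, h3, -, h5⟩ | ⟨h1, h2, h3, h4⟩ | ⟨h1, h2, h3, -, h5⟩ |
    ⟨h1, h2, h3⟩
  · left; left
    refine ⟨rfl, ?_⟩
    rw [rsq_eq, normSq_smul, h2, h3]
    exact S4_f1 _
  · left; left
    refine ⟨rfl, ?_⟩
    rw [sub_zero] at hp0
    rw [rsq_eq, normSq_smul, h5 (sub_le_iff_le_add'.2 (S4_sn1.ge.trans hp0)), h3]
    show (p.2.1 - 0) ^ 2 + _ = _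
    rw [sub_zero, add_sub_cancel]
  · right
    refine ⟨rfl, ?_, ?_, ?_⟩
    · exact h1.trans h3.ge
    · exact h3.le.trans h2
    · show (f : ℂ) * p.2.2 = 0
      rw [h4, Complex.ofReal_zero, zero_mul]
  · left; right
    refine ⟨rfl, ?_⟩
    rw [rsq_eq, normSq_smul, h5 (sub_le_iff_le_add'.2 (S4_sn1.ge.trans hp1)), h3]
    show (p.2.1 - 1) ^ 2 + _ = _
    rw [add_sub_cancel]
  · left; right
    refine ⟨rfl, ?_⟩
    rw [rsq_eq, normSq_smul, h2, h3]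
    exact S4_f2 _

theorem mem_FB (p : R4) : sq 0 p ∈ FB := by
  obtain ⟨a', f, e, hf0, hf1, hc⟩ := cases0 p
  have hk := Complex.normSq_nonneg p.2.2
  rw [e]
  rcases hc with ⟨h1, h2, h3⟩ | ⟨h1, h2, h3, h4, h5⟩ | ⟨h1, h2, h3, h4⟩ | ⟨h1, h2, h3, h4, h5⟩ |
    ⟨h1, h2, h3⟩
  · left; left
    refine ⟨rfl, ?_⟩
    rw [rsq_eq, normSq_smul, h2, h3]
    exact (S4_f1 _).le
  · left; left
    refine ⟨rfl, ?_⟩
    rw [rsq_eq]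
    show (a' - 0) ^ 2 + Complex.normSq ((f : ℂ) * p.2.2) ≤ 1 / 25
    rcases le_total (Complex.normSq p.2.2) (1 / 25 - p.2.1 ^ 2) with h6 | h6
    · rw [h4 h6, h3, sub_zero]
      exact le_sub_iff_add_le'.1 h6
    · rw [normSq_smul, h5 h6, h3, sub_zero, add_sub_cancel]
  · right
    refine ⟨rfl, ?_, ?_, ?_⟩
    · exact h1.trans h3.ge
    · exact h3.le.trans h2
    · show (f : ℂ) * p.2.2 = 0
      rw [h4, Complex.ofReal_zero, zero_mul]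
  · left; right
    refine ⟨rfl, ?_⟩
    rw [rsq_eq]
    show (a' - 1) ^ 2 + Complex.normSq ((f : ℂ) * p.2.2) ≤ 1 / 25
    rcases le_total (Complex.normSq p.2.2) (1 / 25 - (p.2.1 - 1) ^ 2) with h6 | h6
    · rw [h4 h6, h3]
      exact le_sub_iff_add_le'.1 h6
    · rw [normSq_smul, h5 h6, h3, add_sub_cancel]
  · left; right
    refine ⟨rfl, ?_⟩
    rw [rsq_eq, normSq_smul, h2, h3]
    exact (S4_f2 _).le

theorem fixed (p : R4) (hp : rsq 0 p ≤ 1 / 25 ∨ rsq 1 p ≤ 1 / 25 ∨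
    (1 / 5 ≤ p.2.1 ∧ p.2.1 ≤ 4 / 5 ∧ p.2.2 = 0)) : sq 0 p = (1 / 2, p.2) := by
  obtain ⟨a', f, e, hf0, hf1, hc⟩ := cases0 p
  have hk := Complex.normSq_nonneg p.2.2
  have main : a' = p.2.1 ∧ (f : ℂ) * p.2.2 = p.2.2 → sq 0 p = (1 / 2, p.2) := by
    rintro ⟨h1, h2⟩
    rw [e, h1, h2]
  apply main
  rw [rsq_eq, rsq_eq, sub_zero] at hp
  have hz : Complex.normSq p.2.2 ≤ 0 → p.2.2 = 0 := fun h =>
    Complex.normSq_eq_zero.1 (le_antisymm h hk)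
  rcases hc with ⟨h1, h2, h3⟩ | ⟨h1, h2, h3, h4, h5⟩ | ⟨h1, h2, h3, h4⟩ | ⟨h1, h2, h3, h4, h5⟩ |
    ⟨h1, h2, h3⟩
  · rcases hp with hp | hp | hp
    · obtain ⟨ha, hn⟩ := S4_eq1 h1 hp hk
      rw [hz hn, mul_zero]
      exact ⟨h2.trans ha.symm, rfl⟩
    · exact absurd hp (S4_nle (S4_gt2 (S4_a5 (h1.trans S4_n1))) hk)
    · exact absurd (hp.1.trans h1) S4_n6
  · refine ⟨h3, ?_⟩
    rcases hp with hp | hp | hp
    · exact h4 (le_sub_iff_add_le'.2 hp)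
    · exact absurd hp (S4_nle (S4_gt2 (S4_a5 h2)) hk)
    · rw [hp.2.2, mul_zero]
  · refine ⟨h3, ?_⟩
    rcases hp with hp | hp | hp
    · rw [hz (S4_eq2 h1 hp hk).2, mul_zero]
    · rw [hz (S4_eq1 (S4_a1 h2) hp hk).2, mul_zero]
    · rw [hp.2.2, mul_zero]
  · refine ⟨h3, ?_⟩
    rcases hp with hp | hp | hp
    · exact absurd hp (S4_nle (S4_gt1 h1) hk)
    · exact h4 (le_sub_iff_add_le'.2 hp)
    · rw [hp.2.2, mul_zero]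
  · rcases hp with hp | hp | hp
    · exact absurd hp (S4_nle (S4_gt1 (S4_n3.trans h1)) hk)
    · obtain ⟨ha, hn⟩ := S4_eq2 (S4_a4 h1) hp hk
      rw [hz hn, mul_zero]
      exact ⟨h2.trans (S4_a6 ha), rfl⟩
    · exact absurd (h1.trans hp.2.1) S4_n7

theorem fixed_FB (p : R4) (hp : p ∈ FB) : sq 0 p = p := by
  have h1 : p.1 = 1 / 2 := by
    rcases hp with (hp | hp) | hp
    · exact hp.1
    · exact hp.1
    · exact hp.1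
  have h2 : sq 0 p = (1 / 2, p.2) := by
    apply fixed
    rcases hp with (hp | hp) | hp
    · exact Or.inl hp.2
    · exact Or.inr (Or.inl hp.2)
    · exact Or.inr (Or.inr ⟨hp.2.1, hp.2.2.1, hp.2.2.2⟩)
  rw [h2]
  exact Prod.ext h1.symm rfl

theorem S4_lo1 {x N : ℝ} (h : 1 / 5 ≤ x) (hN : 0 ≤ N) : (1 / 5) ^ 2 ≤ x ^ 2 + N :=
  le_add_of_le_of_nonneg (pow_le_pow_left₀ (by norm_num) h 2) hN

theorem S4_lo2 {x N : ℝ} (h : x ≤ -(1 / 5)) (hN : 0 ≤ N) : (1 / 5) ^ 2 ≤ x ^ 2 + N := by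
  have h2 := S4_lo1 (x := -x) (by linarith only [h]) hN
  rwa [neg_sq] at h2

theorem S4_c1 {a t : ℝ} (ht0 : 0 ≤ t) (ht1 : t ≤ 1) (h : a ≤ -(1 / 5)) :
    (1 - t) * (-(1 / 5)) + t * a ≤ -(1 / 5) ∧ a ≤ (1 - t) * (-(1 / 5)) + t * a := by
  have h1 := mul_nonneg ht0 (sub_nonneg.2 h)
  have h2 := mul_nonneg (sub_nonneg.2 ht1) (sub_nonneg.2 h)
  exact ⟨by linarith only [h1], by linarith only [h2]⟩

theorem S4_c5 {a t : ℝ} (ht0 : 0 ≤ t) (ht1 : t ≤ 1) (h : 6 / 5 ≤ a) :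
    6 / 5 ≤ (1 - t) * (6 / 5) + t * a ∧ (1 - t) * (6 / 5) + t * a ≤ a := by
  have h1 := mul_nonneg ht0 (sub_nonneg.2 h)
  have h2 := mul_nonneg (sub_nonneg.2 ht1) (sub_nonneg.2 h)
  exact ⟨by linarith only [h1], by linarith only [h2]⟩

theorem S4_sq {x y : ℝ} (h : x ≤ 0) (h2 : y ≤ x) : x ^ 2 ≤ y ^ 2 := by
  have h3 := pow_le_pow_left₀ (neg_nonneg.2 h) (neg_le_neg h2) 2
  rwa [neg_sq, neg_sq] at h3

theorem S4_core {a a' f t k N m : ℝ} (ht0 : 0 ≤ t) (ht1 : t ≤ 1)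
    (hN : 0 ≤ N) (hfN : f ^ 2 * k ≤ N)
    (hp0 : (1 / 5) ^ 2 ≤ a ^ 2 + k) (hp1 : (1 / 5) ^ 2 ≤ (a - 1) ^ 2 + k)
    (hm : m = (1 - t) * a' + t * a)
    (hc : (a ≤ -(1 / 5) ∧ a' = -(1 / 5)) ∨
     (-(1 / 5) ≤ a ∧ a ≤ 1 / 5 ∧ a' = a ∧ (1 / 25 - a ^ 2 ≤ k → f ^ 2 * k = 1 / 25 - a ^ 2)) ∨
     (1 / 5 ≤ a ∧ a ≤ 4 / 5 ∧ a' = a) ∨
     (4 / 5 ≤ a ∧ a ≤ 6 / 5 ∧ a' = a ∧
      (1 / 25 - (a - 1) ^ 2 ≤ k → f ^ 2 * k = 1 / 25 - (a - 1) ^ 2)) ∨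
     (6 / 5 ≤ a ∧ a' = 6 / 5)) :
    m ^ 2 ≤ a ^ 2 ∧ (1 / 5) ^ 2 ≤ m ^ 2 + N ∧ (1 / 5) ^ 2 ≤ (m - 1) ^ 2 + N := by
  rcases hc with ⟨h1, h2⟩ | ⟨h1, h2, h3, h5⟩ | ⟨h1, h2, h3⟩ | ⟨h1, h2, h3, h5⟩ | ⟨h1, h2⟩
  · obtain ⟨h4, h6⟩ := S4_c1 ht0 ht1 h1
    rw [h2] at hm
    rw [← hm] at h4 h6
    exact ⟨S4_sq (h4.trans S4_n4) h6, S4_lo2 h4 hN,
      S4_lo2 (S4_a1 (h4.trans (S4_n1.trans S4_n2))) hN⟩
  · have h6 := h5 (sub_le_iff_le_add'.2 (S4_sn1.ge.trans hp0))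
    rw [h6] at hfN
    rw [S4_mid hm h3]
    exact ⟨le_rfl, S4_sn1.le.trans (sub_le_iff_le_add'.1 hfN), S4_lo2 (S4_a1 (h2.trans S4_n2)) hN⟩
  · rw [S4_mid hm h3]
    exact ⟨le_rfl, S4_lo1 h1 hN, S4_lo2 (S4_a1 h2) hN⟩
  · have h6 := h5 (sub_le_iff_le_add'.2 (S4_sn1.ge.trans hp1))
    rw [h6] at hfN
    rw [S4_mid hm h3]
    exact ⟨le_rfl, S4_lo1 (S4_n2.trans h1) hN, S4_sn1.le.trans (sub_le_iff_le_add'.1 hfN)⟩
  · obtain ⟨h4, h6⟩ := S4_c5 ht0 ht1 h1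
    rw [h2] at hm
    rw [← hm] at h4 h6
    exact ⟨pow_le_pow_left₀ (S4_n5.trans h4) h6 2, S4_lo1 ((S4_n2.trans S4_n3).trans h4) hN,
      S4_lo1 (S4_a4 h4) hN⟩

theorem S4_s {t s : ℝ} (ht0 : 0 ≤ t) (ht1 : t ≤ 1) (h0 : 0 ≤ s) (h1 : s ≤ 1) :
    -1 ≤ (1 - t) * (1 / 2) + t * s ∧ (1 - t) * (1 / 2) + t * s ≤ 2 := by
  have h2 := mul_nonneg ht0 h0
  have h3 := mul_le_mul_of_nonneg_left h1 ht0
  exact ⟨by linarith only [h2, ht0, ht1], by linarith only [h3, ht0, ht1]⟩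

theorem S4_hom (t : ℝ) (p : R4) (a' f : ℝ) (e : sq 0 p = (1 / 2, a', (f : ℂ) * p.2.2)) :
    hom 0 (t, p) = ((1 - t) * (1 / 2) + t * p.1, (1 - t) * a' + t * p.2.1,
      (((1 - t) * f + t : ℝ) : ℂ) * p.2.2) := by
  show (1 - t) • sq 0 p + t • p = _
  rw [e]
  refine Prod.ext rfl (Prod.ext rfl ?_)
  show (1 - t) • ((f : ℂ) * p.2.2) + t • p.2.2 = _
  rw [Complex.real_smul, Complex.real_smul]
  push_cast
  ring

theorem S4_EB (s a m : ℝ) (w : ℂ) (h0 : -1 ≤ s) (h1 : s ≤ 2)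
    (h2 : a ^ 2 + m ^ 2 * Complex.normSq w ≤ (9 / 2) ^ 2)
    (h3 : (1 / 5) ^ 2 ≤ a ^ 2 + m ^ 2 * Complex.normSq w)
    (h4 : (1 / 5) ^ 2 ≤ (a - 1) ^ 2 + m ^ 2 * Complex.normSq w) :
    ((s, a, (m : ℂ) * w) : R4) ∈ EB := by
  refine ⟨⟨h0, h1, ?_⟩, ?_, ?_⟩
  · rw [rsq_eq, normSq_smul, sub_zero]
    exact h2
  · rw [rsq_eq, normSq_smul, sub_zero]
    exact h3
  · rw [rsq_eq, normSq_smul]
    exact h4

theorem hom_mem (p : R4) (hp : p ∈ bsupp) (t : ℝ) (ht : t ∈ Icc (0 : ℝ) 1) :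
    hom 0 (t, p) ∈ EB := by
  obtain ⟨⟨hs0, hs1, hb⟩, hp0, hp1⟩ := hp
  obtain ⟨ht0, ht1⟩ := ht
  obtain ⟨a', f, e, hf0, hf1, hc⟩ := cases0 p
  have hk := Complex.normSq_nonneg p.2.2
  rw [rsq_eq] at hb hp0 hp1
  rw [sub_zero] at hb hp0
  rw [S4_hom t p a' f e]
  have hmf : f ≤ (1 - t) * f + t := S4_m1 ht0 hf1
  have hm1 : (1 - t) * f + t ≤ 1 := S4_m2 ht1 hf1
  have hm0 : 0 ≤ (1 - t) * f + t := hf0.trans hmf
  have hmk : ((1 - t) * f + t) ^ 2 * Complex.normSq p.2.2 ≤ Complex.normSq p.2.2 :=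
    mul_le_of_le_one_left hk (pow_le_one₀ hm0 hm1)
  have hfk : f ^ 2 * Complex.normSq p.2.2 ≤ ((1 - t) * f + t) ^ 2 * Complex.normSq p.2.2 :=
    mul_le_mul_of_nonneg_right (pow_le_pow_left₀ hf0 hmf 2) hk
  have hmk0 : 0 ≤ ((1 - t) * f + t) ^ 2 * Complex.normSq p.2.2 := mul_nonneg (sq_nonneg _) hk
  have hc' := S4_core (a := p.2.1) (a' := a') (f := f) (k := Complex.normSq p.2.2) ht0 ht1 hmk0 hfk
    hp0 hp1 rfl (by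
      rcases hc with h | h | h | h | h
      · exact Or.inl ⟨h.1, h.2.1⟩
      · exact Or.inr (Or.inl ⟨h.1, h.2.1, h.2.2.1, h.2.2.2.2⟩)
      · exact Or.inr (Or.inr (Or.inl ⟨h.1, h.2.1, h.2.2.1⟩))
      · exact Or.inr (Or.inr (Or.inr (Or.inl ⟨h.1, h.2.1, h.2.2.1, h.2.2.2.2⟩)))
      · exact Or.inr (Or.inr (Or.inr (Or.inr ⟨h.1, h.2.1⟩))))
  obtain ⟨c1, c2, c3⟩ := hc'
  obtain ⟨s1, s2⟩ := S4_s ht0 ht1 hs0 hs1
  exact S4_EB _ _ _ _ s1 s2 ((add_le_add c1 hmk).trans (hb.trans (by norm_num))) c2 c3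

theorem S4_half : (-1 : ℝ) ≤ 1 / 2 ∧ (1 / 2 : ℝ) ≤ 2 := by constructor <;> norm_num

theorem S4_num : (1 / 25 : ℝ) ≤ (9 / 2) ^ 2 ∧ ((1 / 5 : ℝ) ^ 2 = 1 / 25) := by
  constructor <;> norm_num

theorem S4_one {a : ℝ} (h : a ^ 2 ≤ 1 / 25) : 1 / 25 ≤ 1 / 25 - 2 * a + 1 := by
  have := (S4_ub h).2
  linarith only [this]

theorem S4_two {a N r s : ℝ} (h2 : r = 1 / 25) (h3 : r = s - 2 * a + 1)
    (h5 : r = (a - 1) ^ 2 + N) (hN : 0 ≤ N) : s ≤ (9 / 2) ^ 2 ∧ 1 / 25 ≤ s := by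
  have h := S4_ub (x := a - 1) (by linarith only [h2, h5, hN])
  exact ⟨by linarith only [h.2, h3, h2], by linarith only [h.1, h3, h2]⟩

theorem SP_EB : SP ⊆ EB := by
  rintro p hp
  have hk := Complex.normSq_nonneg p.2.2
  rcases hp with (hp | hp) | hp
  · obtain ⟨h1, h2⟩ := hp
    have h3 := rsq_one_eq p
    have h4 := sq_le_rsq p
    rw [h2] at h3 h4
    refine ⟨⟨h1.symm ▸ S4_half.1, h1.symm ▸ S4_half.2, h2.symm ▸ S4_num.1⟩,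
      (S4_num.2.trans h2.symm).le, ?_⟩
    rw [h3, S4_num.2]
    exact S4_one h4
  · obtain ⟨h1, h2⟩ := hp
    obtain ⟨h3, h4⟩ := S4_two h2 (rsq_one_eq p) (rsq_eq 1 p) hk
    refine ⟨⟨h1.symm ▸ S4_half.1, h1.symm ▸ S4_half.2, h3⟩, S4_num.2.le.trans h4,
      (S4_num.2.trans h2.symm).le⟩
  · obtain ⟨h1, h2, h3, h4⟩ := hp
    have h5 := rsq_eq 1 p
    have h6 := rsq_eq 0 p
    rw [h4, Complex.normSq_zero] at h5 h6
    rw [sub_zero] at h6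
    refine ⟨⟨h1.symm ▸ S4_half.1, h1.symm ▸ S4_half.2, ?_⟩, ?_, ?_⟩
    · rw [h6]
      have h7 := pow_le_one₀ (n := 2) (show 0 ≤ p.2.1 by linarith only [h2])
        (show p.2.1 ≤ 1 by linarith only [h3])
      linarith only [h7]
    · rw [h6]
      exact S4_lo1 h2 le_rfl
    · rw [h5]
      exact S4_lo2 (by linarith only [h3]) le_rfl

theorem bsupp_EB : bsupp ⊆ EB := by
  rintro p ⟨⟨h1, h2, h3⟩, h4, h5⟩
  exact ⟨⟨by linarith, by linarith, h3.trans (by norm_num)⟩, h4, h5⟩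

theorem EB_NB : EB ⊆ NB := by
  rintro p ⟨h1, h2, h3⟩
  exact ⟨h1, le_trans (by norm_num) h2, le_trans (by norm_num) h3⟩

theorem cpt_EB : IsCompact EB := by
  apply isCompact_NB.of_isClosed_subset _ EB_NB
  apply IsClosed.inter isClosed_ball4
  exact IsClosed.inter (isClosed_le continuous_const (continuous_rsq 0))
    (isClosed_le continuous_const (continuous_rsq 1))

theorem cpt_flat (c : ℝ) : IsCompact (flat c) := by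
  apply Metric.isCompact_of_isClosed_isBounded
  · exact IsClosed.inter (isClosed_eq continuous_fst continuous_const)
      (isClosed_le (continuous_rsq c) continuous_const)
  · exact (isBounded_of_rsq c (1 / 25) (1 / 2) (1 / 2)).subset
      (fun p hp => ⟨hp.1.ge, hp.1.le, hp.2⟩)

theorem cpt_sph (c : ℝ) : IsCompact (sph c) := by
  apply (cpt_flat c).of_isClosed_subset
  · exact IsClosed.inter (isClosed_eq continuous_fst continuous_const)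
      (isClosed_eq (continuous_rsq c) continuous_const)
  · exact fun p hp => ⟨hp.1, hp.2.le⟩

theorem cpt_neck : IsCompact neck := by
  apply Metric.isCompact_of_isClosed_isBounded
  · exact IsClosed.inter (isClosed_eq continuous_fst continuous_const)
      (IsClosed.inter (isClosed_le continuous_const continuous_snd.fst)
        (IsClosed.inter (isClosed_le continuous_snd.fst continuous_const)
          (isClosed_eq continuous_snd.snd continuous_const)))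
  · apply (isBounded_of_rsq 0 1 (1 / 2) (1 / 2)).subset
    rintro p ⟨h1, h2, h3, h4⟩
    refine ⟨h1.ge, h1.le, ?_⟩
    rw [rsq_eq, h4, Complex.normSq_zero, sub_zero]
    have h7 := pow_le_one₀ (n := 2) (show 0 ≤ p.2.1 by linarith only [h2])
      (show p.2.1 ≤ 1 by linarith only [h3])
    linarith only [h7]

end S4

open S4 in
theorem m_S4 : StS4 :=
  ⟨ext_SP, mem_FB, fixed, fixed_FB, fun p hp t ht => hom_mem p hp t ht, SP_EB, bsupp_EB, EB_NB,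
    ((cpt_sph 0).union (cpt_sph 1)).union cpt_neck,
    ((cpt_flat 0).union (cpt_flat 1)).union cpt_neck, cpt_EB⟩

end Pool.Agent.Helper18.BI
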