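import Pool.Agent.Helper18.BI.StA

/-!
# Module S5: the tube lemma
-/

set_option autoImplicit false

open scoped Manifold ContDiff Topology ComplexConjugate
open Set Pool.Agent.Helper65.Barb

namespace Pool.Agent.Helper18.BI

namespace S5

theorem tube (g : ℝ → ℝ × R4 → ℝ × R4)
    (hg : ContinuousOn (fun q : ℝ × (ℝ × R4) => g q.1 q.2) (Ici 0 ×ˢ univ))
    {C : Set (ℝ × R4)} (hC : IsCompact C) {U : Set (ℝ × R4)} (hU : IsOpen U)
    (h : ∀ c ∈ C, g 0 c ∈ U) : ∃ ε₀ > 0, ∀ ε ∈ Ioo 0 ε₀, ∀ c ∈ C, g ε c ∈ U := by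
  have h1 : Continuous (fun q : ℝ × (ℝ × R4) => ((max q.1 0, q.2) : ℝ × (ℝ × R4))) := by
    fun_prop
  have hcont : Continuous (fun q : ℝ × (ℝ × R4) => g (max q.1 0) q.2) :=
    hg.comp_continuous h1 (fun q => mk_mem_prod (mem_Ici.2 (le_max_right q.1 0)) (mem_univ _))
  obtain ⟨u, v, hu, hv, hu0, hCv, huv⟩ := generalized_tube_lemma
    (isCompact_singleton (x := (0 : ℝ))) hC (hU.preimage hcont) (by
      rintro ⟨a, c⟩ ⟨ha, hc⟩
      have ha' : a = 0 := ha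
      show g (max a 0) c ∈ U
      rw [ha', max_self]
      exact h c hc)
  obtain ⟨ε₀, hε₀, hball⟩ := Metric.isOpen_iff.1 hu 0 (hu0 rfl)
  refine ⟨ε₀, hε₀, fun ε hε c hc => ?_⟩
  have hε1 : ε ∈ u := by
    apply hball
    rw [Metric.mem_ball, Real.dist_eq, sub_zero, abs_of_pos hε.1]
    exact hε.2
  have h2 : g (max ε 0) c ∈ U := huv (mk_mem_prod hε1 (hCv hc))
  rwa [max_eq_left hε.1.le] at h2

end S5

theorem m_S5 (h3 : StS3) : StS5 := by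
  intro K U hK hU
  have hC : IsCompact (Icc (0 : ℝ) 1 ×ˢ K) := isCompact_Icc.prod hK
  have hsq : ContinuousOn (fun q : ℝ × (ℝ × R4) => sq q.1 q.2.2) (Ici 0 ×ˢ univ) := by
    have h1 : Continuous (fun q : ℝ × (ℝ × R4) => ((q.1, q.2.2) : ℝ × R4)) := by fun_prop
    exact ContinuousOn.comp (g := fun q : ℝ × R4 => sq q.1 q.2) (t := Ici 0 ×ˢ univ) h3
      h1.continuousOn (fun q hq => ⟨hq.1, mem_univ _⟩)
  have ht : ContinuousOn (fun q : ℝ × (ℝ × R4) => q.2.1) (Ici (0 : ℝ) ×ˢ (univ : Set (ℝ × R4))) :=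
    (continuous_fst.comp continuous_snd).continuousOn
  have hp : ContinuousOn (fun q : ℝ × (ℝ × R4) => q.2.2) (Ici (0 : ℝ) ×ˢ (univ : Set (ℝ × R4))) :=
    (continuous_snd.comp continuous_snd).continuousOn
  refine ⟨fun h => ?_, fun h => ?_⟩
  · obtain ⟨ε₀, h0, h1⟩ := S5.tube (fun ε c => (c.1, sq ε c.2)) (ht.prodMk hsq) hC hU
      (fun c hc => h c.1 hc.1 c.2 hc.2)
    exact ⟨ε₀, h0, fun ε hε t ht p hp => h1 ε hε (t, p) ⟨ht, hp⟩⟩
  · obtain ⟨ε₀, h0, h1⟩ := S5.tube (fun ε c => (c.1, hom ε c)) (ht.prodMk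
      (((continuousOn_const.sub ht).smul hsq).add (ht.smul hp))) hC hU
      (fun c hc => h c.1 hc.1 c.2 hc.2)
    exact ⟨ε₀, h0, fun ε hε t ht p hp => h1 ε hε (t, p) ⟨ht, hp⟩⟩

end Pool.Agent.Helper18.BI
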