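import Pool.Agent.Helper18.BI.StA

/-!
# Project BI (MP_8e98f2_gt), module T1: thin lemma, the four families
-/

set_option autoImplicit false

open scoped Manifold ContDiff Topology ComplexConjugate
open Set Pool.Agent.Helper65.Barb

namespace Pool.Agent.Helper18.BI

namespace T1

variable {E : Type} [NormedAddCommGroup E] [NormedSpace ℝ E] {H : Type} [TopologicalSpace H]
    {I : ModelWithCorners ℝ E H} {M : Type} [TopologicalSpace M] [ChartedSpace H M]

variable (I) in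
/-- a good open set for the family `J` -/
structure Good (J : ℝ × R4 → M) (U : Set (ℝ × R4)) : Prop where
  op : IsOpen U
  sm : ContMDiffOn 𝓘(ℝ, ℝ × R4) I ∞ J U
  inj : InjOn (fun q : ℝ × R4 => (q.1, J q)) U
  loc : ∀ q ∈ U, IsLocalDiffeomorphAt 𝓘(ℝ, R4) I ∞ (fun p => J (q.1, p)) q.2

theorem good_of_delta {J : ℝ × R4 → M}
    (δ : PartialDiffeomorph 𝓘(ℝ, ℝ × R4) (𝓘(ℝ, ℝ).prod I) (ℝ × R4) (ℝ × M) ∞)
    (hδ : ∀ q ∈ δ.source, δ q = (q.1, J q)) : Good I J δ.source := by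
  have hsm : ContMDiffOn 𝓘(ℝ, ℝ × R4) I ∞ J δ.source := by
    refine (contMDiff_snd.comp_contMDiffOn δ.contMDiffOn_toFun).congr ?_
    intro q hq
    have := hδ q hq
    change J q = (δ q).2
    rw [this]
  refine ⟨δ.open_source, hsm, ?_, ?_⟩
  · intro q hq q' hq' h
    apply δ.injOn hq hq'
    rw [hδ q hq, hδ q' hq']
    exact h
  · intro q hq
    have hL : ContDiff ℝ ∞ (fun p : R4 => (q.1, p)) := contDiff_const.prodMk contDiff_id
    have hR : ContMDiff I (𝓘(ℝ, ℝ).prod I) ∞ (fun y : M => (q.1, y)) :=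
      contMDiff_const.prodMk contMDiff_id
    have key : ∀ y : M, (q.1, y) ∈ δ.target →
        (q.1, (δ.toPartialEquiv.symm (q.1, y)).2) = δ.toPartialEquiv.symm (q.1, y) := by
      intro y hy
      have h1 : δ.toPartialEquiv.symm (q.1, y) ∈ δ.source := δ.map_target hy
      have h2 : δ (δ.toPartialEquiv.symm (q.1, y)) = (q.1, y) := δ.right_inv hy
      rw [hδ _ h1] at h2
      have h3 := congrArg Prod.fst h2
      exact Prod.ext h3.symm rfl
    refine ⟨{ toFun := fun p => J (q.1, p)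
              invFun := fun y => (δ.toPartialEquiv.symm (q.1, y)).2
              source := {p | (q.1, p) ∈ δ.source}
              target := {y | (q.1, y) ∈ δ.target}
              map_source' := ?_
              map_target' := ?_
              left_inv' := ?_
              right_inv' := ?_
              open_source := ?_
              open_target := ?_
              contMDiffOn_toFun := ?_
              contMDiffOn_invFun := ?_ }, hq, fun _ _ => rfl⟩
    · intro p hp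
      have h1 := hδ _ hp
      have h2 := δ.map_source hp
      change (q.1, J (q.1, p)) ∈ δ.target
      have h3 : δ (q.1, p) ∈ δ.target := h2
      rw [h1] at h3
      exact h3
    · intro y hy
      change (q.1, (δ.toPartialEquiv.symm (q.1, y)).2) ∈ δ.source
      rw [key y hy]
      exact δ.map_target hy
    · intro p hp
      have h1 := hδ _ hp
      have h2 : δ.toPartialEquiv.symm (δ (q.1, p)) = (q.1, p) := δ.left_inv hp
      rw [h1] at h2
      change (δ.toPartialEquiv.symm (q.1, J (q.1, p))).2 = p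
      have h3 : (q.1, J (q.1, p)) = (((q.1, p) : ℝ × R4).1, J (q.1, p)) := rfl
      rw [h3, h2]
    · intro y hy
      rw [key y hy]
      have h1 : δ.toPartialEquiv.symm (q.1, y) ∈ δ.source := δ.map_target hy
      have h2 : δ (δ.toPartialEquiv.symm (q.1, y)) = (q.1, y) := δ.right_inv hy
      rw [hδ _ h1] at h2
      exact congrArg Prod.snd h2
    · exact δ.open_source.preimage hL.continuous
    · exact δ.open_target.preimage hR.continuous
    · exact hsm.comp hL.contMDiff.contMDiffOn (fun p hp => hp)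
    · have h1 : ContMDiffOn (𝓘(ℝ, ℝ).prod I) 𝓘(ℝ, ℝ × R4) ∞ δ.toPartialEquiv.symm δ.target :=
        δ.contMDiffOn_invFun
      have h2 : ContMDiffOn I 𝓘(ℝ, ℝ × R4) ∞ (fun y => δ.toPartialEquiv.symm (q.1, y))
          {y | (q.1, y) ∈ δ.target} := h1.comp hR.contMDiffOn (fun p hp => hp)
      have h3 : ContDiff ℝ ∞ (fun q : ℝ × R4 => q.2) := contDiff_snd
      exact h3.contMDiff.comp_contMDiffOn h2

theorem exists_good [T2Space M] (a1 : StA1) (a2 : StA2) {J : ℝ × R4 → M} {L : Set R4}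
    (hL : IsCompact L) (hJ : FamOn I J L) :
    ∃ U : Set (ℝ × R4), Icc 0 1 ×ˢ L ⊆ U ∧ Good I J U := by
  obtain ⟨δ, h1, h2⟩ := a1 (ℝ × R4) (ℝ × E) (ModelProd ℝ H) (𝓘(ℝ, ℝ).prod I) (ℝ × M)
    (fun q => (q.1, J q)) (Icc 0 1 ×ˢ L) (isCompact_Icc.prod hL) (a2 E H I M J L hJ) (by
      intro q hq q' hq' h
      have h0 : ((q.1, J q) : ℝ × M) = (q'.1, J q') := h
      obtain ⟨h3, h4⟩ := Prod.mk.inj h0
      refine Prod.ext h3 ?_
      apply (hJ.2 q.1 hq.1).2 hq.2 hq'.2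
      change J (q.1, q.2) = J (q.1, q'.2)
      rw [Prod.mk.eta, h4, h3])
  exact ⟨δ.source, h1, good_of_delta δ h2⟩

/-- composition of a family of germs in `R4` with a good family -/
theorem fam_comp {J : ℝ × R4 → M} {U : Set (ℝ × R4)} (hU : Good I J U) {G : ℝ × R4 → R4}
    {K : Set R4} (hG : FamOn 𝓘(ℝ, R4) G K)
    (hm : ∀ t ∈ Icc (0 : ℝ) 1, ∀ p ∈ K, (t, G (t, p)) ∈ U) :
    FamOn I (fun q => J (q.1, G q)) K := by
  obtain ⟨⟨W, hW, hWK, hGW⟩, hG2⟩ := hG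
  have hc : ContDiffOn ℝ ∞ (fun q : ℝ × R4 => (q.1, G q)) W :=
    contDiff_fst.contDiffOn.prodMk (contMDiffOn_iff_contDiffOn.1 hGW)
  refine ⟨⟨W ∩ (fun q : ℝ × R4 => (q.1, G q)) ⁻¹' U,
    hc.continuousOn.isOpen_inter_preimage hW hU.op, ?_, ?_⟩, ?_⟩
  · intro q hq
    exact ⟨hWK hq, hm q.1 hq.1 q.2 hq.2⟩
  · exact hU.sm.comp (hc.contMDiffOn.mono inter_subset_left) (fun q hq => hq.2)
  · intro t ht
    refine ⟨?_, ?_⟩
    · intro p hp
      exact IsLocalDiffeomorphAt.comp I M ((hG2 t ht).1 p hp) (hU.loc (t, G (t, p)) (hm t ht p hp))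
    · intro p hp p' hp' h
      have h1 := hU.inj (hm t ht p hp) (hm t ht p' hp') (Prod.ext rfl h)
      exact (hG2 t ht).2 hp hp' (congrArg Prod.snd h1)

/-- the constant family -/
theorem fam_const [T2Space M] (a1 : StA1) {F : R4 → M} {L : Set R4} (hL : IsCompact L)
    (hF : EmbOn I F L) : FamOn I (fun q : ℝ × R4 => F q.2) L := by
  obtain ⟨δ, h1, h2⟩ := a1 R4 E H I M F L hL hF.1 hF.2
  refine ⟨⟨Prod.snd ⁻¹' δ.source, δ.open_source.preimage continuous_snd,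
    fun q hq => h1 hq.2, ?_⟩, fun t _ => hF⟩
  have h3 : ContMDiffOn 𝓘(ℝ, R4) I ∞ F δ.source :=
    δ.contMDiffOn_toFun.congr (fun p hp => (h2 p hp).symm)
  have h4 : ContDiff ℝ ∞ (fun q : ℝ × R4 => q.2) := contDiff_snd
  exact h3.comp h4.contMDiff.contMDiffOn (fun q hq => hq)

theorem emb_mono {F : R4 → M} {L L' : Set R4} (hF : EmbOn I F L) (h : L' ⊆ L) : EmbOn I F L' :=
  ⟨fun p hp => hF.1 p (h hp), hF.2.mono h⟩

theorem hom_zero_of_FB (s4 : StS4) {q : R4} (hq : q ∈ FB) (t : ℝ) : hom 0 (t, q) = q := by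
  have h : sq 0 q = q := s4.2.2.2.1 q hq
  simp only [hom, h]
  rw [← add_smul]
  simp

end T1

open T1

theorem m_T1 (a0 : StA0) (a1 : StA1) (a2 : StA2) (s2 : StS2) (s4 : StS4) (s5 : StS5)
    (s6 : StS6) : StT1 := by
  have _ := a0
  intro E _ _ H _ I M _ _ _ L K hL hK
  obtain ⟨s61, s62, s63⟩ := s6
  refine ⟨?_, ?_, ?_, ?_⟩
  · intro hKL J hJ
    obtain ⟨U, hUL, hU⟩ := exists_good a1 a2 hL hJ
    obtain ⟨ε₀, h0, h1⟩ := (s5 K U hK hU.op).1 (fun t ht p hp => hUL ⟨ht, hKL p hp⟩)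
    refine ⟨ε₀, h0, fun ε hε => ?_⟩
    refine fam_comp hU (G := fun q => sq ε q.2) ?_ (h1 ε hε)
    refine ⟨⟨univ, isOpen_univ, subset_univ _, ?_⟩, fun t _ =>
      emb_mono (s61 ε hε.1) (subset_univ _)⟩
    rw [contMDiffOn_iff_contDiffOn]
    have h2 : ContDiff ℝ ∞ (fun q : ℝ × R4 => (ε, q.2)) := contDiff_const.prodMk contDiff_snd
    exact s2.2.2.2.comp h2.contDiffOn (fun q _ => ⟨hε.1, mem_univ _⟩)
  · intro hKL F hF
    obtain ⟨U, hUL, hU⟩ := exists_good a1 a2 hL (fam_const a1 hL hF)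
    obtain ⟨ε₀, h0, h1⟩ := (s5 K U hK hU.op).2 (fun t ht p hp => hUL ⟨ht, hKL p hp t ht⟩)
    refine ⟨ε₀, h0, fun ε hε => ?_⟩
    refine fam_comp (J := fun q : ℝ × R4 => F q.2) hU (G := hom ε) ?_ (h1 ε hε)
    exact ⟨⟨univ, isOpen_univ, subset_univ _, (s62 ε hε.1).contMDiff.contMDiffOn⟩, fun t ht =>
      emb_mono (s63 ε hε.1 t ht) (subset_univ _)⟩
  · intro hKL F hF
    obtain ⟨U, hUL, hU⟩ := exists_good a1 a2 hL (fam_const a1 hL hF)
    obtain ⟨ε₀, h0, h1⟩ := (s5 K U hK hU.op).1 (fun t ht p hp => hUL ⟨ht, hKL p hp⟩)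
    refine ⟨ε₀, h0, fun ε₁ hε₁ ε₂ hε₂ => ?_⟩
    have hmem : ∀ t ∈ Icc (0 : ℝ) 1, (1 - t) * ε₁ + t * ε₂ ∈ Ioo 0 ε₀ := by
      intro t ht
      have := (convex_Ioo (0 : ℝ) ε₀) hε₁ hε₂ (sub_nonneg.2 ht.2) ht.1 (by ring)
      simpa [smul_eq_mul] using this
    refine fam_comp (J := fun q : ℝ × R4 => F q.2) hU
      (G := fun q => sq ((1 - q.1) * ε₁ + q.1 * ε₂) q.2) ?_
      (fun t ht p hp => h1 _ (hmem t ht) t ht p hp)
    have hc : ContDiff ℝ ∞ (fun q : ℝ × R4 => ((1 - q.1) * ε₁ + q.1 * ε₂, q.2)) :=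
      (((contDiff_const.sub contDiff_fst).mul contDiff_const).add
        (contDiff_fst.mul contDiff_const)).prodMk contDiff_snd
    refine ⟨⟨(fun q : ℝ × R4 => ((1 - q.1) * ε₁ + q.1 * ε₂, q.2)) ⁻¹' (Ioi 0 ×ˢ univ),
      (isOpen_Ioi.prod isOpen_univ).preimage hc.continuous, ?_, ?_⟩, fun t ht =>
      emb_mono (s61 _ (hmem t ht).1) (subset_univ _)⟩
    · intro q hq
      exact ⟨(hmem q.1 hq.1).1, mem_univ _⟩
    · rw [contMDiffOn_iff_contDiffOn]
      exact s2.2.2.2.comp hc.contDiffOn (fun q hq => hq)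
  · intro hLF F hF m hm hmK
    obtain ⟨U, hUL, hU⟩ := exists_good a1 a2 hL (fam_const a1 hL hF)
    have hmc : ContinuousOn m K := fun p hp => ((hm.1 p hp).contMDiffAt).continuousAt.continuousWithinAt
    obtain ⟨ε₀, h0, h1⟩ := (s5 (m '' K) U (hK.image_of_continuousOn hmc) hU.op).2 (by
      rintro t ht _ ⟨p, hp, rfl⟩
      rw [hom_zero_of_FB s4 (hLF (hmK hp))]
      exact hUL ⟨ht, hmK hp⟩)
    refine ⟨ε₀, h0, fun ε hε => ?_⟩
    refine fam_comp (J := fun q : ℝ × R4 => F q.2) hU (G := fun q => hom ε (q.1, m q.2)) ?_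
      (fun t ht p hp => h1 ε hε t ht (m p) (mem_image_of_mem m hp))
    obtain ⟨⟨W, hW, hWK, hmW⟩, -⟩ := fam_const a1 hK hm
    refine ⟨⟨W, hW, hWK, ?_⟩, fun t ht => ⟨?_, ?_⟩⟩
    · rw [contMDiffOn_iff_contDiffOn] at hmW ⊢
      exact (s62 ε hε.1).comp_contDiffOn (contDiff_fst.contDiffOn.prodMk hmW)
    · intro p hp
      exact IsLocalDiffeomorphAt.comp 𝓘(ℝ, R4) R4 (hm.1 p hp)
        ((s63 ε hε.1 t ht).1 (m p) (mem_univ _))
    · intro p hp p' hp' h
      exact hm.2 hp hp' ((s63 ε hε.1 t ht).2 (mem_univ _) (mem_univ _) h)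

end Pool.Agent.Helper18.BI

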