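import Pool.Agent.Helper18.BI.StA
import Pool.Agent.Helper18.BI.M_S2

/-!
# Project BI: module T2 (the implantation class of a germ)
-/

set_option autoImplicit false

open scoped Manifold ContDiff Topology ComplexConjugate
open Set Pool.Agent.Helper65.Barb

namespace Pool.Agent.Helper18.BI

namespace T2

section
variable {E : Type*} [NormedAddCommGroup E] [NormedSpace ℝ E] {H : Type*} [TopologicalSpace H]
  {I : ModelWithCorners ℝ E H} {M : Type*} [TopologicalSpace M] [ChartedSpace H M]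

/-- the identity of an open set as a partial diffeomorphism -/
noncomputable def idOn (V : Set R4) (hV : IsOpen V) :
    PartialDiffeomorph 𝓘(ℝ, R4) 𝓘(ℝ, R4) R4 R4 ∞ where
  toPartialEquiv := PartialEquiv.ofSet V
  open_source := hV
  open_target := hV
  contMDiffOn_toFun := contMDiffOn_id
  contMDiffOn_invFun := contMDiffOn_id

theorem congr_ld {f g : R4 → M} {V : Set R4} (hV : IsOpen V) (hfg : EqOn f g V) {x : R4}
    (hx : x ∈ V) (hf : IsLocalDiffeomorphAt 𝓘(ℝ, R4) I ∞ f x) :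
    IsLocalDiffeomorphAt 𝓘(ℝ, R4) I ∞ g x := by
  obtain ⟨Φ, hxΦ, he⟩ := hf
  refine ⟨(idOn V hV).trans Φ, ?_, ?_⟩
  · exact ⟨hx, hxΦ⟩
  · rintro y ⟨hy, hyΦ⟩
    exact (hfg hy).symm.trans (he hyΦ)

theorem diff_ld {Ψ Ψ' : M → M} (h1 : ContMDiff I I ∞ Ψ) (h2 : ContMDiff I I ∞ Ψ')
    (h3 : ∀ x, Ψ (Ψ' x) = x) (h4 : ∀ x, Ψ' (Ψ x) = x) (x : M) :
    IsLocalDiffeomorphAt I I ∞ Ψ x := by
  let d : M ≃ₘ⟮I, I⟯ M :=
    { toFun := Ψ
      invFun := Ψ'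
      left_inv := h4
      right_inv := h3
      contMDiff_toFun := h1
      contMDiff_invFun := h2 }
  exact d.isLocalDiffeomorph x

end

theorem sdiff_bar : SDiff bsupp barMap (fun p => bfam.g (1, p)) := by
  refine ⟨?_, ?_, fun p => bfam.fg 1 p, fun p => bfam.gf 1 p, fun p hp => barMap_off hp⟩
  · exact contMDiff_iff_contDiff.1 (bfam.diffeo 1).contMDiff_toFun
  · exact contMDiff_iff_contDiff.1 (bfam.diffeo 1).contMDiff_invFun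

theorem maps_bar : MapsTo barMap bsupp bsupp := by
  intro p hp
  by_contra h
  have h1 : barMap (barMap p) = barMap p := barMap_off h
  have h2 : barMap p = p := by
    have h3 := congrArg (fun q => bfam.g (1, q)) h1
    have h4 : ∀ q, bfam.g (1, barMap q) = q := fun q => bfam.gf 1 q
    simpa [h4] using h3
  rw [h2] at h
  exact h hp

theorem sq_cont (ε : ℝ) (hε : 0 < ε) : Continuous (sq ε) := by
  have h := m_S2.2.2.2.continuousOn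
  have h1 : Continuous (fun p : R4 => ((ε, p) : ℝ × R4)) := by fun_prop
  exact h.comp_continuous h1 (fun p => ⟨hε, trivial⟩)

end T2

open T2 in
theorem m_T2 (a3 : StA3) (ci : StCI) (im : StImp) (s4 : StS4) (s5 : StS5) (t1 : StT1) : StT2 := by
  intro E _ _ H _ I M _ _ _
  have hSPb : ∀ p ∈ bsupp, sq 0 p ∈ SP := fun p hp => s4.1 p ⟨hp.2.1, hp.2.2⟩
  have hSPc : IsCompact SP := s4.2.2.2.2.2.2.2.2.1
  obtain ⟨t1i, -, t1iii, -⟩ := t1 E H I M SP bsupp hSPc isCompact_bsupp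
  obtain ⟨-, ci_symm, ci_refl, ci_trans, -, -, -, ci_conj, -, -⟩ := ci E H I M
  have A3 : ∀ J : ℝ × R4 → M, FamOn I J bsupp → CIsot I (imp (fun p => J (0, p)) bsupp barMap)
      (imp (fun p => J (1, p)) bsupp barMap) := fun J hJ =>
    a3 E H I M J bsupp barMap _ isCompact_bsupp hJ sdiff_bar
  have h0mem : (0 : ℝ) ∈ Icc (0 : ℝ) 1 := ⟨le_rfl, zero_le_one⟩
  have h1mem : (1 : ℝ) ∈ Icc (0 : ℝ) 1 := ⟨zero_le_one, le_rfl⟩
  refine ⟨?_, ?_, ?_, ?_, ?_, ?_, ?_⟩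
  · intro F hF
    obtain ⟨ε₀, hε₀, hfam⟩ := t1iii hSPb F hF
    refine ⟨ε₀, hε₀, fun ε hε => ⟨ε₀, hε₀, fun ε' hε' => ⟨?_, ?_⟩⟩⟩
    · have h := (hfam ε' hε' ε' hε').2 0 h0mem
      simp only [sub_zero, one_mul, zero_mul, add_zero] at h
      exact h
    · have h := A3 _ (hfam ε hε ε' hε')
      simp only [sub_zero, one_mul, zero_mul, add_zero, sub_self, zero_add] at h
      exact h
  · rintro F φ ψ ⟨ε₀, hε₀, h⟩ ⟨ε₁, hε₁, h'⟩
    have hm : 0 < min ε₀ ε₁ := lt_min hε₀ hε₁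
    have h1 := h (min ε₀ ε₁ / 2) ⟨by linarith, by linarith [min_le_left ε₀ ε₁]⟩
    have h2 := h' (min ε₀ ε₁ / 2) ⟨by linarith, by linarith [min_le_right ε₀ ε₁]⟩
    exact ci_trans _ _ _ h1.2 (ci_symm _ _ h2.2)
  · rintro J φ hJ ⟨ε₀, hε₀, h⟩
    obtain ⟨ε₁, hε₁, hfam⟩ := t1i hSPb J hJ
    refine ⟨min ε₀ ε₁, lt_min hε₀ hε₁, fun ε hε => ?_⟩
    have e0 : ε ∈ Ioo 0 ε₀ := ⟨hε.1, hε.2.trans_le (min_le_left _ _)⟩
    have e1 : ε ∈ Ioo 0 ε₁ := ⟨hε.1, hε.2.trans_le (min_le_right _ _)⟩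
    refine ⟨(hfam ε e1).2 1 h1mem, ?_⟩
    exact ci_trans _ _ _ (h ε e0).2 (A3 _ (hfam ε e1))
  · rintro F φ ψ ⟨ε₀, hε₀, h⟩ hφψ
    exact ⟨ε₀, hε₀, fun ε hε => ⟨(h ε hε).1, ci_trans _ _ _ (ci_symm _ _ hφψ) (h ε hε).2⟩⟩
  · rintro F F' U φ hU hSU hFF ⟨ε₀, hε₀, h⟩
    obtain ⟨ε₁, hε₁, hs⟩ := (s5 bsupp {q : ℝ × R4 | q.2 ∈ U} isCompact_bsupp
      (hU.preimage continuous_snd)).1 (fun t _ p hp => hSU (hSPb p hp))
    refine ⟨min ε₀ ε₁, lt_min hε₀ hε₁, fun ε hε => ?_⟩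
    have e0 : ε ∈ Ioo 0 ε₀ := ⟨hε.1, hε.2.trans_le (min_le_left _ _)⟩
    have e1 : ε ∈ Ioo 0 ε₁ := ⟨hε.1, hε.2.trans_le (min_le_right _ _)⟩
    have hmem : ∀ p ∈ bsupp, sq ε p ∈ U := fun p hp => hs ε e1 0 h0mem p hp
    obtain ⟨hemb, hci⟩ := h ε e0
    have hV : IsOpen (sq ε ⁻¹' U) := hU.preimage (sq_cont ε hε.1)
    have heq : EqOn (F ∘ sq ε) (F' ∘ sq ε) (sq ε ⁻¹' U) := fun p hp => hFF hp
    have heqb : EqOn (F ∘ sq ε) (F' ∘ sq ε) bsupp := fun p hp => hFF (hmem p hp)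
    refine ⟨⟨fun p hp => congr_ld hV heq (hmem p hp) (hemb.1 p hp), hemb.2.congr heqb⟩, ?_⟩
    have hi := (im E H I M (F ∘ sq ε) bsupp barMap hemb.2).2.2.2.2.2.1 (F' ∘ sq ε) heqb maps_bar
    rw [← hi]
    exact hci
  · rintro F φ Ψ Ψ' hΨ hΨ' h1 h2 ⟨ε₀, hε₀, h⟩
    refine ⟨ε₀, hε₀, fun ε hε => ?_⟩
    obtain ⟨hemb, hci⟩ := h ε hε
    refine ⟨⟨fun p hp => ?_, ?_⟩, ?_⟩
    · exact IsLocalDiffeomorphAt.comp I M (hemb.1 p hp) (diff_ld hΨ hΨ' h1 h2 _)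
    · intro p hp q hq hpq
      apply hemb.2 hp hq
      have h3 := congrArg Ψ' hpq
      have h4 : Ψ' (Ψ (F (sq ε p))) = Ψ' (Ψ (F (sq ε q))) := h3
      rw [h2, h2] at h4
      exact h4
    · have h5 := ci_conj _ _ Ψ Ψ' hci hΨ hΨ' h1 h2
      have h6 := (im E H I M (F ∘ sq ε) bsupp barMap hemb.2).2.2.2.2.2.2.1 Ψ Ψ' h1 h2
      have h7 : imp ((fun p => Ψ (F p)) ∘ sq ε) bsupp barMap =
          fun x => Ψ (imp (F ∘ sq ε) bsupp barMap (Ψ' x)) := funext h6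
      rw [h7]
      exact h5
  · rintro F φ ⟨ε₀, hε₀, h⟩
    exact ci_refl _ _ (h (ε₀ / 2) ⟨by linarith, by linarith⟩).2

end Pool.Agent.Helper18.BI
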