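import Pool.Agent.Helper18.BI.StA

/-!
# Project BI: modules T3 -- T7
-/

set_option autoImplicit false

open scoped Manifold ContDiff Topology ComplexConjugate
open Set Pool.Agent.Helper65.Barb

namespace Pool.Agent.Helper18.BI

namespace T3

/-- the inverse of the barbell map -/
noncomputable def barInv (p : R4) : R4 := bfam.g (1, p)

theorem contDiff_slice {f : ℝ × R4 → R4}
    (hf : ContMDiff (𝓘(ℝ, ℝ).prod 𝓘(ℝ, R4)) 𝓘(ℝ, R4) ∞ f) (t : ℝ) :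
    ContDiff ℝ ∞ (fun p => f (t, p)) := by
  rw [← contMDiff_iff_contDiff]
  exact hf.comp (contMDiff_const.prodMk contMDiff_id)

theorem sdiff_barMap : SDiff bsupp barMap barInv :=
  ⟨contDiff_slice bfam.smooth_f 1, contDiff_slice bfam.smooth_g 1, fun p => bfam.fg 1 p,
    fun p => bfam.gf 1 p, fun _ hp => barMap_off hp⟩

theorem mapsTo_barMap : MapsTo barMap bsupp bsupp := fun _ hx =>
  DFam.mapsTo (bfam.freeze 1) (K := bsupp) (fun _ _ hx => barMap_off hx) 0 hx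

theorem hom_zero (ε : ℝ) (p : R4) : hom ε (0, p) = sq ε p := by
  simp [hom]

theorem hom_one (ε : ℝ) (p : R4) : hom ε (1, p) = p := by
  simp [hom]

theorem zero_mem : (0 : ℝ) ∈ Icc (0 : ℝ) 1 := by simp

section
variable {E : Type} [NormedAddCommGroup E] [NormedSpace ℝ E] {H : Type} [TopologicalSpace H]
  {I : ModelWithCorners ℝ E H} {M : Type} [TopologicalSpace M] [ChartedSpace H M]

/-- Invariance under families in both directions. -/
theorem thin_iff [T2Space M] (t2 : StT2) (J : ℝ × R4 → M) (hJ : FamOn I J SP) (φ : M → M) :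
    Thin I (fun p => J (0, p)) φ ↔ Thin I (fun p => J (1, p)) φ := by
  obtain ⟨hi, hii, hiii, hiv, -⟩ := t2 E H I M
  refine ⟨hiii J φ hJ, fun h => ?_⟩
  obtain ⟨ε₀, hε₀, hε⟩ := hi (fun p => J (0, p)) (hJ.2 0 zero_mem)
  have h0 := hε (ε₀ / 2) ⟨by linarith, by linarith⟩
  exact hiv _ _ _ h0 (hii _ _ _ (hiii J _ hJ h0) h)

theorem isOpen_localDiffeo (F : R4 → M) :
    IsOpen {p : R4 | IsLocalDiffeomorphAt 𝓘(ℝ, R4) I ∞ F p} := by
  rw [isOpen_iff_mem_nhds]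
  rintro p ⟨Φ, hp, hΦ⟩
  filter_upwards [Φ.open_source.mem_nhds hp] with q hq
  exact ⟨Φ, hq, hΦ⟩

theorem embOn_mono {F : R4 → M} {L L' : Set R4} (h : EmbOn I F L) (hL : L' ⊆ L) : EmbOn I F L' :=
  ⟨fun p hp => h.1 p (hL hp), h.2.mono hL⟩

theorem embOn_source (B : PartialDiffeomorph 𝓘(ℝ, R4) I R4 M ∞) : EmbOn I B B.source :=
  ⟨fun _ hp => ⟨B, hp, Set.eqOn_refl _ _⟩, B.toPartialEquiv.injOn⟩

theorem famOn_isotopy (F : R4 → M) (Ψ : DFam I M) (L : Set R4) (hF : EmbOn I F L) :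
    FamOn I (fun q : ℝ × R4 => Ψ.f (q.1, F q.2)) L := by
  refine ⟨⟨univ ×ˢ {p : R4 | IsLocalDiffeomorphAt 𝓘(ℝ, R4) I ∞ F p},
    isOpen_univ.prod (isOpen_localDiffeo F), fun q hq => ⟨mem_univ _, hF.1 _ hq.2⟩, ?_⟩, ?_⟩
  · intro q hq
    have h1 : ContMDiffAt 𝓘(ℝ, R4) I ∞ F q.2 := IsLocalDiffeomorphAt.contMDiffAt hq.2
    have h2 : ContMDiffAt 𝓘(ℝ, ℝ × R4) I ∞ (fun q : ℝ × R4 => F q.2) q :=
      ContMDiffAt.comp q h1 (contDiff_snd.contMDiff.contMDiffAt)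
    have h3 : ContMDiffAt 𝓘(ℝ, ℝ × R4) 𝓘(ℝ, ℝ) ∞ (fun q : ℝ × R4 => q.1) q :=
      contDiff_fst.contMDiff.contMDiffAt
    exact (ContMDiffAt.comp q (Ψ.smooth_f.contMDiffAt) (h3.prodMk h2)).contMDiffWithinAt
  · intro t _
    refine ⟨fun p hp => ?_, fun p hp q hq hpq => hF.2 hp hq ?_⟩
    · exact (hF.1 p hp).comp I M ((Ψ.diffeo t).isLocalDiffeomorph (F p))
    · have := congrArg (fun y => Ψ.g (t, y)) hpq
      simp only [Ψ.gf] at this
      exact this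

end

end T3

open T3

theorem m_T3 (a3 : StA3) (ci : StCI) (s4 : StS4) (t1 : StT1) : StT3 := by
  intro E _ _ H _ I M _ _ _ F hF
  obtain ⟨-, -, -, -, hseg, -, -, -, -, -, hEB⟩ := s4
  obtain ⟨ε₀, hε₀, h⟩ := (t1 E H I M EB bsupp hEB isCompact_bsupp).2.1 hseg F hF
  refine ⟨ε₀, hε₀, fun ε hε => ?_⟩
  have hfam := h ε hε
  have h0 : (fun p => F (hom ε (0, p))) = F ∘ sq ε := by
    funext p; rw [hom_zero]; rfl
  have h1 : (fun p => F (hom ε (1, p))) = F := by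
    funext p; rw [hom_one]
  have e0 := hfam.2 0 zero_mem
  have e1 := a3 E H I M _ bsupp barMap barInv isCompact_bsupp hfam sdiff_barMap
  simp only [] at e0 e1
  rw [h0] at e0 e1
  rw [h1] at e1
  exact ⟨e0, (ci E H I M).2.1 _ _ e1⟩

theorem m_T4 (ci : StCI) (im : StImp) (s4 : StS4) (t2 : StT2) (t3 : StT3) : StT4 := by
  intro B β hNB hβ
  obtain ⟨-, -, -, -, -, hSP, hbs, hEN, -⟩ := s4
  have hB : EmbOn (𝓡 4) B EB := embOn_mono (embOn_source B) (hEN.trans hNB)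
  refine ⟨embOn_mono hB hSP, ?_⟩
  have h1 := t3 _ _ (𝓡 4) S4 B hB
  have h2 : imp B bsupp barMap = push B barMap :=
    (im _ _ (𝓡 4) S4 B bsupp barMap (hB.2.mono hbs)).2.2.2.2.1 B (bsupp_subset.trans hNB)
      (fun _ _ => rfl) mapsTo_barMap (fun _ hp => barMap_off hp)
  rw [h2] at h1
  have h3 : Isot (𝓡 4) (push B barMap) (push B β) :=
    isot_push_barbellMap B hNB hβ isBarbellMap_barMap
  have h4 : CIsot (𝓡 4) (push B barMap) (push B β) :=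
    (ci _ _ (𝓡 4) S4).2.2.2.2.2.2.2.2.2 inferInstance _ _ h3
  rw [implantation_eq_push B hNB hβ]
  exact (t2 _ _ (𝓡 4) S4).2.2.2.1 _ _ _ h1 h4

theorem m_T5 (s4 : StS4) (t1 : StT1) (t2 : StT2) : StT5 := by
  intro E _ _ H _ I M _ _ _ F m L hLc hL hF hm hmaps
  have hSPc : IsCompact SP := s4.2.2.2.2.2.2.2.2.1
  obtain ⟨ε₀, hε₀, h⟩ := (t1 E H I M L SP hLc hSPc).2.2.2 hL F hF m hm hmaps
  refine ⟨ε₀, hε₀, fun ε hε φ => ?_⟩
  have h1 := thin_iff t2 _ (h ε hε) φ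
  simp only [hom_zero, hom_one] at h1
  exact h1

theorem m_T6 (im : StImp) (t1 : StT1) : StT6 := by
  intro E _ _ H _ I M _ _ _ F K L hK hL hKL hF
  obtain ⟨ε₀, hε₀, h⟩ := (t1 E H I M L K hL hK).2.2.1 hKL F hF
  refine ⟨ε₀, hε₀, fun ε hε => ?_⟩
  have h1 := (h ε hε ε hε).2 0 zero_mem
  have h2 : (fun p => F (sq ((1 - (0 : ℝ)) * ε + 0 * ε) p)) = F ∘ sq ε := by
    funext p
    simp
  simp only [] at h1
  rw [h2] at h1
  exact ⟨h1, fun hb => (im E H I M _ K barMap h1.2).2.2.1 bsupp hb fun _ hp => barMap_off hp⟩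

theorem m_T7 (t2 : StT2) : StT7 := by
  intro E _ _ H _ I M _ _ _ F Ψ φ hF
  exact thin_iff t2 _ (famOn_isotopy F Ψ SP hF) φ

end Pool.Agent.Helper18.BI
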