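import Pool.Agent.Helper18.BI.StA

/-!
# Project BI, module T8: linear interpolation of germs with the same spine
-/

set_option autoImplicit false

open scoped Manifold ContDiff Topology ComplexConjugate
open Set Pool.Agent.Helper65.Barb

namespace Pool.Agent.Helper18.BI

namespace T8

/-- a germ is smooth on a neighbourhood -/
theorem smoothNear {F : R4 → R4} {L : Set R4} (h : EmbOn 𝓘(ℝ, R4) F L) :
    ∃ U : Set R4, IsOpen U ∧ L ⊆ U ∧ ContDiffOn ℝ ∞ F U := by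
  refine ⟨{p | IsLocalDiffeomorphAt 𝓘(ℝ, R4) 𝓘(ℝ, R4) ∞ F p}, ?_, fun p hp => h.1 p hp, ?_⟩
  · rw [isOpen_iff_mem_nhds]
    rintro p ⟨Φ, hp, heq⟩
    exact Filter.mem_of_superset (Φ.open_source.mem_nhds hp) fun q hq => ⟨Φ, hq, heq⟩
  · intro p hp
    exact (contMDiffAt_iff_contDiffAt.1 (IsLocalDiffeomorphAt.contMDiffAt hp)).contDiffWithinAt

theorem family (a0 : StA0f) {F G : R4 → R4} (hF : EmbOn 𝓘(ℝ, R4) F SP)
    (hG : EmbOn 𝓘(ℝ, R4) G SP) (hFG : EqOn F G SP)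
    (hd : ∀ p ∈ SP, ∀ t ∈ Icc (0 : ℝ) 1, ∀ v,
      (1 - t) • fderiv ℝ F p v + t • fderiv ℝ G p v = 0 → v = 0) :
    FamOn 𝓘(ℝ, R4) (fun q : ℝ × R4 => (1 - q.1) • F q.2 + q.1 • G q.2) SP := by
  obtain ⟨U, hU, hSU, hFU⟩ := smoothNear hF
  obtain ⟨V, hV, hSV, hGV⟩ := smoothNear hG
  rw [a0]
  refine ⟨⟨univ ×ˢ (U ∩ V), isOpen_univ.prod (hU.inter hV), ?_, ?_⟩, fun t ht => ⟨?_, ?_⟩⟩
  · exact prod_mono (subset_univ _) (subset_inter hSU hSV)
  · have h1 : ContDiffOn ℝ ∞ (fun q : ℝ × R4 => F q.2) (univ ×ˢ (U ∩ V)) :=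
      hFU.comp contDiff_snd.contDiffOn fun q hq => hq.2.1
    have h2 : ContDiffOn ℝ ∞ (fun q : ℝ × R4 => G q.2) (univ ×ˢ (U ∩ V)) :=
      hGV.comp contDiff_snd.contDiffOn fun q hq => hq.2.2
    have h3 : ContDiffOn ℝ ∞ (fun q : ℝ × R4 => q.1) (univ ×ˢ (U ∩ V)) :=
      contDiff_fst.contDiffOn
    exact ((contDiffOn_const.sub h3).smul h1).add (h3.smul h2)
  · intro p hp v hv
    have dF : DifferentiableAt ℝ F p :=
      ((hFU.contDiffAt (hU.mem_nhds (hSU hp))).differentiableAt (by simp))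
    have dG : DifferentiableAt ℝ G p :=
      ((hGV.contDiffAt (hV.mem_nhds (hSV hp))).differentiableAt (by simp))
    apply hd p hp t ht v
    have h1 : HasFDerivAt (fun p => (1 - t) • F p + t • G p)
        ((1 - t) • fderiv ℝ F p + t • fderiv ℝ G p) p :=
      (dF.hasFDerivAt.const_smul (1 - t)).add (dG.hasFDerivAt.const_smul t)
    have h2 : fderiv ℝ (fun p => (1 - t) • F p + t • G p) p v = 0 := hv
    rw [h1.fderiv] at h2
    exact h2
  · intro p hp p' hp' h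
    have e : ∀ p ∈ SP, (1 - t) • F p + t • G p = F p := by
      intro p hp
      rw [← hFG hp, ← add_smul, sub_add_cancel, one_smul]
    simp only at h
    rw [e p hp, e p' hp'] at h
    exact hF.2 hp hp' h

theorem oneWay (a0 : StA0f) (t2 : StT2) {F G : R4 → R4} (hF : EmbOn 𝓘(ℝ, R4) F SP)
    (hG : EmbOn 𝓘(ℝ, R4) G SP) (hFG : EqOn F G SP)
    (hd : ∀ p ∈ SP, ∀ t ∈ Icc (0 : ℝ) 1, ∀ v,
      (1 - t) • fderiv ℝ F p v + t • fderiv ℝ G p v = 0 → v = 0) (φ : R4 → R4)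
    (h : Thin 𝓘(ℝ, R4) F φ) : Thin 𝓘(ℝ, R4) G φ := by
  have h3 := (t2 R4 R4 𝓘(ℝ, R4) R4).2.2.1
    (fun q : ℝ × R4 => (1 - q.1) • F q.2 + q.1 • G q.2) φ (family a0 hF hG hFG hd)
  have e0 : (fun p : R4 => (1 - (0 : ℝ)) • F p + (0 : ℝ) • G p) = F := by
    funext p
    rw [sub_zero, one_smul, zero_smul, add_zero]
  have e1 : (fun p : R4 => (1 - (1 : ℝ)) • F p + (1 : ℝ) • G p) = G := by
    funext p
    rw [sub_self, one_smul, zero_smul, zero_add]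
  simp only at h3
  rw [e0, e1] at h3
  exact h3 h

end T8

theorem m_T8 (a0 : StA0f) (t2 : StT2) : StT8 := by
  intro F G hF hG hFG hd φ
  refine ⟨T8.oneWay a0 t2 hF hG hFG hd φ, T8.oneWay a0 t2 hG hF hFG.symm ?_ φ⟩
  intro p hp t ht v hv
  refine hd p hp (1 - t) ⟨sub_nonneg.2 ht.2, sub_le_self _ ht.1⟩ v ?_
  rw [sub_sub_cancel, add_comm]
  exact hv

end Pool.Agent.Helper18.BI
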