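import Pool.Agent.Helper18.BI.StA

/-! # Module X1 of project BI: transfer along an injective local diffeomorphism -/

set_option autoImplicit false

open scoped Manifold ContDiff Topology ComplexConjugate
open Set Pool.Agent.Helper65.Barb

namespace Pool.Agent.Helper18.BI

namespace X1

theorem barMap_inj {p q : R4} (h : barMap p = barMap q) : p = q := by
  have h1 := bfam.gf 1 p
  have h2 := bfam.gf 1 q
  have h3 : bfam.f (1, p) = bfam.f (1, q) := h
  rw [← h1, ← h2, h3]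

theorem mapsTo_barMap : MapsTo barMap bsupp bsupp := by
  intro p hp
  by_contra h
  have h1 := barMap_off h
  have h2 := barMap_inj h1
  rw [h2] at h
  exact h hp

section
variable {E : Type} [NormedAddCommGroup E] [NormedSpace ℝ E] {H : Type} [TopologicalSpace H]
  {I : ModelWithCorners ℝ E H} {M : Type} [TopologicalSpace M] [ChartedSpace H M]

theorem embOn_comp {c : R4 → M} (hc : EmbOn I c univ) {F : R4 → R4} {L : Set R4}
    (hF : EmbOn 𝓘(ℝ, R4) F L) : EmbOn I (c ∘ F) L := by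
  refine ⟨fun p hp => IsLocalDiffeomorphAt.comp _ _ (hF.1 p hp) (hc.1 (F p) (mem_univ _)), ?_⟩
  intro p hp q hq h
  exact hF.2 hp hq (hc.2 (mem_univ _) (mem_univ _) h)

theorem boundsOff_comp {c : R4 → M} (hc : EmbOn I c univ) {F : R4 → R4} {a b : ℝ}
    (h : BoundsOff 𝓘(ℝ, R4) F a b) : BoundsOff I (c ∘ F) a b := by
  obtain ⟨G, h1, h2, h3⟩ := h
  refine ⟨c ∘ G, embOn_comp hc h1, fun p hp => ?_, ?_⟩
  · simp [h2 p hp]
  · rw [Set.disjoint_left] at h3 ⊢
    rintro y ⟨p, hp, rfl⟩ ⟨q, hq, hpq⟩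
    have : F q = G p := hc.2 (mem_univ _) (mem_univ _) hpq
    exact h3 ⟨p, hp, rfl⟩ ⟨q, hq, this⟩

end

end X1

open X1 in
/-- **X1.** -/
theorem m_X1 (pu : StPush) (im : StImp) (ci : StCI) : StX1 := by
  intro E _ _ H _ I M _ _ _ c hc
  have P1 : ∀ φ ψ : R4 → R4, CIsot 𝓘(ℝ, R4) φ ψ → CIsot I (imp c univ φ) (imp c univ ψ) := by
    rintro φ ψ ⟨Φ, ⟨C, hC, hsupp⟩, h0, h1⟩
    have e0 : (fun p => Φ.f (0, p)) = φ := funext h0
    have e1 : (fun p => Φ.f (1, p)) = ψ := funext h1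
    have hcC : EmbOn I c C := ⟨fun p _ => hc.1 p (mem_univ _), hc.2.mono (subset_univ _)⟩
    have h := pu E H I M c C Φ hC hcC hsupp
    have hφ : ∀ p, p ∉ C → φ p = p := fun p hp => by rw [← h0]; exact hsupp 0 p hp
    have hψ : ∀ p, p ∉ C → ψ p = p := fun p hp => by rw [← h1]; exact hsupp 1 p hp
    rw [e0, e1, ← (im E H I M c univ φ hc.2).2.2.1 C (subset_univ _) hφ,
      ← (im E H I M c univ ψ hc.2).2.2.1 C (subset_univ _) hψ] at h
    exact h
  have P4 : ∀ φ ψ : R4 → R4, ∀ y, imp c univ (fun p => φ (ψ p)) y =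
      imp c univ φ (imp c univ ψ y) := by
    intro φ ψ y
    exact (im E H I M c univ ψ hc.2).2.2.2.1 φ (mapsTo_univ _ _) y
  have Pid : ∀ y, imp c univ (fun p => p) y = y := by
    intro y
    by_cases hy : y ∈ c '' univ
    · obtain ⟨p, hp, rfl⟩ := hy
      exact (im E H I M c univ (fun p => p) hc.2).1 p hp
    · exact (im E H I M c univ (fun p => p) hc.2).2.1 y hy
  have P3 : ∀ (F : R4 → R4) (φ : R4 → R4), Thin 𝓘(ℝ, R4) F φ →
      Thin I (c ∘ F) (imp c univ φ) := by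
    rintro F φ ⟨ε₀, hε₀, h⟩
    refine ⟨ε₀, hε₀, fun ε hε => ?_⟩
    obtain ⟨hemb, hiso⟩ := h ε hε
    refine ⟨embOn_comp hc hemb, ?_⟩
    have h1 := P1 _ _ hiso
    have e1 : imp c univ (imp (F ∘ sq ε) bsupp barMap) =
        imp c ((F ∘ sq ε) '' bsupp) (imp (F ∘ sq ε) bsupp barMap) := by
      apply (im E H I M c univ _ hc.2).2.2.1 _ (subset_univ _)
      intro p hp
      exact (im R4 R4 𝓘(ℝ, R4) R4 (F ∘ sq ε) bsupp barMap hemb.2).2.1 p hp
    have e2 : imp (fun p => c ((F ∘ sq ε) p)) bsupp barMap =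
        imp c ((F ∘ sq ε) '' bsupp) (imp (F ∘ sq ε) bsupp barMap) := by
      exact (im E H I M c ((F ∘ sq ε) '' bsupp) barMap (hc.2.mono (subset_univ _))).2.2.2.2.2.2.2
        (F ∘ sq ε) bsupp hemb.2 rfl mapsTo_barMap
    have e3 : imp ((c ∘ F) ∘ sq ε) bsupp barMap =
        imp c univ (imp (F ∘ sq ε) bsupp barMap) := by
      rw [e1, ← e2]; rfl
    rw [e3]
    exact h1
  refine ⟨P1, fun F L hF => embOn_comp hc hF, P3, P4, ?_⟩
  intro φ hφ
  induction hφ with
  | one =>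
    have e : imp c univ (fun p : R4 => p) = fun y => y := funext Pid
    rw [e]
    exact InN.one
  | gen F φ h1 h2 h3 =>
    refine InN.gen (c ∘ F) _ (embOn_comp hc h1) ?_ (P3 F φ h3)
    rcases h2 with h2 | h2
    · exact Or.inl (boundsOff_comp hc h2)
    · exact Or.inr (boundsOff_comp hc h2)
  | mul φ ψ _ _ ihφ ihψ =>
    have e : imp c univ (fun x => φ (ψ x)) = fun y => imp c univ φ (imp c univ ψ y) :=
      funext (P4 φ ψ)
    rw [e]
    exact InN.mul _ _ ihφ ihψ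
  | inv φ ψ _ h1 h2 ih =>
    refine InN.inv _ _ ih ?_ ?_
    · intro x
      rw [← P4]
      have e : (fun p => φ (ψ p)) = fun p => p := funext h1
      rw [e]
      exact Pid x
    · intro x
      rw [← P4]
      have e : (fun p => ψ (φ p)) = fun p => p := funext h2
      rw [e]
      exact Pid x
  | isot φ ψ _ h ih => exact InN.isot _ _ ih (P1 _ _ h)

end Pool.Agent.Helper18.BI
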