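import Pool.Agent.Helper18.BI.StA

/-!
# Project BI (MP_8e98f2_gt), module X2: a stereographic chart of S4 missing two spines
-/

set_option autoImplicit false

open scoped Manifold ContDiff Topology ComplexConjugate
open Set Pool.Agent.Helper65.Barb

namespace Pool.Agent.Helper18.BI

namespace X2

theorem rsq_eq (c : ℝ) (p : R4) : rsq c p = (p.2.1 - c) ^ 2 + Complex.normSq p.2.2 := by
  rw [rsq, nsq, Complex.normSq_apply]
  ring

theorem isClosed_SP : IsClosed SP := by
  have h1 : Continuous (fun p : R4 => p.1) := continuous_fst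
  have h2 : Continuous (fun p : R4 => p.2.1) := continuous_fst.comp continuous_snd
  have h3 : Continuous (fun p : R4 => p.2.2) := continuous_snd.comp continuous_snd
  have hr : ∀ c, Continuous (rsq c) := fun c => continuous_rsq c
  refine IsClosed.union (IsClosed.union ?_ ?_) ?_
  · exact (isClosed_eq h1 continuous_const).inter (isClosed_eq (hr 0) continuous_const)
  · exact (isClosed_eq h1 continuous_const).inter (isClosed_eq (hr 1) continuous_const)
  · exact (isClosed_eq h1 continuous_const).inter ((isClosed_le continuous_const h2).inter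
      ((isClosed_le h2 continuous_const).inter (isClosed_eq h3 continuous_const)))

theorem bound_SP {p : R4} (hp : p ∈ SP) : p.1 = 1 / 2 ∧ |p.2.1| ≤ 2 ∧ ‖p.2.2‖ ≤ 1 := by
  have key : ∀ c : ℝ, |c| ≤ 1 → rsq c p = 1 / 25 → |p.2.1| ≤ 2 ∧ ‖p.2.2‖ ≤ 1 := by
    intro c hc h
    rw [rsq_eq] at h
    have h0 := Complex.normSq_nonneg p.2.2
    have h1 : |p.2.1 - c| ≤ 1 := by
      apply abs_le_of_sq_le_sq _ zero_le_one
      nlinarith
    have h2 : ‖p.2.2‖ ≤ 1 := by
      have h3 : ‖p.2.2‖ ^ 2 ≤ 1 ^ 2 := by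
        rw [← Complex.normSq_eq_norm_sq]
        nlinarith [sq_nonneg (p.2.1 - c)]
      exact le_of_sq_le_sq h3 zero_le_one
    refine ⟨?_, h2⟩
    rw [abs_le] at *
    constructor <;> linarith [h1.1, h1.2, hc.1, hc.2]
  rcases hp with (⟨h1, h2⟩ | ⟨h1, h2⟩) | ⟨h1, h2, h3, h4⟩
  · exact ⟨h1, key 0 (by simp) h2⟩
  · exact ⟨h1, key 1 (by simp) h2⟩
  · refine ⟨h1, ?_, ?_⟩
    · rw [abs_le]
      constructor <;> linarith
    · rw [h4, norm_zero]
      exact zero_le_one

theorem isCompact_SP : IsCompact SP := by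
  refine Metric.isCompact_of_isClosed_isBounded isClosed_SP ?_
  refine (Metric.isBounded_closedBall (x := (0 : R4)) (r := 2)).subset ?_
  intro p hp
  obtain ⟨h1, h2, h3⟩ := bound_SP hp
  rw [mem_closedBall_zero_iff, Prod.norm_def, Prod.norm_def]
  refine max_le ?_ (max_le h2 (h3.trans (by norm_num)))
  rw [h1, Real.norm_eq_abs, abs_of_pos (by norm_num)]
  norm_num

theorem closed_image (B : PartialDiffeomorph 𝓘(ℝ, R4) (𝓡 4) R4 S4 ∞) (h : SP ⊆ B.source) :
    IsClosed (B '' SP) := by
  apply IsCompact.isClosed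
  exact isCompact_SP.image_of_continuousOn (B.contMDiffOn_toFun.continuousOn.mono h)

theorem interior_image (B : PartialDiffeomorph 𝓘(ℝ, R4) (𝓡 4) R4 S4 ∞) (h : SP ⊆ B.source) :
    interior (B '' SP) = ∅ := by
  rw [eq_empty_iff_forall_notMem]
  intro y hy
  have hc : ContinuousOn B B.source := B.contMDiffOn_toFun.continuousOn
  have hV : IsOpen (B.source ∩ B ⁻¹' interior (B '' SP)) :=
    hc.isOpen_inter_preimage B.open_source isOpen_interior
  have hVS : B.source ∩ B ⁻¹' interior (B '' SP) ⊆ SP := by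
    rintro p ⟨hp1, hp2⟩
    obtain ⟨p', hp', he⟩ := interior_subset hp2
    have := B.injOn (h hp') hp1 he
    rwa [← this]
  obtain ⟨p, hp, he⟩ := interior_subset hy
  have hpV : p ∈ B.source ∩ B ⁻¹' interior (B '' SP) := ⟨h hp, by
    change B p ∈ interior (B '' SP)
    rw [he]
    exact hy⟩
  have h1 : IsOpen ((fun q : R4 => q.1) '' (B.source ∩ B ⁻¹' interior (B '' SP))) :=
    isOpenMap_fst _ hV
  have h2 : (fun q : R4 => q.1) '' (B.source ∩ B ⁻¹' interior (B '' SP)) ⊆ {1 / 2} := by
    rintro _ ⟨q, hq, rfl⟩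
    exact (bound_SP (hVS hq)).1
  have h3 : p.1 ∈ interior ({1 / 2} : Set ℝ) :=
    interior_maximal h2 h1 (mem_image_of_mem (fun q : R4 => q.1) hpV)
  rw [interior_singleton] at h3
  exact h3

theorem exists_point (B B' : PartialDiffeomorph 𝓘(ℝ, R4) (𝓡 4) R4 S4 ∞) (h : SP ⊆ B.source)
    (h' : SP ⊆ B'.source) : ∃ v : S4, v ∉ B '' SP ∧ v ∉ B' '' SP := by
  by_contra hne
  push Not at hne
  have h1 : B '' SP ∪ B' '' SP = univ := by
    rw [eq_univ_iff_forall]
    intro v
    by_cases hv : v ∈ B '' SP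
    · exact Or.inl hv
    · exact Or.inr (hne v hv)
  have h2 := interior_union_isClosed_of_interior_empty (s := B '' SP) (closed_image B h)
    (interior_image B' h')
  rw [h1, interior_univ, interior_image B h] at h2
  have h3 : (⟨EuclideanSpace.single 0 1, by simp⟩ : S4) ∈ (univ : Set S4) := mem_univ _
  rw [h2] at h3
  exact h3

theorem exists_equiv : Nonempty (R4 ≃L[ℝ] EuclideanSpace ℝ (Fin 4)) := by
  refine FiniteDimensional.nonempty_continuousLinearEquiv_of_finrank_eq ?_
  rw [finrank_euclideanSpace, Fintype.card_fin, Module.finrank_prod, Module.finrank_prod,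
    Module.finrank_self, Complex.finrank_real_complex]

end X2

open X2

theorem m_X2 : StX2 := by
  intro B B' h h'
  obtain ⟨v, hv, hv'⟩ := exists_point B B' h h'
  obtain ⟨e⟩ := exists_equiv
  have : Fact (Module.finrank ℝ (EuclideanSpace ℝ (Fin 5)) = 4 + 1) := ⟨by simp⟩
  have hsrc : (chartAt (EuclideanSpace ℝ (Fin 4)) (-v : S4)).source = {v}ᶜ := by
    change (stereographic' 4 (- -v)).source = _
    rw [neg_neg, stereographic'_source]
  have htgt : (chartAt (EuclideanSpace ℝ (Fin 4)) (-v : S4)).target = univ := by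
    change (stereographic' 4 (- -v)).target = _
    rw [stereographic'_target]
  have hs1 : ContMDiffOn (𝓡 4) (𝓡 4) ∞ (chartAt (EuclideanSpace ℝ (Fin 4)) (-v : S4))
      (chartAt (EuclideanSpace ℝ (Fin 4)) (-v : S4)).source := contMDiffOn_chart
  have hs2 : ContMDiffOn (𝓡 4) (𝓡 4) ∞ (chartAt (EuclideanSpace ℝ (Fin 4)) (-v : S4)).symm
      (chartAt (EuclideanSpace ℝ (Fin 4)) (-v : S4)).target := contMDiffOn_chart_symm
  generalize chartAt (EuclideanSpace ℝ (Fin 4)) (-v : S4) = ch at hsrc htgt hs1 hs2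
  have he : ContMDiff 𝓘(ℝ, R4) (𝓡 4) ∞ e := e.contDiff.contMDiff
  have he' : ContMDiff (𝓡 4) 𝓘(ℝ, R4) ∞ e.symm := e.symm.contDiff.contMDiff
  let δ : PartialDiffeomorph 𝓘(ℝ, R4) (𝓡 4) R4 S4 ∞ :=
    { toFun := fun p => ch.symm (e p)
      invFun := fun y => e.symm (ch y)
      source := univ
      target := ch.source
      map_source' := fun p _ => ch.map_target (by rw [htgt]; exact mem_univ _)
      map_target' := fun y _ => mem_univ _
      left_inv' := fun p _ => by
        rw [ch.right_inv (by rw [htgt]; exact mem_univ _), e.symm_apply_apply]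
      right_inv' := fun y hy => by
        rw [e.apply_symm_apply, ch.left_inv hy]
      open_source := isOpen_univ
      open_target := ch.open_source
      contMDiffOn_toFun := hs2.comp he.contMDiffOn (fun p _ => by rw [htgt]; exact mem_univ _)
      contMDiffOn_invFun := he'.comp_contMDiffOn hs1 }
  have hr : ∀ y, y ≠ v → y ∈ range (fun p => ch.symm (e p)) := by
    intro y hy
    refine ⟨e.symm (ch y), ?_⟩
    change ch.symm (e (e.symm (ch y))) = y
    rw [e.apply_symm_apply, ch.left_inv (by rw [hsrc]; exact hy)]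
  refine ⟨fun p => ch.symm (e p), ⟨fun p _ => ⟨δ, mem_univ _, fun _ _ => rfl⟩, ?_⟩, ?_, ?_⟩
  · exact δ.injOn
  · intro y hy
    exact hr y (fun hyv => hv (hyv ▸ hy))
  · intro y hy
    exact hr y (fun hyv => hv' (hyv ▸ hy))

end Pool.Agent.Helper18.BI

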