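import Pool.Agent.Helper18.BI.StA

/-!
# Project BI, module X3: lifting a germ along an open embedding
-/

set_option autoImplicit false

open scoped Manifold ContDiff Topology ComplexConjugate
open Set Pool.Agent.Helper65.Barb

namespace Pool.Agent.Helper18.BI

theorem m_X3 : StX3 := by
  intro E _ _ H _ I M _ _ _ c B L hc hB hL
  have hinj : Function.Injective c := injOn_univ.1 hc.2
  have hloc : IsLocalDiffeomorph 𝓘(ℝ, R4) I ∞ c := fun p => hc.1 p (mem_univ p)
  have hopen : IsOpen (range c) := hloc.isOpen_range
  have hleft : ∀ q, Function.invFun c (c q) = q := Function.leftInverse_invFun hinj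
  have hright : ∀ y ∈ range c, c (Function.invFun c y) = y := by
    rintro y ⟨q, rfl⟩
    rw [hleft]
  -- the left inverse is a local diffeomorphism at the points of the range
  have hinv : ∀ y ∈ range c, IsLocalDiffeomorphAt I 𝓘(ℝ, R4) ∞ (Function.invFun c) y := by
    rintro y ⟨q, rfl⟩
    obtain ⟨Φ, hq, heq⟩ := hloc q
    refine ⟨Φ.symm, ?_, ?_⟩
    · rw [heq hq]
      exact Φ.toPartialEquiv.map_source hq
    · intro y hy
      have h1 : Φ.toPartialEquiv.symm y ∈ Φ.source := Φ.toPartialEquiv.map_target hy
      have h2 : c (Φ.toPartialEquiv.symm y) = y := by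
        rw [heq h1]
        exact Φ.toPartialEquiv.right_inv hy
      have h3 := hleft (Φ.toPartialEquiv.symm y)
      rw [h2] at h3
      exact h3
  refine ⟨⟨fun p hp => ?_, fun p hp p' hp' h => ?_⟩, interior (B ⁻¹' range c), isOpen_interior,
    fun p hp => ?_, fun p hp => ?_⟩
  · exact (hB.1 p hp).comp _ _ (hinv (B p) (hL (mem_image_of_mem B hp)))
  · have h1 := congrArg c h
    simp only at h1
    rw [hright (B p) (hL (mem_image_of_mem B hp)), hright (B p') (hL (mem_image_of_mem B hp'))] at h1
    exact hB.2 hp hp' h1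
  · rw [mem_interior_iff_mem_nhds]
    exact (hB.1 p hp).contMDiffAt.continuousAt.preimage_mem_nhds
      (hopen.mem_nhds (hL (mem_image_of_mem B hp)))
  · have h1 : p ∈ B ⁻¹' range c := interior_subset hp
    exact hright _ h1

end Pool.Agent.Helper18.BI
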