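import Pool.Agent.Helper18.BI.M_A0
import Pool.Agent.Helper18.BI.M_A1
import Pool.Agent.Helper18.BI.M_A2
import Pool.Agent.Helper18.BI.M_A3
import Pool.Agent.Helper18.BI.M_CI
import Pool.Agent.Helper18.BI.M_IMP
import Pool.Agent.Helper18.BI.M_S0
import Pool.Agent.Helper18.BI.M_S1
import Pool.Agent.Helper18.BI.M_S2
import Pool.Agent.Helper18.BI.M_S3
import Pool.Agent.Helper18.BI.M_S4
import Pool.Agent.Helper18.BI.M_S5
import Pool.Agent.Helper18.BI.M_S6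
import Pool.Agent.Helper18.BI.M_T1
import Pool.Agent.Helper18.BI.M_T2
import Pool.Agent.Helper18.BI.M_T3
import Pool.Agent.Helper18.BI.M_T8
import Pool.Agent.Helper18.BI.M_X1
import Pool.Agent.Helper18.BI.M_X2
import Pool.Agent.Helper18.BI.M_X3
import Pool.Agent.Helper18.BI.M_N1
import Pool.Agent.Helper18.BI.M_FR1
import Pool.Agent.Helper18.BI.M_FR2A
import Pool.Agent.Helper18.BI.M_FR2B
import Pool.Agent.Helper18.BI.M_FR3
import Pool.Agent.Helper18.BI.M_FR4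
import Pool.Agent.Helper18.BI.M_FR5

/-!
# Project BI: part (A) and the framing lemma, assembled
-/

set_option autoImplicit false

namespace Pool.Agent.Helper18.BI

theorem hA0 : StA0 := m_A0
theorem hA0f : StA0f := m_A0f
theorem hA1 : StA1 := m_A1
theorem hA2 : StA2 := m_A2 hA0
theorem hImp : StImp := m_Imp
theorem hPush : StPush := m_Push hA1
theorem hA3 : StA3 := m_A3 hA1 hA2 hImp
theorem hCI : StCI := m_CI
theorem hS0 : StS0 := m_S0 hA0
theorem hS1 : StS1 := m_S1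
theorem hS2 : StS2 := m_S2
theorem hS3 : StS3 := m_S3
theorem hS4 : StS4 := m_S4
theorem hS5 : StS5 := m_S5 hS3
theorem hS6 : StS6 := m_S6 hS0 hS1 hS2
theorem hT1 : StT1 := m_T1 hA0 hA1 hA2 hS2 hS4 hS5 hS6
theorem hT2 : StT2 := m_T2 hA3 hCI hImp hS4 hS5 hT1
theorem hT3 : StT3 := m_T3 hA3 hCI hS4 hT1
theorem hT4 : StT4 := m_T4 hCI hImp hS4 hT2 hT3
theorem hT5 : StT5 := m_T5 hS4 hT1 hT2
theorem hT6 : StT6 := m_T6 hImp hT1
theorem hT7 : StT7 := m_T7 hT2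
theorem hT8 : StT8 := m_T8 hA0f hT2
theorem hX1 : StX1 := m_X1 hPush hImp hCI
theorem hX2 : StX2 := m_X2
theorem hX3 : StX3 := m_X3
theorem hN1 : StN1 := m_N1 hT2 hCI
theorem hFr1 : StFr1 := m_Fr1 hA0
theorem hFr3 : StFr3 := m_Fr3 hA0 hT2
theorem hFr4 : StFr4 := m_Fr4 hFr1 hT2
theorem hFr5 : StFr5 := m_Fr5 hA0 hFr1 hT8
theorem hFr : StFr := stFr_of m_Fr2a m_Fr2b hFr3 hFr4 hFr5

end Pool.Agent.Helper18.BI
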