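import Pool.Agent.Helper18.BI.StF

/-!
# Project BI, module F1: `N` at the level of germs is `N` at the level of barbells
-/

set_option autoImplicit false

open scoped Manifold ContDiff Topology ComplexConjugate
open Set Pool.Agent.Helper65.Barb

namespace Pool.Agent.Helper18.BI

private theorem isCompact_flat (c : ℝ) : IsCompact (flat c) := by
  apply Metric.isCompact_of_isClosed_isBounded
  · apply IsClosed.inter (isClosed_eq continuous_fst continuous_const)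
    exact isClosed_le (continuous_rsq c) continuous_const
  · exact (isBounded_of_rsq c (1 / 25) (1 / 2) (1 / 2)).subset
      (fun p hp => ⟨hp.1.ge, hp.1.le, hp.2⟩)

private theorem gen_aux (a1 : StA1) (ci : StCI) (r3 : StR3) {F : R4 → S4} {φ : S4 → S4}
    (hF : EmbOn (𝓡 4) F SP) (hT : Thin (𝓡 4) F φ) {c d : ℝ} (hcd : c = 0 ∧ d = 1 ∨ c = 1 ∧ d = 0)
    (hb : BoundsOff (𝓡 4) F c d) : NSub φ := by
  obtain ⟨B, hB, hBF, hφ⟩ := r3 _ _ (𝓡 4) S4 F φ hF hT
  obtain ⟨G, ⟨hG, hGi⟩, hGF, hdis⟩ := hb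
  obtain ⟨δ, hδ, hδG⟩ := a1 R4 _ _ (𝓡 4) S4 G (flat c) (isCompact_flat c) hG hGi
  obtain ⟨-, hsym, -, -, -, -, -, -, hiso, -⟩ := ci _ _ (𝓡 4) S4
  have hc : sph c ⊆ sph 0 ∪ sph 1 := by
    rcases hcd with ⟨rfl, -⟩ | ⟨rfl, -⟩
    · exact subset_union_left
    · exact subset_union_right
  have hd : sph d ⊆ sph 0 ∪ sph 1 := by
    rcases hcd with ⟨-, rfl⟩ | ⟨-, rfl⟩
    · exact subset_union_right
    · exact subset_union_left
  have hsf : sph c ⊆ flat c := fun p hp => ⟨hp.1, hp.2.le⟩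
  have hgen : NSub (implantation B barMap) := by
    refine NSub.gen B barMap c d δ hB isBarbellMap_barMap hcd hδ (fun p hp => ?_) ?_
    · rw [hδG p (hδ (hsf hp)), hGF p hp, hBF p (hc hp)]
    · rw [image_congr (fun p hp => hδG p (hδ hp)), image_congr (fun p hp => hBF p (hd hp))]
      exact hdis
  rw [implantation_eq_push B hB isBarbellMap_barMap] at hgen
  exact NSub.isot _ _ hgen (hiso _ _ (hsym _ _ hφ))

theorem m_F1 (a1 : StA1) (ci : StCI) (r3 : StR3) : StF1 := by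
  intro φ h
  induction h with
  | one => exact NSub.one
  | gen F φ hF hs hT =>
    rcases hs with hb | hb
    · exact gen_aux a1 ci r3 hF hT (Or.inl ⟨rfl, rfl⟩) hb
    · exact gen_aux a1 ci r3 hF hT (Or.inr ⟨rfl, rfl⟩) hb
  | mul φ ψ _ _ h1 h2 => exact NSub.mul φ ψ h1 h2
  | inv φ ψ _ h1 h2 h3 => exact NSub.inv φ ψ h3 h1 h2
  | isot φ ψ _ h1 h2 => exact NSub.isot φ ψ h2 ((ci _ _ (𝓡 4) S4).2.2.2.2.2.2.2.2.1 φ ψ h1)

end Pool.Agent.Helper18.BI
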