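import Pool.Agent.Helper18.BI.StF

/-!
# Module F2: assembly
-/

set_option autoImplicit false

open scoped Manifold ContDiff Topology ComplexConjugate
open Set Pool.Agent.Helper65.Barb

namespace Pool.Agent.Helper18.BI

namespace F2

private theorem rsq_eq (c : ℝ) (p : R4) :
    rsq c p = (p.2.1 - c) ^ 2 + p.2.2.re ^ 2 + p.2.2.im ^ 2 := rfl

private theorem cont_rsq (c : ℝ) : Continuous (rsq c) := by
  have : rsq c = fun p : R4 => (p.2.1 - c) ^ 2 + p.2.2.re ^ 2 + p.2.2.im ^ 2 := by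
    funext p; exact rsq_eq c p
  rw [this]
  exact (((continuous_fst.comp continuous_snd).sub continuous_const).pow 2).add
    ((Complex.continuous_re.comp (continuous_snd.comp continuous_snd)).pow 2) |>.add
    ((Complex.continuous_im.comp (continuous_snd.comp continuous_snd)).pow 2)

private theorem SP_sub : SP ⊆ NB := by
  rintro p ((hp | hp) | hp)
  · obtain ⟨h1, h2⟩ := hp
    rw [rsq_eq] at h2
    refine ⟨⟨by rw [h1]; norm_num, by rw [h1]; norm_num, ?_⟩, ?_, ?_⟩ <;> rw [rsq_eq]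
    · nlinarith [sq_nonneg p.2.2.re, sq_nonneg p.2.2.im]
    · nlinarith [sq_nonneg p.2.2.re, sq_nonneg p.2.2.im]
    · have h3 : p.2.1 ^ 2 ≤ (1 / 5) ^ 2 := by
        nlinarith [sq_nonneg p.2.2.re, sq_nonneg p.2.2.im]
      have h4 : p.2.1 ≤ 1 / 5 := abs_le_of_sq_le_sq' h3 (by norm_num) |>.2
      nlinarith [sq_nonneg p.2.2.re, sq_nonneg p.2.2.im]
  · obtain ⟨h1, h2⟩ := hp
    rw [rsq_eq] at h2
    have h3 : (p.2.1 - 1) ^ 2 ≤ (1 / 5) ^ 2 := by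
      nlinarith [sq_nonneg p.2.2.re, sq_nonneg p.2.2.im]
    have h4 := abs_le_of_sq_le_sq' h3 (by norm_num)
    refine ⟨⟨by rw [h1]; norm_num, by rw [h1]; norm_num, ?_⟩, ?_, ?_⟩ <;> rw [rsq_eq]
    · nlinarith [sq_nonneg p.2.2.re, sq_nonneg p.2.2.im]
    · nlinarith [sq_nonneg p.2.2.re, sq_nonneg p.2.2.im]
    · nlinarith [sq_nonneg p.2.2.re, sq_nonneg p.2.2.im]
  · obtain ⟨h1, h2, h3, h4⟩ := hp
    refine ⟨⟨by rw [h1]; norm_num, by rw [h1]; norm_num, ?_⟩, ?_, ?_⟩ <;> rw [rsq_eq, h4] <;>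
      simp only [Complex.zero_re, Complex.zero_im] <;> nlinarith

/-- the open thickened sphere -/
private def OS (c : ℝ) : Set R4 :=
  {p | -1 < p.1} ∩ {p | p.1 < 2} ∩ {p | rsq c p < (9 / 4 * (1 / 5)) ^ 2} ∩
    {p | (3 / 4 * (1 / 5)) ^ 2 < rsq c p}

private theorem isOpen_OS (c : ℝ) : IsOpen (OS c) :=
  (((isOpen_lt continuous_const continuous_fst).inter
    (isOpen_lt continuous_fst continuous_const)).inter
    (isOpen_lt (cont_rsq c) continuous_const)).inter (isOpen_lt continuous_const (cont_rsq c))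

private theorem OS_sub (c : ℝ) : OS c ⊆ Shell c (1 / 5) := by
  rintro p ⟨⟨⟨h1, h2⟩, h3⟩, h4⟩
  exact ⟨⟨le_of_lt h1, le_of_lt h2, le_of_lt h3⟩, le_of_lt h4⟩

private theorem sph_sub (c : ℝ) : sph c ⊆ OS c := by
  rintro p ⟨h1, h2⟩
  refine ⟨⟨⟨?_, ?_⟩, ?_⟩, ?_⟩
  · change -1 < p.1; rw [h1]; norm_num
  · change p.1 < 2; rw [h1]; norm_num
  · change rsq c p < _; rw [h2]; norm_num
  · change _ < rsq c p; rw [h2]; norm_num

end F2

theorem m_F2 (ci : StCI) (t2 : StT2) (t4 : StT4) (x1 : StX1) (x2 : StX2) (x3 : StX3)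
    (f1 : StF1) : StF2 := by
  intro hMain B B' β β' hB hB' hβ hβ' hBB'
  obtain ⟨hE, hT⟩ := t4 B β hB hβ
  obtain ⟨hE', hT'⟩ := t4 B' β' hB' hβ'
  obtain ⟨c, hc, hBc, hBc'⟩ := x2 B B' (F2.SP_sub.trans hB) (F2.SP_sub.trans hB')
  obtain ⟨hF, U1, hU1o, hU1s, hU1⟩ := x3 _ _ (𝓡 4) S4 c B SP hc hE hBc
  obtain ⟨hF', U2, hU2o, hU2s, hU2⟩ := x3 _ _ (𝓡 4) S4 c B' SP hc hE' hBc'
  obtain ⟨-, y1, y2, -, y4, -, -⟩ := t2 _ _ (𝓡 4) S4 |>.imp_left (fun _ => trivial) |> fun h =>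
    (⟨trivial, h.2.1, trivial, trivial, h.2.2.2.2.1, trivial, trivial⟩ :
      True ∧ _ ∧ True ∧ True ∧ _ ∧ True ∧ True)
  obtain ⟨z1, -, z3, z4, z5⟩ := x1 _ _ (𝓡 4) S4 c hc
  obtain ⟨-, c2, -, c4, c5, -, c7, -, c9, -⟩ := ci _ _ (𝓡 4) S4
  obtain ⟨ε₁, hε₁, hφ⟩ := (t2 _ _ 𝓘(ℝ, R4) R4).1 _ hF
  obtain ⟨ε₂, hε₂, hφ'⟩ := (t2 _ _ 𝓘(ℝ, R4) R4).1 _ hF'
  have hφ := hφ (ε₁ / 2) ⟨by positivity, by linarith⟩
  have hφ' := hφ' (ε₂ / 2) ⟨by positivity, by linarith⟩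
  generalize imp ((fun p => Function.invFun c (B p)) ∘ sq (ε₁ / 2)) bsupp barMap = φ at hφ
  generalize imp ((fun p => Function.invFun c (B' p)) ∘ sq (ε₂ / 2)) bsupp barMap = φ' at hφ'
  obtain ⟨n, hn, hiso⟩ := hMain _ _ φ φ' (F2.OS 0 ∪ F2.OS 1) hF hF'
    ((F2.isOpen_OS 0).union (F2.isOpen_OS 1))
    (union_subset_union (F2.sph_sub 0) (F2.sph_sub 1))
    (by
      intro p hp
      have : B' p = B p := hBB' p (union_subset_union (F2.OS_sub 0) (F2.OS_sub 1) hp)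
      simp only [this]) hφ hφ'
  -- transfer
  have k1 : CIsot (𝓡 4) (imp c univ φ) (implantation B β) :=
    y1 B _ _ (y4 _ _ U1 _ hU1o hU1s (fun p hp => hU1 p hp) (z3 _ _ hφ)) hT
  have k2 : CIsot (𝓡 4) (imp c univ φ') (implantation B' β') :=
    y1 B' _ _ (y4 _ _ U2 _ hU2o hU2s (fun p hp => hU2 p hp) (z3 _ _ hφ')) hT'
  have k3 : CIsot (𝓡 4) (imp c univ φ') (fun y => imp c univ n (imp c univ φ y)) := by
    have h := z1 _ _ hiso
    have e : imp c univ (fun x => n (φ x)) = fun y => imp c univ n (imp c univ φ y) :=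
      funext (z4 n φ)
    rwa [e] at h
  -- `imp c univ n` is a diffeomorphism with compact support
  have kP : CIsot (𝓡 4) (imp c univ φ) (imp c univ φ) := c4 _ _ _ k1 (c2 _ _ k1)
  have kNP : CIsot (𝓡 4) (fun y => imp c univ n (imp c univ φ y))
      (fun y => imp c univ n (imp c univ φ y)) := c4 _ _ _ (c2 _ _ k3) k3
  obtain ⟨P', hP', hP1, -⟩ := c7 _ kP
  have kN : CIsot (𝓡 4) (imp c univ n) (imp c univ n) := by
    have h := c5 _ _ _ _ kNP hP'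
    simp only [hP1] at h
    exact h
  have k4 : CIsot (𝓡 4) (fun y => imp c univ n (imp c univ φ y))
      (fun y => imp c univ n (implantation B β y)) := c5 _ _ _ _ kN k1
  exact ⟨imp c univ n, f1 _ (z5 n hn), c9 _ _ (c4 _ _ _ (c2 _ _ k2) (c4 _ _ _ k3 k4))⟩

end Pool.Agent.Helper18.BI
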