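import Pool.Agent.Helper18.BI.StF

/-!
# Project BI, module R0: the ramp function
-/

set_option autoImplicit false

open scoped Manifold ContDiff Topology
open Set Pool.Agent.Helper65.Barb MeasureTheory

namespace Pool.Agent.Helper18.BI

theorem R0.cont_step : Continuous step := contDiff_step.continuous

theorem R0.step_nonneg (t : ℝ) : 0 ≤ step t := Real.smoothTransition.nonneg t

theorem R0.step_le_one (t : ℝ) : step t ≤ 1 := Real.smoothTransition.le_one t

theorem R0.int (a b : ℝ) : IntervalIntegrable step volume a b :=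
  R0.cont_step.intervalIntegrable a b

theorem R0.hasDeriv (x : ℝ) : HasDerivAt ramp (step x) x :=
  (R0.cont_step.integral_hasStrictDerivAt 0 x).hasDerivAt

theorem R0.zero (x : ℝ) (hx : x ≤ 0) : ramp x = 0 := by
  unfold ramp
  have h : ∫ t in (0 : ℝ)..x, step t = ∫ _t in (0 : ℝ)..x, (0 : ℝ) := by
    apply intervalIntegral.integral_congr
    intro t ht
    rw [uIcc_of_ge hx] at ht
    exact step_of_nonpos ht.2
  rw [h, intervalIntegral.integral_zero]

theorem R0.nonneg (x : ℝ) : 0 ≤ ramp x := by
  rcases le_total x 0 with h | h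
  · rw [R0.zero x h]
  · exact intervalIntegral.integral_nonneg h (fun t _ => R0.step_nonneg t)

theorem R0.lower (x : ℝ) : x - 1 ≤ ramp x := by
  rcases le_total x 1 with h | h
  · have := R0.nonneg x
    linarith
  · have h1 : ramp x = ramp 1 + ∫ t in (1 : ℝ)..x, step t := by
      unfold ramp
      rw [intervalIntegral.integral_add_adjacent_intervals (R0.int 0 1) (R0.int 1 x)]
    have h2 : ∫ t in (1 : ℝ)..x, step t = ∫ _t in (1 : ℝ)..x, (1 : ℝ) := by
      apply intervalIntegral.integral_congr
      intro t ht
      rw [uIcc_of_le h] at ht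
      exact step_of_one_le ht.1
    rw [h2, intervalIntegral.integral_const, smul_eq_mul, mul_one] at h1
    have := R0.nonneg 1
    linarith

theorem R0.upper (x : ℝ) (hx : 0 ≤ x) : ramp x ≤ x := by
  have h1 : ramp x ≤ ∫ _t in (0 : ℝ)..x, (1 : ℝ) := by
    unfold ramp
    exact intervalIntegral.integral_mono_on hx (R0.int 0 x) intervalIntegrable_const
      (fun t _ => R0.step_le_one t)
  rw [intervalIntegral.integral_const, smul_eq_mul, mul_one, sub_zero] at h1
  exact h1

theorem m_R0 : StR0 := by
  refine ⟨?_, R0.hasDeriv, R0.zero, R0.nonneg, R0.lower, R0.upper⟩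
  rw [contDiff_infty_iff_deriv]
  refine ⟨fun x => (R0.hasDeriv x).differentiableAt, ?_⟩
  have h : deriv ramp = step := funext fun x => (R0.hasDeriv x).deriv
  rw [h]
  exact contDiff_step

end Pool.Agent.Helper18.BI
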