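import Pool.Agent.Helper18.BI.StF

/-!
# Project BI (MP_8e98f2_gt), module R1: a compression which is the identity on the core spheres
-/

set_option autoImplicit false

open scoped Manifold ContDiff Topology ComplexConjugate
open Set Pool.Agent.Helper65.Barb

namespace Pool.Agent.Helper18.BI

namespace R1

/-! ### scalar facts -/

theorem step_zero {x : ℝ} (h : x ≤ 0) : step x = 0 := Real.smoothTransition.zero_of_nonpos h

theorem step_one {x : ℝ} (h : 1 ≤ x) : step x = 1 := Real.smoothTransition.one_of_one_le h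

theorem step_nonneg (x : ℝ) : 0 ≤ step x := Real.smoothTransition.nonneg x

theorem step_le_one (x : ℝ) : step x ≤ 1 := Real.smoothTransition.le_one x

theorem contDiff_step : ContDiff ℝ ∞ step := Real.smoothTransition.contDiff

theorem uu_left {a : ℝ} (h : a ≤ 2 / 5) : uu a = 1 / 25 - a ^ 2 := by
  rw [uu, step_zero (by linarith)]; ring

theorem uu_right {a : ℝ} (h : 3 / 5 ≤ a) : uu a = 1 / 25 - (a - 1) ^ 2 := by
  rw [uu, step_one (by linarith)]; ring

theorem half_pos (ε x : ℝ) (h : 0 < ε) : 0 < (x + √(x ^ 2 + ε ^ 2)) / 2 := by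
  have h1 : |x| < √(x ^ 2 + ε ^ 2) := by
    rw [← Real.sqrt_sq_eq_abs]
    exact Real.sqrt_lt_sqrt (sq_nonneg _) (by nlinarith [sq_pos_of_pos h])
  have h2 := neg_abs_le x
  linarith

theorem half_gt (ε x : ℝ) (h : 0 < ε) : x < (x + √(x ^ 2 + ε ^ 2)) / 2 := by
  have h1 : |x| < √(x ^ 2 + ε ^ 2) := by
    rw [← Real.sqrt_sq_eq_abs]
    exact Real.sqrt_lt_sqrt (sq_nonneg _) (by nlinarith [sq_pos_of_pos h])
  have h2 := le_abs_self x
  linarith

theorem half_le (ε x : ℝ) (h : 0 < ε) : (x + √(x ^ 2 + ε ^ 2)) / 2 ≤ (x + |x|) / 2 + ε / 2 := by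
  have h1 : √(x ^ 2 + ε ^ 2) ≤ |x| + ε := by
    apply Real.sqrt_le_iff.2
    refine ⟨by positivity, ?_⟩
    nlinarith [abs_nonneg x, sq_abs x, mul_nonneg (abs_nonneg x) h.le]
  linarith

theorem uu_lt_prof (ε a : ℝ) (h : 0 < ε) : uu a < prof ε a := by
  have hA := half_gt ε (1 / 25 - a ^ 2) h
  have hB := half_gt ε (1 / 25 - (a - 1) ^ 2) h
  have hA0 := half_pos ε (1 / 25 - a ^ 2) h
  have hB0 := half_pos ε (1 / 25 - (a - 1) ^ 2) h
  have h1 : 1 / 25 - a ^ 2 < prof ε a := by rw [prof]; linarith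
  have h2 : 1 / 25 - (a - 1) ^ 2 < prof ε a := by rw [prof]; linarith
  have h3 := step_nonneg (5 * a - 2)
  have h4 := step_le_one (5 * a - 2)
  rw [uu]
  rcases eq_or_lt_of_le h3 with h5 | h5
  · rw [← h5]; linarith
  · nlinarith

theorem prof_pos (ε a : ℝ) (h : 0 < ε) : 0 < prof ε a := by
  have hA0 := half_pos ε (1 / 25 - a ^ 2) h
  have hB0 := half_pos ε (1 / 25 - (a - 1) ^ 2) h
  rw [prof]; linarith

theorem prof_zero (a : ℝ) : prof 0 a = ((1 / 25 - a ^ 2) + |1 / 25 - a ^ 2|) / 2 +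
    ((1 / 25 - (a - 1) ^ 2) + |1 / 25 - (a - 1) ^ 2|) / 2 := by
  rw [prof]
  simp only [ne_eq, OfNat.ofNat_ne_zero, not_false_eq_true, zero_pow, add_zero, Real.sqrt_sq_eq_abs]

theorem prof_le (ε a : ℝ) (h : 0 < ε) : prof ε a ≤ prof 0 a + ε := by
  have hA := half_le ε (1 / 25 - a ^ 2) h
  have hB := half_le ε (1 / 25 - (a - 1) ^ 2) h
  rw [prof_zero, prof]; linarith

theorem den_pos (ε a k : ℝ) (h : 0 < ε) (hk : 0 ≤ k) : 0 < k - uu a + prof ε a := by
  have := uu_lt_prof ε a h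
  linarith

theorem hh_pos (ε a k : ℝ) (h : 0 < ε) (hk : 0 ≤ k) : 0 < hh ε a k :=
  Real.sqrt_pos.2 (div_pos (prof_pos ε a h) (den_pos ε a k h hk))

theorem hh_sq (ε a k : ℝ) (h : 0 < ε) (hk : 0 ≤ k) :
    hh ε a k ^ 2 = prof ε a / (k - uu a + prof ε a) :=
  Real.sq_sqrt (div_pos (prof_pos ε a h) (den_pos ε a k h hk)).le

theorem hasDerivAt_hh (ε a k : ℝ) (h : 0 < ε) (hk : 0 ≤ k) :
    HasDerivAt (hh ε a) (-(hh ε a k) / (2 * (k - uu a + prof ε a))) k := by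
  have hd := den_pos ε a k h hk
  have hg := prof_pos ε a h
  have h1 : HasDerivAt (fun k : ℝ => k - uu a + prof ε a) 1 k := by
    simpa using ((hasDerivAt_id k).sub_const (uu a)).add_const (prof ε a)
  have h2 : HasDerivAt (fun k : ℝ => prof ε a / (k - uu a + prof ε a))
      ((0 * (k - uu a + prof ε a) - prof ε a * 1) / (k - uu a + prof ε a) ^ 2) k :=
    (hasDerivAt_const k (prof ε a)).div h1 hd.ne'
  have h3 := h2.sqrt (div_pos hg hd).ne'
  have h4 := hh_pos ε a k h hk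
  have h5 := hh_sq ε a k h hk
  refine h3.congr_deriv ?_
  change (0 * (k - uu a + prof ε a) - prof ε a * 1) / (k - uu a + prof ε a) ^ 2 /
    (2 * hh ε a k) = _
  have h6 : prof ε a = hh ε a k ^ 2 * (k - uu a + prof ε a) := by
    rw [h5]; field_simp
  have h7 : (0 * (k - uu a + prof ε a) - prof ε a * 1) =
      -(hh ε a k ^ 2 * (k - uu a + prof ε a)) := by
    rw [← h6]; ring
  rw [h7]
  field_simp

theorem contDiff_prof (ε : ℝ) (h : 0 < ε) : ContDiff ℝ ∞ (prof ε) := by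
  have hA : ContDiff ℝ ∞ (fun a : ℝ => 1 / 25 - a ^ 2) := by fun_prop
  have hB : ContDiff ℝ ∞ (fun a : ℝ => 1 / 25 - (a - 1) ^ 2) := by fun_prop
  have h1 : ∀ f : ℝ → ℝ, ContDiff ℝ ∞ f → ContDiff ℝ ∞ (fun a => √(f a ^ 2 + ε ^ 2)) := by
    intro f hf
    refine ContDiff.sqrt ?_ ?_
    · fun_prop
    · intro x
      have : 0 < ε ^ 2 := by positivity
      have := sq_nonneg (f x)
      linarith
  exact (((hA.add (h1 _ hA)).div_const 2)).add ((hB.add (h1 _ hB)).div_const 2)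

theorem contDiff_uu : ContDiff ℝ ∞ uu := by
  have h1 : ContDiff ℝ ∞ (fun a : ℝ => step (5 * a - 2)) :=
    contDiff_step.comp (by fun_prop)
  have hA : ContDiff ℝ ∞ (fun a : ℝ => 1 / 25 - a ^ 2) := by fun_prop
  have hB : ContDiff ℝ ∞ (fun a : ℝ => 1 / 25 - (a - 1) ^ 2) := by fun_prop
  exact ((contDiff_const.sub h1).mul hA).add (h1.mul hB)

/-- the domain of smoothness of `hh ε` -/
def OO (ε : ℝ) : Set (ℝ × ℝ) := {x | 0 < x.2 - uu x.1 + prof ε x.1}

theorem isOpen_OO (ε : ℝ) (h : 0 < ε) : IsOpen (OO ε) := by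
  have h1 := contDiff_uu.continuous
  have h2 := (contDiff_prof ε h).continuous
  exact isOpen_lt continuous_const (by fun_prop)

theorem contDiffOn_hh (ε : ℝ) (h : 0 < ε) :
    ContDiffOn ℝ ∞ (fun x : ℝ × ℝ => hh ε x.1 x.2) (OO ε) := by
  have h1 : ContDiff ℝ ∞ (fun x : ℝ × ℝ => uu x.1) := contDiff_uu.comp contDiff_fst
  have h2 : ContDiff ℝ ∞ (fun x : ℝ × ℝ => prof ε x.1) := (contDiff_prof ε h).comp contDiff_fst
  have h3 : ContDiff ℝ ∞ (fun x : ℝ × ℝ => x.2 - uu x.1 + prof ε x.1) :=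
    (contDiff_snd.sub h1).add h2
  refine ContDiffOn.sqrt (h2.contDiffOn.div h3.contDiffOn ?_) ?_
  · intro x hx
    exact ne_of_gt hx
  · intro x hx
    exact (div_pos (prof_pos ε _ h) hx).ne'

theorem contDiff_bet (r0 : StR0) (ε : ℝ) : ContDiff ℝ ∞ (bet ε) := by
  have h1 : ContDiff ℝ ∞ (fun a : ℝ => ramp ((a - 6 / 5) / ε)) := r0.1.comp (by fun_prop)
  have h2 : ContDiff ℝ ∞ (fun a : ℝ => ramp ((-1 / 5 - a) / ε)) := r0.1.comp (by fun_prop)
  have h3 : bet ε = fun a => a - (1 - ε) * ε * ramp ((a - 6 / 5) / ε) +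
    (1 - ε) * ε * ramp ((-1 / 5 - a) / ε) := rfl
  rw [h3]
  fun_prop

theorem hasDerivAt_bet (r0 : StR0) (ε : ℝ) (h : 0 < ε) (a : ℝ) :
    HasDerivAt (bet ε) (1 - (1 - ε) * step ((a - 6 / 5) / ε) -
      (1 - ε) * step ((-1 / 5 - a) / ε)) a := by
  have e1 : HasDerivAt (fun a : ℝ => (a - 6 / 5) / ε) (1 / ε) a :=
    ((hasDerivAt_id a).sub_const _).div_const ε
  have e2 : HasDerivAt (fun a : ℝ => (-1 / 5 - a) / ε) ((-1) / ε) a := by
    have := ((hasDerivAt_id a).const_sub (-1 / 5)).div_const ε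
    simpa using this
  have h1 : HasDerivAt (fun a : ℝ => ramp ((a - 6 / 5) / ε)) (step ((a - 6 / 5) / ε) * (1 / ε)) a :=
    HasDerivAt.comp (h₂ := ramp) a (r0.2.1 ((a - 6 / 5) / ε)) e1
  have h2 : HasDerivAt (fun a : ℝ => ramp ((-1 / 5 - a) / ε))
      (step ((-1 / 5 - a) / ε) * ((-1) / ε)) a :=
    HasDerivAt.comp (h₂ := ramp) a (r0.2.1 ((-1 / 5 - a) / ε)) e2
  have h3 := ((hasDerivAt_id a).sub (h1.const_mul ((1 - ε) * ε))).add
    (h2.const_mul ((1 - ε) * ε))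
  refine h3.congr_deriv ?_
  field_simp
  ring

theorem bet_deriv_pos (ε : ℝ) (h : ε ∈ Ioo (0 : ℝ) 1) (a : ℝ) :
    0 < 1 - (1 - ε) * step ((a - 6 / 5) / ε) - (1 - ε) * step ((-1 / 5 - a) / ε) := by
  obtain ⟨h0, h1⟩ := h
  rcases le_total a (6 / 5) with ha | ha
  · rw [step_zero (x := (a - 6 / 5) / ε) (div_nonpos_of_nonpos_of_nonneg (by linarith) h0.le)]
    have := step_le_one ((-1 / 5 - a) / ε)
    nlinarith
  · rw [step_zero (x := (-1 / 5 - a) / ε) (div_nonpos_of_nonpos_of_nonneg (by linarith) h0.le)]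
    have := step_le_one ((a - 6 / 5) / ε)
    nlinarith

theorem bet_mid (r0 : StR0) (ε : ℝ) (h : 0 < ε) (a : ℝ) (h1 : -1 / 5 ≤ a) (h2 : a ≤ 6 / 5) :
    bet ε a = a := by
  rw [bet, r0.2.2.1 _ (div_nonpos_of_nonpos_of_nonneg (by linarith) h.le),
    r0.2.2.1 _ (div_nonpos_of_nonpos_of_nonneg (by linarith) h.le)]
  ring

theorem ramp_bounds (r0 : StR0) (ε : ℝ) (h : 0 < ε) (y : ℝ) (hy : 0 ≤ y) :
    y - ε ≤ ε * ramp (y / ε) ∧ ε * ramp (y / ε) ≤ y := by
  have h1 := r0.2.2.2.2.1 (y / ε)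
  have h2 := r0.2.2.2.2.2 (y / ε) (div_nonneg hy h.le)
  have h3 : ε * (y / ε) = y := by field_simp
  constructor
  · calc y - ε = ε * (y / ε - 1) := by rw [mul_sub, h3, mul_one]
      _ ≤ ε * ramp (y / ε) := mul_le_mul_of_nonneg_left h1 h.le
  · calc ε * ramp (y / ε) ≤ ε * (y / ε) := mul_le_mul_of_nonneg_left h2 h.le
      _ = y := h3

theorem axc_zero (a : ℝ) : axc 0 a = 1 / 2 + (|a + 1 / 5| - |a - 6 / 5|) / 2 := by
  rw [axc]
  simp only [ne_eq, OfNat.ofNat_ne_zero, not_false_eq_true, zero_pow, add_zero, Real.sqrt_sq_eq_abs]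

theorem bet_close (r0 : StR0) (ε : ℝ) (h : ε ∈ Ioo (0 : ℝ) 1) (a : ℝ) :
    |bet ε a - axc 0 a| ≤ ε * (|a| + 3) := by
  obtain ⟨h0, h1⟩ := h
  have habs := abs_nonneg a
  have ha1 := le_abs_self a
  have ha2 := neg_abs_le a
  rcases le_total a (6 / 5) with ha | ha
  · rcases le_total (-1 / 5) a with hb | hb
    · rw [bet_mid r0 ε h0 a hb ha, axc_zero, abs_of_nonneg (by linarith : 0 ≤ a + 1 / 5),
        abs_of_nonpos (by linarith : a - 6 / 5 ≤ 0)]
      have : a - (1 / 2 + (a + 1 / 5 - -(a - 6 / 5)) / 2) = 0 := by ring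
      rw [this, abs_zero]
      positivity
    · rw [axc_zero, abs_of_nonpos (by linarith : a + 1 / 5 ≤ 0),
        abs_of_nonpos (by linarith : a - 6 / 5 ≤ 0), bet,
        r0.2.2.1 _ (div_nonpos_of_nonpos_of_nonneg (by linarith : a - 6 / 5 ≤ 0) h0.le)]
      obtain ⟨h2, h3⟩ := ramp_bounds r0 ε h0 (-1 / 5 - a) (by linarith)
      set X := ε * ramp ((-1 / 5 - a) / ε) with hX
      have h4 : a - (1 - ε) * ε * 0 + (1 - ε) * ε * ramp ((-1 / 5 - a) / ε) -
          (1 / 2 + (-(a + 1 / 5) - -(a - 6 / 5)) / 2) = a + (1 - ε) * X + 1 / 5 := by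
        rw [hX]; ring
      rw [h4, abs_le]
      constructor
      · nlinarith
      · nlinarith
  · rw [axc_zero, abs_of_nonneg (by linarith : 0 ≤ a + 1 / 5),
      abs_of_nonneg (by linarith : 0 ≤ a - 6 / 5), bet,
      r0.2.2.1 ((-1 / 5 - a) / ε)
        (div_nonpos_of_nonpos_of_nonneg (by linarith : -1 / 5 - a ≤ 0) h0.le)]
    obtain ⟨h2, h3⟩ := ramp_bounds r0 ε h0 (a - 6 / 5) (by linarith)
    set X := ε * ramp ((a - 6 / 5) / ε) with hX
    have h4 : a - (1 - ε) * ε * ramp ((a - 6 / 5) / ε) + (1 - ε) * ε * 0 -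
        (1 / 2 + (a + 1 / 5 - (a - 6 / 5)) / 2) = a - (1 - ε) * X - 6 / 5 := by
      rw [hX]; ring
    rw [h4, abs_le]
    constructor
    · nlinarith
    · nlinarith

/-! ### the squared norm `X = k hh²` of the third component -/

theorem X_le_prof (ε a k : ℝ) (h : 0 < ε) (hk : 0 ≤ k) : k * hh ε a k ^ 2 ≤ prof ε a := by
  rw [hh_sq ε a k h hk, ← mul_div_assoc, div_le_iff₀ (den_pos ε a k h hk)]
  have := uu_lt_prof ε a h
  have := prof_pos ε a h
  nlinarith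

theorem X_sub (ε a k : ℝ) (h : 0 < ε) (hk : 0 ≤ k) :
    k * hh ε a k ^ 2 - uu a = (prof ε a - uu a) * (k - uu a) / (k - uu a + prof ε a) := by
  have := (den_pos ε a k h hk).ne'
  rw [hh_sq ε a k h hk]
  field_simp
  ring

theorem X_ge (ε a k : ℝ) (h : 0 < ε) (hk : 0 ≤ k) (hu : uu a ≤ k) : uu a ≤ k * hh ε a k ^ 2 := by
  have h1 := X_sub ε a k h hk
  have h2 : 0 ≤ (prof ε a - uu a) * (k - uu a) / (k - uu a + prof ε a) :=
    div_nonneg (mul_nonneg (by linarith [uu_lt_prof ε a h]) (by linarith))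
      (den_pos ε a k h hk).le
  linarith

theorem X_le_u (ε a k : ℝ) (h : 0 < ε) (hk : 0 ≤ k) (hu : k ≤ uu a) :
    k ≤ k * hh ε a k ^ 2 ∧ k * hh ε a k ^ 2 ≤ uu a := by
  constructor
  · have h1 : 1 ≤ hh ε a k ^ 2 := by
      rw [hh_sq ε a k h hk, le_div_iff₀ (den_pos ε a k h hk)]
      linarith
    nlinarith
  · have h1 := X_sub ε a k h hk
    have h2 : (prof ε a - uu a) * (k - uu a) / (k - uu a + prof ε a) ≤ 0 :=
      div_nonpos_of_nonpos_of_nonneg
        (mul_nonpos_of_nonneg_of_nonpos (by linarith [uu_lt_prof ε a h]) (by linarith))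
        (den_pos ε a k h hk).le
    linarith

theorem prof_zero_cases (a : ℝ) : (prof 0 a = 0) ∨ (a ^ 2 < 1 / 25 ∧ prof 0 a = uu a) ∨
    ((a - 1) ^ 2 < 1 / 25 ∧ prof 0 a = uu a) := by
  rw [prof_zero]
  rcases lt_or_ge (a ^ 2) (1 / 25) with hA | hA
  · right; left
    refine ⟨hA, ?_⟩
    have ha : a < 1 / 5 := by nlinarith
    have hB : 1 / 25 - (a - 1) ^ 2 ≤ 0 := by nlinarith
    rw [abs_of_nonpos hB, abs_of_nonneg (by linarith : 0 ≤ 1 / 25 - a ^ 2),
      uu_left (by linarith)]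
    ring
  · rcases lt_or_ge ((a - 1) ^ 2) (1 / 25) with hB | hB
    · right; right
      refine ⟨hB, ?_⟩
      have ha : 4 / 5 < a := by nlinarith
      rw [abs_of_nonpos (by linarith : 1 / 25 - a ^ 2 ≤ 0),
        abs_of_nonneg (by linarith : 0 ≤ 1 / 25 - (a - 1) ^ 2), uu_right (by linarith)]
      ring
    · left
      rw [abs_of_nonpos (by linarith : 1 / 25 - a ^ 2 ≤ 0),
        abs_of_nonpos (by linarith : 1 / 25 - (a - 1) ^ 2 ≤ 0)]
      ring

theorem prof_zero_nonneg (a : ℝ) : 0 ≤ prof 0 a := by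
  rw [prof_zero]
  have h1 := neg_abs_le (1 / 25 - a ^ 2)
  have h2 := neg_abs_le (1 / 25 - (a - 1) ^ 2)
  linarith

theorem rsq_eq (c : ℝ) (p : R4) : rsq c p = (p.2.1 - c) ^ 2 + Complex.normSq p.2.2 := by
  rw [rsq, nsq, Complex.normSq_apply]
  ring

theorem prof_zero_le {p : R4} (hp : p ∈ Ext) : prof 0 p.2.1 ≤ Complex.normSq p.2.2 := by
  obtain ⟨h0, h1⟩ := hp
  rw [rsq_eq] at h0 h1
  rcases prof_zero_cases p.2.1 with h | h | h
  · rw [h]; exact Complex.normSq_nonneg _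
  · rw [h.2, uu_left (by nlinarith [h.1])]; linarith
  · rw [h.2, uu_right (by nlinarith [h.1])]; linarith

theorem fac_zero_sq {a k : ℝ} (h : prof 0 a ≤ k) : k * fac 0 a k ^ 2 = prof 0 a := by
  have h0 := prof_zero_nonneg a
  rw [fac]
  simp only [add_zero, mul_zero, zero_mul, ne_eq, OfNat.ofNat_ne_zero, not_false_eq_true, zero_pow,
    Real.sqrt_sq_eq_abs]
  rw [abs_of_nonneg (by linarith : 0 ≤ k - prof 0 a)]
  have h1 : k + prof 0 a + (k - prof 0 a) = 2 * k := by ring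
  rw [h1, Real.sq_sqrt (div_nonneg (by linarith) (by linarith))]
  rcases eq_or_lt_of_le (h0.trans h) with h2 | h2
  · rw [← h2] at h ⊢
    rw [zero_mul]
    linarith
  · field_simp

theorem fac_zero_nonneg (a k : ℝ) : 0 ≤ fac 0 a k := Real.sqrt_nonneg _

theorem X_bounds {p : R4} (hp : p ∈ Ext) (ε : ℝ) (h : 0 < ε) :
    Complex.normSq p.2.2 * fac 0 p.2.1 (Complex.normSq p.2.2) ^ 2 ≤
        Complex.normSq p.2.2 * hh ε p.2.1 (Complex.normSq p.2.2) ^ 2 ∧
      Complex.normSq p.2.2 * hh ε p.2.1 (Complex.normSq p.2.2) ^ 2 ≤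
        Complex.normSq p.2.2 * fac 0 p.2.1 (Complex.normSq p.2.2) ^ 2 + ε := by
  have hk := Complex.normSq_nonneg p.2.2
  have hle := prof_zero_le hp
  rw [fac_zero_sq hle]
  constructor
  · rcases prof_zero_cases p.2.1 with h' | h' | h'
    · rw [h']; positivity
    · rw [h'.2] at hle ⊢; exact X_ge ε _ _ h hk hle
    · rw [h'.2] at hle ⊢; exact X_ge ε _ _ h hk hle
  · exact (X_le_prof ε _ _ h hk).trans (prof_le ε _ h)

/-! ### the maps -/

theorem sq_eq (ε : ℝ) : sq ε = tri ε (axc ε) (fac ε) := rfl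

theorem contDiff_normSq : ContDiff ℝ ∞ (fun p : R4 => Complex.normSq p.2.2) := by
  have h1 : (fun p : R4 => Complex.normSq p.2.2) =
      fun p : R4 => Complex.reCLM p.2.2 * Complex.reCLM p.2.2 +
        Complex.imCLM p.2.2 * Complex.imCLM p.2.2 := by
    funext p
    rw [Complex.normSq_apply]
    rfl
  rw [h1]
  have h2 : ContDiff ℝ ∞ (fun p : R4 => Complex.reCLM p.2.2) :=
    Complex.reCLM.contDiff.comp (contDiff_snd.comp contDiff_snd)
  have h3 : ContDiff ℝ ∞ (fun p : R4 => Complex.imCLM p.2.2) :=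
    Complex.imCLM.contDiff.comp (contDiff_snd.comp contDiff_snd)
  exact (h2.mul h2).add (h3.mul h3)

theorem contDiff_kk (r0 : StR0) (ε : ℝ) (h : 0 < ε) : ContDiff ℝ ∞ (kk ε) := by
  have h1 : ContDiff ℝ ∞ (fun p : R4 => (1 / 2 + ε * (p.1 - 1 / 2) : ℝ)) := by fun_prop
  have ha : ContDiff ℝ ∞ (fun p : R4 => p.2.1) := contDiff_fst.comp contDiff_snd
  have h2 : ContDiff ℝ ∞ (fun p : R4 => bet ε p.2.1) :=
    ContDiff.comp (g := bet ε) (f := fun p : R4 => p.2.1) (contDiff_bet r0 ε) ha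
  have h3 : ContDiff ℝ ∞ (fun p : R4 => hh ε p.2.1 (Complex.normSq p.2.2)) :=
    ContDiffOn.comp_contDiff (g := fun x : ℝ × ℝ => hh ε x.1 x.2)
      (f := fun p : R4 => (p.2.1, Complex.normSq p.2.2)) (contDiffOn_hh ε h)
      (ha.prodMk contDiff_normSq)
      (fun p => den_pos ε p.2.1 (Complex.normSq p.2.2) h (Complex.normSq_nonneg _))
  have h4 : ContDiff ℝ ∞ (fun p : R4 => ((hh ε p.2.1 (Complex.normSq p.2.2) : ℝ) : ℂ) * p.2.2) :=
    (Complex.ofRealCLM.contDiff.comp h3).mul (contDiff_snd.comp contDiff_snd)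
  exact h1.prodMk (h2.prodMk h4)

theorem contDiff_sq (s2 : StS2) (ε : ℝ) (h : 0 < ε) : ContDiff ℝ ∞ (sq ε) :=
  s2.2.2.2.comp_contDiff (f := fun p : R4 => (ε, p)) (contDiff_const.prodMk contDiff_id)
    (fun _ => ⟨h, mem_univ _⟩)

theorem embOn_mix (s0 : StS0) (s1 : StS1) (s2 : StS2) (r0 : StR0) (ε : ℝ)
    (h : ε ∈ Ioo (0 : ℝ) 1) (t : ℝ) (ht : t ∈ Icc (0 : ℝ) 1) :
    EmbOn 𝓘(ℝ, R4) (fun p => (1 - t) • sq ε p + t • kk ε p) univ := by
  obtain ⟨h0, h1⟩ := h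
  obtain ⟨ht0, ht1⟩ := ht
  obtain ⟨hax, d, hd⟩ := s2.2.1 ε h0
  obtain ⟨O, hO, hOk, hOs⟩ := s2.2.2.1 ε h0
  have hff : ∀ a k : ℝ, ∃ e : ℝ, 0 ≤ k → HasDerivAt (fac ε a) e k ∧ 0 < fac ε a k ∧
      0 < fac ε a k + 2 * k * e := by
    intro a k
    by_cases hk : 0 ≤ k
    · obtain ⟨q1, _, _, _, e, he1, he2⟩ := s1 ε (prof ε a) k h0 (prof_pos ε a h0) hk
      exact ⟨e, fun _ => ⟨he1, q1, he2⟩⟩
    · exact ⟨0, fun hk' => absurd hk' hk⟩
  choose e he using hff
  have hmap : (fun p => (1 - t) • sq ε p + t • kk ε p) =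
      tri ε (fun a => (1 - t) * axc ε a + t * bet ε a)
        (fun a k => (1 - t) * fac ε a k + t * hh ε a k) := by
    funext p
    refine Prod.ext ?_ (Prod.ext ?_ ?_)
    · change (1 - t) * (1 / 2 + ε * (p.1 - 1 / 2)) + t * (1 / 2 + ε * (p.1 - 1 / 2)) =
        1 / 2 + ε * (p.1 - 1 / 2)
      ring
    · rfl
    · change (1 - t) • (((fac ε p.2.1 (Complex.normSq p.2.2) : ℝ) : ℂ) * p.2.2) +
        t • (((hh ε p.2.1 (Complex.normSq p.2.2) : ℝ) : ℂ) * p.2.2) =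
        (((1 - t) * fac ε p.2.1 (Complex.normSq p.2.2) +
          t * hh ε p.2.1 (Complex.normSq p.2.2) : ℝ) : ℂ) * p.2.2
      rw [Complex.real_smul, Complex.real_smul]
      push_cast
      ring
  rw [hmap]
  have hpos : ∀ x y : ℝ, 0 < x → 0 < y → 0 < (1 - t) * x + t * y := by
    intro x y hx hy
    rcases eq_or_lt_of_le ht0 with h2 | h2
    · rw [← h2]; linarith
    · have := mul_pos h2 hy
      have := mul_nonneg (sub_nonneg.2 ht1) hx.le
      linarith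
  refine s0 ε (fun a => (1 - t) * axc ε a + t * bet ε a)
    (fun a => (1 - t) * d a + t * (1 - (1 - ε) * step ((a - 6 / 5) / ε) -
      (1 - ε) * step ((-1 / 5 - a) / ε)))
    (fun a k => (1 - t) * fac ε a k + t * hh ε a k)
    (fun a k => (1 - t) * e a k + t * (-(hh ε a k) / (2 * (k - uu a + prof ε a))))
    (O ∩ OO ε) h0 ?_ ?_ ?_ (hO.inter (isOpen_OO ε h0)) ?_ ?_ ?_ ?_
  · exact (contDiff_const.mul hax).add (contDiff_const.mul (contDiff_bet r0 ε))
  · intro a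
    exact ((hd a).1.const_mul (1 - t)).add ((hasDerivAt_bet r0 ε h0 a).const_mul t)
  · intro a
    exact hpos _ _ (hd a).2 (bet_deriv_pos ε ⟨h0, h1⟩ a)
  · intro a k hk
    exact ⟨hOk a k hk, den_pos ε a k h0 hk⟩
  · exact (contDiffOn_const.mul (hOs.mono inter_subset_left)).add
      (contDiffOn_const.mul ((contDiffOn_hh ε h0).mono inter_subset_right))
  · intro a k hk
    exact ((he a k hk).1.const_mul (1 - t)).add ((hasDerivAt_hh ε a k h0 hk).const_mul t)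
  · intro a k hk
    refine ⟨hpos _ _ (he a k hk).2.1 (hh_pos ε a k h0 hk), ?_⟩
    have h2 := hh_pos ε a k h0 hk
    have h3 := den_pos ε a k h0 hk
    have h4 : 0 < hh ε a k + 2 * k * (-(hh ε a k) / (2 * (k - uu a + prof ε a))) := by
      have h5 : hh ε a k + 2 * k * (-(hh ε a k) / (2 * (k - uu a + prof ε a))) =
          hh ε a k * (prof ε a - uu a) / (k - uu a + prof ε a) := by
        field_simp
        ring
      rw [h5]
      exact div_pos (mul_pos h2 (by linarith [uu_lt_prof ε a h0])) h3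
    have h6 := hpos _ _ (he a k hk).2.2 h4
    have h7 : (1 - t) * fac ε a k + t * hh ε a k + 2 * k * ((1 - t) * e a k +
        t * (-(hh ε a k) / (2 * (k - uu a + prof ε a)))) =
        (1 - t) * (fac ε a k + 2 * k * e a k) +
        t * (hh ε a k + 2 * k * (-(hh ε a k) / (2 * (k - uu a + prof ε a)))) := by ring
    rw [h7]
    exact h6

theorem hh_one (ε a : ℝ) (h : 0 < ε) : hh ε a (uu a) = 1 := by
  rw [hh, sub_self, zero_add, div_self (prof_pos ε a h).ne', Real.sqrt_one]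

theorem kk_fix (r0 : StR0) (ε : ℝ) (h : 0 < ε) (p : R4) (h1 : p.1 = 1 / 2) (h2 : -1 / 5 ≤ p.2.1)
    (h3 : p.2.1 ≤ 6 / 5) (h4 : Complex.normSq p.2.2 = uu p.2.1) : kk ε p = p := by
  refine Prod.ext ?_ (Prod.ext ?_ ?_)
  · change 1 / 2 + ε * (p.1 - 1 / 2) = p.1
    rw [h1]; ring
  · change bet ε p.2.1 = p.2.1
    exact bet_mid r0 ε h _ h2 h3
  · change ((hh ε p.2.1 (Complex.normSq p.2.2) : ℝ) : ℂ) * p.2.2 = p.2.2
    rw [h4, hh_one ε _ h]
    simp

theorem normSq_third (ε : ℝ) (p : R4) : Complex.normSq (kk ε p).2.2 =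
    Complex.normSq p.2.2 * hh ε p.2.1 (Complex.normSq p.2.2) ^ 2 := by
  change Complex.normSq (((hh ε p.2.1 (Complex.normSq p.2.2) : ℝ) : ℂ) * p.2.2) = _
  rw [Complex.normSq_mul, Complex.normSq_ofReal]
  ring

theorem third_close {p : R4} (hp : p ∈ Ext) (ε : ℝ) (h : 0 < ε) :
    ‖((hh ε p.2.1 (Complex.normSq p.2.2) : ℝ) : ℂ) * p.2.2 -
      ((fac 0 p.2.1 (Complex.normSq p.2.2) : ℝ) : ℂ) * p.2.2‖ ≤ √ε := by
  obtain ⟨h1, h2⟩ := X_bounds hp ε h
  have hk : Complex.normSq p.2.2 = ‖p.2.2‖ ^ 2 := Complex.normSq_eq_norm_sq _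
  have hx := (hh_pos ε p.2.1 (Complex.normSq p.2.2) h (Complex.normSq_nonneg _)).le
  have hy := fac_zero_nonneg p.2.1 (Complex.normSq p.2.2)
  set x := hh ε p.2.1 (Complex.normSq p.2.2) with hxdef
  set y := fac 0 p.2.1 (Complex.normSq p.2.2) with hydef
  set n := ‖p.2.2‖ with hn
  have hn0 : 0 ≤ n := norm_nonneg _
  rw [hk] at h1 h2
  rw [← sub_mul, ← Complex.ofReal_sub, norm_mul, Complex.norm_real, Real.norm_eq_abs, ← hn]
  apply Real.le_sqrt_of_sq_le
  rw [mul_pow, sq_abs]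
  have h3 : n * y ≤ n * x := by
    apply le_of_sq_le_sq _ (by positivity)
    nlinarith
  nlinarith [mul_nonneg hn0 hx, mul_nonneg hn0 hy]

end R1

open R1

theorem m_R1 (s0 : StS0) (s1 : StS1) (s2 : StS2) (_s3 : StS3) (_s4 : StS4) (r0 : StR0) : StR1 := by
  refine ⟨?_, ?_, ?_, ?_⟩
  · intro ε hε
    have hk := contDiff_kk r0 ε hε.1
    have hs := contDiff_sq s2 ε hε.1
    refine ⟨hk, ?_, fun t ht => embOn_mix s0 s1 s2 r0 ε hε t ht⟩
    exact ((contDiff_const.sub contDiff_fst).smul (hs.comp contDiff_snd)).add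
      (contDiff_fst.smul (hk.comp contDiff_snd))
  · intro ε hε p hp
    rcases hp with hp | hp
    · obtain ⟨h1, h2⟩ := hp
      rw [rsq_eq, sub_zero] at h2
      have hk := Complex.normSq_nonneg p.2.2
      have h3 : -1 / 5 ≤ p.2.1 := by nlinarith
      have h4 : p.2.1 ≤ 1 / 5 := by nlinarith
      exact kk_fix r0 ε hε.1 p h1 h3 (by linarith) (by rw [uu_left (by linarith)]; linarith)
    · obtain ⟨h1, h2⟩ := hp
      rw [rsq_eq] at h2
      have hk := Complex.normSq_nonneg p.2.2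
      have h3 : 4 / 5 ≤ p.2.1 := by nlinarith
      have h4 : p.2.1 ≤ 6 / 5 := by nlinarith
      exact kk_fix r0 ε hε.1 p h1 (by linarith) h4 (by rw [uu_right (by linarith)]; linarith)
  · intro K hK hKE r hr
    obtain ⟨R, hR⟩ := hK.isBounded.exists_norm_le
    set C : ℝ := max R 0 + 3 with hC
    have hC0 : 0 < C := by positivity
    refine ⟨min 1 (min (r / C) (r ^ 2)), by positivity, ?_⟩
    intro ε hε p hp
    obtain ⟨h0, h1⟩ := hε
    have h2 : ε < 1 := h1.trans_le (min_le_left _ _)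
    have h3 : ε < r / C := h1.trans_le ((min_le_right _ _).trans (min_le_left _ _))
    have h4 : ε < r ^ 2 := h1.trans_le ((min_le_right _ _).trans (min_le_right _ _))
    have h5 : ε * C ≤ r := by rw [lt_div_iff₀ hC0] at h3; exact h3.le
    have hpR := hR p hp
    have hp1 : |p.1| ≤ R := (norm_fst_le p).trans hpR
    have hp2 : |p.2.1| ≤ R := ((norm_fst_le p.2).trans (norm_snd_le p)).trans hpR
    have hRC : R ≤ C - 3 := by rw [hC]; linarith [le_max_left R 0]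
    have hd : dist (kk ε p) (sq 0 p) = max (dist (kk ε p).1 (sq 0 p).1)
        (max (dist (kk ε p).2.1 (sq 0 p).2.1) (dist (kk ε p).2.2 (sq 0 p).2.2)) := by
      rw [Prod.dist_eq, Prod.dist_eq]
    rw [hd]
    refine max_le ?_ (max_le ?_ ?_)
    · change dist (1 / 2 + ε * (p.1 - 1 / 2)) (1 / 2 + 0 * (p.1 - 1 / 2)) ≤ r
      rw [Real.dist_eq]
      have e1 : (1 / 2 + ε * (p.1 - 1 / 2)) - (1 / 2 + 0 * (p.1 - 1 / 2)) = ε * (p.1 - 1 / 2) := by
        ring
      rw [e1, abs_mul, abs_of_pos h0]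
      refine (mul_le_mul_of_nonneg_left ?_ h0.le).trans h5
      have := abs_sub p.1 (1 / 2)
      have e2 : |(1 / 2 : ℝ)| = 1 / 2 := by norm_num
      rw [e2] at this
      linarith
    · change dist (bet ε p.2.1) (axc 0 p.2.1) ≤ r
      rw [Real.dist_eq]
      refine (bet_close r0 ε ⟨h0, h2⟩ _).trans ((mul_le_mul_of_nonneg_left ?_ h0.le).trans h5)
      linarith
    · change dist (((hh ε p.2.1 (Complex.normSq p.2.2) : ℝ) : ℂ) * p.2.2)
        (((fac 0 p.2.1 (Complex.normSq p.2.2) : ℝ) : ℂ) * p.2.2) ≤ r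
      rw [dist_eq_norm]
      refine (third_close (hKE hp) ε h0).trans ?_
      rw [Real.sqrt_le_iff]
      exact ⟨hr.le, h4.le⟩
  · intro ε hε p
    have hk := Complex.normSq_nonneg p.2.2
    refine ⟨?_, ?_⟩
    · intro h
      rw [rsq_eq, sub_zero] at h
      have h3 : -1 / 5 ≤ p.2.1 := by nlinarith
      have h4 : p.2.1 ≤ 1 / 5 := by nlinarith
      have hb : (kk ε p).2.1 = p.2.1 := bet_mid r0 ε hε.1 _ h3 (by linarith)
      have hu : uu p.2.1 = 1 / 25 - p.2.1 ^ 2 := uu_left (by linarith)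
      obtain ⟨h5, h6⟩ := X_le_u ε p.2.1 (Complex.normSq p.2.2) hε.1 hk (by rw [hu]; linarith)
      rw [rsq_eq, rsq_eq, normSq_third, hb, sub_zero]
      rw [hu] at h6
      constructor <;> linarith
    · intro h
      rw [rsq_eq] at h
      have h3 : 4 / 5 ≤ p.2.1 := by nlinarith
      have h4 : p.2.1 ≤ 6 / 5 := by nlinarith
      have hb : (kk ε p).2.1 = p.2.1 := bet_mid r0 ε hε.1 _ (by linarith) h4
      have hu : uu p.2.1 = 1 / 25 - (p.2.1 - 1) ^ 2 := uu_right (by linarith)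
      obtain ⟨h5, h6⟩ := X_le_u ε p.2.1 (Complex.normSq p.2.2) hε.1 hk (by rw [hu]; linarith)
      rw [rsq_eq, rsq_eq, normSq_third, hb]
      rw [hu] at h6
      constructor <;> linarith

end Pool.Agent.Helper18.BI
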