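import Pool.Agent.Helper18.BI.StF

/-!
# Project BI (MP_8e98f2_gt), module R3: realization of a germ by a barbell
-/

set_option autoImplicit false

open scoped Manifold ContDiff Topology ComplexConjugate
open Set Pool.Agent.Helper65.Barb

namespace Pool.Agent.Helper18.BI

namespace MR3

lemma rsq_eq (c : ℝ) (p : R4) : rsq c p = (p.2.1 - c) ^ 2 + ‖p.2.2‖ ^ 2 := by
  have h4 : p.2.2.re ^ 2 + p.2.2.im ^ 2 = ‖p.2.2‖ ^ 2 := by
    rw [← Complex.normSq_eq_norm_sq, Complex.normSq_apply]; ring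
  simp only [rsq, nsq]
  linarith

lemma sep01 {p : R4} (h : rsq 0 p ≤ 1 / 25) : 1 / 25 < rsq 1 p := by
  rw [rsq_eq] at h ⊢
  have h1 : 0 ≤ ‖p.2.2‖ ^ 2 := by positivity
  have h2 : p.2.1 ≤ 1 / 5 := by nlinarith
  nlinarith

lemma sep10 {p : R4} (h : rsq 1 p ≤ 1 / 25) : 1 / 25 < rsq 0 p := by
  rw [rsq_eq] at h ⊢
  have h1 : 0 ≤ ‖p.2.2‖ ^ 2 := by positivity
  have h2 : 4 / 5 ≤ p.2.1 := by nlinarith
  nlinarith

/-- a point with squared radius near `1/25` is near the core sphere -/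
lemma near_sph {c δ : ℝ} (hδ : 0 < δ) (hδ' : δ < 1 / 100) {q : R4}
    (h1 : 1 / 25 - 2 * δ ≤ rsq c q) (h2 : rsq c q ≤ 1 / 25) {r : ℝ} (h3 : |q.1 - 1 / 2| ≤ r)
    (h4 : 10 * δ ≤ r) : ∃ p ∈ sph c, dist q p ≤ r := by
  have hq0 : 0 < rsq c q := by linarith
  set ρ := √(rsq c q) with hρ
  have hρ0 : 0 < ρ := Real.sqrt_pos.mpr hq0
  have hρ2 : ρ ^ 2 = rsq c q := Real.sq_sqrt hq0.le
  set l := (1 / 5) / ρ with hl
  have hlρ : l * ρ = 1 / 5 := by rw [hl]; field_simp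
  have hρ5 : ρ ≤ 1 / 5 := by nlinarith
  have hρ6 : 1 / 5 - ρ ≤ 10 * δ := by nlinarith
  have hl1 : 1 ≤ l := by rw [hl, le_div_iff₀ hρ0]; linarith
  have hr := rsq_eq c q
  have ha : |q.2.1 - c| ≤ ρ := by
    apply abs_le_of_sq_le_sq _ hρ0.le
    have : 0 ≤ ‖q.2.2‖ ^ 2 := by positivity
    linarith
  have hw : ‖q.2.2‖ ≤ ρ := by
    have : 0 ≤ (q.2.1 - c) ^ 2 := by positivity
    have h5 : ‖q.2.2‖ ^ 2 ≤ ρ ^ 2 := by linarith
    exact le_of_sq_le_sq h5 hρ0.le |>.trans le_rfl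
  have hlm : |1 - l| = l - 1 := by rw [abs_sub_comm, abs_of_nonneg (by linarith)]
  refine ⟨(1 / 2, c + l * (q.2.1 - c), ((l : ℝ) : ℂ) * q.2.2), ⟨rfl, ?_⟩, ?_⟩
  · rw [rsq_eq]
    simp only [norm_mul, Complex.norm_real, Real.norm_eq_abs, mul_pow, sq_abs]
    have : (c + l * (q.2.1 - c) - c) ^ 2 + l ^ 2 * ‖q.2.2‖ ^ 2 = l ^ 2 * rsq c q := by
      rw [hr]; ring
    rw [this, ← hρ2, ← mul_pow, hlρ]
    norm_num
  · rw [Prod.dist_eq, Prod.dist_eq]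
    refine max_le ?_ (max_le ?_ ?_)
    · rw [Real.dist_eq]; exact h3
    · rw [Real.dist_eq]
      have : q.2.1 - (c + l * (q.2.1 - c)) = (1 - l) * (q.2.1 - c) := by ring
      simp only [this]
      rw [abs_mul, hlm]
      nlinarith
    · rw [dist_eq_norm]
      have : q.2.2 - ((l : ℝ) : ℂ) * q.2.2 = (((1 - l : ℝ)) : ℂ) * q.2.2 := by push_cast; ring
      simp only [this]
      rw [norm_mul, Complex.norm_real, Real.norm_eq_abs, hlm]
      nlinarith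

/-- the barbell map is a diffeomorphism supported in `bsupp` -/
lemma sdiff_barMap : SDiff bsupp barMap (fun p => bfam.g (1, p)) := by
  refine ⟨?_, ?_, fun p => ?_, fun p => ?_, fun p hp => barMap_off hp⟩
  · rw [← contMDiff_iff_contDiff]
    exact bfam.smooth_f.comp (contMDiff_const.prodMk contMDiff_id)
  · rw [← contMDiff_iff_contDiff]
    exact bfam.smooth_g.comp (contMDiff_const.prodMk contMDiff_id)
  · exact bfam.fg 1 p
  · exact bfam.gf 1 p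

lemma mapsTo_barMap : MapsTo barMap bsupp bsupp := by
  intro p hp
  by_contra h
  have h1 : barMap (barMap p) = barMap p := barMap_off h
  have h2 := congrArg (fun x => bfam.g (1, x)) h1
  have h3 : ∀ x, bfam.g (1, barMap x) = x := fun x => bfam.gf 1 x
  simp only [h3] at h2
  exact h (h2.symm ▸ hp)

lemma EB_eq_of {p : R4} (hp : p ∈ NB) (h : p ∈ Ext) : p ∈ EB := ⟨hp.1, h⟩

/-- uniform closeness of `sq ε` to `sq 0` on a compact set -/
lemma sq_close (s3 : StS3) {K : Set R4} (hK : IsCompact K) {r : ℝ} (hr : 0 < r) :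
    ∃ ε₀ > 0, ∀ ε ∈ Ioo (0 : ℝ) ε₀, ∀ p ∈ K, dist (sq ε p) (sq 0 p) ≤ r := by
  have hc : IsCompact (Icc (0 : ℝ) 1 ×ˢ K) := isCompact_Icc.prod hK
  have hcont : ContinuousOn (fun q : ℝ × R4 => sq q.1 q.2) (Icc (0 : ℝ) 1 ×ˢ K) :=
    s3.mono (prod_mono (fun x hx => hx.1) (subset_univ _))
  have hu := hc.uniformContinuousOn_of_continuous hcont
  rw [Metric.uniformContinuousOn_iff] at hu
  obtain ⟨d, hd, h⟩ := hu r hr
  refine ⟨min d 1, by positivity, fun ε hε p hp => ?_⟩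
  have h1 : ε < d := lt_of_lt_of_le hε.2 (min_le_left _ _)
  have h2 : ε < 1 := lt_of_lt_of_le hε.2 (min_le_right _ _)
  refine (h (ε, p) ⟨⟨hε.1.le, h2.le⟩, hp⟩ (0, p) ⟨⟨le_rfl, by norm_num⟩, hp⟩ ?_).le
  rw [Prod.dist_eq, dist_self, Real.dist_eq]
  simp only [sub_zero]
  rw [abs_of_pos hε.1]
  exact max_lt h1 hd

/-- the composition of the two radial maps -/
lemma emb_rad (r2 : StR2) {δ : ℝ} (hδ : δ ∈ Ioo (0 : ℝ) (1 / 100)) :
    EmbOn 𝓘(ℝ, R4) (fun p => radc δ 0 (radc δ 1 p)) NB ∧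
    (∀ p ∈ NB, p ∈ Ext → radc δ 0 (radc δ 1 p) = p) ∧
    (∀ p ∈ NB, rsq 0 p < 1 / 25 → 1 / 25 - 2 * δ ≤ rsq 0 (radc δ 0 (radc δ 1 p)) ∧
      rsq 0 (radc δ 0 (radc δ 1 p)) ≤ 1 / 25) ∧
    (∀ p ∈ NB, rsq 1 p < 1 / 25 → 1 / 25 - 2 * δ ≤ rsq 1 (radc δ 0 (radc δ 1 p)) ∧
      rsq 1 (radc δ 0 (radc δ 1 p)) ≤ 1 / 25) := by
  obtain ⟨e0, i0, v0, b0⟩ := r2 δ hδ 0
  obtain ⟨e1, i1, v1, b1⟩ := r2 δ hδ 1
  have hpos : ∀ p ∈ NB, 0 < rsq 1 p ∧ 0 < rsq 0 (radc δ 1 p) := by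
    intro p hp
    have h1 : 0 < rsq 1 p := lt_of_lt_of_le (by norm_num) hp.2.2
    have h0 : 0 < rsq 0 p := lt_of_lt_of_le (by norm_num) hp.2.1
    refine ⟨h1, ?_⟩
    by_cases h : 1 / 25 ≤ rsq 1 p
    · rw [i1 p h]; exact h0
    · have h2 := b1 p hp.2.2 (not_le.1 h).le
      exact lt_trans (by norm_num) (sep10 h2.2)
  refine ⟨⟨fun p hp => ?_, fun p hp p' hp' h => ?_⟩, fun p hp hE => ?_, fun p hp h => ?_,
    fun p hp h => ?_⟩
  · exact IsLocalDiffeomorphAt.comp (hf := e1.1 p (hpos p hp).1) (hg := e0.1 _ (hpos p hp).2)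
  · exact e1.2 (hpos p hp).1 (hpos p' hp').1 (e0.2 (hpos p hp).2 (hpos p' hp').2 h)
  · have h0 : 1 / 25 ≤ rsq 0 p := by have := hE.1; norm_num at this ⊢; exact this
    have h1 : 1 / 25 ≤ rsq 1 p := by have := hE.2; norm_num at this ⊢; exact this
    rw [i1 p h1, i0 p h0]
  · rw [i1 p (sep01 h.le).le]
    exact b0 p hp.2.1 h.le
  · have h2 := b1 p hp.2.2 h.le
    rw [i0 _ (sep10 h2.2).le]
    exact h2

end MR3

open MR3 in
theorem m_R3 (a1 : StA1) (_a2 : StA2) (a3 : StA3) (im : StImp) (ci : StCI) (s3 : StS3)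
    (s4 : StS4) (_s6 : StS6) (r1 : StR1) (r2 : StR2) : StR3 := by
  intro E _ _ H _ I M _ _ _ F φ hF hT
  obtain ⟨s41, -, -, -, -, s46, s47, s48, cSP, -, cEB⟩ := s4
  obtain ⟨r11, r12, r13, r14⟩ := r1
  -- the open set `V`
  obtain ⟨δ₀, hδ₀, hδF⟩ := a1 R4 E H I M F SP cSP hF.1 hF.2
  have hVo : IsOpen δ₀.source := δ₀.open_source
  have hFloc : ∀ q ∈ δ₀.source, IsLocalDiffeomorphAt 𝓘(ℝ, R4) I ∞ F q :=
    fun q hq => ⟨δ₀, hq, fun p hp => (hδF p hp).symm⟩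
  have hFinj : InjOn F δ₀.source := by
    intro p hp q hq h
    rw [← hδF p hp, ← hδF q hq] at h
    exact δ₀.injOn hp hq h
  have hFsm : ContMDiffOn 𝓘(ℝ, R4) I ∞ F δ₀.source :=
    δ₀.contMDiffOn.congr fun p hp => (hδF p hp).symm
  obtain ⟨r, hr, hrV⟩ := cSP.exists_cthickening_subset_open hVo hδ₀
  have hV : ∀ p ∈ SP, ∀ q, dist q p ≤ r → q ∈ δ₀.source := fun p hp q h =>
    hrV (Metric.mem_cthickening_of_dist_le q p r SP hp h)
  -- the parameters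
  obtain ⟨δ, hδ, hδr⟩ : ∃ δ ∈ Ioo (0 : ℝ) (1 / 100), 10 * δ ≤ r := by
    refine ⟨min (1 / 200) (r / 10), ⟨by positivity, ?_⟩, ?_⟩
    · exact lt_of_le_of_lt (min_le_left _ _) (by norm_num)
    · have := min_le_right (1 / 200 : ℝ) (r / 10)
      linarith
  have hEBExt : EB ⊆ Ext := fun p hp => hp.2
  obtain ⟨ε₁, hε₁, h₁⟩ := r13 EB cEB hEBExt r hr
  obtain ⟨ε₂, hε₂, h₂⟩ := sq_close s3 isCompact_bsupp hr
  obtain ⟨ε₃, hε₃, h₃⟩ := hT
  obtain ⟨ε, hε0, hεa, hεb, hεc, hεd, hεe⟩ : ∃ ε : ℝ, 0 < ε ∧ ε < ε₁ ∧ ε < ε₂ ∧ ε < ε₃ ∧ ε < 1 ∧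
      3 / 2 * ε ≤ r := by
    refine ⟨min (min (min ε₁ ε₂) (min ε₃ 1)) r / 2, by positivity, ?_, ?_, ?_, ?_, ?_⟩
    all_goals
      have k1 := min_le_left (min (min ε₁ ε₂) (min ε₃ 1)) r
      have k2 := min_le_right (min (min ε₁ ε₂) (min ε₃ 1)) r
      have k3 := min_le_left (min ε₁ ε₂) (min ε₃ 1)
      have k4 := min_le_right (min ε₁ ε₂) (min ε₃ 1)
      have k5 := min_le_left ε₁ ε₂
      have k6 := min_le_right ε₁ ε₂
      have k7 := min_le_left ε₃ 1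
      have k8 := min_le_right ε₃ 1
      linarith
  have hεI : ε ∈ Ioo (0 : ℝ) 1 := ⟨hε0, hεd⟩
  obtain ⟨-, hHsm, hHemb⟩ := r11 ε hεI
  have hkk : EmbOn 𝓘(ℝ, R4) (kk ε) univ := by
    have h := hHemb 1 ⟨by norm_num, le_rfl⟩
    simpa using h
  obtain ⟨hE, hE1, hE2, hE3⟩ := emb_rad r2 hδ
  -- `κ` maps `NB` to `V`
  have hκV : ∀ p ∈ NB, kk ε (radc δ 0 (radc δ 1 p)) ∈ δ₀.source := by
    intro p hp
    have hfst : |(kk ε (radc δ 0 (radc δ 1 p))).1 - 1 / 2| ≤ r := by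
      have h1 : (kk ε (radc δ 0 (radc δ 1 p))).1 = 1 / 2 + ε * (p.1 - 1 / 2) := rfl
      rw [h1]
      have h2 := hp.1.1
      have h3 := hp.1.2.1
      have h4 : |ε * (p.1 - 1 / 2)| ≤ 3 / 2 * ε := by
        rw [abs_mul, abs_of_pos hε0]
        have : |p.1 - 1 / 2| ≤ 3 / 2 := abs_le.mpr ⟨by linarith, by linarith⟩
        nlinarith
      have h5 : 1 / 2 + ε * (p.1 - 1 / 2) - 1 / 2 = ε * (p.1 - 1 / 2) := by ring
      rw [h5]
      linarith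
    by_cases h0 : rsq 0 p < 1 / 25
    · obtain ⟨b1, b2⟩ := hE2 p hp h0
      obtain ⟨c1, c2⟩ := (r14 ε hεI (radc δ 0 (radc δ 1 p))).1 b2
      obtain ⟨p', hp', hd⟩ := near_sph hδ.1 hδ.2 (b1.trans c1) c2 hfst hδr
      exact hV p' (Or.inl (Or.inl hp')) _ hd
    · by_cases h1 : rsq 1 p < 1 / 25
      · obtain ⟨b1, b2⟩ := hE3 p hp h1
        obtain ⟨c1, c2⟩ := (r14 ε hεI (radc δ 0 (radc δ 1 p))).2 b2
        obtain ⟨p', hp', hd⟩ := near_sph hδ.1 hδ.2 (b1.trans c1) c2 hfst hδr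
        exact hV p' (Or.inl (Or.inr hp')) _ hd
      · have hx : p ∈ Ext := by
          refine ⟨?_, ?_⟩
          · have := not_lt.1 h0; norm_num at this ⊢; exact this
          · have := not_lt.1 h1; norm_num at this ⊢; exact this
        rw [hE1 p hp hx]
        exact hV _ (s41 p hx) _ (h₁ ε ⟨hε0, hεa⟩ p (EB_eq_of hp hx))
  -- the barbell
  have hκemb : EmbOn I (fun p => F (kk ε (radc δ 0 (radc δ 1 p)))) NB := by
    refine ⟨fun p hp => ?_, fun p hp q hq h => ?_⟩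
    · exact IsLocalDiffeomorphAt.comp
        (hf := IsLocalDiffeomorphAt.comp (hf := hE.1 p hp) (hg := hkk.1 _ (mem_univ _)))
        (hg := hFloc _ (hκV p hp))
    · exact hE.2 hp hq (hkk.2 (mem_univ _) (mem_univ _) (hFinj (hκV p hp) (hκV q hq) h))
  obtain ⟨B, hB, hBF⟩ := a1 R4 E H I M (fun p => F (kk ε (radc δ 0 (radc δ 1 p)))) NB isCompact_NB
    hκemb.1 hκemb.2
  refine ⟨B, hB, fun p hp => ?_, ?_⟩
  · have hSP : p ∈ SP := by
      rcases hp with hp | hp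
      · exact Or.inl (Or.inl hp)
      · exact Or.inl (Or.inr hp)
    have hEB := s46 hSP
    have hNB := s48 hEB
    rw [hBF p (hB hNB), hE1 p hNB (hEBExt hEB), r12 ε hεI p hp]
  · -- the family
    have hin : ∀ t ∈ Icc (0 : ℝ) 1, ∀ p ∈ bsupp, (1 - t) • sq ε p + t • kk ε p ∈ δ₀.source := by
      intro t ht p hp
      have hEB := s47 hp
      refine hV _ (s41 p (hEBExt hEB)) _ ?_
      have c1 : sq ε p ∈ Metric.closedBall (sq 0 p) r := h₂ ε ⟨hε0, hεb⟩ p hp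
      have c2 : kk ε p ∈ Metric.closedBall (sq 0 p) r := h₁ ε ⟨hε0, hεa⟩ p hEB
      exact (convex_closedBall (sq 0 p) r) c1 c2 (by linarith [ht.2]) ht.1 (by ring)
    have hfam : FamOn I (fun q : ℝ × R4 => F ((1 - q.1) • sq ε q.2 + q.1 • kk ε q.2)) bsupp := by
      refine ⟨⟨(fun q : ℝ × R4 => (1 - q.1) • sq ε q.2 + q.1 • kk ε q.2) ⁻¹' δ₀.source,
        hVo.preimage hHsm.continuous, ?_, ?_⟩, fun t ht => ⟨fun p hp => ?_, fun p hp q hq h => ?_⟩⟩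
      · rintro ⟨t, p⟩ ⟨ht, hp⟩
        exact hin t ht p hp
      · exact hFsm.comp hHsm.contMDiff.contMDiffOn (fun q hq => hq)
      · exact IsLocalDiffeomorphAt.comp (hf := (hHemb t ht).1 p (mem_univ _))
          (hg := hFloc _ (hin t ht p hp))
      · exact (hHemb t ht).2 (mem_univ _) (mem_univ _) (hFinj (hin t ht p hp) (hin t ht q hq) h)
    have h5 := a3 E H I M _ bsupp barMap _ isCompact_bsupp hfam sdiff_barMap
    have e0 : (fun p : R4 => (fun q : ℝ × R4 => F ((1 - q.1) • sq ε q.2 + q.1 • kk ε q.2)) (0, p)) =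
        F ∘ sq ε := by
      funext p; simp
    have e1 : (fun p : R4 => (fun q : ℝ × R4 => F ((1 - q.1) • sq ε q.2 + q.1 • kk ε q.2)) (1, p)) =
        fun p => F (kk ε p) := by
      funext p; simp
    rw [e0, e1] at h5
    have hinj : InjOn (fun p => F (kk ε p)) bsupp := by
      have h6 := (hfam.2 1 ⟨by norm_num, le_rfl⟩).2
      rw [e1] at h6
      exact h6
    have h7 := (im E H I M (fun p => F (kk ε p)) bsupp barMap hinj).2.2.2.2.1 B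
      (bsupp_subset.trans hB) (fun p hp => by
        have hNB := bsupp_subset hp
        rw [hBF p (hB hNB), hE1 p hNB (hEBExt (s47 hp))]) mapsTo_barMap
      (fun p hp => barMap_off hp)
    rw [h7] at h5
    exact (ci E H I M).2.2.2.1 _ _ _ (h₃ ε ⟨hε0, hεc⟩).2 h5

end Pool.Agent.Helper18.BI
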