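import Pool.Agent.Helper18.BI.AsmA
import Pool.Agent.Helper18.BI.M_R0
import Pool.Agent.Helper18.BI.M_R1
import Pool.Agent.Helper18.BI.M_R2
import Pool.Agent.Helper18.BI.M_R3
import Pool.Agent.Helper18.BI.M_F1
import Pool.Agent.Helper18.BI.M_F2

/-!
# Project BI: part (F), assembled
-/

set_option autoImplicit false

namespace Pool.Agent.Helper18.BI

theorem hR0 : StR0 := m_R0
theorem hR1 : StR1 := m_R1 hS0 hS1 hS2 hS3 hS4 hR0
theorem hR2 : StR2 := m_R2 hA0 hR0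
theorem hR3 : StR3 := m_R3 hA1 hA2 hA3 hImp hCI hS3 hS4 hS6 hR1 hR2
theorem hF1 : StF1 := m_F1 hA1 hCI hR3
theorem hF2 : StF2 := m_F2 hCI hT2 hT4 hX1 hX2 hX3 hF1

end Pool.Agent.Helper18.BI
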