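import Pool.Agent.Helper65.Barb.Final

/-!
# Project BI (MP_8e98f2_gt): definitions

Bar independence of barbell implantations in the 4-sphere modulo half-unknotted barbells.
Everything is done with germs of embeddings along the two-dimensional spine `SP` of the thickened
barbell.  Coordinates as in `Helper65.Barb`: `R4 = ℝ × ℝ × ℂ`, `p = (s, a, w)`, `x = (a, w)` in
three-space, `nsq x = |x|^2`, `rsq c p = |x - (c, 0)|^2`.
-/

set_option autoImplicit false

open scoped Manifold ContDiff Topology ComplexConjugate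
open Set Pool.Agent.Helper65.Barb

namespace Pool.Agent.Helper18.BI

/-- three-space, points written `(a, w)` -/
abbrev R3 : Type := ℝ × ℂ

section
variable {E : Type*} [NormedAddCommGroup E] [NormedSpace ℝ E] {H : Type*} [TopologicalSpace H]
  (I : ModelWithCorners ℝ E H) {M : Type*} [TopologicalSpace M] [ChartedSpace H M]

/-- `φ` and `ψ` are joined by a smooth isotopy supported in a compact subset of `M`. -/
def CIsot (φ ψ : M → M) : Prop :=
  ∃ F : DFam I M, (∃ C : Set M, IsCompact C ∧ ∀ t x, x ∉ C → F.f (t, x) = x) ∧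
    (∀ x, F.f (0, x) = φ x) ∧ ∀ x, F.f (1, x) = ψ x

/-- Isotopy supported in the set `C`. -/
def IsotIn (C : Set M) (φ ψ : M → M) : Prop :=
  ∃ F : DFam I M, (∀ t x, x ∉ C → F.f (t, x) = x) ∧
    (∀ x, F.f (0, x) = φ x) ∧ ∀ x, F.f (1, x) = ψ x

/-- `F` is a germ of an embedding along `L`: it is a local diffeomorphism at every point of `L`
and injective on `L`. -/
def EmbOn (F : R4 → M) (L : Set R4) : Prop :=
  (∀ p ∈ L, IsLocalDiffeomorphAt 𝓘(ℝ, R4) I ∞ F p) ∧ InjOn F L

/-- The map `T` of `R4` (equal to the identity off `K`) transported to `M` by `F`, extended by the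
identity: the implantation of `T` along `F`. -/
noncomputable def imp (F : R4 → M) (K : Set R4) (T : R4 → R4) (y : M) : M :=
  open Classical in if h : ∃ p ∈ K, F p = y then F (T h.choose) else y

/-- `J` is a smooth family, parametrized by `t ∈ [0,1]`, of germs of embeddings along `L`. -/
def FamOn (J : ℝ × R4 → M) (L : Set R4) : Prop :=
  (∃ W : Set (ℝ × R4), IsOpen W ∧ Icc 0 1 ×ˢ L ⊆ W ∧ ContMDiffOn 𝓘(ℝ, ℝ × R4) I ∞ J W) ∧
    ∀ t ∈ Icc (0 : ℝ) 1, EmbOn I (fun p => J (t, p)) L

end

/-! ### the spine -/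

/-- the core sphere of the cuff around `(s, c, 0)` -/
def sph (c : ℝ) : Set R4 := {p | p.1 = 1 / 2 ∧ rsq c p = 1 / 25}

/-- the flat ball bounded by `sph c` -/
def flat (c : ℝ) : Set R4 := {p | p.1 = 1 / 2 ∧ rsq c p ≤ 1 / 25}

/-- the core of the bar -/
def neck : Set R4 := {p | p.1 = 1 / 2 ∧ 1 / 5 ≤ p.2.1 ∧ p.2.1 ≤ 4 / 5 ∧ p.2.2 = 0}

/-- the spine of the thickened barbell -/
def SP : Set R4 := sph 0 ∪ sph 1 ∪ neck

/-- the spine with the two flat balls filled in -/
def FB : Set R4 := flat 0 ∪ flat 1 ∪ neck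

/-- the product model of a ball containing everything (this is `ball4`) minus nothing; open tubes
around the vertical lines over points of three-space -/
def tube (x₀ : R3) (r : ℝ) : Set R4 := {p | nsq (p.2 - x₀) < r ^ 2}

/-! ### the compression of the thickened barbell to its spine -/

/-- the profile (the squared width as a function of the axial coordinate) -/
noncomputable def prof (ε a : ℝ) : ℝ :=
  ((1 / 25 - a ^ 2) + √((1 / 25 - a ^ 2) ^ 2 + ε ^ 2)) / 2 +
    ((1 / 25 - (a - 1) ^ 2) + √((1 / 25 - (a - 1) ^ 2) ^ 2 + ε ^ 2)) / 2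

/-- the axial compression -/
noncomputable def axc (ε a : ℝ) : ℝ :=
  1 / 2 + (√((a + 1 / 5) ^ 2 + ε ^ 2) - √((a - 6 / 5) ^ 2 + ε ^ 2)) / 2

/-- the transversal compression factor; `k` stands for `|w|^2` -/
noncomputable def fac (ε a k : ℝ) : ℝ :=
  √(2 * prof ε a /
    (k + prof ε a + ε + √((k - prof ε a) ^ 2 + 2 * ε * (k + prof ε a) + ε ^ 2)))

/-- The compression: for `ε > 0` an open embedding of `R4` into itself; for `ε → 0` it converges
to a retraction onto the spine (on the complement of the two open balls of radius `1/5`). -/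
noncomputable def sq (ε : ℝ) (p : R4) : R4 :=
  (1 / 2 + ε * (p.1 - 1 / 2), axc ε p.2.1,
    ((fac ε p.2.1 (Complex.normSq p.2.2) : ℝ) : ℂ) * p.2.2)

section
variable {E : Type*} [NormedAddCommGroup E] [NormedSpace ℝ E] {H : Type*} [TopologicalSpace H]
  (I : ModelWithCorners ℝ E H) {M : Type*} [TopologicalSpace M] [ChartedSpace H M]

/-- `φ` represents the implantation class of the germ `F` along the spine: it is isotopic to the
implantation of the barbell map along `F ∘ sq ε` for all small `ε > 0`. -/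
def Thin (F : R4 → M) (φ : M → M) : Prop :=
  ∃ ε₀ : ℝ, 0 < ε₀ ∧ ∀ ε ∈ Ioo 0 ε₀, EmbOn I (F ∘ sq ε) bsupp ∧
    CIsot I φ (imp (F ∘ sq ε) bsupp barMap)

/-- The cuff of the germ `F` around `(s, c, 0)` bounds a flat ball disjoint from the cuff around
`(s, d, 0)`. -/
def BoundsOff (F : R4 → M) (c d : ℝ) : Prop :=
  ∃ G : R4 → M, EmbOn I G (flat c) ∧ (∀ p ∈ sph c, G p = F p) ∧ Disjoint (G '' flat c) (F '' sph d)

/-- The germ is half split: one cuff bounds a ball disjoint from the other cuff. -/
def HalfSplit (F : R4 → M) : Prop := BoundsOff I F 0 1 ∨ BoundsOff I F 1 0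

/-- The subgroup `N` (as a set of diffeomorphisms closed under isotopy) generated by the
implantations of half split germs. -/
inductive InN : (M → M) → Prop
  | one : InN (fun x => x)
  | gen (F : R4 → M) (φ : M → M) : EmbOn I F SP → HalfSplit I F → Thin I F φ → InN φ
  | mul (φ ψ : M → M) : InN φ → InN ψ → InN (fun x => φ (ψ x))
  | inv (φ ψ : M → M) : InN φ → (∀ x, φ (ψ x) = x) → (∀ x, ψ (φ x) = x) → InN ψ
  | isot (φ ψ : M → M) : InN φ → CIsot I φ ψ → InN ψ

end

end Pool.Agent.Helper18.BI
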