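import Pool.Agent.Helper18.BI.StA

/-!
# Project BI (MP_8e98f2_gt), part (F): the main theorem and the assembly
-/

set_option autoImplicit false

open scoped Manifold ContDiff Topology ComplexConjugate
open Set Pool.Agent.Helper65.Barb

namespace Pool.Agent.Helper18.BI

/-- **MAIN (stage 1), for `R4`.** Two germs along the spine which agree near the two cuffs have the same
implantation class modulo `N`.  (Proved by parts (B), (D).) -/
def StMain : Prop :=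
  ∀ (F F' φ φ' : R4 → R4) (U : Set R4), EmbOn 𝓘(ℝ, R4) F SP → EmbOn 𝓘(ℝ, R4) F' SP →
    IsOpen U → sph 0 ∪ sph 1 ⊆ U → EqOn F F' U → Thin 𝓘(ℝ, R4) F φ → Thin 𝓘(ℝ, R4) F' φ' →
    ∃ n, InN 𝓘(ℝ, R4) n ∧ CIsot 𝓘(ℝ, R4) φ' (fun x => n (φ x))

/-! ### the statement for the 4-sphere -/

/-- The subgroup `N` of the group of diffeomorphisms of the 4-sphere (closed under isotopy), generated by
the implantations of the barbells one of whose cuffs bounds an embedded 3-ball disjoint from the other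
cuff.  The cuffs of `B` are the spheres `B '' sph 0` and `B '' sph 1`; the 3-ball is `δ '' flat c`. -/
inductive NSub : (S4 → S4) → Prop
  | one : NSub (fun x => x)
  | gen (B : PartialDiffeomorph 𝓘(ℝ, R4) (𝓡 4) R4 S4 ∞) (β : R4 → R4) (c d : ℝ)
      (δ : PartialDiffeomorph 𝓘(ℝ, R4) (𝓡 4) R4 S4 ∞) : NB ⊆ B.source → IsBarbellMap β →
      (c = 0 ∧ d = 1 ∨ c = 1 ∧ d = 0) → flat c ⊆ δ.source → (∀ p ∈ sph c, δ p = B p) →
      Disjoint (δ '' flat c) (B '' sph d) → NSub (implantation B β)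
  | mul (φ ψ : S4 → S4) : NSub φ → NSub ψ → NSub (fun x => φ (ψ x))
  | inv (φ ψ : S4 → S4) : NSub φ → (∀ x, φ (ψ x) = x) → (∀ x, ψ (φ x) = x) → NSub ψ
  | isot (φ ψ : S4 → S4) : NSub φ → Isot (𝓡 4) φ ψ → NSub ψ

/-- **BAR INDEPENDENCE modulo `N`.** -/
def StFinal1 : Prop :=
  ∀ (B B' : PartialDiffeomorph 𝓘(ℝ, R4) (𝓡 4) R4 S4 ∞) (β β' : R4 → R4), NB ⊆ B.source →
    NB ⊆ B'.source → IsBarbellMap β → IsBarbellMap β' →
    (∀ p ∈ Shell 0 (1 / 5) ∪ Shell 1 (1 / 5), B' p = B p) →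
    ∃ n, NSub n ∧ Isot (𝓡 4) (implantation B' β') (fun x => n (implantation B β x))

/-! ### realization of a germ by a barbell -/

/-- the function `∫₀ˣ step`: zero for `x ≤ 0`, derivative `step x ∈ [0,1]` -/
noncomputable def ramp (x : ℝ) : ℝ := ∫ t in (0 : ℝ)..x, step t

/-- the axial function: the identity on `[-1/5, 6/5]`, slope `ε` far outside -/
noncomputable def bet (ε a : ℝ) : ℝ :=
  a - (1 - ε) * ε * ramp ((a - 6 / 5) / ε) + (1 - ε) * ε * ramp ((-1 / 5 - a) / ε)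

/-- smooth function equal to `1/25 - a²` for `a ≤ 2/5` and to `1/25 - (a-1)²` for `a ≥ 3/5` -/
noncomputable def uu (a : ℝ) : ℝ :=
  (1 - step (5 * a - 2)) * (1 / 25 - a ^ 2) + step (5 * a - 2) * (1 / 25 - (a - 1) ^ 2)

/-- the transversal factor -/
noncomputable def hh (ε a k : ℝ) : ℝ := √(prof ε a / (k - uu a + prof ε a))

/-- a compression which is exactly the identity on the two core spheres -/
noncomputable def kk (ε : ℝ) : R4 → R4 := tri ε (bet ε) (hh ε)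

/-- squared radius function: the identity for `q ≥ 1/25`, slope `δ` for `q ≤ 1/25 - δ` -/
noncomputable def qq (δ q : ℝ) : ℝ := q + (1 - δ) * δ * ramp ((1 / 25 - q) / δ)

/-- the radial map about `(s, c, 0)` with squared radius function `qq δ` -/
noncomputable def radc (δ c : ℝ) (p : R4) : R4 :=
  (p.1, c + √(qq δ (rsq c p) / rsq c p) * (p.2.1 - c),
    ((√(qq δ (rsq c p) / rsq c p) : ℝ) : ℂ) * p.2.2)

/-- **R0.** The ramp.  Proof. Fundamental theorem of calculus, `step` is smooth (`contDiff_infty_iff_deriv`),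
`0 ≤ step ≤ 1`, `step = 1` on `[1,∞)`: `ramp x ≥ x - 1`. -/
def StR0 : Prop :=
  ContDiff ℝ ∞ ramp ∧ (∀ x, HasDerivAt ramp (step x) x) ∧ (∀ x, x ≤ 0 → ramp x = 0) ∧
    (∀ x, 0 ≤ ramp x) ∧ (∀ x, x - 1 ≤ ramp x) ∧ ∀ x, 0 ≤ x → ramp x ≤ x

/-- **R1.** The exact compression `kk ε`, `0 < ε < 1`.
(i) injective local diffeomorphism; more generally all the maps `(1-t) sq ε + t kk ε`, `t ∈ [0,1]`, and
this homotopy is smooth on `ℝ × R4` (indeed on an open set containing `[0,1] × R4`);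
(ii) `kk ε p = p` on `sph 0 ∪ sph 1`;
(iii) uniform closeness on compact subsets `K` of `Ext`: for every `r > 0` and all small `ε`,
`dist (kk ε p) (sq 0 p) ≤ r` for `p ∈ K`;
(iv) for `p` inside the tubes (`rsq c p ≤ 1/25`, `c = 0, 1`) the squared radius satisfies
`rsq c p ≤ rsq c (kk ε p) ≤ 1/25`.
Proof. Put `u = uu a`, `g = prof ε a`.  `g > max 0 (1/25-a²)`, `g > max 0 (1/25-(a-1)²)`, `uu a` is a convex
combination of the two numbers, so `u < g`, and `k - u + g > 0` for `k ≥ 0` (and on the open set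
`{k > u - g}`).  `bet ε` has derivative `1 - (1-ε) step((a-6/5)/ε) - (1-ε) step((-1/5-a)/ε) ≥ ε > 0`.
`k hh² = k g/(k - u + g)` has `k`-derivative `g (g-u)/(k-u+g)² > 0` and equals... so
`hh (hh + 2 k hh') > 0`.  `S0` applies to `kk ε` and, by convexity of its hypotheses (with
`S1`, `S2`: `sq ε = tri ε (axc ε) (fac ε)`), to `(1-t) sq ε + t kk ε = tri ε ((1-t) axc ε + t bet ε)
((1-t) fac ε + t hh ε)`.  (ii) on `sph 0`: `|a| ≤ 1/5`, `k = 1/25 - a² = u`, so `hh = √(g/g) = 1`,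
`bet ε a = a`; same on `sph 1`.  (iii) let `c(a)` be the clamp; `|bet ε a - c(a)| ≤ C ε` on bounded sets
(for `a ≥ 6/5`: `ramp x ≥ x - 1` gives `6/5 ≤ bet ε a ≤ a - (1-ε)(a - 6/5) + ε ≤ 6/5 + C ε`).  The third
component is a nonnegative multiple of `w`, with squared norm `X = k g/(k-u+g)`; on `Ext` we have
`k ≥ max 0 u =: u₊` (as `k ≥ 1/25 - a²` and `k ≥ 1/25-(a-1)²`), hence `u₊ ≤ X ≤ g` (`X` is increasing in `k`,
`X = u` at `k = u`; `X ≥ 0`; `X ≤ g` as `k ≤ k - u + g`); and `prof ε a - prof 0 a ≤ ε`,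
`prof 0 a = u₊` where `|a| ≤ 1/5` or `|a-1| ≤ 1/5`, `prof 0 a = 0` elsewhere.  The third component of
`sq 0 p` is the nonnegative multiple of `w` with squared norm `prof 0 a` (`S4`), and
`|√X - √Y| ≤ √|X - Y| ≤ √ε`.  (iv) `|a| ≤ 1/5`, `k ≤ u`: `a` unchanged, `k ≤ X ≤ u` (the factor
`g/(k-u+g) ≥ 1`; monotone in `k`). -/
def StR1 : Prop :=
  (∀ ε ∈ Ioo (0 : ℝ) 1, ContDiff ℝ ∞ (kk ε) ∧
    ContDiff ℝ ∞ (fun q : ℝ × R4 => (1 - q.1) • sq ε q.2 + q.1 • kk ε q.2) ∧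
    ∀ t ∈ Icc (0 : ℝ) 1, EmbOn 𝓘(ℝ, R4) (fun p => (1 - t) • sq ε p + t • kk ε p) univ) ∧
  (∀ ε ∈ Ioo (0 : ℝ) 1, ∀ p ∈ sph 0 ∪ sph 1, kk ε p = p) ∧
  (∀ K : Set R4, IsCompact K → K ⊆ Ext → ∀ r > 0, ∃ ε₀ > 0, ∀ ε ∈ Ioo 0 ε₀, ∀ p ∈ K,
    dist (kk ε p) (sq 0 p) ≤ r) ∧
  ∀ ε ∈ Ioo (0 : ℝ) 1, ∀ p : R4,
    (rsq 0 p ≤ 1 / 25 → rsq 0 p ≤ rsq 0 (kk ε p) ∧ rsq 0 (kk ε p) ≤ 1 / 25) ∧
    (rsq 1 p ≤ 1 / 25 → rsq 1 p ≤ rsq 1 (kk ε p) ∧ rsq 1 (kk ε p) ≤ 1 / 25)

/-- **R2.** The radial maps, `0 < δ < 1/100`, `c ∈ {0, 1}`.  `radc δ c` is an injective local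
diffeomorphism on `{rsq c p > 0}`; it is the identity for `rsq c p ≥ 1/25`; `rsq c (radc δ c p) = qq δ (rsq c p)`,
which lies in `[1/25 - 2δ, 1/25]` for `(3/20)² ≤ rsq c p ≤ 1/25`.
Proof. `qq δ` has derivative `1 - (1-δ) step((1/25-q)/δ) ∈ [δ, 1]`, is `≥ q > 0`, is the identity for
`q ≥ 1/25`; `m(q) = √(qq δ q / q)` satisfies `m > 0`, `m² q = qq δ q`, `m (m + 2 q m') = (qq δ)' > 0`; the
derivative of `x ↦ m(|x|²) x` in direction `v` is `m v + 2 m' ⟨x,v⟩ x`, injective as in `S0`; use `A0`.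
Injective: the squared radius `qq δ q` determines `q`, then `x` is determined.  Estimate: `ramp x ≥ x - 1`
gives `qq δ q ≥ q + (1-δ)(1/25 - q - δ) ≥ 1/25 - δ - δ/25`. -/
def StR2 : Prop :=
  ∀ δ ∈ Ioo (0 : ℝ) (1 / 100), ∀ c : ℝ,
    EmbOn 𝓘(ℝ, R4) (radc δ c) {p | 0 < rsq c p} ∧
    (∀ p, 1 / 25 ≤ rsq c p → radc δ c p = p) ∧
    (∀ p, 0 < rsq c p → rsq c (radc δ c p) = qq δ (rsq c p) ∧ rsq c p ≤ rsq c (radc δ c p)) ∧
    ∀ p, (3 / 20) ^ 2 ≤ rsq c p → rsq c p ≤ 1 / 25 →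
      1 / 25 - 2 * δ ≤ rsq c (radc δ c p) ∧ rsq c (radc δ c p) ≤ 1 / 25

/-- **R3.** Realization: every germ class is the class of a barbell with the same core spheres.
Proof. `A1`: an open `V ⊇ SP` on which `F` is injective and locally diffeomorphic.  `SP` is compact, so for
small `δ` the compact set `C_δ = {p | p.1 = 1/2, 1/25-2δ ≤ rsq 0 p ≤ 1/25} ∪ (same with rsq 1) ∪ SP` and its
closed `r`-neighbourhood are in `V` for some `r > 0`.  Let `E = radc δ 0 ∘ radc δ 1` (they have disjoint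
supports `rsq c p < 1/25`): injective local diffeomorphism on `NB`, identity on `Ext`.
`κ = kk ε ∘ E`.  For `p ∈ NB ∩ Ext`: `κ p = kk ε p` is within `r` of `sq 0 p ∈ SP` (`R1` (iii)).  For `p ∈ NB` with
`rsq 0 p < 1/25`: `E p` has `1/25 - 2δ ≤ rsq 0 (E p) ≤ 1/25`, and `κ p` also by `R1` (iv), with first
coordinate within `ε` of `1/2`: within `2 ε` of `C_δ`.  So `κ(NB) ⊆ V` for small `ε`, `F ∘ κ` is `EmbOn NB`;
`A1` gives `B` with `B = F ∘ κ` near `NB`.  On `sph 0 ∪ sph 1`: `E p = p` and `kk ε p = p`, so `B p = F p`.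
`push B barMap = imp B NB barMap = imp (F ∘ kk ε) bsupp barMap` (`StImp`, `E = id` on `bsupp`).  For `t ∈ [0,1]`,
`p ∈ bsupp` the point `(1-t) sq ε p + t kk ε p` is within `r` of `sq 0 p` (both ends are, `S3`), hence in `V`:
`F ∘ ((1-t) sq ε + t kk ε)` is a family of germs along `bsupp` by `R1` (i), and `A3` gives
`CIsot (imp (F ∘ sq ε) bsupp barMap) (imp (F ∘ kk ε) bsupp barMap)`; with `Thin` this proves the claim. -/
def StR3 : Prop :=
  ∀ (E : Type) [NormedAddCommGroup E] [NormedSpace ℝ E] (H : Type) [TopologicalSpace H]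
    (I : ModelWithCorners ℝ E H) (M : Type) [TopologicalSpace M] [ChartedSpace H M] [T2Space M]
    (F : R4 → M) (φ : M → M), EmbOn I F SP → Thin I F φ →
    ∃ B : PartialDiffeomorph 𝓘(ℝ, R4) I R4 M ∞, NB ⊆ B.source ∧ (∀ p ∈ sph 0 ∪ sph 1, B p = F p) ∧
      CIsot I φ (push B barMap)

/-- **F1.** `N` at the level of germs is `N` at the level of barbells.
Proof. Induction on `InN`.  `gen`: `R3` gives `B`; the ball `G` of `BoundsOff` gives by `A1` a partial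
diffeomorphism `δ` with `flat c ⊆ δ.source`, `δ = G = F = B` on `sph c`, and
`δ '' flat c = G '' flat c` is disjoint from `F '' sph d = B '' sph d`.  `implantation B barMap = push B barMap`
(`implantation_eq_push`, `isBarbellMap_barMap`), `CIsot → Isot`. -/
def StF1 : Prop := ∀ φ : S4 → S4, InN (𝓡 4) φ → NSub φ

/-- **F2.** The assembly: `StMain` implies the theorem for the 4-sphere.
Proof. `T4`: `B`, `B'` are `EmbOn SP`, `Thin B (implantation B β)`, `Thin B' (implantation B' β')`.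
`X2` gives `c` with `B(SP), B'(SP) ⊆ c(R4)`; `X3` gives the germs `F = c⁻¹ ∘ B`, `F' = c⁻¹ ∘ B'` along `SP`,
`c ∘ F = B`, `c ∘ F' = B'` near `SP`.  They agree on the interior of the two shells, an open set containing
`sph 0 ∪ sph 1`.  Choose `φ, φ'` with `Thin F φ`, `Thin F' φ'` (`T2` (i)); `StMain` gives `n` with
`CIsot φ' (n ∘ φ)`.  By `X1`, `T2` (v): `Thin B (imp c univ φ)`, so `imp c univ φ` is isotopic to
`implantation B β` (`T2` (ii)), same for `B'`; `imp c univ φ'` is isotopic to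
`imp c univ n ∘ imp c univ φ`, and `imp c univ n` is in `N` (`X1`), so in `NSub` (`F1`). -/
def StF2 : Prop := StMain → StFinal1

end Pool.Agent.Helper18.BI
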