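import Pool.Agent.Helper18.BI.StFr

/-!
# Project BI (MP_8e98f2_gt): homotopic loops give the same class
-/

set_option autoImplicit false

open scoped Manifold ContDiff Topology ComplexConjugate
open Set Pool.Agent.Helper65.Barb

namespace Pool.Agent.Helper18.BI

namespace FR4

private theorem homOK_rev {Γ : ℝ × ℝ → E3} (h : HomOK Γ) : HomOK (fun q => Γ (1 - q.1, q.2)) := by
  obtain ⟨h1, h2, δ, hδ, h3⟩ := h
  refine ⟨?_, ?_, δ, hδ, ?_⟩
  · exact h1.comp ((contDiff_const.sub contDiff_fst).prodMk contDiff_snd)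
  · intro t ht a v hv
    exact h2 (1 - t) ⟨by linarith [ht.2], by linarith [ht.1]⟩ a v hv
  · intro t a ha
    exact h3 (1 - t) a ha

private theorem step (f1 : StFr1) (t2 : StT2) (F : R4 → R4) (φ : R4 → R4)
    (hF : EmbOn 𝓘(ℝ, R4) F SP) (Γ : ℝ × ℝ → E3) (h : HomOK Γ)
    (hT : Thin 𝓘(ℝ, R4) (fun p => F (fib (fun a => Γ (0, a)) p)) φ) :
    Thin 𝓘(ℝ, R4) (fun p => F (fib (fun a => Γ (1, a)) p)) φ :=
  (t2 R4 R4 𝓘(ℝ, R4) R4).2.2.1 (fun q => F (fib (fun a => Γ (q.1, a)) q.2)) φ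
    (f1.2 Γ F h hF) hT

end FR4

open FR4 in
theorem m_Fr4 (f1 : StFr1) (t2 : StT2) : StFr4 := by
  intro F G G' φ hF hG
  induction hG with
  | refl => exact Iff.rfl
  | tail _ hstep ih =>
    obtain ⟨Γ, h, h0, h1⟩ := hstep
    refine ih.trans ?_
    have e0 := funext h0
    have e1 := funext h1
    rw [← e0, ← e1]
    refine ⟨step f1 t2 F φ hF Γ h, fun hT => ?_⟩
    have := step f1 t2 F φ hF (fun q => Γ (1 - q.1, q.2)) (homOK_rev h)
    simp only [sub_zero, sub_self] at this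
    exact this hT

end Pool.Agent.Helper18.BI
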