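import Pool.Agent.Helper18.BI.StA

/-! # Module S6 of project BI: the homotopy of compressions -/

set_option autoImplicit false

open scoped Manifold ContDiff Topology ComplexConjugate
open Set Pool.Agent.Helper65.Barb

namespace Pool.Agent.Helper18.BI

private theorem hom_eq_tri (ε t : ℝ) (p : R4) :
    hom ε (t, p) = tri ((1 - t) * ε + t) (fun a => (1 - t) * axc ε a + t * a)
      (fun a k => (1 - t) * fac ε a k + t) p := by
  unfold hom tri sq
  refine Prod.ext ?_ (Prod.ext ?_ ?_)
  · simp only [Prod.fst_add, Prod.smul_fst, smul_eq_mul]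
    ring
  · simp only [Prod.snd_add, Prod.fst_add, Prod.smul_snd, Prod.smul_fst, smul_eq_mul]
  · simp only [Prod.snd_add, Prod.smul_snd, Complex.real_smul]
    push_cast
    ring

private theorem emb_aux (h0 : StS0) (h1 : StS1) (h2 : StS2) (ε : ℝ) (hε : 0 < ε) (t : ℝ)
    (ht : t ∈ Icc (0 : ℝ) 1) :
    EmbOn 𝓘(ℝ, R4) (tri ((1 - t) * ε + t) (fun a => (1 - t) * axc ε a + t * a)
      (fun a k => (1 - t) * fac ε a k + t)) univ := by
  obtain ⟨h2a, h2b, h2c, -⟩ := h2
  obtain ⟨hax, d, hd⟩ := h2b ε hε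
  obtain ⟨O, hO, hO1, hO2⟩ := h2c ε hε
  have ht0 : 0 ≤ t := ht.1
  have ht1 : 0 ≤ 1 - t := by linarith [ht.2]
  have key : ∀ x : ℝ, 0 < x → 0 < (1 - t) * x + t := by
    intro x hx
    rcases eq_or_lt_of_le ht0 with h | h
    · rw [← h]; simpa using hx
    · have := mul_nonneg ht1 hx.le
      linarith
  refine h0 ((1 - t) * ε + t) (fun a => (1 - t) * axc ε a + t * a) (fun a => (1 - t) * d a + t)
    (fun a k => (1 - t) * fac ε a k + t) (fun a k => (1 - t) * deriv (ff ε (prof ε a)) k) O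
    (key ε hε) ?_ ?_ ?_ hO hO1 ?_ ?_ ?_
  · exact (contDiff_const.mul hax).add (contDiff_const.mul contDiff_id)
  · intro a
    have h : HasDerivAt (fun a => (1 - t) * axc ε a + t * a) ((1 - t) * d a + t * 1) a :=
      ((hd a).1.const_mul (1 - t)).add ((hasDerivAt_id a).const_mul t)
    rw [mul_one] at h
    exact h
  · intro a
    exact key _ (hd a).2
  · exact (contDiffOn_const.mul hO2).add contDiffOn_const
  · intro a k hk
    obtain ⟨-, -, -, -, d', hd', -⟩ := h1 ε (prof ε a) k hε (h2a ε a hε) hk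
    have h := (hd'.const_mul (1 - t)).add_const t
    rw [hd'.deriv]
    exact h
  · intro a k hk
    obtain ⟨hpos, -, -, -, d', hd', hpos'⟩ := h1 ε (prof ε a) k hε (h2a ε a hε) hk
    rw [hd'.deriv]
    refine ⟨key _ hpos, ?_⟩
    have h := key _ hpos'
    have e : (1 - t) * fac ε a k + t + 2 * k * ((1 - t) * d') =
        (1 - t) * (ff ε (prof ε a) k + 2 * k * d') + t := by
      have : fac ε a k = ff ε (prof ε a) k := rfl
      rw [this]; ring
    rw [e]
    exact h

/-- **S6.** -/
theorem m_S6 (h0 : StS0) (h1 : StS1) (h2 : StS2) : StS6 := by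
  refine ⟨?_, ?_, ?_⟩
  · intro ε hε
    have h := emb_aux h0 h1 h2 ε hε 0 ⟨le_refl _, zero_le_one⟩
    have e : sq ε = tri ((1 - 0) * ε + 0) (fun a => (1 - 0) * axc ε a + 0 * a)
        (fun a k => (1 - 0) * fac ε a k + 0) := by
      funext p
      rw [← hom_eq_tri]
      simp [hom]
    rw [e]
    exact h
  · intro ε hε
    have hs : ContDiff ℝ ∞ (fun p : R4 => sq ε p) := by
      have h := h2.2.2.2
      have h3 : ContDiff ℝ ∞ (fun p : R4 => ((ε, p) : ℝ × R4)) := contDiff_const.prodMk contDiff_id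
      have h4 : ContDiffOn ℝ ∞ ((fun q : ℝ × R4 => sq q.1 q.2) ∘ fun p : R4 => ((ε, p) : ℝ × R4)) univ :=
        h.comp h3.contDiffOn (fun p _ => ⟨hε, mem_univ _⟩)
      exact contDiffOn_univ.1 h4
    unfold hom
    exact ((contDiff_const.sub contDiff_fst).smul (hs.comp contDiff_snd)).add
      (contDiff_fst.smul contDiff_snd)
  · intro ε hε t ht
    have h := emb_aux h0 h1 h2 ε hε t ht
    have e : (fun p => hom ε (t, p)) = tri ((1 - t) * ε + t) (fun a => (1 - t) * axc ε a + t * a)
        (fun a k => (1 - t) * fac ε a k + t) := by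
      funext p
      exact hom_eq_tri ε t p
    rw [e]
    exact h

end Pool.Agent.Helper18.BI
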