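import Pool.Agent.Helper18.BI.StA

/-!
# Project BI (MP_8e98f2_gt): the framing lemma

Two germs along the spine which agree near the two cuffs and on the neck have the same class.
-/

set_option autoImplicit false

open scoped Manifold ContDiff Topology ComplexConjugate
open Set Pool.Agent.Helper65.Barb

namespace Pool.Agent.Helper18.BI

/-- continuous linear endomorphisms of the normal space of the neck, coordinates `(s - 1/2, w)` -/
abbrev E3 : Type := (ℝ × ℂ) →L[ℝ] (ℝ × ℂ)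

/-- A smooth loop of invertible linear maps, equal to the identity near the ends of the neck (and outside).
-/
def LoopOK (G : ℝ → E3) : Prop :=
  ContDiff ℝ ∞ G ∧ (∀ a v, G a v = 0 → v = 0) ∧
    ∃ δ > 0, ∀ a, (a ≤ 1 / 5 + δ ∨ 4 / 5 - δ ≤ a) → G a = ContinuousLinearMap.id ℝ (ℝ × ℂ)

/-- A smooth homotopy of such loops (time in the first variable). -/
def HomOK (Γ : ℝ × ℝ → E3) : Prop :=
  ContDiff ℝ ∞ Γ ∧ (∀ t ∈ Icc (0 : ℝ) 1, ∀ a v, Γ (t, a) v = 0 → v = 0) ∧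
    ∃ δ > 0, ∀ t a, (a ≤ 1 / 5 + δ ∨ 4 / 5 - δ ≤ a) →
      Γ (t, a) = ContinuousLinearMap.id ℝ (ℝ × ℂ)

/-- finite chains of homotopies -/
def LoopHom : (ℝ → E3) → (ℝ → E3) → Prop :=
  Relation.ReflTransGen fun G G' =>
    ∃ Γ, HomOK Γ ∧ (∀ a, Γ (0, a) = G a) ∧ ∀ a, Γ (1, a) = G' a

/-- the fibrewise linear map of `R4` given by a loop -/
noncomputable def fib (G : ℝ → E3) (p : R4) : R4 :=
  (1 / 2 + (G p.2.1 (p.1 - 1 / 2, p.2.2)).1, p.2.1, (G p.2.1 (p.1 - 1 / 2, p.2.2)).2)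

/-- the loop of rotations of the coordinate `w` by the angle `om a` -/
noncomputable def rotL (om : ℝ → ℝ) (a : ℝ) : E3 :=
  (ContinuousLinearMap.id ℝ ℝ).prodMap
    (Complex.exp (om a * Complex.I) • ContinuousLinearMap.id ℝ ℂ)

/-- an angle function: `0` near and before `a = 1/5`, `2πk` near and after `a = 4/5` -/
def AngleOK (om : ℝ → ℝ) (k : ℤ) : Prop :=
  ContDiff ℝ ∞ om ∧ ∃ δ > 0, (∀ a, a ≤ 1 / 5 + δ → om a = 0) ∧
    ∀ a, 4 / 5 - δ ≤ a → om a = 2 * Real.pi * k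

/-- **Fr1.** Loops and homotopies of loops give families of germs.
(i) `fib G` is an injective local diffeomorphism of `R4`; (ii) it fixes `SP` pointwise and is the identity
for `a ≤ 1/5 + δ`, `a ≥ 4/5 - δ`; (iii) for a homotopy `Γ` and a germ `F` along `SP` the maps
`F ∘ fib Γ_t` form a family along `SP`.
Proof. (i) injective: `a` is preserved and `G a` is injective; derivative at `(s,a,w)` in direction
`(σ,α,v)`: the middle component is `α`; if it is `0` the others are `G a (σ, v)`, zero only for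
`(σ,v) = 0`; use `A0`.  (ii) for `p ∈ neck`, `(s - 1/2, w) = 0`; for `p ∈ sph 0`, `a ≤ 1/5`; for `p ∈ sph 1`,
`a ≥ 4/5`.  (iii) `A0` shows that `p ↦ fib Γ_t p` is a local diffeomorphism for each `t ∈ [0,1]`; smooth
jointly; it fixes `SP`, so `F ∘ fib Γ_t` is `EmbOn SP` (`IsLocalDiffeomorphAt.comp`); smooth on the open set
`{(t,p) | fib Γ_t p ∈ U}`, `U` an open set containing `SP` on which `F` is smooth. -/
def StFr1 : Prop :=
  (∀ G : ℝ → E3, LoopOK G → EmbOn 𝓘(ℝ, R4) (fib G) univ ∧ ContDiff ℝ ∞ (fib G) ∧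
    (∀ p ∈ SP, fib G p = p) ∧
    ∃ δ > 0, ∀ p : R4, (p.2.1 ≤ 1 / 5 + δ ∨ 4 / 5 - δ ≤ p.2.1) → fib G p = p) ∧
  ∀ (Γ : ℝ × ℝ → E3) (F : R4 → R4), HomOK Γ → EmbOn 𝓘(ℝ, R4) F SP →
    FamOn 𝓘(ℝ, R4) (fun q => F (fib (fun a => Γ (q.1, a)) q.2)) SP

/-- **Fr2a.** Every loop is homotopic to one fixing the first basis vector `(1, 0)`.
Proof. For `u, v ∈ ℝ × ℂ` (with the Euclidean inner product `⟨x,y⟩ = x.1 y.1 + Re (x.2 conj y.2)` and the
norm `|x| = √⟨x,x⟩`), linearly independent, put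
`ℓ(x) = ⟨x, u/|u| + v/|v|⟩ / (|u| + ⟨u,v⟩/|v|)` (denominator `> 0`), so `ℓ(u) = 1`, `ℓ(v) > 0`, and
`A(τ,u,v) x = x + τ ℓ(x) (v - u)`.  `A(τ,u,v) u = (1-τ) u + τ v`, and `A` is invertible for `τ ∈ [0,1]`:
if `x + τ ℓ(x)(v-u) = 0` then applying `ℓ`: `ℓ(x) (1 - τ + τ ℓ(v)) = 0`, so `ℓ(x) = 0`, `x = 0`.
Let `u(a) = G a (1,0) ≠ 0`.  The image of `(r, a) ↦ r • u(a)`, `ℝ × ℝ → ℝ × ℂ`, is a null set
(`Pool.Agent.Helper34.BI.null_image`, dimensions `2 < 3`), so there is `n` not in it: `n` is linearly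
independent of every `u(a)`, in particular of `e = (1,0)`.  Let `G = 1` for `a ≤ 1/5+δ` and `a ≥ 4/5-δ`; let
`χ` be smooth, `χ = 0` for `a ≤ 1/5+δ/3`, `a ≥ 4/5-δ/3`, `χ = 1` on `[1/5+2δ/3, 4/5-2δ/3]`, values in
`[0,1]` (products of `step`s; `δ ≤ 1/10` without loss of generality).
First homotopy: `Γ₁(t,a) = A(t χ(a), u(a), n) ∘ G a`.  At `t = 1` its first column is
`(1-χ) u + χ n = (1-χ) e + χ n` for all `a` (where `χ < 1` we have `G a = 1`, `u = e`).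
Second homotopy: `G₂ a = A(χ(a), e, n)⁻¹ ∘ Γ₁(1,a)` has first column `e`
(`A(τ,u,v)⁻¹ x = x - τ ℓ(x) (v-u) / (1 - τ + τ ℓ(v))`), and `Γ₂(t,a) = A((1-t) χ(a), e, n) ∘ G₂ a` joins
`Γ₁(1,·)` to `G₂`.  Everything is smooth on `ℝ × ℝ` (polynomial in `τ`; `|u(a)| ≠ 0`) and the identity near the
ends. -/
def StFr2a : Prop :=
  ∀ G : ℝ → E3, LoopOK G → ∃ G' : ℝ → E3, LoopOK G' ∧ LoopHom G G' ∧ ∀ a, G' a (1, 0) = (1, 0)

/-- **Fr2b.** A loop fixing the first basis vector is homotopic to a loop of rotations of `w`.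
Proof. `G a (σ, v) = (σ + λ_a v, g_a v)`; first homotopy `Γ(t,a)(σ,v) = (σ + (1-t) λ_a v, g_a v)`, invertible
because `g_a` is injective (if `g_a v = 0` then `G a (-λ_a v, v) = 0`).
`g_a z = α(a) z + β(a) conj z` with `α = (g(1) - i g(i))/2`, `β = (g(1) + i g(i))/2`; `g_a` is injective iff
`|α| ≠ |β|` (if `|α| = |β|`, choose `z = √` such that `α z = -β conj z`: explicitly `z = conj(√(..))`; or:
the determinant of `g_a` is `|α|² - |β|²`, `= Re g(1) Im g(i) - Im g(1) Re g(i)`, and a nonzero kernel vector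
exists if it vanishes: `z = conj(..)`, e.g. `z = -Re g(i) + i Re g(1)` or `z = -Im g(i) + i Im g(1)` or `z = 1`),
and `|α|² - |β|² = 1` at `a = 0`; by the intermediate value theorem `|α|² - |β|² > 0` for all `a`.
Second homotopy: `α z + (1-t) β conj z`.  Now `α : ℝ → ℂ` is smooth, nowhere zero, `1` for `a ≤ 1/5+δ`,
`a ≥ 4/5-δ`.  `η(a) = ∫_0^a α'/α` is smooth, `exp η = α` (the derivative of `α exp(-η)` vanishes, value `1` at
`0`), `η = 0` for `a ≤ 1/5+δ`, `η` is constant for `a ≥ 4/5-δ` with `exp η = 1`, so `η = 2πik` there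
(`Complex.exp_eq_one_iff`).  Third homotopy: `α_t = exp((1-t) Re η + i Im η)`; `om = Im η`. -/
def StFr2b : Prop :=
  ∀ G : ℝ → E3, LoopOK G → (∀ a, G a (1, 0) = (1, 0)) →
    ∃ (om : ℝ → ℝ) (k : ℤ), AngleOK om k ∧ LoopHom G (rotL om)

/-- **Fr3.** Rotations are absorbed by rotating the second cuff.
Proof. `Θ (t, (s,a,w)) = (s, a, exp(i t om(a)) w)`, smooth on `ℝ × R4`; each `Θ_t` is a bijection of `R4` with
invertible derivative, mapping `SP` onto itself: `om = 0` on `sph 0`; `w = 0` on the neck; on `sph 1`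
(`a ≥ 4/5`) it is the rotation of `w` by `2πkt`, which preserves `rsq 1`.  So `J (t, p) = F (Θ (t, p))` is a family
along `SP` from `F` to `F ∘ Θ_1 = F ∘ fib (rotL om)`; use `T2` (iii) in both directions (`t ↦ 1 - t`). -/
def StFr3 : Prop :=
  ∀ (F : R4 → R4) (om : ℝ → ℝ) (k : ℤ) (φ : R4 → R4), EmbOn 𝓘(ℝ, R4) F SP → AngleOK om k →
    (Thin 𝓘(ℝ, R4) (fun p => F (fib (rotL om) p)) φ ↔ Thin 𝓘(ℝ, R4) F φ)

/-- **Fr4.** Homotopic loops give the same class.  Proof. `Fr1` (iii) and `T2` (iii), both directions;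
induction on the chain. -/
def StFr4 : Prop :=
  ∀ (F : R4 → R4) (G G' : ℝ → E3) (φ : R4 → R4), EmbOn 𝓘(ℝ, R4) F SP → LoopHom G G' →
    (Thin 𝓘(ℝ, R4) (fun p => F (fib G p)) φ ↔ Thin 𝓘(ℝ, R4) (fun p => F (fib G' p)) φ)

/-- **Fr5.** Reduction of two germs with the same neck to a loop.
Proof. Put `p_a = (1/2, a, 0)`.  There is `r > 0` such that `F` and `F'` are smooth with invertible derivative
near `p_a` for `a ∈ (1/5 - r, 4/5 + r)`, and `F = F'` near `p_a` for `|a - 1/5| < r` and `|a - 4/5| < r`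
(`U` is open and contains the feet; `EmbOn`, `A0`, compactness).  Let `A_a = DF(p_a)`, `A'_a = DF'(p_a)`,
`B_a = A_a⁻¹ A'_a`.  For `a` in `(1/5, 4/5)` differentiating `F = F'` along the neck gives
`A_a (0,1,0) = A'_a (0,1,0)`, so `B_a (0,1,0) = (0,1,0)`; near the ends `B_a = 1`.
`B_a (σ, α, v) = (m₁, α + b_a(σ,v), m₂)` with `(m₁, m₂) = M_a (σ, v)`; `M_a` is injective because `B_a` is and
`B_a(0,1,0) = (0,1,0)`.  `G a = M_a` for `a ∈ [1/5,4/5]` and `1` otherwise is a `LoopOK` (smooth: `a ↦ A_a`, `A'_a`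
are smooth on the open interval, inversion is smooth, and `M_a = 1` near `1/5` and `4/5`).
`F'' = F ∘ fib G` agrees with `F'` on `SP` (`Fr1` (ii)), near the two cuffs `F'' = F = F'`, and at `p_a`:
`DF''(p_a)(σ,α,v) = A_a (M_a(σ,v), α)` and `DF'(p_a)(σ,α,v) = A_a (M_a(σ,v), α + b_a(σ,v))` (in the notation
with `α` as second entry), so the convex combinations are
`A_a (M_a(σ,v), α + t b_a(σ,v))`, injective.  `T8`. -/
def StFr5 : Prop :=
  ∀ (F F' : R4 → R4) (U : Set R4), EmbOn 𝓘(ℝ, R4) F SP → EmbOn 𝓘(ℝ, R4) F' SP → IsOpen U →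
    sph 0 ∪ sph 1 ⊆ U → EqOn F F' U → EqOn F F' neck →
    ∃ G : ℝ → E3, LoopOK G ∧ ∀ φ, (Thin 𝓘(ℝ, R4) (fun p => F (fib G p)) φ ↔ Thin 𝓘(ℝ, R4) F' φ)

/-- **THE FRAMING LEMMA.**  Proof. `Fr5`, `Fr2a`, `Fr2b`, `Fr4`, `Fr3`. -/
def StFr : Prop :=
  ∀ (F F' : R4 → R4) (U : Set R4), EmbOn 𝓘(ℝ, R4) F SP → EmbOn 𝓘(ℝ, R4) F' SP → IsOpen U →
    sph 0 ∪ sph 1 ⊆ U → EqOn F F' U → EqOn F F' neck →
    ∀ φ, (Thin 𝓘(ℝ, R4) F φ ↔ Thin 𝓘(ℝ, R4) F' φ)

theorem stFr_of (f2a : StFr2a) (f2b : StFr2b) (f3 : StFr3) (f4 : StFr4) (f5 : StFr5) : StFr := by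
  intro F F' U hF hF' hU hs he hn φ
  obtain ⟨G, hG, h5⟩ := f5 F F' U hF hF' hU hs he hn
  obtain ⟨G₂, hG₂, h2, he₂⟩ := f2a G hG
  obtain ⟨om, k, hom, h2b⟩ := f2b G₂ hG₂ he₂
  exact ((f3 F om k φ hF hom).symm.trans ((f4 F G (rotL om) φ hF (h2.trans h2b)).symm)).trans (h5 φ)

end Pool.Agent.Helper18.BI
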